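import Pool.Agent.helper95.GMC.Defs

/-!
Elementary properties of the covariance kernels `K k`.
-/

open MeasureTheory ProbabilityTheory Filter Topology Set
open scoped ENNReal NNReal

namespace Pool.Agent.helper95.GMC

lemma lam_pos : 0 < Real.log 2 := Real.log_pos one_lt_two

lemma lam_lt_one : Real.log 2 < 1 := by
  have := Real.log_two_lt_d9; linarith

lemma half_lt_lam : 1 / 2 < Real.log 2 := by
  have := Real.log_two_gt_d9; linarith

lemma pow_inv_pos (k : ℕ) : (0 : ℝ) < (2 ^ k)⁻¹ := by positivity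

lemma pow_inv_le_one (k : ℕ) : ((2 : ℝ) ^ k)⁻¹ ≤ 1 := by
  rw [inv_le_one₀ (by positivity)]
  exact one_le_pow₀ (by norm_num)

lemma log_pow_inv (k : ℕ) : - Real.log ((2 ^ k)⁻¹) = k * Real.log 2 := by
  rw [Real.log_inv, Real.log_pow]; ring

lemma K_abs (k : ℕ) (z : ℝ) : K k |z| = K k z := by
  unfold K; rw [abs_abs]

lemma K_neg (k : ℕ) (z : ℝ) : K k (-z) = K k z := by
  unfold K; rw [abs_neg]

lemma K_sub_comm (k : ℕ) (x y : ℝ) : K k (x - y) = K k (y - x) := by
  rw [← K_neg, neg_sub]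

lemma K_of_le {k : ℕ} {z : ℝ} (h : |z| ≤ (2 ^ k)⁻¹) :
    K k z = 1 + k * Real.log 2 - 2 ^ k * |z| := by
  unfold K; rw [if_pos h]

lemma K_zero (k : ℕ) : K k 0 = 1 + k * Real.log 2 := by
  rw [K_of_le (by simp)]; simp

/-- the two formulas agree at the boundary, so the second one holds for `≥` -/
lemma K_of_ge {k : ℕ} {z : ℝ} (h : (2 ^ k)⁻¹ ≤ |z|) (h1 : |z| ≤ 1) :
    K k z = - Real.log |z| := by
  rcases h.eq_or_lt with h | h
  · rw [K_of_le h.ge, ← h, log_pow_inv]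
    have : (2 : ℝ) ^ k * (2 ^ k)⁻¹ = 1 := mul_inv_cancel₀ (by positivity)
    rw [this]; ring
  · unfold K
    rw [if_neg (not_le.2 h), if_pos h1]

lemma K_of_one_le {k : ℕ} {z : ℝ} (h : 1 ≤ |z|) : K k z = 0 := by
  rcases h.eq_or_lt with h | h
  · rw [K_of_ge (h ▸ pow_inv_le_one k) h.ge, ← h]; simp
  · unfold K
    rw [if_neg, if_neg (not_le.2 h)]
    exact not_le.2 ((pow_inv_le_one k).trans_lt h)

/-- every layer with index larger than `k` has range `2 ^ (-k)` -/
lemma K_eq_of_ge {j k : ℕ} (hjk : j ≤ k) {z : ℝ} (h : (2 ^ j)⁻¹ ≤ |z|) : K k z = K j z := by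
  rcases le_total |z| 1 with h1 | h1
  · rw [K_of_ge h h1, K_of_ge _ h1]
    refine le_trans ?_ h
    exact inv_anti₀ (by positivity) (pow_le_pow_right₀ (by norm_num) hjk)
  · rw [K_of_one_le h1, K_of_one_le h1]

lemma log_le_sub (z : ℝ) (hz : 0 < z) (k : ℕ) : 1 + k * Real.log 2 - 2 ^ k * z ≤ - Real.log z := by
  have h := Real.log_le_sub_one_of_pos (show 0 < 2 ^ k * z by positivity)
  rw [Real.log_mul (by positivity) hz.ne', Real.log_pow] at h
  linarith

lemma K_nonneg (k : ℕ) (z : ℝ) : 0 ≤ K k z := by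
  by_cases h : |z| ≤ (2 ^ k)⁻¹
  · rw [K_of_le h]
    have h1 : (2 : ℝ) ^ k * |z| ≤ 1 := by
      calc (2 : ℝ) ^ k * |z| ≤ 2 ^ k * (2 ^ k)⁻¹ := by gcongr
        _ = 1 := mul_inv_cancel₀ (by positivity)
    have := lam_pos
    have : (0 : ℝ) ≤ k * Real.log 2 := by positivity
    linarith
  · rcases le_total |z| 1 with h1 | h1
    · rw [K_of_ge (not_le.1 h).le h1]
      have := Real.log_nonpos (abs_nonneg z) h1
      linarith
    · rw [K_of_one_le h1]

lemma K_le_K_zero (k : ℕ) (z : ℝ) : K k z ≤ 1 + k * Real.log 2 := by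
  by_cases h : |z| ≤ (2 ^ k)⁻¹
  · rw [K_of_le h]
    have : 0 ≤ (2 : ℝ) ^ k * |z| := by positivity
    linarith
  · rcases le_total |z| 1 with h1 | h1
    · rw [K_of_ge (not_le.1 h).le h1, ← log_pow_inv]
      have := Real.log_le_log (pow_inv_pos k) (not_le.1 h).le
      linarith
    · rw [K_of_one_le h1]
      have := lam_pos
      positivity

lemma K_le_neg_log (k : ℕ) {z : ℝ} (hz : z ≠ 0) (h1 : |z| ≤ 1) : K k z ≤ - Real.log |z| := by
  have hz' : 0 < |z| := abs_pos.2 hz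
  by_cases h : |z| ≤ (2 ^ k)⁻¹
  · rw [K_of_le h]; exact log_le_sub _ hz' k
  · rw [K_of_ge (not_le.1 h).le h1]

lemma K_mono_succ (k : ℕ) (z : ℝ) : K k z ≤ K (k + 1) z := by
  have hlt : ((2 : ℝ) ^ (k + 1))⁻¹ ≤ (2 ^ k)⁻¹ :=
    inv_anti₀ (by positivity) (pow_le_pow_right₀ (by norm_num) (by omega))
  by_cases h : |z| ≤ (2 ^ (k + 1))⁻¹
  · rw [K_of_le h, K_of_le (h.trans hlt)]
    have h1 : (2 : ℝ) ^ k * |z| ≤ 1 / 2 := by
      calc (2 : ℝ) ^ k * |z| ≤ 2 ^ k * (2 ^ (k + 1))⁻¹ := by gcongr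
        _ = 1 / 2 := by rw [pow_succ]; field_simp
    have := half_lt_lam
    push_cast
    rw [pow_succ]
    nlinarith
  · by_cases h' : |z| ≤ (2 ^ k)⁻¹
    · have h1 : |z| ≤ 1 := h'.trans (pow_inv_le_one k)
      have hz : 0 < |z| := lt_trans (pow_inv_pos _) (not_le.1 h)
      rw [K_of_ge (not_le.1 h).le h1]
      exact K_le_neg_log k (abs_pos.1 hz) h1
    · rw [K_eq_of_ge (Nat.le_succ k) (not_le.1 h').le]

lemma K_mono {j k : ℕ} (h : j ≤ k) (z : ℝ) : K j z ≤ K k z := by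
  induction h with
  | refl => exact le_rfl
  | step _ ih => exact ih.trans (K_mono_succ _ z)

lemma K_succ_le (k : ℕ) (z : ℝ) : K (k + 1) z ≤ K k z + Real.log 2 := by
  have hlt : ((2 : ℝ) ^ (k + 1))⁻¹ ≤ (2 ^ k)⁻¹ :=
    inv_anti₀ (by positivity) (pow_le_pow_right₀ (by norm_num) (by omega))
  by_cases h : |z| ≤ (2 ^ (k + 1))⁻¹
  · rw [K_of_le h, K_of_le (h.trans hlt)]
    have h1 : 0 ≤ (2 : ℝ) ^ k * |z| := by positivity
    push_cast
    rw [pow_succ]
    nlinarith
  · by_cases h' : |z| ≤ (2 ^ k)⁻¹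
    · have h1 : |z| ≤ 1 := h'.trans (pow_inv_le_one k)
      have hz : 0 < |z| := lt_trans (pow_inv_pos _) (not_le.1 h)
      rw [K_of_ge (not_le.1 h).le h1, K_of_le h']
      -- 1 + k λ - 2^k z + λ ≥ - log z for z ∈ [2^-(k+1), 2^-k]
      have h2 : 1 ≤ 2 ^ (k + 1) * |z| := by
        have := (not_le.1 h).le
        calc (1 : ℝ) = 2 ^ (k + 1) * (2 ^ (k + 1))⁻¹ := (mul_inv_cancel₀ (by positivity)).symm
          _ ≤ 2 ^ (k + 1) * |z| := by gcongr
      have h3 : 2 ^ k * |z| ≤ 1 := by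
        calc (2 : ℝ) ^ k * |z| ≤ 2 ^ k * (2 ^ k)⁻¹ := by gcongr
          _ = 1 := mul_inv_cancel₀ (by positivity)
      have h4 : 0 ≤ Real.log (2 ^ (k + 1) * |z|) := Real.log_nonneg h2
      rw [Real.log_mul (by positivity) hz.ne', Real.log_pow] at h4
      push_cast at h4
      linarith
    · rw [K_eq_of_ge (Nat.le_succ k) (not_le.1 h').le]
      have := lam_pos
      linarith

/-- lower bound for `K` at distance comparable with the scale -/
lemma K_lower {i : ℕ} {z : ℝ} (h : |z| ≤ 2 * (2 ^ i)⁻¹) : i * Real.log 2 - 1 ≤ K i z := by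
  by_cases h' : |z| ≤ (2 ^ i)⁻¹
  · rw [K_of_le h']
    have h3 : 2 ^ i * |z| ≤ 1 := by
      calc (2 : ℝ) ^ i * |z| ≤ 2 ^ i * (2 ^ i)⁻¹ := by gcongr
        _ = 1 := mul_inv_cancel₀ (by positivity)
    linarith
  · rcases le_total |z| 1 with h1 | h1
    · rw [K_of_ge (not_le.1 h').le h1]
      have hz : 0 < |z| := lt_trans (pow_inv_pos _) (not_le.1 h')
      have h5 := Real.log_le_log hz h
      rw [Real.log_mul (by norm_num) (by positivity)] at h5
      have h6 := log_pow_inv i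
      have := lam_lt_one
      linarith
    · rw [K_of_one_le h1]
      have h2 : (1 : ℝ) ≤ 2 * (2 ^ i)⁻¹ := h1.trans h
      have h3 : (2 : ℝ) ^ i ≤ 2 := by
        rw [← div_eq_mul_inv, le_div_iff₀ (by positivity)] at h2
        linarith
      have h4 : i ≤ 1 := by
        by_contra hcon
        have : (2 : ℝ) ^ 2 ≤ 2 ^ i := pow_le_pow_right₀ (by norm_num) (by omega)
        norm_num at this
        linarith
      have h5 : (i : ℝ) ≤ 1 := by exact_mod_cast h4
      have := lam_lt_one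
      have := lam_pos
      nlinarith

/-- Lipschitz bound near the origin -/
lemma K_zero_sub_le (k : ℕ) (z : ℝ) : 1 + k * Real.log 2 - K k z ≤ 2 ^ k * |z| := by
  by_cases h : |z| ≤ (2 ^ k)⁻¹
  · rw [K_of_le h]; linarith
  · rcases le_total |z| 1 with h1 | h1
    · rw [K_of_ge (not_le.1 h).le h1]
      have hz : 0 < |z| := lt_trans (pow_inv_pos _) (not_le.1 h)
      have := Real.log_le_sub_one_of_pos (show 0 < 2 ^ k * |z| by positivity)
      rw [Real.log_mul (by positivity) hz.ne', Real.log_pow] at this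
      linarith
    · rw [K_of_one_le h1]
      have h2 : 1 + (k : ℝ) * Real.log 2 ≤ 2 ^ k := by
        have := Real.log_le_sub_one_of_pos (show (0 : ℝ) < 2 ^ k by positivity)
        rw [Real.log_pow] at this
        linarith
      have : (2 : ℝ) ^ k * 1 ≤ 2 ^ k * |z| := by gcongr
      linarith

/-- one-sided Lipschitz bound: for `0 ≤ a ≤ b`, `K k a - K k b ≤ 2^k (b - a)` and `K` decreases -/
lemma K_anti (k : ℕ) {a b : ℝ} (ha : 0 ≤ a) (hab : a ≤ b) : K k b ≤ K k a := by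
  have hb : 0 ≤ b := ha.trans hab
  by_cases h : b ≤ (2 ^ k)⁻¹
  · rw [K_of_le (by rwa [abs_of_nonneg hb]), K_of_le (by rw [abs_of_nonneg ha]; exact hab.trans h),
      abs_of_nonneg ha, abs_of_nonneg hb]
    have : (2 : ℝ) ^ k * a ≤ 2 ^ k * b := by gcongr
    linarith
  · push Not at h
    rcases le_total b 1 with h1 | h1
    · rw [K_of_ge (by rw [abs_of_nonneg hb]; exact h.le) (by rwa [abs_of_nonneg hb]),
        abs_of_nonneg hb]
      by_cases h' : a ≤ (2 ^ k)⁻¹
      · rw [K_of_le (by rwa [abs_of_nonneg ha]), abs_of_nonneg ha]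
        have h2 := Real.log_le_log (pow_inv_pos k) h.le
        have h3 := log_pow_inv k
        have h4 : (2 : ℝ) ^ k * a ≤ 1 := by
          calc (2 : ℝ) ^ k * a ≤ 2 ^ k * (2 ^ k)⁻¹ := by gcongr
            _ = 1 := mul_inv_cancel₀ (by positivity)
        linarith
      · push Not at h'
        rw [K_of_ge (by rw [abs_of_nonneg ha]; exact h'.le)
          (by rw [abs_of_nonneg ha]; exact hab.trans h1), abs_of_nonneg ha]
        have := Real.log_le_log (lt_trans (pow_inv_pos k) h') hab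
        linarith
    · rw [K_of_one_le (by rwa [abs_of_nonneg hb])]
      exact K_nonneg _ _

lemma K_lip_aux (k : ℕ) {a b : ℝ} (ha : 0 ≤ a) (hab : a ≤ b) :
    K k a - K k b ≤ 2 ^ k * (b - a) := by
  have hb : 0 ≤ b := ha.trans hab
  -- case split on the position of `a` and `b`
  have key : ∀ a b : ℝ, (2 ^ k)⁻¹ ≤ a → a ≤ b → b ≤ 1 → K k a - K k b ≤ 2 ^ k * (b - a) := by
    intro a b ha' hab' hb'
    have ha0 : 0 < a := lt_of_lt_of_le (pow_inv_pos k) ha'
    have hb0 : 0 < b := lt_of_lt_of_le ha0 hab'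
    rw [K_of_ge (by rwa [abs_of_nonneg ha0.le]) (by rw [abs_of_nonneg ha0.le]; exact hab'.trans hb'),
      K_of_ge (by rw [abs_of_nonneg hb0.le]; exact ha'.trans hab')
        (by rwa [abs_of_nonneg hb0.le]), abs_of_nonneg ha0.le, abs_of_nonneg hb0.le]
    have h1 := Real.log_le_sub_one_of_pos (show 0 < b / a by positivity)
    rw [Real.log_div hb0.ne' ha0.ne'] at h1
    have h2 : b / a - 1 = (b - a) / a := by field_simp
    have h3 : (b - a) / a ≤ 2 ^ k * (b - a) := by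
      rw [div_le_iff₀ ha0]
      have h4 : 1 ≤ 2 ^ k * a := by
        calc (1 : ℝ) = 2 ^ k * (2 ^ k)⁻¹ := (mul_inv_cancel₀ (by positivity)).symm
          _ ≤ 2 ^ k * a := by gcongr
      nlinarith
    linarith
  have key1 : ∀ b : ℝ, (2 ^ k)⁻¹ ≤ b → b ≤ 1 →
      K k (2 ^ k)⁻¹ - K k b ≤ 2 ^ k * (b - (2 ^ k)⁻¹) := fun b h1 h2 => key _ b le_rfl h1 h2
  have hlin : ∀ a : ℝ, 0 ≤ a → a ≤ (2 ^ k)⁻¹ → K k a - K k (2 ^ k)⁻¹ = 2 ^ k * ((2 ^ k)⁻¹ - a) := by
    intro a h1 h2
    rw [K_of_le (by rwa [abs_of_nonneg h1]), K_of_le (by rw [abs_of_nonneg (pow_inv_pos k).le]),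
      abs_of_nonneg h1, abs_of_nonneg (pow_inv_pos k).le]
    ring
  by_cases hb1 : b ≤ 1
  · by_cases h : b ≤ (2 ^ k)⁻¹
    · rw [K_of_le (z := b) (by rwa [abs_of_nonneg hb]),
        K_of_le (z := a) (by rw [abs_of_nonneg ha]; exact hab.trans h), abs_of_nonneg ha,
        abs_of_nonneg hb]
      linarith
    · push Not at h
      by_cases h' : a ≤ (2 ^ k)⁻¹
      · have := hlin a ha h'
        have := key1 b h.le hb1
        linarith
      · push Not at h'
        exact key a b h'.le hab hb1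
  · push Not at hb1
    rw [K_of_one_le (z := b) (by rw [abs_of_nonneg hb]; exact hb1.le)]
    by_cases ha1 : a ≤ 1
    · have h1 : K k a - K k 1 ≤ 2 ^ k * (1 - a) := by
        by_cases h' : a ≤ (2 ^ k)⁻¹
        · have := hlin a ha h'
          have := key1 1 (pow_inv_le_one k) le_rfl
          linarith
        · push Not at h'
          exact key a 1 h'.le ha1 le_rfl
      rw [K_of_one_le (z := 1) (by simp)] at h1
      have : (2 : ℝ) ^ k * (1 - a) ≤ 2 ^ k * (b - a) := by gcongr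
      linarith
    · push Not at ha1
      rw [K_of_one_le (by rw [abs_of_nonneg ha]; exact ha1.le)]
      have : 0 ≤ (2 : ℝ) ^ k * (b - a) := by
        have : 0 ≤ b - a := by linarith
        positivity
      linarith

lemma K_lip (k : ℕ) (x y : ℝ) : |K k x - K k y| ≤ 2 ^ k * |x - y| := by
  have main : ∀ a b : ℝ, 0 ≤ a → a ≤ b → |K k a - K k b| ≤ 2 ^ k * (b - a) := by
    intro a b ha hab
    rw [abs_of_nonneg (by have := K_anti k ha hab; linarith)]
    exact K_lip_aux k ha hab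
  have h2 : |K k (|x|) - K k (|y|)| ≤ 2 ^ k * |(|x|) - (|y|)| := by
    rcases le_total (|x|) (|y|) with h | h
    · have := main (|x|) (|y|) (abs_nonneg x) h
      rw [abs_sub_comm (|x|) (|y|), abs_of_nonneg (by linarith : 0 ≤ |y| - |x|)]
      exact this
    · have := main (|y|) (|x|) (abs_nonneg y) h
      rw [abs_sub_comm (K k (|x|)), abs_of_nonneg (by linarith : 0 ≤ |x| - |y|)]
      exact this
  rw [K_abs, K_abs] at h2
  exact h2.trans (mul_le_mul_of_nonneg_left (abs_abs_sub_abs_le x y) (by positivity))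

lemma continuous_K (k : ℕ) : Continuous (K k) := by
  have : LipschitzWith ⟨2 ^ k, by positivity⟩ (K k) := by
    refine LipschitzWith.of_dist_le_mul fun x y => ?_
    rw [Real.dist_eq, Real.dist_eq]
    exact K_lip k x y
  exact this.continuous

lemma measurable_K (k : ℕ) : Measurable (K k) := (continuous_K k).measurable

/-! ### The layers -/

lemma kap_zero (z : ℝ) : kap 0 z = K 0 z := rfl

lemma kap_succ (k : ℕ) (z : ℝ) : kap (k + 1) z = K (k + 1) z - K k z := rfl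

lemma sum_kap (k : ℕ) (z : ℝ) : ∑ i ∈ Finset.range (k + 1), kap i z = K k z := by
  induction k with
  | zero => simp [kap_zero]
  | succ k ih => rw [Finset.sum_range_succ, ih, kap_succ]; ring

lemma kap_nonneg (k : ℕ) (z : ℝ) : 0 ≤ kap k z := by
  cases k with
  | zero => exact K_nonneg 0 z
  | succ k => rw [kap_succ]; linarith [K_mono_succ k z]

lemma kap_succ_le (k : ℕ) (z : ℝ) : kap (k + 1) z ≤ Real.log 2 := by
  rw [kap_succ]; linarith [K_succ_le k z]

lemma kap_succ_zero (k : ℕ) : kap (k + 1) 0 = Real.log 2 := by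
  rw [kap_succ, K_zero, K_zero]; push_cast; ring

lemma kap_succ_of_ge {k : ℕ} {z : ℝ} (h : (2 ^ k)⁻¹ ≤ |z|) : kap (k + 1) z = 0 := by
  rw [kap_succ, K_eq_of_ge (Nat.le_succ k) h, sub_self]

lemma kap_succ_of_le {k : ℕ} {z : ℝ} (h : |z| ≤ (2 ^ (k + 1))⁻¹) :
    kap (k + 1) z = Real.log 2 - 2 ^ k * |z| := by
  have hlt : ((2 : ℝ) ^ (k + 1))⁻¹ ≤ (2 ^ k)⁻¹ :=
    inv_anti₀ (by positivity) (pow_le_pow_right₀ (by norm_num) (by omega))
  rw [kap_succ, K_of_le h, K_of_le (h.trans hlt)]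
  push_cast
  rw [pow_succ]
  ring

end Pool.Agent.helper95.GMC
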