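import Mathlib

/-!
Setting of MP_d68443_pr: log-correlated field on `[0,1]`, mollifications, chaos measure with
`γ = 1/√2`.
-/

open MeasureTheory ProbabilityTheory Filter Topology Set

namespace Pool.Agent.helper95.GMC

/-- test functions on `D`: bounded measurable functions vanishing outside `D` -/
def IsTest (D : Set ℝ) (f : ℝ → ℝ) : Prop :=
  Measurable f ∧ (∃ B : ℝ, ∀ u, |f u| ≤ B) ∧ ∀ u ∉ D, f u = 0

/-- `W` is a centred Gaussian field on `D` with covariance kernel `log (1/|u-v|)`, as a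
generalised process: a Gaussian process indexed by the test functions on `D` -/
structure IsLogField {Ω : Type*} [MeasurableSpace Ω] (P : Measure Ω) (D : Set ℝ)
    (W : (ℝ → ℝ) → Ω → ℝ) : Prop where
  gauss : IsGaussianProcess (fun f : {f : ℝ → ℝ // IsTest D f} => W f) P
  mean : ∀ f, IsTest D f → ∫ ω, W f ω ∂P = 0
  cov : ∀ f g, IsTest D f → IsTest D g →
    cov[W f, W g; P] = ∫ u, ∫ v, f u * g v * Real.log (1 / |u - v|)

/-- kernels of a mollification on `[0,1]`: `ρ m x` is a probability density on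
`[x - ε_m, x + ε_m]`, bounded by `A/ε_m`, with `ε_m → 0` -/
structure IsMollifier (ρ : ℕ → ℝ → ℝ → ℝ) (ε : ℕ → ℝ) (A : ℝ) : Prop where
  meas : ∀ m, Measurable (fun q : ℝ × ℝ => ρ m q.1 q.2)
  pos : ∀ m, 0 < ε m
  tend : Tendsto ε atTop (𝓝 0)
  nonneg : ∀ m, ∀ x ∈ Set.Icc (0 : ℝ) 1, ∀ u, 0 ≤ ρ m x u
  supp : ∀ m, ∀ x ∈ Set.Icc (0 : ℝ) 1, ∀ u, ε m < |u - x| → ρ m x u = 0
  bdd : ∀ m, ∀ x ∈ Set.Icc (0 : ℝ) 1, ∀ u, ρ m x u ≤ A / ε m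
  mass : ∀ m, ∀ x ∈ Set.Icc (0 : ℝ) 1, ∫ u, ρ m x u = 1

/-- `Mγ ω` is the almost sure weak limit of the measures
`exp (γ X_m(x) - γ²/2 E X_m(x)²) dx` on `[0,1]`, `γ = 1/√2`, where `X_m(x) = W (ρ m x)` is the
mollified field (in a jointly measurable version) -/
structure IsChaos {Ω : Type*} [MeasurableSpace Ω] (P : Measure Ω) (W : (ℝ → ℝ) → Ω → ℝ)
    (ρ : ℕ → ℝ → ℝ → ℝ) (X : ℕ → ℝ → Ω → ℝ) (Mγ : Ω → Measure ℝ) : Prop where
  meas : ∀ m, Measurable (fun q : ℝ × Ω => X m q.1 q.2)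
  moll : ∀ m, ∀ x ∈ Set.Icc (0 : ℝ) 1, X m x =ᵐ[P] W (ρ m x)
  fin : ∀ᵐ ω ∂P, IsFiniteMeasure (Mγ ω)
  lim : ∀ᵐ ω ∂P, ∀ f : BoundedContinuousFunction ℝ ℝ, Tendsto (fun m => ∫ x in (0 : ℝ)..1,
    f x * Real.exp (1 / √2 * X m x ω - (1 / √2) ^ 2 / 2 * ∫ ω', X m x ω' ^ 2 ∂P)) atTop
      (𝓝 (∫ x, f x ∂(Mγ ω)))

end Pool.Agent.helper95.GMC
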