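import Mathlib

/-!
Basic definitions: killed Gaussian walk, covariance kernels of the layered field.
-/

open MeasureTheory ProbabilityTheory Filter Topology Set
open scoped ENNReal NNReal

namespace Pool.Agent.helper95.GMC

/-- density of the centred Gaussian with variance `log 2` -/
noncomputable def phi (s : ℝ) : ℝ≥0∞ :=
  gaussianPDF 0 ⟨Real.log 2, (Real.log_pos one_lt_two).le⟩ s

/-- one step of the Gaussian walk killed below `0` -/
noncomputable def Tk (f : ℝ → ℝ≥0∞) : ℝ → ℝ≥0∞ :=
  fun u => ∫⁻ w in Set.Ici (0 : ℝ), f w * phi (u - w)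

/-- probability of surviving `k` steps started at height `u` -/
noncomputable def pk (k : ℕ) (u : ℝ) : ℝ≥0∞ := (Tk^[k] (fun _ => 1)) u

/-- covariance of the sum of the layers `0, ..., k` -/
noncomputable def K (k : ℕ) (z : ℝ) : ℝ :=
  if |z| ≤ (2 ^ k)⁻¹ then 1 + k * Real.log 2 - 2 ^ k * |z|
  else if |z| ≤ 1 then - Real.log |z| else 0

/-- covariance of layer `k` -/
noncomputable def kap : ℕ → ℝ → ℝ
  | 0, z => K 0 z
  | (k + 1), z => K (k + 1) z - K k z

/-- independent Gaussian layers -/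
structure ConeField {Ω : Type*} [MeasurableSpace Ω] (P : Measure Ω) (Z : ℕ → ℝ → Ω → ℝ) :
    Prop where
  meas : ∀ i x, Measurable (Z i x)
  gauss : IsGaussianProcess (fun p : ℕ × ℝ => Z p.1 p.2) P
  mean : ∀ i x, ∫ ω, Z i x ω ∂P = 0
  cov : ∀ i j x y, cov[Z i x, Z j y; P] = if i = j then kap i (x - y) else 0

end Pool.Agent.helper95.GMC
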