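import Pool.Agent.helper95.GMC.OnePoint
import Pool.Agent.helper24.GMCWalk

/-! ### merged from `Pool.Agent.helper95.GMC.TwoPt` -/

section
/-!
Two-point tilts in terms of partial sums.
-/

open MeasureTheory ProbabilityTheory Filter Topology Set
open scoped ENNReal NNReal

namespace Pool.Agent.helper95.GMC

lemma sum_kap_shift (s k : ℕ) (w : ℝ) :
    ∑ j ∈ Finset.range k, kap (s + j + 1) w = K (s + k) w - K s w := by
  induction k with
  | zero => simp
  | succ k ih =>
    rw [Finset.sum_range_succ, ih, kap_succ, ← add_assoc]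
    ring

lemma sum_Ioc_eq (s k : ℕ) (f : ℕ → ℝ) :
    ∑ i ∈ Finset.Ioc s (s + k), f i = ∑ j ∈ Finset.range k, f (s + j + 1) := by
  induction k with
  | zero => simp
  | succ k ih =>
    rw [Finset.sum_range_succ, ← add_assoc, Finset.sum_Ioc_succ_top (by omega), ih]

/-- covariance over the layers `s+1..s+k` -/
noncomputable def dK (s k : ℕ) (w : ℝ) : ℝ := K (s + k) w - K s w

lemma dK_zero_right (s k : ℕ) : dK s k 0 = k * Real.log 2 := by
  unfold dK
  rw [K_zero, K_zero]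
  push_cast
  ring

lemma So_add (s k : ℕ) (x : ℝ) (z C : Path) : So s k x (z + C) = So s k x z + So s k x C := by
  unfold So
  rw [← Finset.sum_add_distrib]
  rfl

lemma So_twoC {s k l : ℕ} (hl : l ≤ k) (α β x y w : ℝ) :
    So s l w (Cone.twoC (Finset.Ioc s (s + k)) α β x y) =
      α * dK s l (w - x) + β * dK s l (w - y) := by
  unfold So Cone.twoC
  have e : ∀ j ∈ Finset.range l, (if ((s + j + 1, w) : ℕ × ℝ).1 ∈ Finset.Ioc s (s + k) then
      α * kap ((s + j + 1, w) : ℕ × ℝ).1 (((s + j + 1, w) : ℕ × ℝ).2 - x) +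
      β * kap ((s + j + 1, w) : ℕ × ℝ).1 (((s + j + 1, w) : ℕ × ℝ).2 - y) else 0) =
      α * kap (s + j + 1) (w - x) + β * kap (s + j + 1) (w - y) := by
    intro j hj
    rw [Finset.mem_range] at hj
    rw [if_pos]
    rw [Finset.mem_Ioc]
    constructor <;> simp only <;> omega
  rw [Finset.sum_congr rfl e, Finset.sum_add_distrib, ← Finset.mul_sum, ← Finset.mul_sum,
    sum_kap_shift, sum_kap_shift]
  rfl

lemma two_eq_So (s k : ℕ) (α β x y : ℝ) (z : Path) :
    Cone.two (Finset.Ioc s (s + k)) α β x y z = α * So s k x z + β * So s k y z := by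
  unfold Cone.two So
  rw [sum_Ioc_eq, Finset.sum_add_distrib, Finset.mul_sum, Finset.mul_sum]

lemma twoV_eq (s k : ℕ) (α β x y : ℝ) :
    Cone.twoV (Finset.Ioc s (s + k)) α β x y =
      (α ^ 2 + β ^ 2) * (k * Real.log 2) + 2 * α * β * dK s k (x - y) := by
  unfold Cone.twoV
  rw [sum_Ioc_eq, Finset.sum_add_distrib, ← Finset.mul_sum, ← Finset.mul_sum, sum_kap_shift,
    sum_kap_shift, ← dK_zero_right s k]
  rfl

namespace Cone

variable {μ : Measure Path}

/-- Cameron–Martin for `α So(x) + β So(y)` -/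
lemma tilt_So (h : Cone μ) (s k : ℕ) (α β x y : ℝ)
    (hv : 0 < (α ^ 2 + β ^ 2) * (k * Real.log 2) + 2 * α * β * dK s k (x - y))
    {F : Path → ℝ≥0∞} (hF : Measurable F) :
    ∫⁻ z, ENNReal.ofReal (Real.exp (α * So s k x z + β * So s k y z -
        ((α ^ 2 + β ^ 2) * (k * Real.log 2) + 2 * α * β * dK s k (x - y)) / 2)) * F z ∂μ =
      ∫⁻ z, F (z + twoC (Finset.Ioc s (s + k)) α β x y) ∂μ := by
  have h1 := h.tilt_two (Finset.Ioc s (s + k)) α β x y (by rw [twoV_eq]; exact hv) hF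
  simp only [twoV_eq, two_eq_So] at h1
  exact h1

end Cone

end Pool.Agent.helper95.GMC
end

/-! ### merged from `Pool.Agent.helper95.GMC.Barrier` -/

section
/-!
The barrier event has probability close to one.
-/

open MeasureTheory ProbabilityTheory Filter Topology Set
open scoped ENNReal NNReal

namespace Pool.Agent.helper95.GMC

lemma dK_of_le {s k : ℕ} {w : ℝ} (h : |w| ≤ (2 ^ (s + k))⁻¹) :
    dK s k w = k * Real.log 2 - (2 ^ (s + k) - 2 ^ s) * |w| := by
  unfold dK
  have h2 : |w| ≤ (2 ^ s)⁻¹ := by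
    refine h.trans ?_
    rw [pow_add]
    refine inv_anti₀ (by positivity) ?_
    have : (1 : ℝ) ≤ 2 ^ k := one_le_pow₀ (by norm_num)
    nlinarith [show (0 : ℝ) < 2 ^ s by positivity]
  rw [K_of_le h, K_of_le h2]
  push_cast
  ring

/-- walk above `0` up to time `k`, below `β` at time `k+1` -/
def Ev (M β : ℝ) (k : ℕ) (x : ℝ) : Set Path :=
  {z | z ∈ Bar 0 0 M k x ∧ hgt 0 0 M (k + 1) x z < β}

lemma measurableSet_Ev (M β : ℝ) (k : ℕ) (x : ℝ) : MeasurableSet (Ev M β k x) :=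
  (measurableSet_Bar _ _ _ _ _).inter (measurableSet_lt (measurable_hgt _ _ _ _ _) measurable_const)

/-- integral used as a constant -/
lemma int_exp_one_add_ne_top :
    ∫⁻ w in Set.Ici (0 : ℝ), ENNReal.ofReal (Real.exp (-w)) * ENNReal.ofReal (1 + w) ≠ ∞ := by
  have h1 : ∀ w ∈ Set.Ici (0 : ℝ), ENNReal.ofReal (Real.exp (-w)) * ENNReal.ofReal (1 + w) ≤
      ENNReal.ofReal (2 * Real.exp (-(1 / 2) * w)) := by
    intro w hw
    rw [← ENNReal.ofReal_mul (Real.exp_pos _).le]
    refine ENNReal.ofReal_le_ofReal ?_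
    have h2 : 1 + w ≤ 2 * Real.exp (w / 2) := by
      have := Real.add_one_le_exp (w / 2)
      have h3 : (0 : ℝ) ≤ w := hw
      nlinarith
    calc Real.exp (-w) * (1 + w) ≤ Real.exp (-w) * (2 * Real.exp (w / 2)) := by gcongr
      _ = 2 * Real.exp (-(1 / 2) * w) := by
        rw [mul_left_comm, ← Real.exp_add]; congr 2; ring
  refine ne_top_of_le_ne_top ?_ (setLIntegral_mono' measurableSet_Ici h1)
  have h4 : IntegrableOn (fun w : ℝ => 2 * Real.exp (-(1 / 2) * w)) (Set.Ici 0) := by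
    rw [integrableOn_Ici_iff_integrableOn_Ioi]
    exact (integrableOn_exp_mul_Ioi (by norm_num) 0).const_mul 2
  rw [← ofReal_integral_eq_lintegral_ofReal h4 (ae_of_all _ fun w => by positivity)]
  exact ENNReal.ofReal_ne_top

lemma walk_exp_bound : ∃ C : ℝ, 0 ≤ C ∧ ∀ (k : ℕ) (M : ℝ), 0 ≤ M →
    (Tk^[k] (fun w => ENNReal.ofReal (Real.exp (-w)))) M ≤
      ENNReal.ofReal (C * ((1 + M) / ((k + 1) * √(k + 1)))) := by
  obtain ⟨C, hC⟩ := Tk_iter_le
  set I0 := ∫⁻ w in Set.Ici (0 : ℝ), ENNReal.ofReal (Real.exp (-w)) * ENNReal.ofReal (1 + w)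
    with hI0
  have hI : I0 ≠ ∞ := int_exp_one_add_ne_top
  refine ⟨1 + 4 * (C * I0.toReal), by positivity, fun k M hM => ?_⟩
  rcases Nat.eq_zero_or_pos k with rfl | hk
  · simp only [Function.iterate_zero, id_eq, Nat.cast_zero, zero_add, Real.sqrt_one, mul_one,
      div_one]
    refine ENNReal.ofReal_le_ofReal ?_
    have h1 : Real.exp (-M) ≤ 1 := Real.exp_le_one_iff.2 (by linarith)
    have h2 : (0 : ℝ) ≤ C * I0.toReal := by positivity
    nlinarith
  · refine (hC k hk _ (by fun_prop) M hM).trans ?_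
    have e : (C : ℝ≥0∞) * ENNReal.ofReal ((1 + M) / (k * √k)) * I0 =
        ENNReal.ofReal (C * ((1 + M) / (k * √k)) * I0.toReal) := by
      rw [ENNReal.ofReal_mul (by positivity), ENNReal.ofReal_mul (by positivity),
        ENNReal.ofReal_toReal hI, ENNReal.ofReal_coe_nnreal]
    rw [e]
    refine ENNReal.ofReal_le_ofReal ?_
    have hk' : (1 : ℝ) ≤ k := by exact_mod_cast hk
    have h3 : (1 : ℝ) / (k * √k) ≤ 4 / ((k + 1) * √(k + 1)) := by
      rw [div_le_div_iff₀ (by positivity) (by positivity)]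
      have h5 : √((k : ℝ) + 1) ≤ 2 * √k := by
        rw [Real.sqrt_le_left (by positivity), mul_pow, Real.sq_sqrt (by positivity)]
        linarith
      have h6 : (k : ℝ) + 1 ≤ 2 * k := by linarith
      calc 1 * (((k : ℝ) + 1) * √(k + 1)) ≤ 1 * ((2 * k) * (2 * √k)) := by gcongr
        _ = 4 * (k * √k) := by ring
    calc (C : ℝ) * ((1 + M) / (k * √k)) * I0.toReal
        = (C * I0.toReal) * (1 + M) * (1 / (k * √k)) := by ring
      _ ≤ (C * I0.toReal) * (1 + M) * (4 / ((k + 1) * √(k + 1))) := by gcongr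
      _ = 4 * (C * I0.toReal) * ((1 + M) / ((k + 1) * √(k + 1))) := by ring
      _ ≤ (1 + 4 * (C * I0.toReal)) * ((1 + M) / ((k + 1) * √(k + 1))) := by
        gcongr
        linarith

namespace Cone

variable {μ : Measure Path}

lemma Ev_le (h : Cone μ) (M β : ℝ) (k : ℕ) (x : ℝ) :
    μ (Ev M β k x) ≤ ENNReal.ofReal (Real.exp (β + 1 / 2 * Real.log 2)) *
      (Tk^[k] (fun w => ENNReal.ofReal (Real.exp (-w)))) M := by
  have := h.isProb
  have hm : Measurable (fun z : Path => ENNReal.ofReal (Real.exp (z (k + 1, x)))) := by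
    have : Measurable fun z : Path => z (k + 1, x) := measurable_pi_apply _
    fun_prop
  have hm2 : Measurable ((Bar 0 0 M k x).indicator
      (fun z => ENNReal.ofReal (Real.exp (-(hgt 0 0 M k x z))))) := by
    refine Measurable.indicator ?_ (measurableSet_Bar _ _ _ _ _)
    have := measurable_hgt 0 0 M k x
    fun_prop
  have h1 : ∫⁻ q : Path, ENNReal.ofReal (Real.exp (q (k + 1, x))) ∂μ =
      ENNReal.ofReal (Real.exp (1 / 2 * Real.log 2)) := by
    have h3 := h.lintegral_crd k x (g := fun s => ENNReal.ofReal (Real.exp s)) (by fun_prop)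
    rw [h3]
    have h4 := lintegral_exp_gaussian (v := lamN) lamN_ne (g := fun _ => 1) measurable_const
    simp only [mul_one, lintegral_const, measure_univ] at h4
    have h5 : ∀ s : ℝ, ENNReal.ofReal (Real.exp s) = ENNReal.ofReal
        (Real.exp (1 / 2 * Real.log 2)) * ENNReal.ofReal (Real.exp (s - lamN / 2)) := by
      intro s
      rw [← ENNReal.ofReal_mul (Real.exp_pos _).le, ← Real.exp_add, lamN_coe]
      congr 2
      ring
    rw [lintegral_congr h5, lintegral_const_mul _ (by fun_prop), h4, mul_one]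
  have h6 := h.one_point 0 0 k x M (f := fun w => ENNReal.ofReal (Real.exp (-w))) (by fun_prop)
  have e0 : ENNReal.ofReal (Real.exp (0 - 0 ^ 2 / 2 * ((k : ℝ) * Real.log 2))) = 1 := by
    norm_num
  simp only [zero_mul, e0, one_mul] at h6
  calc μ (Ev M β k x) = ∫⁻ z, (Ev M β k x).indicator 1 z ∂μ := by
        rw [lintegral_indicator_one (measurableSet_Ev _ _ _ _)]
    _ ≤ ∫⁻ z, ENNReal.ofReal (Real.exp β) * ((Bar 0 0 M k x).indicator
      (fun z => ENNReal.ofReal (Real.exp (-(hgt 0 0 M k x z)))) z *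
      ENNReal.ofReal (Real.exp (z (k + 1, x)))) ∂μ := by
        refine lintegral_mono fun z => ?_
        by_cases hz : z ∈ Ev M β k x
        · rw [Set.indicator_of_mem hz, Set.indicator_of_mem hz.1,
            ← ENNReal.ofReal_mul (Real.exp_pos _).le, ← ENNReal.ofReal_mul (Real.exp_pos _).le,
            ← Real.exp_add, ← Real.exp_add, Pi.one_apply, ← ENNReal.ofReal_one]
          refine ENNReal.ofReal_le_ofReal (Real.one_le_exp ?_)
          have h1 := hz.2
          unfold hgt at h1 ⊢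
          rw [So_succ] at h1
          simp only [zero_add] at h1
          linarith
        · rw [Set.indicator_of_notMem hz]
          exact zero_le
    _ = ENNReal.ofReal (Real.exp β) * ((∫⁻ z, (Bar 0 0 M k x).indicator
      (fun z => ENNReal.ofReal (Real.exp (-(hgt 0 0 M k x z)))) z ∂μ) *
      ∫⁻ z, ENNReal.ofReal (Real.exp (z (k + 1, x))) ∂μ) := by
        rw [lintegral_const_mul' _ _ ENNReal.ofReal_ne_top, h.lintegral_mul_glue k hm2 hm]
        · intro p q
          by_cases hp : p ∈ Bar 0 0 M k x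
          · rw [Set.indicator_of_mem hp, Set.indicator_of_mem
              ((mem_Bar_glue_le (by omega) _ _ _).2 hp), hgt_glue_le (by omega)]
          · rw [Set.indicator_of_notMem hp, Set.indicator_of_notMem
              (fun h' => hp ((mem_Bar_glue_le (by omega) _ _ _).1 h'))]
        · intro p q
          rw [glue_of_lt (by omega)]
    _ = _ := by
        rw [h1, h6, mul_comm _ (ENNReal.ofReal (Real.exp (1 / 2 * Real.log 2))), ← mul_assoc,
          ← ENNReal.ofReal_mul (Real.exp_pos _).le, ← Real.exp_add]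

/-- a cell violates the barrier: change of measure -/
lemma cell_le (h : Cone μ) (M β : ℝ) (k : ℕ) (x : ℝ) {D : Set Path} (hD : MeasurableSet D) :
    μ {z | z ∈ Bar √2 0 M k x ∧ hgt √2 0 M (k + 1) x z < β ∧ z ∈ D} ≤
      ENNReal.ofReal (Real.exp (√2 * (β - M) - ((k + 1 : ℕ) : ℝ) * Real.log 2)) *
       μ (Ev M β k x ∩ {z | z + twoC (Finset.Ioc 0 (0 + (k + 1))) √2 0 x x ∈ D}) := by
  set A : Set Path := {z | z ∈ Bar √2 0 M k x ∧ hgt √2 0 M (k + 1) x z < β ∧ z ∈ D} with hA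
  set C : Path := twoC (Finset.Ioc 0 (0 + (k + 1))) √2 0 x x with hC
  have hAm : MeasurableSet A := (measurableSet_Bar _ _ _ _ _).inter
    ((measurableSet_lt (measurable_hgt _ _ _ _ _) measurable_const).inter hD)
  have hshift : Measurable (fun z : Path => z + C) :=
    measurable_pi_lambda _ fun p => (measurable_pi_apply p).add measurable_const
  have hEm : MeasurableSet (Ev M β k x ∩ {z | z + C ∈ D}) :=
    (measurableSet_Ev _ _ _ _).inter (hshift hD)
  have hSm := measurable_So 0 (k + 1) x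
  have hL : (0 : ℝ) < Real.log 2 := Real.log_pos one_lt_two
  have hk : (0 : ℝ) < ((k + 1 : ℕ) : ℝ) := by positivity
  have h2 : √2 ^ 2 = (2 : ℝ) := Real.sq_sqrt (by norm_num)
  have hG : Measurable (fun z => ENNReal.ofReal (Real.exp (((k + 1 : ℕ) : ℝ) * Real.log 2 -
      √2 * So 0 (k + 1) x z)) * A.indicator 1 z) :=
    Measurable.mul (by fun_prop) (measurable_one.indicator hAm)
  have hv : 0 < (√2 ^ 2 + 0 ^ 2) * (((k + 1 : ℕ) : ℝ) * Real.log 2) +
      2 * √2 * 0 * dK 0 (k + 1) (x - x) := by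
    rw [h2, mul_zero, zero_mul, add_zero]; positivity
  have hT := h.tilt_So 0 (k + 1) √2 0 x x hv hG
  have hSC : ∀ l, l ≤ k + 1 → ∀ z : Path, So 0 l x (z + C) = So 0 l x z + √2 * (l * Real.log 2) := by
    intro l hl z
    rw [So_add, hC, So_twoC hl, sub_self, dK_zero_right]
    ring
  have hgC : ∀ l, l ≤ k + 1 → ∀ z : Path, hgt √2 0 M l x (z + C) = hgt 0 0 M l x z := by
    intro l hl z
    unfold hgt
    rw [hSC l hl z]
    ring
  calc μ A = ∫⁻ z, A.indicator 1 z ∂μ := by rw [lintegral_indicator_one hAm]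
    _ = ∫⁻ z, ENNReal.ofReal (Real.exp (√2 * So 0 (k + 1) x z + 0 * So 0 (k + 1) x z -
        ((√2 ^ 2 + 0 ^ 2) * (((k + 1 : ℕ) : ℝ) * Real.log 2) +
          2 * √2 * 0 * dK 0 (k + 1) (x - x)) / 2)) *
        (ENNReal.ofReal (Real.exp (((k + 1 : ℕ) : ℝ) * Real.log 2 -
          √2 * So 0 (k + 1) x z)) * A.indicator 1 z) ∂μ := by
        refine lintegral_congr fun z => ?_
        rw [← mul_assoc, ← ENNReal.ofReal_mul (Real.exp_pos _).le, ← Real.exp_add, h2]
        have : √2 * So 0 (k + 1) x z + 0 * So 0 (k + 1) x z -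
          ((2 + 0 ^ 2) * (((k + 1 : ℕ) : ℝ) * Real.log 2) +
            2 * √2 * 0 * dK 0 (k + 1) (x - x)) / 2 +
            (((k + 1 : ℕ) : ℝ) * Real.log 2 - √2 * So 0 (k + 1) x z) = 0 := by ring
        rw [this, Real.exp_zero, ENNReal.ofReal_one, one_mul]
    _ = ∫⁻ z, ENNReal.ofReal (Real.exp (((k + 1 : ℕ) : ℝ) * Real.log 2 -
          √2 * So 0 (k + 1) x (z + C))) * A.indicator 1 (z + C) ∂μ := hT
    _ ≤ ∫⁻ z, ENNReal.ofReal (Real.exp (√2 * (β - M) - ((k + 1 : ℕ) : ℝ) * Real.log 2)) *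
          (Ev M β k x ∩ {z | z + C ∈ D}).indicator 1 z ∂μ := by
        refine lintegral_mono fun z => ?_
        by_cases hz : z + C ∈ A
        · obtain ⟨h3, h4, h5⟩ := hz
          rw [hgC _ le_rfl] at h4
          have hmem : z ∈ Ev M β k x ∩ {z | z + C ∈ D} := by
            refine ⟨⟨?_, h4⟩, h5⟩
            intro i hi1 hi2
            have := h3 i hi1 hi2
            rwa [hgC i (by omega)] at this
          rw [Set.indicator_of_mem (show z + C ∈ A from ⟨h3, by rw [hgC _ le_rfl]; exact h4, h5⟩),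
            Set.indicator_of_mem hmem]
          simp only [Pi.one_apply, mul_one]
          refine ENNReal.ofReal_le_ofReal (Real.exp_le_exp.2 ?_)
          rw [hSC _ le_rfl]
          unfold hgt at h4
          have h6 : -(√2 * So 0 (k + 1) x z) ≤ √2 * (β - M) := by
            have h7 : (0 : ℝ) < √2 := by positivity
            nlinarith
          have h8 : √2 * (√2 * (((k + 1 : ℕ) : ℝ) * Real.log 2)) =
              2 * (((k + 1 : ℕ) : ℝ) * Real.log 2) := by
            rw [← mul_assoc, ← sq, h2]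
          rw [mul_add, h8]
          linarith
        · rw [Set.indicator_of_notMem hz, mul_zero]
          exact zero_le
    _ = _ := by
        rw [lintegral_const_mul' _ _ ENNReal.ofReal_ne_top, lintegral_indicator_one hEm]

/-- exponential bound for increments -/
lemma incr_le (h : Cone μ) (k : ℕ) {x y : ℝ} (hxy : x ≠ y) (hle : |x - y| ≤ (2 ^ (k + 1))⁻¹)
    {θ : ℝ} (hθ : 0 < θ) (δ : ℝ) :
    μ {z | δ < So 0 (k + 1) x z - So 0 (k + 1) y z} ≤
      ENNReal.ofReal (Real.exp (θ ^ 2 * (2 ^ (k + 1) * |x - y|) - θ * δ)) := by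
  have := h.isProb
  have hS1 := measurable_So 0 (k + 1) x
  have hS2 := measurable_So 0 (k + 1) y
  have hAm : MeasurableSet {z | δ < So 0 (k + 1) x z - So 0 (k + 1) y z} :=
    measurableSet_lt measurable_const (hS1.sub hS2)
  have hd : dK 0 (k + 1) (x - y) = ((k + 1 : ℕ) : ℝ) * Real.log 2 -
      (2 ^ (k + 1) - 1) * |x - y| := by
    rw [dK_of_le (by simpa using hle)]
    simp
  have hpos : 0 < |x - y| := abs_pos.2 (sub_ne_zero.2 hxy)
  have h2k : (1 : ℝ) < 2 ^ (k + 1) := one_lt_pow₀ (by norm_num) (by omega)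
  have hVeq : (θ ^ 2 + (-θ) ^ 2) * (((k + 1 : ℕ) : ℝ) * Real.log 2) +
      2 * θ * (-θ) * dK 0 (k + 1) (x - y) = 2 * θ ^ 2 * ((2 ^ (k + 1) - 1) * |x - y|) := by
    rw [hd]; ring
  have hv : 0 < (θ ^ 2 + (-θ) ^ 2) * (((k + 1 : ℕ) : ℝ) * Real.log 2) +
      2 * θ * (-θ) * dK 0 (k + 1) (x - y) := by
    rw [hVeq]
    have : (0 : ℝ) < 2 ^ (k + 1) - 1 := by linarith
    positivity
  have hT := h.tilt_So 0 (k + 1) θ (-θ) x y hv (F := fun _ => 1) measurable_const
  simp only [mul_one, lintegral_const, measure_univ] at hT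
  calc μ {z | δ < So 0 (k + 1) x z - So 0 (k + 1) y z}
      = ∫⁻ z, {z | δ < So 0 (k + 1) x z - So 0 (k + 1) y z}.indicator 1 z ∂μ := by
        rw [lintegral_indicator_one hAm]
    _ ≤ ∫⁻ z, ENNReal.ofReal (Real.exp (θ ^ 2 * (2 ^ (k + 1) * |x - y|) - θ * δ)) *
          ENNReal.ofReal (Real.exp (θ * So 0 (k + 1) x z + -θ * So 0 (k + 1) y z -
          ((θ ^ 2 + (-θ) ^ 2) * (((k + 1 : ℕ) : ℝ) * Real.log 2) +
            2 * θ * (-θ) * dK 0 (k + 1) (x - y)) / 2)) ∂μ := by
        refine lintegral_mono fun z => ?_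
        by_cases hz : z ∈ {z | δ < So 0 (k + 1) x z - So 0 (k + 1) y z}
        · rw [Set.indicator_of_mem hz, Pi.one_apply, ← ENNReal.ofReal_mul (Real.exp_pos _).le,
            ← Real.exp_add, ← ENNReal.ofReal_one]
          refine ENNReal.ofReal_le_ofReal (Real.one_le_exp ?_)
          rw [hVeq]
          have hz' : δ < So 0 (k + 1) x z - So 0 (k + 1) y z := hz
          have h5 : θ * δ ≤ θ * (So 0 (k + 1) x z - So 0 (k + 1) y z) := by
            exact mul_le_mul_of_nonneg_left hz'.le hθ.le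
          have h6 : 0 ≤ θ ^ 2 * |x - y| := by positivity
          nlinarith
        · rw [Set.indicator_of_notMem hz]
          exact zero_le
    _ = _ := by
        rw [lintegral_const_mul' _ _ ENNReal.ofReal_ne_top, hT, mul_one]

end Cone

end Pool.Agent.helper95.GMC
end

/-! ### merged from `Pool.Agent.helper95.GMC.Good` -/

section
/-!
The good event (barrier at all dyadic points) and its probability.
-/

open MeasureTheory ProbabilityTheory Filter Topology Set
open scoped ENNReal NNReal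

namespace Pool.Agent.helper95.GMC

/-- thresholds -/
noncomputable def beta (q : ℕ) : ℝ := 40 * (9 / 10) ^ q

lemma beta_pos (q : ℕ) : 0 < beta q := by unfold beta; positivity

lemma beta_le (q : ℕ) : beta q ≤ 40 := by
  unfold beta
  have : ((9 : ℝ) / 10) ^ q ≤ 1 := pow_le_one₀ (by norm_num) (by norm_num)
  linarith

lemma beta_sub (q : ℕ) : beta q - beta (q + 1) = 4 * (9 / 10) ^ q := by
  unfold beta; rw [pow_succ]; ring

/-- dyadic point -/
noncomputable def dp (r j : ℕ) : ℝ := (j : ℝ) / 2 ^ r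

/-- the barrier holds at all dyadic points of `[0,1]`, for the layers `1..k` -/
def Good (M : ℝ) (k : ℕ) : Set Path :=
  {z | ∀ i < k, ∀ r j : ℕ, j ≤ 2 ^ r → 0 ≤ hgt √2 0 M (i + 1) (dp r j) z}

/-- elementary bad events -/
def Bad (M : ℝ) (i : ℕ) : ℕ → ℕ → Set Path
  | 0, j => {z | z ∈ Bar √2 0 M i (dp (i + 1) j) ∧
      hgt √2 0 M (i + 1) (dp (i + 1) j) z < beta 0 ∧ z ∈ (Set.univ : Set Path)}
  | (q + 1), j => {z | z ∈ Bar √2 0 M i (dp (i + 1 + (q + 1)) j) ∧
      hgt √2 0 M (i + 1) (dp (i + 1 + (q + 1)) j) z < beta (q + 1) ∧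
      z ∈ {z | beta q - beta (q + 1) < So 0 (i + 1) (dp (i + 1 + (q + 1)) j) z -
        So 0 (i + 1) (dp (i + 1 + (q + 1)) j - (2 ^ (i + 1 + (q + 1)))⁻¹) z}}

lemma not_good_subset {M : ℝ} {k : ℕ} {z : Path} (hz : z ∉ Good M k) :
    ∃ i < k, ∃ q j : ℕ, j ≤ 2 ^ (i + 1 + q) ∧ z ∈ Bad M i q j := by
  classical
  -- first violating layer
  have h1 : ∃ i, i < k ∧ ∃ r j : ℕ, j ≤ 2 ^ r ∧ hgt √2 0 M (i + 1) (dp r j) z < 0 := by
    by_contra hcon
    apply hz
    intro i hi r j hj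
    by_contra hlt
    exact hcon ⟨i, hi, r, j, hj, not_le.1 hlt⟩
  let i := Nat.find h1
  obtain ⟨hik, r, j, hj, hneg⟩ : i < k ∧ ∃ r j : ℕ, j ≤ 2 ^ r ∧
    hgt √2 0 M (i + 1) (dp r j) z < 0 := Nat.find_spec h1
  have hmin : ∀ l < i, ∀ r j : ℕ, j ≤ 2 ^ r → 0 ≤ hgt √2 0 M (l + 1) (dp r j) z := by
    intro l hl r j hj
    by_contra hlt
    exact Nat.find_min h1 hl ⟨hl.trans hik, r, j, hj, not_le.1 hlt⟩
  have hbar : ∀ r j : ℕ, j ≤ 2 ^ r → z ∈ Bar √2 0 M i (dp r j) := by
    intro r j hj l hl1 hl2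
    obtain ⟨l', rfl⟩ : ∃ l', l = l' + 1 := ⟨l - 1, by omega⟩
    exact hmin l' (by omega) r j hj
  -- chain
  let J : ℕ → ℕ := fun q => (j * 2 ^ (i + 1 + q)) / 2 ^ r
  have hJle : ∀ q, J q ≤ 2 ^ (i + 1 + q) := by
    intro q
    refine Nat.div_le_of_le_mul ?_
    rw [mul_comm]
    exact Nat.mul_le_mul (le_refl _) hj |>.trans (by rw [mul_comm])
  have hJhalf : ∀ q, J q = J (q + 1) / 2 := by
    intro q
    simp only [J]
    rw [Nat.div_div_eq_div_mul, ← add_assoc, pow_succ, ← mul_assoc, Nat.mul_div_mul_right _ _ two_pos]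
  have hlast : dp (i + 1 + r) (J r) = dp r j := by
    simp only [J, dp]
    have h3 : j * 2 ^ (i + 1 + r) / 2 ^ r = j * 2 ^ (i + 1) := by
      rw [pow_add, ← mul_assoc, Nat.mul_div_cancel _ (by positivity)]
    rw [h3]
    push_cast
    rw [div_eq_div_iff (by positivity) (by positivity)]
    ring
  have h2 : ∃ q, hgt √2 0 M (i + 1) (dp (i + 1 + q) (J q)) z < beta q :=
    ⟨r, by rw [hlast]; exact hneg.trans (beta_pos r)⟩
  let q := Nat.find h2
  have hq : hgt √2 0 M (i + 1) (dp (i + 1 + q) (J q)) z < beta q := Nat.find_spec h2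
  have hqmin : ∀ l < q, beta l ≤ hgt √2 0 M (i + 1) (dp (i + 1 + l) (J l)) z := by
    intro l hl
    exact not_lt.1 (Nat.find_min h2 hl)
  refine ⟨i, hik, q, J q, hJle q, ?_⟩
  generalize hqq : q = q' at hq hqmin
  cases q' with
  | zero => exact ⟨hbar _ _ (hJle 0), hq, trivial⟩
  | succ p =>
    refine ⟨hbar _ _ (hJle (p + 1)), hq, ?_⟩
    have h4 := hqmin p (by omega)
    have h5 : hgt √2 0 M (i + 1) (dp (i + 1 + p) (J p)) z -
        hgt √2 0 M (i + 1) (dp (i + 1 + (p + 1)) (J (p + 1))) z > beta p - beta (p + 1) := by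
      linarith
    have h6 : hgt √2 0 M (i + 1) (dp (i + 1 + p) (J p)) z -
        hgt √2 0 M (i + 1) (dp (i + 1 + (p + 1)) (J (p + 1))) z =
        So 0 (i + 1) (dp (i + 1 + (p + 1)) (J (p + 1))) z - So 0 (i + 1) (dp (i + 1 + p) (J p)) z := by
      unfold hgt; ring
    rw [h6] at h5
    have hpos : 0 < beta p - beta (p + 1) := by rw [beta_sub]; positivity
    -- parity
    rcases Nat.even_or_odd' (J (p + 1)) with ⟨c, hc | hc⟩
    · exfalso
      have h7 : J p = c := by rw [hJhalf p, hc]; omega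
      have h8 : dp (i + 1 + (p + 1)) (J (p + 1)) = dp (i + 1 + p) (J p) := by
        rw [hc, h7]
        unfold dp
        rw [← add_assoc, pow_succ]
        push_cast
        field_simp
      rw [h8, sub_self] at h5
      linarith
    · have h7 : J p = c := by rw [hJhalf p, hc]; omega
      have h8 : dp (i + 1 + (p + 1)) (J (p + 1)) - (2 ^ (i + 1 + (p + 1)))⁻¹ =
          dp (i + 1 + p) (J p) := by
        rw [hc, h7]
        unfold dp
        rw [← add_assoc, pow_succ]
        push_cast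
        field_simp
        ring
      show beta p - beta (p + 1) < _
      rw [h8]
      exact h5

lemma measurableSet_Good (M : ℝ) (k : ℕ) : MeasurableSet (Good M k) := by
  have : Good M k = ⋂ i : ℕ, ⋂ _ : i < k, ⋂ r : ℕ, ⋂ j : ℕ, ⋂ _ : j ≤ 2 ^ r,
      {z | 0 ≤ hgt √2 0 M (i + 1) (dp r j) z} := by
    ext z
    simp [Good]
  rw [this]
  exact MeasurableSet.iInter fun i => MeasurableSet.iInter fun _ => MeasurableSet.iInter fun r =>
    MeasurableSet.iInter fun j => MeasurableSet.iInter fun _ =>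
    measurableSet_le measurable_const (measurable_hgt _ _ _ _ _)

lemma Good_anti (M : ℝ) {k l : ℕ} (hkl : k ≤ l) : Good M l ⊆ Good M k :=
  fun _ hz i hi r j hj => hz i (lt_of_lt_of_le hi hkl) r j hj

lemma Good_mono {M M' : ℝ} (hM : M ≤ M') (k : ℕ) : Good M k ⊆ Good M' k := by
  intro z hz i hi r j hj
  have := hz i hi r j hj
  unfold hgt at this ⊢
  linarith

lemma mem_Good_glue {M : ℝ} {k l : ℕ} (hkl : k ≤ l) (p q : Path) :
    glue l p q ∈ Good M k ↔ p ∈ Good M k := by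
  unfold Good
  simp only [Set.mem_ofPred_eq]
  refine forall_congr' fun i => imp_congr_right fun hi => forall_congr' fun r =>
    forall_congr' fun j => imp_congr_right fun _ => ?_
  rw [hgt_glue_le (by omega)]

lemma rpow_min {x e d : ℝ} (hx : 0 ≤ x) (h1 : x ≤ e) (h2 : x ≤ d) :
    x ≤ e ^ (3 / 4 : ℝ) * d ^ (1 / 4 : ℝ) := by
  calc x = x ^ (3 / 4 : ℝ) * x ^ (1 / 4 : ℝ) := by
        rw [← Real.rpow_add_of_nonneg hx (by norm_num) (by norm_num)]
        norm_num
    _ ≤ _ := by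
        have h0 : 0 ≤ e := hx.trans h1
        gcongr

/-- decay factor of the chaining -/
noncomputable def gq : ℕ → ℝ
  | 0 => 1
  | (q + 1) => Real.exp (-((81 / 50) ^ q / 2))

lemma gq_nonneg (q : ℕ) : 0 ≤ gq q := by
  cases q
  · simp [gq]
  · simp only [gq]; positivity

lemma gq_le (q : ℕ) : 2 ^ q * gq q ≤ 16 * (5000 / 6561) ^ (q - 1) := by
  cases q with
  | zero => simp [gq]
  | succ q =>
    simp only [gq, add_tsub_cancel_right]
    set x : ℝ := (81 / 50) ^ q / 2 with hx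
    have hx0 : 0 < x := by positivity
    have h1 : x ^ 2 / 2 ≤ Real.exp x := by
      have := Real.quadratic_le_exp_of_nonneg hx0.le
      linarith
    have h2 : Real.exp (-x) ≤ 2 / x ^ 2 := by
      rw [Real.exp_neg, inv_le_comm₀ (Real.exp_pos _) (by positivity)]
      calc (2 / x ^ 2)⁻¹ = x ^ 2 / 2 := by rw [inv_div]
        _ ≤ _ := h1
    calc (2 : ℝ) ^ (q + 1) * Real.exp (-x) ≤ 2 ^ (q + 1) * (2 / x ^ 2) := by gcongr
      _ = 16 * (5000 / 6561) ^ q := by
        rw [hx, div_pow, ← pow_mul, mul_comm q 2, pow_mul]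
        have : (5000 / 6561 : ℝ) ^ q = 2 ^ q / ((81 / 50) ^ 2) ^ q := by
          rw [← div_pow]; norm_num
        rw [this]
        field_simp
        try ring

namespace Cone

variable {μ : Measure Path}

lemma Ev_real_le (h : Cone μ) : ∃ C : ℝ, 0 ≤ C ∧ ∀ (M β : ℝ) (k : ℕ) (x : ℝ), 0 ≤ M → β ≤ 40 →
    μ.real (Ev M β k x) ≤ C * ((1 + M) / ((k + 1) * √(k + 1))) := by
  obtain ⟨C, hC0, hC⟩ := walk_exp_bound
  refine ⟨Real.exp (40 + 1 / 2 * Real.log 2) * C, by positivity, fun M β k x hM hβ => ?_⟩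
  have h1 := h.Ev_le M β k x
  have h2 : μ (Ev M β k x) ≤ ENNReal.ofReal (Real.exp (40 + 1 / 2 * Real.log 2) * C *
      ((1 + M) / ((k + 1) * √(k + 1)))) := by
    refine h1.trans ?_
    rw [mul_assoc, ENNReal.ofReal_mul (Real.exp_pos _).le]
    gcongr
    exact hC k M hM
  exact ENNReal.toReal_le_of_le_ofReal (by positivity) h2

lemma Bad_le (h : Cone μ) : ∃ B : ℝ, 0 ≤ B ∧ ∀ (M : ℝ) (i q j : ℕ), 0 ≤ M →
    μ (Bad M i q j) ≤ ENNReal.ofReal (B * ((1 + M) * Real.exp (-(√2 * M))) *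
      ((2 ^ (i + 1))⁻¹ * ((i : ℝ) + 1) ^ (-(9 / 8) : ℝ)) * gq q) := by
  have := h.isProb
  obtain ⟨C, hC0, hC⟩ := h.Ev_real_le
  refine ⟨Real.exp (√2 * 40) * (C + 1), by positivity, fun M i q j hM => ?_⟩
  -- the common part
  have hE : ∀ (β x : ℝ) (D : Set Path) (d : ℝ), β ≤ 40 → 0 ≤ d → μ D ≤ ENNReal.ofReal d →
      ENNReal.ofReal (Real.exp (√2 * (β - M) - ((i + 1 : ℕ) : ℝ) * Real.log 2)) *
       μ (Ev M β i x ∩ D) ≤ ENNReal.ofReal (Real.exp (√2 * 40) * (C + 1) *
        ((1 + M) * Real.exp (-(√2 * M))) *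
      ((2 ^ (i + 1))⁻¹ * ((i : ℝ) + 1) ^ (-(9 / 8) : ℝ)) * d ^ (1 / 4 : ℝ)) := by
    intro β x D d hβ hd hD
    have h1 : μ.real (Ev M β i x ∩ D) ≤ (C * ((1 + M) / ((i + 1) * √(i + 1)))) ^ (3 / 4 : ℝ) *
        d ^ (1 / 4 : ℝ) := by
      refine rpow_min measureReal_nonneg ?_ ?_
      · exact (measureReal_mono Set.inter_subset_left).trans (hC M β i x hM hβ)
      · refine ENNReal.toReal_le_of_le_ofReal hd ?_
        exact (measure_mono Set.inter_subset_right).trans hD
    have h2 : (C * ((1 + M) / (((i : ℝ) + 1) * √(i + 1)))) ^ (3 / 4 : ℝ) ≤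
        (C + 1) * (1 + M) * ((i : ℝ) + 1) ^ (-(9 / 8) : ℝ) := by
      have e1 : C * ((1 + M) / (((i : ℝ) + 1) * √(i + 1))) =
          (C * (1 + M)) * ((i : ℝ) + 1) ^ (-(3 / 2) : ℝ) := by
        have e2 : ((i : ℝ) + 1) ^ (-(3 / 2) : ℝ) = (((i : ℝ) + 1) * √(i + 1))⁻¹ := by
          rw [Real.rpow_neg (by positivity), Real.sqrt_eq_rpow]
          congr 1
          rw [← Real.rpow_one_add' (by positivity) (by norm_num)]
          norm_num
        rw [e2]
        field_simp
      rw [e1, Real.mul_rpow (by positivity) (by positivity), ← Real.rpow_mul (by positivity)]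
      have e3 : (-(3 / 2) : ℝ) * (3 / 4) = -(9 / 8) := by norm_num
      rw [e3]
      gcongr
      calc (C * (1 + M)) ^ (3 / 4 : ℝ) ≤ ((C + 1) * (1 + M)) ^ (3 / 4 : ℝ) := by
            gcongr
            linarith
        _ ≤ ((C + 1) * (1 + M)) ^ (1 : ℝ) := by
            refine Real.rpow_le_rpow_of_exponent_le ?_ (by norm_num)
            nlinarith
        _ = _ := Real.rpow_one _
    have h3 : Real.exp (√2 * (β - M) - ((i + 1 : ℕ) : ℝ) * Real.log 2) ≤
        Real.exp (√2 * 40) * Real.exp (-(√2 * M)) * (2 ^ (i + 1))⁻¹ := by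
      have e4 : ((2 : ℝ) ^ (i + 1))⁻¹ = Real.exp (-(((i + 1 : ℕ) : ℝ) * Real.log 2)) := by
        rw [Real.exp_neg, ← Real.log_pow, Real.exp_log (by positivity)]
      rw [e4, ← Real.exp_add, ← Real.exp_add]
      refine Real.exp_le_exp.2 ?_
      have : √2 * β ≤ √2 * 40 := by gcongr
      linarith
    rw [← ofReal_measureReal (measure_ne_top μ _), ← ENNReal.ofReal_mul (Real.exp_pos _).le]
    refine ENNReal.ofReal_le_ofReal ?_
    calc Real.exp (√2 * (β - M) - ((i + 1 : ℕ) : ℝ) * Real.log 2) * μ.real (Ev M β i x ∩ D)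
        ≤ (Real.exp (√2 * 40) * Real.exp (-(√2 * M)) * (2 ^ (i + 1))⁻¹) *
          (((C + 1) * (1 + M) * ((i : ℝ) + 1) ^ (-(9 / 8) : ℝ)) * d ^ (1 / 4 : ℝ)) := by
          gcongr
          exact h1.trans (by gcongr)
      _ = _ := by ring
  cases q with
  | zero =>
    have h1 := h.cell_le M (beta 0) i (dp (i + 1) j) (D := Set.univ) MeasurableSet.univ
    refine h1.trans ?_
    have h2 := hE (beta 0) (dp (i + 1) j) {z | z + twoC (Finset.Ioc 0 (0 + (i + 1))) √2 0
      (dp (i + 1) j) (dp (i + 1) j) ∈ (Set.univ : Set Path)} 1 (beta_le 0) zero_le_one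
      (by rw [ENNReal.ofReal_one]; exact prob_le_one)
    simpa [gq] using h2
  | succ p =>
    set x := dp (i + 1 + (p + 1)) j with hx
    set w : ℝ := (2 ^ (i + 1 + (p + 1)))⁻¹ with hw
    have hw0 : 0 < w := by positivity
    have hD : MeasurableSet {z | beta p - beta (p + 1) < So 0 (i + 1) x z -
        So 0 (i + 1) (x - w) z} :=
      measurableSet_lt measurable_const ((measurable_So _ _ _).sub (measurable_So _ _ _))
    have h1 := h.cell_le M (beta (p + 1)) i x hD
    refine h1.trans ?_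
    have hxw : x - (x - w) = w := by ring
    have hwle : |x - (x - w)| ≤ (2 ^ (i + 1))⁻¹ := by
      rw [hxw, abs_of_pos hw0, hw, pow_add]
      refine inv_anti₀ (by positivity) ?_
      have : (1 : ℝ) ≤ 2 ^ (p + 1) := one_le_pow₀ (by norm_num)
      nlinarith [show (0 : ℝ) < 2 ^ (i + 1) by positivity]
    have h2w : (2 : ℝ) ^ (i + 1) * w = (2 ^ (p + 1))⁻¹ := by
      have h01 : (2 : ℝ) ^ (i + 1) ≠ 0 := by positivity
      rw [hw, pow_add 2 (i + 1) (p + 1), mul_inv, ← mul_assoc, mul_inv_cancel₀ h01, one_mul]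
    -- the increment event
    have hne : x ≠ x - w := by
      intro h0
      linarith
    have h2 := h.incr_le i (x := x) (y := x - w) hne hwle (θ := (9 / 10) ^ p * 2 ^ (p + 1)) (by positivity)
      (2 * (9 / 10) ^ p)
    have h3 : {z | z + twoC (Finset.Ioc 0 (0 + (i + 1))) √2 0 x x ∈
        {z | beta p - beta (p + 1) < So 0 (i + 1) x z - So 0 (i + 1) (x - w) z}} ⊆
        {z | 2 * (9 / 10) ^ p < So 0 (i + 1) x z - So 0 (i + 1) (x - w) z} := by
      intro z hz
      have hz' : beta p - beta (p + 1) < So 0 (i + 1) x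
          (z + twoC (Finset.Ioc 0 (0 + (i + 1))) √2 0 x x) - So 0 (i + 1) (x - w)
          (z + twoC (Finset.Ioc 0 (0 + (i + 1))) √2 0 x x) := hz
      rw [So_add, So_add, So_twoC le_rfl, So_twoC le_rfl, sub_self, beta_sub] at hz'
      have e1 : x - w - x = -w := by ring
      have e2 : dK 0 (i + 1) (-w) = ((i + 1 : ℕ) : ℝ) * Real.log 2 - (2 ^ (i + 1) - 1) * w := by
        rw [dK_of_le, abs_neg, abs_of_pos hw0]
        · simp
        · rw [abs_neg, abs_of_pos hw0]
          rw [hxw, abs_of_pos hw0] at hwle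
          simpa using hwle
      rw [e1, e2, dK_zero_right] at hz'
      show 2 * (9 / 10) ^ p < So 0 (i + 1) x z - So 0 (i + 1) (x - w) z
      have h4 : √2 * ((2 ^ (i + 1) - 1) * w) ≤ 2 * (9 / 10) ^ p := by
        have h5 : (2 ^ (i + 1) - 1) * w ≤ (2 ^ (p + 1))⁻¹ := by
          rw [← h2w]; nlinarith
        have h6 : √2 ≤ 2 := by
          rw [Real.sqrt_le_left (by norm_num)]; norm_num
        have h7 : ((2 : ℝ) ^ (p + 1))⁻¹ ≤ (9 / 10) ^ p := by
          rw [pow_succ, mul_inv, ← inv_pow]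
          have : ((2 : ℝ)⁻¹) ^ p ≤ (9 / 10) ^ p := by gcongr; norm_num
          have h8 : (0 : ℝ) ≤ ((2 : ℝ)⁻¹) ^ p := by positivity
          linarith
        calc √2 * ((2 ^ (i + 1) - 1) * w) ≤ 2 * (2 ^ (p + 1))⁻¹ := by
              refine mul_le_mul h6 h5 ?_ (by norm_num)
              have : (1 : ℝ) ≤ 2 ^ (i + 1) := one_le_pow₀ (by norm_num)
              have h9 : (0 : ℝ) ≤ 2 ^ (i + 1) - 1 := by linarith
              positivity
          _ ≤ _ := by gcongr
      have h10 : √2 * ((2 ^ (i + 1) - 1) * w) = √2 * (((i + 1 : ℕ) : ℝ) * Real.log 2) -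
          √2 * (((i + 1 : ℕ) : ℝ) * Real.log 2 - (2 ^ (i + 1) - 1) * w) := by ring
      linarith
    have h4 := hE (beta (p + 1)) x _ (Real.exp (-(2 * (81 / 50) ^ p))) (beta_le _)
      (Real.exp_pos _).le (((measure_mono h3).trans h2).trans (ENNReal.ofReal_le_ofReal
        (Real.exp_le_exp.2 ?_)))
    · have e5 : Real.exp (-(2 * (81 / 50) ^ p)) ^ (1 / 4 : ℝ) = gq (p + 1) := by
        simp only [gq]
        rw [← Real.exp_mul]
        congr 1
        ring
      rw [e5] at h4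
      exact h4
    · rw [hxw, abs_of_pos hw0, h2w]
      have e6 : ((9 / 10 : ℝ) ^ p * 2 ^ (p + 1)) ^ 2 * (2 ^ (p + 1))⁻¹ = 2 * (81 / 50) ^ p := by
        have : ((81 / 50 : ℝ)) ^ p = (9 / 10) ^ p * (9 / 10) ^ p * 2 ^ p := by
          rw [← mul_pow, ← mul_pow]; norm_num
        rw [this, pow_succ]
        field_simp
        ring
      have e7 : (9 / 10 : ℝ) ^ p * 2 ^ (p + 1) * (2 * (9 / 10) ^ p) = 4 * (81 / 50) ^ p := by
        have : ((81 / 50 : ℝ)) ^ p = (9 / 10) ^ p * (9 / 10) ^ p * 2 ^ p := by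
          rw [← mul_pow, ← mul_pow]; norm_num
        rw [this, pow_succ]
        ring
      rw [e6, e7]
      linarith

/-- the good event has probability close to one, uniformly in the number of layers -/
lemma good_compl_le (h : Cone μ) : ∃ C : ℝ, 0 ≤ C ∧ ∀ (M : ℝ) (k : ℕ), 0 ≤ M →
    μ (Good M k)ᶜ ≤ ENNReal.ofReal (C * ((1 + M) * Real.exp (-(√2 * M)))) := by
  obtain ⟨B, hB0, hB⟩ := h.Bad_le
  -- summability
  have hs1 : Summable (fun i : ℕ => ((i : ℝ) + 1) ^ (-(9 / 8) : ℝ)) := by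
    have := (Real.summable_nat_rpow (p := -(9 / 8))).2 (by norm_num)
    have h2 := (summable_nat_add_iff 1).2 this
    simpa using h2
  have hs2 : Summable (fun q : ℕ => (16 : ℝ) * (5000 / 6561) ^ (q - 1)) := by
    refine Summable.mul_left _ ?_
    rw [← summable_nat_add_iff 1]
    simpa using summable_geometric_of_lt_one (r := (5000 / 6561 : ℝ)) (by norm_num) (by norm_num)
  have hs3 : Summable (fun q : ℕ => 2 ^ q * gq q) :=
    Summable.of_nonneg_of_le (fun q => mul_nonneg (by positivity) (gq_nonneg q)) gq_le hs2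
  set S1 : ℝ := ∑' i : ℕ, ((i : ℝ) + 1) ^ (-(9 / 8) : ℝ)
  set S2 : ℝ := ∑' q : ℕ, 2 ^ q * gq q
  have hS1 : 0 ≤ S1 := tsum_nonneg fun i => by positivity
  have hS2 : 0 ≤ S2 := tsum_nonneg fun q => mul_nonneg (by positivity) (gq_nonneg q)
  refine ⟨2 * B * S1 * S2, by positivity, fun M k hM => ?_⟩
  have hsub : (Good M k)ᶜ ⊆ ⋃ i : ℕ, ⋃ q : ℕ, ⋃ j ∈ Finset.range (2 ^ (i + 1 + q) + 1),
      Bad M i q j := by
    intro z hz
    obtain ⟨i, _, q, j, hj, hb⟩ := not_good_subset hz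
    simp only [Set.mem_iUnion]
    exact ⟨i, q, j, Finset.mem_range.2 (by omega), hb⟩
  set R : ℝ := (1 + M) * Real.exp (-(√2 * M)) with hR
  have hR0 : 0 ≤ R := by positivity
  calc μ (Good M k)ᶜ ≤ ∑' i : ℕ, ∑' q : ℕ, ∑ j ∈ Finset.range (2 ^ (i + 1 + q) + 1),
        μ (Bad M i q j) := by
        refine (measure_mono hsub).trans ((measure_iUnion_le _).trans ?_)
        refine ENNReal.tsum_le_tsum fun i => (measure_iUnion_le _).trans ?_
        exact ENNReal.tsum_le_tsum fun q => measure_biUnion_finset_le _ _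
    _ ≤ ∑' i : ℕ, ∑' q : ℕ, ENNReal.ofReal ((2 * B * R) * (((i : ℝ) + 1) ^ (-(9 / 8) : ℝ)) *
          (2 ^ q * gq q)) := by
        refine ENNReal.tsum_le_tsum fun i => ENNReal.tsum_le_tsum fun q => ?_
        calc ∑ j ∈ Finset.range (2 ^ (i + 1 + q) + 1), μ (Bad M i q j)
            ≤ ∑ _j ∈ Finset.range (2 ^ (i + 1 + q) + 1), ENNReal.ofReal (B * R *
              ((2 ^ (i + 1))⁻¹ * ((i : ℝ) + 1) ^ (-(9 / 8) : ℝ)) * gq q) :=
              Finset.sum_le_sum fun j _ => hB M i q j hM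
          _ = ENNReal.ofReal (((2 ^ (i + 1 + q) + 1 : ℕ) : ℝ) * (B * R *
              ((2 ^ (i + 1))⁻¹ * ((i : ℝ) + 1) ^ (-(9 / 8) : ℝ)) * gq q)) := by
              rw [Finset.sum_const, Finset.card_range, nsmul_eq_mul,
                ENNReal.ofReal_mul (p := ((2 ^ (i + 1 + q) + 1 : ℕ) : ℝ)) (by positivity),
                ENNReal.ofReal_natCast]
          _ ≤ _ := by
              refine ENNReal.ofReal_le_ofReal ?_
              have h1 : ((2 ^ (i + 1 + q) + 1 : ℕ) : ℝ) ≤ 2 * (2 ^ (i + 1) * 2 ^ q) := by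
                push_cast
                rw [pow_add 2 (i + 1) q]
                have : (1 : ℝ) ≤ 2 ^ (i + 1) * 2 ^ q := by
                  rw [← pow_add]; exact one_le_pow₀ (by norm_num)
                linarith
              have h2 : 0 ≤ B * R * ((2 ^ (i + 1))⁻¹ * ((i : ℝ) + 1) ^ (-(9 / 8) : ℝ)) * gq q :=
                mul_nonneg (by positivity) (gq_nonneg q)
              calc _ ≤ 2 * (2 ^ (i + 1) * 2 ^ q) * (B * R *
                    ((2 ^ (i + 1))⁻¹ * ((i : ℝ) + 1) ^ (-(9 / 8) : ℝ)) * gq q) := by gcongr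
                _ = _ := by field_simp
    _ = ENNReal.ofReal (2 * B * R * S1 * S2) := by
        have h3 : ∀ i : ℕ, ∑' q : ℕ, ENNReal.ofReal ((2 * B * R) *
            (((i : ℝ) + 1) ^ (-(9 / 8) : ℝ)) * (2 ^ q * gq q)) =
            ENNReal.ofReal ((2 * B * R) * (((i : ℝ) + 1) ^ (-(9 / 8) : ℝ)) * S2) := by
          intro i
          rw [← ENNReal.ofReal_tsum_of_nonneg]
          · rw [tsum_mul_left]
          · intro q
            exact mul_nonneg (by positivity) (mul_nonneg (by positivity) (gq_nonneg q))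
          · exact hs3.mul_left _
        simp_rw [h3]
        rw [← ENNReal.ofReal_tsum_of_nonneg]
        · rw [tsum_mul_right, tsum_mul_left]
        · intro i; positivity
        · exact (hs1.mul_left _).mul_right _
    _ = _ := by
        congr 1
        ring

/-- on the good event the barrier holds at every given point almost surely -/
lemma good_bar (h : Cone μ) (M : ℝ) (k : ℕ) {x : ℝ} (hx : x ∈ Set.Icc (0 : ℝ) 1) :
    ∀ᵐ z ∂μ, z ∈ Good M k → z ∈ Bar √2 0 M k x := by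
  have h1 : ∀ᵐ z ∂μ, ∀ i : ℕ, Tendsto (fun r : ℕ => z (i, dy r x)) atTop (𝓝 (z (i, x))) :=
    ae_all_iff.2 fun i => h.ae_tendsto i x
  filter_upwards [h1] with z hz hgood
  intro l hl1 hl2
  obtain ⟨i, rfl⟩ : ∃ i, l = i + 1 := ⟨l - 1, by omega⟩
  have h2 : Tendsto (fun r : ℕ => hgt √2 0 M (i + 1) (dy r x) z) atTop
      (𝓝 (hgt √2 0 M (i + 1) x z)) := by
    unfold hgt So
    exact tendsto_const_nhds.sub (tendsto_finsetSum _ fun j _ => hz _)
  refine ge_of_tendsto' h2 fun r => ?_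
  have h3 : dy r x = dp r ⌊(2 : ℝ) ^ r * x⌋.toNat := by
    unfold dy dp
    congr 1
    have : 0 ≤ ⌊(2 : ℝ) ^ r * x⌋ := Int.floor_nonneg.2 (mul_nonneg (by positivity) hx.1)
    have h4 : ((⌊(2 : ℝ) ^ r * x⌋.toNat : ℤ) : ℝ) = (⌊(2 : ℝ) ^ r * x⌋ : ℝ) := by
      rw [Int.toNat_of_nonneg this]
    rw [← h4]
    push_cast
    rfl
  rw [h3]
  refine hgood i (by omega) r _ ?_
  rw [Int.toNat_le]
  have h5 : (2 : ℝ) ^ r * x ≤ 2 ^ r := by
    have := hx.2
    have h6 : (0 : ℝ) < 2 ^ r := by positivity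
    nlinarith
  have h7 : ⌊(2 : ℝ) ^ r * x⌋ ≤ ⌊((2 ^ r : ℕ) : ℝ)⌋ := by
    refine Int.floor_le_floor ?_
    push_cast
    exact h5
  rwa [Int.floor_natCast] at h7

end Cone

end Pool.Agent.helper95.GMC
end

/-! ### merged from `Pool.Agent.helper95.GMC.DensDefs` -/

section
/-!
Definitions: chaos densities (jointly measurable versions), truncated critical mass, kernels.
-/

open MeasureTheory ProbabilityTheory Filter Topology Set
open scoped ENNReal NNReal

namespace Pool.Agent.helper95.GMC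

/-- `γ = 1/√2` -/
noncomputable def gam : ℝ := √2 / 2

/-- sum of the layers `s+1, ..., s+k` at `x` (jointly measurable version) -/
noncomputable def SY (s k : ℕ) (x : ℝ) (z : Path) : ℝ :=
  ∑ j ∈ Finset.range k, Y (s + j + 1) x z

/-- density of the chaos built on the layers `0, ..., k` -/
noncomputable def mm (k : ℕ) (x : ℝ) (z : Path) : ℝ :=
  Real.exp (gam * (Y 0 x z + SY 0 k x z) - (1 + k * Real.log 2) / 4)

/-- density of the chaos built on the layers `s+1, ..., s+k` -/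
noncomputable def rr (s k : ℕ) (x : ℝ) (z : Path) : ℝ :=
  Real.exp (gam * SY s k x z - k * Real.log 2 / 4)

/-- barrier, jointly measurable version -/
def BY (M : ℝ) (k : ℕ) : Set (ℝ × Path) :=
  {q | ∀ i, 1 ≤ i → i ≤ k → 0 ≤ M + √2 * (i * Real.log 2) - SY 0 i q.1 q.2}

/-- critical density (`γ = √2`) with the barrier -/
noncomputable def nn (M : ℝ) (k : ℕ) (x : ℝ) (z : Path) : ℝ :=
  (BY M k).indicator (fun q => Real.exp (√2 * (Y 0 q.1 q.2 + SY 0 k q.1 q.2) -
    (1 + k * Real.log 2))) (x, z)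

/-- truncated critical mass -/
noncomputable def NN (M : ℝ) (k : ℕ) (z : Path) : ℝ := ∫ x in (0 : ℝ)..1, nn M k x z

/-- `E m_p(x) m_p(y)` as a function of `x - y` -/
noncomputable def FF (p : ℕ) (w : ℝ) : ℝ := Real.exp (K p w / 2)

/-- covariance of `ρ_{s,p2}(x) - ρ_{s,p1}(x)`, where `ρ_{s,p}` is the chaos density over the
layers `s+1..p` -/
noncomputable def Psi (s p1 p2 : ℕ) (w : ℝ) : ℝ :=
  Real.exp ((K p2 w - K s w) / 2) - Real.exp ((K p1 w - K s w) / 2)

end Pool.Agent.helper95.GMC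
end
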