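import Pool.Agent.helper95.GMC.Coarse

/-!
Conditional variance: main term and errors.
-/

open MeasureTheory ProbabilityTheory Filter Topology Set
open scoped ENNReal NNReal

namespace Pool.Agent.helper95.GMC

set_option maxHeartbeats 400000

/-- the main coefficient -/
noncomputable def VV (n s p1 p2 : ℕ) : ℝ := ∫ w, Real.cos (2 * Real.pi * n * w) * Psi s p1 p2 w

lemma cs_eq (n : ℕ) (θ x w : ℝ) : cs n θ (x - w) + cs n θ (x + w) =
    2 * cs n θ x * Real.cos (2 * Real.pi * n * w) := by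
  unfold cs
  have h1 : 2 * Real.pi * n * (x - w) + θ = (2 * Real.pi * n * x + θ) - 2 * Real.pi * n * w := by
    ring
  have h2 : 2 * Real.pi * n * (x + w) + θ = (2 * Real.pi * n * x + θ) + 2 * Real.pi * n * w := by
    ring
  rw [h1, h2]
  generalize 2 * Real.pi * n * x + θ = α
  generalize 2 * Real.pi * n * w = β
  rw [Real.cos_sub, Real.cos_add]
  ring

lemma conv_eq (n : ℕ) (θ x : ℝ) (s : ℕ) {k1 k2 : ℕ} (hk : k1 ≤ k2) :
    ∫ y, cs n θ y * Psi s (s + k1) (s + k2) (x - y) = cs n θ x * VV n s (s + k1) (s + k2) := by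
  have hP := goodKer_Psi s hk
  set P := Psi s (s + k1) (s + k2) with hPdef
  have hbd : ∀ f : ℝ → ℝ, Measurable f → (∀ w, |f w| ≤ 1) → Integrable (fun w => f w * P w) := by
    intro f hf hf1
    exact hP.int.bdd_mul (c := 1) hf.aestronglyMeasurable (ae_of_all _ fun x => hf1 x)
  have e1 : ∫ y, cs n θ y * P (x - y) = ∫ w, cs n θ (x - w) * P w := by
    rw [← integral_sub_left_eq_self (fun w => cs n θ (x - w) * P w) volume x]
    refine integral_congr_ae (ae_of_all _ fun y => ?_)
    simp only [sub_sub_cancel]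
  have e2 : ∫ w, cs n θ (x - w) * P w = ∫ w, cs n θ (x + w) * P w := by
    rw [← integral_neg_eq_self (fun w => cs n θ (x - w) * P w)]
    refine integral_congr_ae (ae_of_all _ fun w => ?_)
    simp only [hP.even, sub_neg_eq_add]
  have m1 : Measurable (fun w => cs n θ (x - w)) := (measurable_cs n θ).comp (by fun_prop)
  have m2 : Measurable (fun w => cs n θ (x + w)) := (measurable_cs n θ).comp (by fun_prop)
  have i1 := hbd _ m1 (fun w => abs_cs_le n θ _)
  have i2 := hbd _ m2 (fun w => abs_cs_le n θ _)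
  have e3 : 2 * ∫ w, cs n θ (x - w) * P w = 2 * (cs n θ x * VV n s (s + k1) (s + k2)) := by
    calc 2 * ∫ w, cs n θ (x - w) * P w
        = (∫ w, cs n θ (x - w) * P w) + ∫ w, cs n θ (x + w) * P w := by rw [← e2]; ring
      _ = ∫ w, (cs n θ (x - w) * P w + cs n θ (x + w) * P w) := (integral_add i1 i2).symm
      _ = ∫ w, 2 * cs n θ x * (Real.cos (2 * Real.pi * n * w) * P w) := by
          refine integral_congr_ae (ae_of_all _ fun w => ?_)
          simp only
          rw [← add_mul, cs_eq]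
          ring
      _ = _ := by
          rw [integral_const_mul]
          unfold VV
          ring
  rw [e1]
  linarith

lemma abs_VV_le (n s : ℕ) {k1 k2 : ℕ} (hk : k1 ≤ k2) :
    |VV n s (s + k1) (s + k2)| ≤ ∫ w, Psi s (s + k1) (s + k2) w := by
  have hP := goodKer_Psi s hk
  unfold VV
  refine abs_integral_le_integral_abs.trans ?_
  refine integral_mono_of_nonneg (ae_of_all _ fun q => abs_nonneg _) hP.int (ae_of_all _ fun w => ?_)
  simp only
  rw [abs_mul, abs_of_nonneg (hP.nonneg w)]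
  exact mul_le_of_le_one_left (hP.nonneg w) (Real.abs_cos_le_one _)

/-- boundary layer -/
def Sb (p : ℕ) : Set ℝ := (Set.Icc 0 ((2 ^ p)⁻¹) ∪ Set.Icc (1 - (2 ^ p)⁻¹) 1) ∩ UI

lemma measurableSet_Sb (p : ℕ) : MeasurableSet (Sb p) :=
  (measurableSet_Icc.union measurableSet_Icc).inter measurableSet_Icc

lemma Sb_subset (p : ℕ) : Sb p ⊆ UI := Set.inter_subset_right

lemma volume_Sb_le (p : ℕ) : volume (Sb p) ≤ ENNReal.ofReal (2 * (2 ^ p)⁻¹) := by
  unfold Sb
  refine (measure_mono Set.inter_subset_left).trans ((measure_union_le _ _).trans ?_)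
  rw [Real.volume_Icc, Real.volume_Icc, ← ENNReal.ofReal_add (by rw [sub_zero]; positivity)]
  · refine ENNReal.ofReal_le_ofReal (le_of_eq ?_)
    ring
  · have : (0 : ℝ) < (2 ^ p)⁻¹ := by positivity
    linarith

lemma tail_le (n : ℕ) (θ : ℝ) (s : ℕ) {k1 k2 : ℕ} (hk : k1 ≤ k2) {x : ℝ} (hx : x ∈ UI) :
    |(∫ y in UI, cs n θ y * Psi s (s + k1) (s + k2) (x - y)) -
      cs n θ x * VV n s (s + k1) (s + k2)| ≤
      (Sb (s + k1)).indicator (fun _ => ∫ w, Psi s (s + k1) (s + k2) w) x := by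
  have hP := goodKer_Psi s hk
  rw [← conv_eq n θ x s hk]
  set P := Psi s (s + k1) (s + k2) with hPdef
  have hi : Integrable (fun y => cs n θ y * P (x - y)) :=
    (hP.int_shift x).bdd_mul (c := 1) (measurable_cs n θ).aestronglyMeasurable
      (ae_of_all _ fun x => abs_cs_le n θ x)
  have e1 := integral_add_compl (measurableSet_Icc : MeasurableSet UI) hi
  have e2 : (∫ y in UI, cs n θ y * P (x - y)) - ∫ y, cs n θ y * P (x - y) =
      -∫ y in UIᶜ, cs n θ y * P (x - y) := by rw [← e1]; ring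
  rw [e2, abs_neg]
  by_cases hxb : x ∈ Sb (s + k1)
  · rw [Set.indicator_of_mem hxb]
    refine abs_integral_le_integral_abs.trans ?_
    calc ∫ y in UIᶜ, |cs n θ y * P (x - y)| ≤ ∫ y in UIᶜ, P (x - y) := by
          refine integral_mono_of_nonneg (ae_of_all _ fun q => abs_nonneg _)
            (hP.int_shift x).integrableOn (ae_of_all _ fun w => ?_)
          simp only
          rw [abs_mul, abs_of_nonneg (hP.nonneg _)]
          exact mul_le_of_le_one_left (hP.nonneg _) (abs_cs_le _ _ _)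
      _ ≤ _ := hP.integral_shift_le _ x
  · rw [Set.indicator_of_notMem hxb]
    have hx1 : (2 ^ (s + k1))⁻¹ < x := by
      by_contra hcon
      push Not at hcon
      exact hxb ⟨Or.inl ⟨hx.1, hcon⟩, hx⟩
    have hx2 : x < 1 - (2 ^ (s + k1))⁻¹ := by
      by_contra hcon
      push Not at hcon
      exact hxb ⟨Or.inr ⟨hcon, hx.2⟩, hx⟩
    have h0 : ∫ y in UIᶜ, cs n θ y * P (x - y) = 0 := by
      refine setIntegral_eq_zero_of_forall_eq_zero fun y hy => ?_
      have hy' : ¬ (0 ≤ y ∧ y ≤ 1) := hy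
      have h1 : (2 ^ (s + k1))⁻¹ ≤ |x - y| := by
        by_cases hy0 : 0 ≤ y
        · have : 1 < y := by
            by_contra hcon
            exact hy' ⟨hy0, not_lt.1 hcon⟩
          rw [abs_sub_comm, abs_of_nonneg (by linarith [hx.2])]
          linarith
        · rw [abs_of_nonneg (by linarith [hx.1])]
          linarith
      rw [hPdef, Psi_eq_zero (by omega) h1, mul_zero]
    rw [h0, abs_zero]

/-- the doubled frequency factor -/
noncomputable def cd (n : ℕ) (θ x : ℝ) : ℝ := Real.cos (4 * Real.pi * n * x + 2 * θ)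

lemma cs_sq (n : ℕ) (θ x : ℝ) : cs n θ x ^ 2 = 1 / 2 + 1 / 2 * cd n θ x := by
  unfold cs cd
  rw [Real.cos_sq]
  have : 2 * (2 * Real.pi * n * x + θ) = 4 * Real.pi * n * x + 2 * θ := by ring
  rw [this]
  ring

lemma cd_shift {n : ℕ} (hn : 1 ≤ n) (θ x : ℝ) : cd n θ (x + 1 / (4 * n)) = -cd n θ x := by
  unfold cd
  have hn' : (n : ℝ) ≠ 0 := by positivity
  have : 4 * Real.pi * n * (x + 1 / (4 * n)) + 2 * θ = (4 * Real.pi * n * x + 2 * θ) + Real.pi := by
    field_simp
    ring
  rw [this, Real.cos_add_pi]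

lemma abs_cd_le (n : ℕ) (θ x : ℝ) : |cd n θ x| ≤ 1 := Real.abs_cos_le_one _

lemma measurable_cd (n : ℕ) (θ : ℝ) : Measurable (cd n θ) := by unfold cd; fun_prop

lemma cd_int_le {n : ℕ} (hn : 1 ≤ n) (θ : ℝ) {g : ℝ → ℝ} (hg0 : ∀ x, 0 ≤ g x)
    (hg : IntegrableOn g UI) :
    |∫ x in UI, cd n θ x * g x| ≤ 1 / 2 * ((∫ x in Set.Icc (0 : ℝ) (1 - 1 / (4 * n)),
      |g x - g (x + 1 / (4 * n))|) + (∫ x in Set.Icc (0 : ℝ) (1 / (4 * n)), g x) +
      ∫ x in Set.Icc (1 - 1 / (4 * n : ℝ)) 1, g x) := by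
  set h : ℝ := 1 / (4 * n) with hh
  have hn' : (1 : ℝ) ≤ n := by exact_mod_cast hn
  have hh0 : 0 < h := by positivity
  have hh1 : h ≤ 1 / 4 := by
    rw [hh, div_le_div_iff₀ (by positivity) (by norm_num)]
    linarith
  have hint : ∀ a b : ℝ, 0 ≤ a → a ≤ b → b ≤ 1 →
      IntervalIntegrable (fun x => cd n θ x * g x) volume a b := by
    intro a b ha hab hb
    rw [intervalIntegrable_iff_integrableOn_Icc_of_le hab]
    have h1 : IntegrableOn g (Set.Icc a b) := hg.mono_set (Set.Icc_subset_Icc ha hb)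
    exact h1.bdd_mul (c := 1) (measurable_cd n θ).aestronglyMeasurable
      (ae_of_all _ fun x => abs_cd_le n θ x)
  have hintg : ∀ a b : ℝ, 0 ≤ a → a ≤ b → b ≤ 1 → IntervalIntegrable g volume a b := by
    intro a b ha hab hb
    rw [intervalIntegrable_iff_integrableOn_Icc_of_le hab]
    exact hg.mono_set (Set.Icc_subset_Icc ha hb)
  have e1 : ∫ x in (0 : ℝ)..1, cd n θ x * g x =
      (∫ x in (0 : ℝ)..(1 - h), cd n θ x * g x) + ∫ x in (1 - h)..1, cd n θ x * g x :=
    (intervalIntegral.integral_add_adjacent_intervals (hint _ _ le_rfl (by linarith) (by linarith))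
      (hint _ _ (by linarith) (by linarith) le_rfl)).symm
  have e2 : ∫ x in (0 : ℝ)..1, cd n θ x * g x =
      (∫ x in (0 : ℝ)..h, cd n θ x * g x) + ∫ x in h..1, cd n θ x * g x :=
    (intervalIntegral.integral_add_adjacent_intervals (hint _ _ le_rfl hh0.le (by linarith))
      (hint _ _ hh0.le (by linarith) le_rfl)).symm
  have e3 : ∫ x in h..1, cd n θ x * g x = -∫ x in (0 : ℝ)..(1 - h), cd n θ x * g (x + h) := by
    have e4 : ∫ x in (0 : ℝ)..(1 - h), cd n θ (x + h) * g (x + h) = ∫ x in h..1, cd n θ x * g x := by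
      have := intervalIntegral.integral_comp_add_right (a := (0 : ℝ)) (b := 1 - h)
        (fun x => cd n θ x * g x) h
      rw [this]
      congr 1
      · ring
      · ring
    rw [← e4, ← intervalIntegral.integral_neg]
    refine intervalIntegral.integral_congr fun x _ => ?_
    rw [hh, cd_shift hn]
    ring
  have hsh : IntervalIntegrable (fun x => cd n θ x * g (x + h)) volume 0 (1 - h) := by
    have h1 := (hintg h 1 hh0.le (by linarith) le_rfl).comp_add_right h
    have h2 : IntervalIntegrable (fun x => g (x + h)) volume 0 (1 - h) := by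
      convert h1 using 1
      ring
    rw [intervalIntegrable_iff_integrableOn_Icc_of_le (by linarith)] at h2 ⊢
    exact h2.bdd_mul (c := 1) (measurable_cd n θ).aestronglyMeasurable
      (ae_of_all _ fun x => abs_cd_le n θ x)
  have hsh2 : IntervalIntegrable (fun x => g (x + h)) volume 0 (1 - h) := by
    have h1 := (hintg h 1 hh0.le (by linarith) le_rfl).comp_add_right h
    convert h1 using 1
    ring
  have e5 : 2 * ∫ x in (0 : ℝ)..1, cd n θ x * g x =
      (∫ x in (0 : ℝ)..(1 - h), cd n θ x * (g x - g (x + h))) + (∫ x in (0 : ℝ)..h, cd n θ x * g x) +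
        ∫ x in (1 - h)..1, cd n θ x * g x := by
    have e6 : ∫ x in (0 : ℝ)..(1 - h), cd n θ x * (g x - g (x + h)) =
        (∫ x in (0 : ℝ)..(1 - h), cd n θ x * g x) - ∫ x in (0 : ℝ)..(1 - h), cd n θ x * g (x + h) := by
      rw [← intervalIntegral.integral_sub (hint _ _ le_rfl (by linarith) (by linarith)) hsh]
      refine intervalIntegral.integral_congr fun x _ => ?_
      ring
    rw [e6]
    linarith
  have hb : ∀ (a b : ℝ) (f : ℝ → ℝ), a ≤ b → IntervalIntegrable f volume a b →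
      |∫ x in a..b, cd n θ x * f x| ≤ ∫ x in a..b, |f x| := by
    intro a b f hab hf
    refine (intervalIntegral.abs_integral_le_integral_abs hab).trans ?_
    have hf2 := (intervalIntegrable_iff_integrableOn_Icc_of_le hab).1 hf
    have hf3 : IntegrableOn (fun x => cd n θ x * f x) (Set.Icc a b) :=
      hf2.bdd_mul (c := 1) (measurable_cd n θ).aestronglyMeasurable
        (ae_of_all _ fun x => abs_cd_le n θ x)
    refine intervalIntegral.integral_mono_on hab
      ((intervalIntegrable_iff_integrableOn_Icc_of_le hab).2 hf3).abs hf.abs fun x _ => ?_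
    rw [abs_mul]
    exact mul_le_of_le_one_left (abs_nonneg _) (abs_cd_le _ _ _)
  have hconv : ∀ (a b : ℝ) (f : ℝ → ℝ), a ≤ b → ∫ x in a..b, f x = ∫ x in Set.Icc a b, f x := by
    intro a b f hab
    rw [intervalIntegral.integral_of_le hab, integral_Icc_eq_integral_Ioc]
  have b1 := hb 0 (1 - h) (fun x => g x - g (x + h)) (by linarith)
    ((hintg 0 (1 - h) le_rfl (by linarith) (by linarith)).sub hsh2)
  have b2 := hb 0 h g hh0.le (hintg _ _ le_rfl hh0.le (by linarith))
  have b3 := hb (1 - h) 1 g (by linarith) (hintg _ _ (by linarith) (by linarith) le_rfl)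
  have habs : ∀ x, |g x| = g x := fun x => abs_of_nonneg (hg0 x)
  simp only [habs] at b2 b3
  rw [hconv 0 (1 - h) _ (by linarith : (0 : ℝ) ≤ 1 - h),
    hconv 0 (1 - h) _ (by linarith : (0 : ℝ) ≤ 1 - h)] at b1
  rw [hconv 0 h _ hh0.le, hconv 0 h _ hh0.le] at b2
  rw [hconv (1 - h) 1 _ (by linarith : (1 : ℝ) - h ≤ 1),
    hconv (1 - h) 1 _ (by linarith : (1 : ℝ) - h ≤ 1)] at b3
  rw [hconv 0 1 _ zero_le_one, hconv 0 (1 - h) _ (by linarith : (0 : ℝ) ≤ 1 - h),
    hconv 0 h _ hh0.le, hconv (1 - h) 1 _ (by linarith : (1 : ℝ) - h ≤ 1)] at e5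
  have h7 : 2 * |∫ x in UI, cd n θ x * g x| = |2 * ∫ x in UI, cd n θ x * g x| := by
    rw [abs_mul, abs_two]
  rw [e5] at h7
  have h8 := abs_add_three (∫ x in Set.Icc (0 : ℝ) (1 - h), cd n θ x * (g x - g (x + h)))
    (∫ x in Set.Icc (0 : ℝ) h, cd n θ x * g x) (∫ x in Set.Icc (1 - h) (1 : ℝ), cd n θ x * g x)
  linarith

end Pool.Agent.helper95.GMC
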