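import Pool.Agent.helper95.GMC.Steps2
import Pool.Agent.helper24.GMCSums

/-!
Assembly of the chain of approximations.
-/

open MeasureTheory ProbabilityTheory Filter Topology Set
open scoped ENNReal NNReal

namespace Pool.Agent.helper95.GMC

open Cone

set_option maxHeartbeats 400000

lemma CC_sub_ae {μ : Measure Path} (h : Cone μ) (n : ℕ) (θ : ℝ) (p1 p2 : ℕ) :
    ∀ᵐ z ∂μ, CC n θ p2 z - CC n θ p1 z = RS UI (cs n θ) p1 p2 z := by
  filter_upwards [h.ae_int p1, h.ae_int p2] with z h1 h2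
  unfold CC RS
  rw [intervalIntegral.integral_of_le zero_le_one, intervalIntegral.integral_of_le zero_le_one,
    ← integral_Icc_eq_integral_Ioc, ← integral_Icc_eq_integral_Ioc]
  have b : ∀ f : ℝ → ℝ, IntegrableOn f UI → IntegrableOn (fun x => cs n θ x * f x) UI := by
    intro f hf
    exact hf.bdd_mul (c := 1) (measurable_cs n θ).aestronglyMeasurable
      (ae_of_all _ fun x => abs_cs_le n θ x)
  rw [← integral_sub (b _ h2) (b _ h1)]
  refine integral_congr_ae (ae_of_all _ fun x => ?_)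
  simp only
  ring

/-- the characteristic functions of the chaos coefficients -/
noncomputable def FF1 (μ : Measure Path) (θ t : ℝ) (n J : ℕ) : ℂ :=
  ∫ z, Complex.exp (Complex.I * ((t * lam n * CC n θ J z : ℝ) : ℂ)) ∂μ

theorem chain {μ : Measure Path} (h : Cone μ) : ∃ c1 C : ℝ, 0 < c1 ∧ 0 ≤ C ∧
    ∀ (M θ t ε : ℝ) (s0 : ℕ), 0 ≤ M → 0 < ε → ∃ n0 : ℕ, ∀ n ≥ n0, ∃ J0 : ℕ, ∀ J ≥ J0, ∃ s ≥ s0,
      ‖FF1 μ θ t n J - ∫ z, ((Real.exp (-(c1 * t ^ 2 * (√s * NN M s z))) : ℝ) : ℂ) ∂μ‖ ≤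
        C * ((1 + M) * Real.exp (-(√2 * M))) + ε := by
  have := h.isProb
  obtain ⟨Cg, hCg, hgood⟩ := h.good_compl_le
  obtain ⟨C1, hC1, hcoarse⟩ := coarse_sum
  obtain ⟨C2, hC2, hfine⟩ := fine_sum
  obtain ⟨C3, hC31, haq⟩ := aq_le
  have hC3 : 0 ≤ C3 := by linarith
  obtain ⟨D, hD0, hlin⟩ := step_lindeberg
  obtain ⟨C5, hC5, hblock⟩ := step_block
  obtain ⟨c0, C6, hc0, hC6, hmid⟩ := step_mid
  have hlog2 : 0 < Real.log 2 := Real.log_pos one_lt_two
  refine ⟨c0 * √(Real.log 2) / 4, 12 * Cg, by positivity, by positivity, ?_⟩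
  intro M θ t ε s0 hM hε
  set η : ℝ := ε / 10 with hη
  have hη0 : 0 < η := by positivity
  have hη2 : 0 < η ^ 2 := by positivity
  have h1M : 0 ≤ 1 + M := by linarith
  set p : ℝ := Cg * ((1 + M) * Real.exp (-(√2 * M))) with hp
  have hp0 : 0 ≤ p := by positivity
  have hgd : ∀ k, μ (Good M k)ᶜ ≤ ENNReal.ofReal p := fun k => hgood M k hM
  -- choice of the parameters
  obtain ⟨A1, hA1⟩ := exists_small (t ^ 2 * (√2 * (C1 * (1 + M)))) hη2
  obtain ⟨A2, hA2⟩ := exists_small (t ^ 2 * (C6 * (1 + M))) hη0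
  obtain ⟨B1, hB1⟩ := exists_small (t ^ 2 * (2 * (C2 * (1 + M)))) hη2
  set A : ℕ := max 2 (max A1 A2) with hA
  have hA2' : 2 ≤ A := le_max_left _ _
  have hAA1 := hA1 A ((le_max_left _ _).trans (le_max_right _ _))
  have hAA2 := hA2 A ((le_max_right _ _).trans (le_max_right _ _))
  set B : ℕ := max B1 A2 with hB
  have hBB1 := hB1 B (le_max_left _ _)
  have hBB2 := hA2 B (le_max_right _ _)
  obtain ⟨m1, hm1⟩ := exists_small (t ^ 2 * (C6 * (1 + M)) * √(2 ^ A)) hη0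
  set m : ℕ := max 2 m1 with hm
  have hm2 : 2 ≤ m := le_max_left _ _
  have hmm := hm1 m (le_max_right _ _)
  obtain ⟨r1, hr1⟩ := exists_small (t ^ 2 * (8 * C3 * (1 + M) * √(2 ^ A))) hη2
  obtain ⟨r2, hr2⟩ := exists_small (t ^ 2 * (C5 * (1 + M) * √(2 ^ A))) hη0
  set r : ℕ := max r1 r2 with hr
  have hrr1 := hr1 r (le_max_left _ _)
  have hrr2 := hr2 r (le_max_right _ _)
  obtain ⟨s1, hs1⟩ := exists_small' (|t| ^ 3 * (D (m + A + B) * ((1 + M) * Real.exp M) * 4 ^ r *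
        Real.exp (3 / 4 * (((m + A : ℕ) + 2) * Real.log 2))) * 2) hη0
  obtain ⟨s2, hs2⟩ := exists_small' (t ^ 2 * (C6 * (1 + M)) * √(m + A + 1)) hη0
  obtain ⟨n1, hn1⟩ := hcoarse A hA2'
  set S : ℕ := s0 + s1 + s2 + (m + A) + r + 1 with hS
  refine ⟨max n1 (2 ^ (S + (m + A))), fun n hn => ?_⟩
  have hnn1 : n1 ≤ n := (le_max_left _ _).trans hn
  have hnS : 2 ^ (S + (m + A)) ≤ n := (le_max_right _ _).trans hn
  have hn0 : n ≠ 0 := by
    have : 0 < 2 ^ (S + (m + A)) := by positivity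
    omega
  have hn1' : 1 ≤ n := Nat.one_le_iff_ne_zero.2 hn0
  have hk : S + (m + A) ≤ Nat.log 2 n := Nat.le_log_of_pow_le (by norm_num) hnS
  obtain ⟨s, hs⟩ : ∃ s, Nat.log 2 n = s + (m + A) := ⟨Nat.log 2 n - (m + A), by omega⟩
  have hsS : S ≤ s := by omega
  have hlo : 2 ^ (s + (m + A)) ≤ n := by
    rw [← hs]; exact Nat.pow_log_le_self 2 hn0
  have hhi : n < 2 ^ (s + (m + A) + 1) := by
    rw [← hs]; exact Nat.lt_pow_succ_log_self (by norm_num) n
  have hj : m + A ≤ s := by omega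
  have hrs : r ≤ s := by omega
  have hs1' : 1 ≤ s := by omega
  have hmk : m ≤ m + A + B := by omega
  refine ⟨s + (m + A + B), fun J hJ => ⟨s, by omega, ?_⟩⟩
  have hc := measurable_cs n θ
  have hc1 := abs_cs_le n θ
  have hs1R : (1 : ℝ) ≤ s := by exact_mod_cast hs1'
  have hsq0 : 0 < √(s : ℝ) := by positivity
  have hsq1 : 0 < √((s : ℝ) + 1) := by positivity
  have hlam := lam_sq_le hn1' hhi hj
  have hsplitA : √((2 : ℝ) ^ (s + (m + A))) = √(2 ^ (s + m)) * √(2 ^ A) := by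
    rw [← Real.sqrt_mul (by positivity), ← pow_add, add_assoc]
  have hsplitB : √((2 : ℝ) ^ (s + (m + A + B))) = √(2 ^ (s + (m + A))) * √(2 ^ B) := by
    rw [← Real.sqrt_mul (by positivity), ← pow_add]
    congr 2
    omega
  -- step 1: coarse part
  have T1 : ‖(∫ z, Complex.exp (Complex.I * ((t * lam n * CC n θ J z : ℝ) : ℂ)) ∂μ) -
      ∫ z, Complex.exp (Complex.I *
        ((t * lam n * (CC n θ J z - CC n θ (s + m) z) : ℝ) : ℂ)) ∂μ‖ ≤ 2 * p + η := by
    have h1 := hn1 h M θ n J hM hnn1 (by omega)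
    have e1 : Nat.log 2 n - A = s + m := by omega
    rw [e1] at h1
    refine char_diff_le (X := fun z => CC n θ J z) (Z := fun z => CC n θ J z - CC n θ (s + m) z)
      (v := C1 * (1 + M) / √(2 ^ A) / (√n * √(Nat.log 2 n)))
      (measurable_CC n θ J) ((measurable_CC n θ J).sub (measurable_CC n θ (s + m)))
      (measurableSet_Good M J) hp0 (hgd J) (t * lam n) hη0 (by positivity) ?_ ?_
    · simp only [sub_sub_cancel]
      exact h1
    · refine le_trans ?_ hAA1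
      rw [mul_pow, lam_sq]
      have hnR : (0 : ℝ) < √n := by
        have : (0 : ℝ) < n := by exact_mod_cast hn1'
        positivity
      have hk1 : (1 : ℝ) ≤ (Nat.log 2 n : ℕ) := by
        have : 1 ≤ Nat.log 2 n := by omega
        exact_mod_cast this
      have hk0 : 0 < √((Nat.log 2 n : ℕ) : ℝ) := by positivity
      have hlog : √(Real.log n) ≤ √2 * √((Nat.log 2 n : ℕ) : ℝ) := by
        rw [← Real.sqrt_mul (by norm_num)]
        refine Real.sqrt_le_sqrt ?_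
        have h2 := log_le_of_lt hn1' hhi
        rw [← hs] at h2
        have h3 : ((Nat.log 2 n : ℕ) + 1 : ℝ) * Real.log 2 ≤ ((Nat.log 2 n : ℕ) + 1 : ℝ) * 1 := by
          gcongr
          exact log_two_le_one
        linarith
      calc t ^ 2 * (√n * √(Real.log n)) * (C1 * (1 + M) / √(2 ^ A) / (√n * √(Nat.log 2 n)))
          ≤ t ^ 2 * (√n * (√2 * √((Nat.log 2 n : ℕ) : ℝ))) *
            (C1 * (1 + M) / √(2 ^ A) / (√n * √(Nat.log 2 n))) := by gcongr
        _ = _ := by field_simp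
  -- step 2: fine part
  have T2 : ‖(∫ z, Complex.exp (Complex.I *
        ((t * lam n * (CC n θ J z - CC n θ (s + m) z) : ℝ) : ℂ)) ∂μ) -
      ∫ z, Complex.exp (Complex.I *
        ((t * lam n * (CC n θ (s + (m + A + B)) z - CC n θ (s + m) z) : ℝ) : ℂ)) ∂μ‖ ≤
      2 * p + η := by
    have h1 := hfine h M θ n (s + (m + A + B)) J hM hJ
    refine char_diff_le (X := fun z => CC n θ J z - CC n θ (s + m) z)
      (Z := fun z => CC n θ (s + (m + A + B)) z - CC n θ (s + m) z)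
      (v := C2 * (1 + M) / (√(2 ^ (s + (m + A + B))) *
      √((s + (m + A + B) : ℕ) + 1)))
      ((measurable_CC n θ J).sub (measurable_CC n θ (s + m)))
      ((measurable_CC n θ (s + (m + A + B))).sub (measurable_CC n θ (s + m)))
      (measurableSet_Good M J) hp0 (hgd J) (t * lam n) hη0 (by positivity) ?_ ?_
    · simp only [sub_sub_sub_cancel_right]
      exact h1
    · refine le_trans ?_ hBB1
      rw [mul_pow, hsplitB]
      have h2 : √((s : ℝ) + 1) ≤ √((s + (m + A + B) : ℕ) + 1) := by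
        refine Real.sqrt_le_sqrt ?_
        push_cast
        have : (0 : ℝ) ≤ (m : ℝ) + A + B := by positivity
        linarith
      have h3 : 0 < √(((s + (m + A + B) : ℕ) : ℝ) + 1) := by positivity
      calc t ^ 2 * lam n ^ 2 * (C2 * (1 + M) / (√(2 ^ (s + (m + A))) * √(2 ^ B) *
            √((s + (m + A + B) : ℕ) + 1)))
          ≤ t ^ 2 * (2 * √(2 ^ (s + (m + A))) * √(s + 1)) *
            (C2 * (1 + M) / (√(2 ^ (s + (m + A))) * √(2 ^ B) *
            √((s + 1)))) := by gcongr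
        _ = _ := by field_simp
  -- step 3: removing the gaps
  have hAq : ∀ x, aq μ M s x ≤ ENNReal.ofReal (Aq C3 M s) := fun x => haq h M s x hM
  have hA0 : 0 ≤ Aq C3 M s := by unfold Aq; positivity
  have hSm := measurableSet_Sblk s r
  have hSs := Sblk_subset hrs
  have T3 : ‖(∫ z, Complex.exp (Complex.I *
        ((t * lam n * (CC n θ (s + (m + A + B)) z - CC n θ (s + m) z) : ℝ) : ℂ)) ∂μ) -
      ∫ z, Complex.exp (Complex.I *
      ((t * lam n * RS (Sblk s r) (cs n θ) (s + m) (s + (m + A + B)) z : ℝ) : ℂ)) ∂μ‖ ≤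
      2 * p + η := by
    have h1 := h.good_RS_le hM s hmk hAq (measurableSet_Icc.diff hSm) (S := UI \ Sblk s r)
      Set.sdiff_subset hc hc1
    have h2 := volume_diff_Sblk hrs
    refine char_diff_le (X := fun z => CC n θ (s + (m + A + B)) z - CC n θ (s + m) z)
      (Z := fun z => RS (Sblk s r) (cs n θ) (s + m) (s + (m + A + B)) z)
      (v := 4 / (√(2 ^ s) * √(2 ^ (s + m))) * Aq C3 M s * (2 ^ r)⁻¹)
      ((measurable_CC n θ (s + (m + A + B))).sub (measurable_CC n θ (s + m)))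
      (measurable_RS _ hc _ _)
      (measurableSet_Good M s) hp0 (hgd s) (t * lam n) hη0 (by positivity) ?_ ?_
    · have h3 : ∫⁻ z, (Good M s).indicator (fun z => ENNReal.ofReal
          ((CC n θ (s + (m + A + B)) z - CC n θ (s + m) z -
            RS (Sblk s r) (cs n θ) (s + m) (s + (m + A + B)) z) ^ 2)) z ∂μ =
          ∫⁻ z, (Good M s).indicator (fun z => ENNReal.ofReal
            (RS (UI \ Sblk s r) (cs n θ) (s + m) (s + (m + A + B)) z ^ 2)) z ∂μ := by
        refine lintegral_congr_ae ?_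
        filter_upwards [CC_sub_ae h n θ (s + m) (s + (m + A + B)),
          h.RS_add hSm hSs hc hc1 (s + m) (s + (m + A + B))] with z g1 g2
        by_cases hz : z ∈ Good M s
        · rw [Set.indicator_of_mem hz, Set.indicator_of_mem hz, g1, g2, add_sub_cancel_left]
        · rw [Set.indicator_of_notMem hz, Set.indicator_of_notMem hz]
      rw [h3]
      refine h1.trans ?_
      rw [ENNReal.ofReal_mul (mul_nonneg (by positivity) hA0), ENNReal.ofReal_mul (by positivity),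
        mul_assoc]
      gcongr
    · refine le_trans ?_ hrr1
      have h4 := lam_Aq_le hC3 hM hn1' hhi hj
      have h5 : ((2 : ℝ) ^ r)⁻¹ ≤ 1 / √(2 ^ r) := by
        rw [one_div]
        refine inv_anti₀ (by positivity) ?_
        rw [Real.sqrt_le_left (by positivity)]
        have : (1 : ℝ) ≤ 2 ^ r := one_le_pow₀ (by norm_num)
        nlinarith
      calc (t * lam n) ^ 2 * (4 / (√(2 ^ s) * √(2 ^ (s + m))) * Aq C3 M s * (2 ^ r)⁻¹)
          = t ^ 2 * (lam n ^ 2 * (4 / (√(2 ^ s) * √(2 ^ (s + m))) * Aq C3 M s)) * (2 ^ r)⁻¹ := by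
            ring
        _ ≤ t ^ 2 * (8 * C3 * (1 + M) * √(2 ^ A)) * (1 / √(2 ^ r)) := by
            gcongr
        _ = _ := by ring
  -- step 4: Lindeberg
  have T4 := hlin h M θ t p n s r (m + A) m (m + A + B) hM hp0 (hgd s) hs1' hn1' hhi hj hrs hmk
  have T4' : |t| ^ 3 * (D (m + A + B) * ((1 + M) * Real.exp M) * 4 ^ r *
        Real.exp (3 / 4 * (((m + A : ℕ) + 2) * Real.log 2))) * (2 / √s) ≤ η := by
    have := hs1 s (by omega)
    rw [← mul_div_assoc]
    exact this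
  -- step 5: blocks
  have T5 := hblock h M θ t p n s r m A (m + A + B) hM hp0 (hgd s) hn1' hhi hj hrs hmk
  -- step 6: main step
  have T6 := hmid h M θ t p n s m A B hM hp0 (hgd s) hm2 hn1' hlo hhi hj
  have T6' : t ^ 2 * (C6 * (1 + M)) * (√(2 ^ A) / √(2 ^ m) + 1 / √(2 ^ A) + 1 / √(2 ^ B) +
        √(m + A + 1) / √(s + 1)) ≤ 4 * η := by
    have g1 := hs2 s (by omega)
    have g2 : t ^ 2 * (C6 * (1 + M)) * (√(m + A + 1) / √(s + 1)) ≤
        t ^ 2 * (C6 * (1 + M)) * √(m + A + 1) / √s := by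
      rw [mul_div_assoc]
      have : √(s : ℝ) ≤ √(s + 1) := Real.sqrt_le_sqrt (by linarith)
      gcongr
    have g3 : t ^ 2 * (C6 * (1 + M)) * (√(2 ^ A) / √(2 ^ m)) =
        t ^ 2 * (C6 * (1 + M)) * √(2 ^ A) / √(2 ^ m) := by ring
    have g4 : t ^ 2 * (C6 * (1 + M)) * (1 / √(2 ^ A)) = t ^ 2 * (C6 * (1 + M)) / √(2 ^ A) := by ring
    have g5 : t ^ 2 * (C6 * (1 + M)) * (1 / √(2 ^ B)) = t ^ 2 * (C6 * (1 + M)) / √(2 ^ B) := by ring
    rw [mul_add, mul_add, mul_add, g3, g4, g5]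
    linarith
  -- conclusion
  unfold FF1
  set E0 := ∫ z, Complex.exp (Complex.I * ((t * lam n * CC n θ J z : ℝ) : ℂ)) ∂μ
  set E1 := ∫ z, Complex.exp (Complex.I *
        ((t * lam n * (CC n θ J z - CC n θ (s + m) z) : ℝ) : ℂ)) ∂μ
  set E2 := ∫ z, Complex.exp (Complex.I *
        ((t * lam n * (CC n θ (s + (m + A + B)) z - CC n θ (s + m) z) : ℝ) : ℂ)) ∂μ
  set E3 := ∫ z, Complex.exp (Complex.I *
      ((t * lam n * RS (Sblk s r) (cs n θ) (s + m) (s + (m + A + B)) z : ℝ) : ℂ)) ∂μ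
  set E4 := ∫ a, ((Real.exp (-((t * lam n) ^ 2 / 2 *
        QS (Sblk s r) (cs n θ) s (s + m) (s + (m + A + B)) a)) : ℝ) : ℂ) ∂μ
  set E5 := ∫ a, ((Real.exp (-((t * lam n) ^ 2 / 2 *
        QS UI (cs n θ) s (s + m) (s + (m + A + B)) a)) : ℝ) : ℂ) ∂μ
  set E6 := ∫ a, ((Real.exp (-(c0 * √(Real.log 2) / 4 * t ^ 2 * (√s * NN M s a))) : ℝ) : ℂ) ∂μ
  have e : E0 - E6 = (E0 - E1) + (E1 - E2) + (E2 - E3) + (E3 - E4) + (E4 - E5) + (E5 - E6) := by
    ring
  rw [e]
  have k1 := norm_add_le (E0 - E1 + (E1 - E2) + (E2 - E3) + (E3 - E4) + (E4 - E5)) (E5 - E6)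
  have k2 := norm_add_le (E0 - E1 + (E1 - E2) + (E2 - E3) + (E3 - E4)) (E4 - E5)
  have k3 := norm_add_le (E0 - E1 + (E1 - E2) + (E2 - E3)) (E3 - E4)
  have k4 := norm_add_le (E0 - E1 + (E1 - E2)) (E2 - E3)
  have k5 := norm_add_le (E0 - E1) (E1 - E2)
  have hfin : 12 * Cg * ((1 + M) * Real.exp (-(√2 * M))) = 12 * p := by rw [hp]; ring
  rw [hfin]
  have hηε : 10 * η = ε := by rw [hη]; ring
  linarith

end Pool.Agent.helper95.GMC
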