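import Pool.Agent.helper95.GMC.Mid3
import Mathlib

/-! ### merged from `Pool.Agent.helper95.GMC.Block` -/

section
/-!
Removing a small set from the domain of integration: effect on the conditional variance.
-/

open MeasureTheory ProbabilityTheory Filter Topology Set
open scoped ENNReal NNReal

namespace Pool.Agent.helper95.GMC

set_option maxHeartbeats 400000

lemma measurable_QS (S : Set ℝ) {c : ℝ → ℝ} (hc : Measurable c) (s p1 p2 : ℕ) :
    Measurable (QS S c s p1 p2) := by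
  unfold QS
  have h1 : Measurable (fun w : Path × (ℝ × ℝ) => mm s w.2.1 w.1) := by
    have h2 : Measurable (fun w : Path × (ℝ × ℝ) => ((w.2.1, w.1) : ℝ × Path)) :=
      (measurable_fst.comp measurable_snd).prodMk measurable_fst
    have h3 := (measurable_mm s).comp h2
    exact h3
  have h1' : Measurable (fun w : Path × (ℝ × ℝ) => mm s w.2.2 w.1) := by
    have h2 : Measurable (fun w : Path × (ℝ × ℝ) => ((w.2.2, w.1) : ℝ × Path)) :=
      (measurable_snd.comp measurable_snd).prodMk measurable_fst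
    have h3 := (measurable_mm s).comp h2
    exact h3
  have h4 : Measurable (fun w : Path × (ℝ × ℝ) => Psi s p1 p2 (w.2.1 - w.2.2)) :=
    (continuous_Psi s p1 p2).measurable.comp
      ((measurable_fst.comp measurable_snd).sub (measurable_snd.comp measurable_snd))
  have h5 : Measurable (fun w : Path × (ℝ × ℝ) => c w.2.1) :=
    hc.comp (measurable_fst.comp measurable_snd)
  have h6 : Measurable (fun w : Path × (ℝ × ℝ) => c w.2.2) :=
    hc.comp (measurable_snd.comp measurable_snd)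
  have h7 : Measurable (fun w : Path × (ℝ × ℝ) =>
      (c w.2.1 * mm s w.2.1 w.1) * (c w.2.2 * mm s w.2.2 w.1) * Psi s p1 p2 (w.2.1 - w.2.2)) :=
    ((h5.mul h1).mul (h6.mul h1')).mul h4
  exact (h7.stronglyMeasurable.integral_prod_right
    (ν := (volume.restrict S).prod (volume.restrict S))).measurable

namespace Cone

variable {μ : Measure Path}

lemma ae_glue (h : Cone μ) (s : ℕ) {P : Path → Prop} (hP : ∀ᵐ z ∂μ, P z) :
    ∀ᵐ a ∂μ, ∀ᵐ b ∂μ, P (glue s a b) := by
  have := h.isProb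
  rw [← h.map_glue s] at hP
  have h1 := ae_of_ae_map (measurable_glue s).aemeasurable hP
  exact Measure.ae_ae_of_ae_prod h1

lemma RS_add (h : Cone μ) {S : Set ℝ} (hSm : MeasurableSet S) (hS : S ⊆ UI) {c : ℝ → ℝ}
    (hc : Measurable c) (hc1 : ∀ x, |c x| ≤ 1) (p1 p2 : ℕ) :
    ∀ᵐ z ∂μ, RS UI c p1 p2 z = RS S c p1 p2 z + RS (UI \ S) c p1 p2 z := by
  filter_upwards [h.ae_int p1, h.ae_int p2] with z h1 h2
  have h3 : IntegrableOn (fun x => c x * (mm p2 x z - mm p1 x z)) UI := by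
    have h4 : IntegrableOn (fun x => mm p2 x z - mm p1 x z) UI := h2.sub h1
    exact h4.bdd_mul (c := 1) hc.aestronglyMeasurable (ae_of_all _ fun x => hc1 x)
  unfold RS
  have h5 := setIntegral_union (s := S) (t := UI \ S) (μ := volume) Set.disjoint_sdiff_right
    (measurableSet_Icc.diff hSm) (h3.mono_set hS) (h3.mono_set Set.sdiff_subset)
  rw [← h5, Set.union_diff_cancel hS]

lemma QS_nonneg (h : Cone μ) {S : Set ℝ} (hS : S ⊆ UI) {c : ℝ → ℝ}
    (hc : Measurable c) (hc1 : ∀ x, |c x| ≤ 1) (s : ℕ) {k1 k2 : ℕ} (hk : k1 ≤ k2) :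
    ∀ᵐ a ∂μ, 0 ≤ QS S c s (s + k1) (s + k2) a := by
  filter_upwards [h.inner_eq hS hc hc1 s hk] with a ha
  rw [← ha.2]
  exact integral_nonneg fun b => sq_nonneg _

lemma QS_diff_le (h : Cone μ) {S : Set ℝ} (hSm : MeasurableSet S) (hS : S ⊆ UI) {c : ℝ → ℝ}
    (hc : Measurable c) (hc1 : ∀ x, |c x| ≤ 1) (s : ℕ) {k1 k2 : ℕ} (hk : k1 ≤ k2) {δ : ℝ}
    (hδ : 0 < δ) :
    ∀ᵐ a ∂μ, |QS UI c s (s + k1) (s + k2) a - QS S c s (s + k1) (s + k2) a| ≤
      δ * QS S c s (s + k1) (s + k2) a + (1 + 1 / δ) * QS (UI \ S) c s (s + k1) (s + k2) a := by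
  filter_upwards [h.inner_eq (S := UI) subset_rfl hc hc1 s hk, h.inner_eq hS hc hc1 s hk,
    h.inner_eq (S := UI \ S) Set.sdiff_subset hc hc1 s hk,
    h.ae_glue s (h.RS_add hSm hS hc hc1 (s + k1) (s + k2))] with a h1 h2 h3 h4
  rw [← h1.2, ← h2.2, ← h3.2, ← integral_sub h1.1 h2.1, ← integral_const_mul, ← integral_const_mul,
    ← integral_add (h2.1.const_mul _) (h3.1.const_mul _)]
  refine abs_integral_le_integral_abs.trans ?_
  refine integral_mono_ae (h1.1.sub h2.1).abs ((h2.1.const_mul _).add (h3.1.const_mul _)) ?_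
  filter_upwards [h4] with b hb
  rw [hb]
  generalize RS S c (s + k1) (s + k2) (glue s a b) = X
  generalize RS (UI \ S) c (s + k1) (s + k2) (glue s a b) = W
  have e1 : (X + W) ^ 2 - X ^ 2 = 2 * X * W + W ^ 2 := by ring
  rw [e1]
  have e2 : |2 * X * W| ≤ δ * X ^ 2 + 1 / δ * W ^ 2 := by
    have e3 : 0 ≤ 1 / δ * (δ * |X| - |W|) ^ 2 := by positivity
    have e4 : 1 / δ * (δ * |X| - |W|) ^ 2 = δ * X ^ 2 - 2 * |X| * |W| + 1 / δ * W ^ 2 := by
      rw [← sq_abs X, ← sq_abs W]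
      field_simp
      ring
    rw [abs_mul, abs_mul, abs_two]
    linarith
  calc |2 * X * W + W ^ 2| ≤ |2 * X * W| + |W ^ 2| := abs_add_le _ _
    _ ≤ (δ * X ^ 2 + 1 / δ * W ^ 2) + W ^ 2 := by
        rw [abs_of_nonneg (sq_nonneg W)]
        linarith
    _ = _ := by ring

lemma block_diff (h : Cone μ) {C M : ℝ} (hC0 : 0 ≤ C) (hM : 0 ≤ M) (s : ℕ) {k1 k2 : ℕ}
    (hk : k1 ≤ k2) (hC : ∀ x, aq μ M s x ≤ ENNReal.ofReal (Aq C M s)) {S : Set ℝ}
    (hSm : MeasurableSet S) (hS : S ⊆ UI) {c : ℝ → ℝ} (hc : Measurable c) (hc1 : ∀ x, |c x| ≤ 1)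
    {δ : ℝ} (hδ : 0 < δ) (hδ1 : δ ≤ 1) (hv : volume (UI \ S) ≤ ENNReal.ofReal (δ ^ 2)) :
    ∫⁻ a, (Good M s).indicator (fun a => ENNReal.ofReal
      |QS UI c s (s + k1) (s + k2) a - QS S c s (s + k1) (s + k2) a|) a ∂μ ≤
      ENNReal.ofReal (3 * (4 / (√(2 ^ s) * √(2 ^ (s + k1))) * Aq C M s) * δ) := by
  have hA0 : 0 ≤ Aq C M s := by unfold Aq; positivity
  set K1 : ℝ := 4 / (√(2 ^ s) * √(2 ^ (s + k1))) with hK1
  have hK0 : 0 ≤ K1 := by positivity
  have hG := measurableSet_Good M s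
  have t1 := h.good_RS_le hM s hk hC hSm hS hc hc1
  have t2 := h.good_RS_le hM s hk hC (measurableSet_Icc.diff hSm) (S := UI \ S)
    Set.sdiff_subset hc hc1
  rw [h.good_RS_eq M hS hc hc1 s hk] at t1
  rw [h.good_RS_eq M (S := UI \ S) Set.sdiff_subset hc hc1 s hk] at t2
  have v1 : volume S ≤ 1 := (measure_mono hS).trans (by simp)
  have T1 : ∫⁻ a, (Good M s).indicator (fun a => ENNReal.ofReal
      (QS S c s (s + k1) (s + k2) a)) a ∂μ ≤ ENNReal.ofReal (K1 * Aq C M s) := by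
    refine t1.trans ?_
    rw [ENNReal.ofReal_mul hK0]
    gcongr
    exact mul_le_of_le_one_right' v1
  have T2 : ∫⁻ a, (Good M s).indicator (fun a => ENNReal.ofReal
      (QS (UI \ S) c s (s + k1) (s + k2) a)) a ∂μ ≤ ENNReal.ofReal (K1 * Aq C M s * δ ^ 2) := by
    refine t2.trans ?_
    rw [ENNReal.ofReal_mul (mul_nonneg hK0 hA0), ENNReal.ofReal_mul hK0, mul_assoc]
    gcongr
  have hpt : ∀ᵐ a ∂μ, (Good M s).indicator (fun a => ENNReal.ofReal
      |QS UI c s (s + k1) (s + k2) a - QS S c s (s + k1) (s + k2) a|) a ≤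
      ENNReal.ofReal δ * (Good M s).indicator (fun a => ENNReal.ofReal
        (QS S c s (s + k1) (s + k2) a)) a +
      ENNReal.ofReal (1 + 1 / δ) * (Good M s).indicator (fun a => ENNReal.ofReal
        (QS (UI \ S) c s (s + k1) (s + k2) a)) a := by
    filter_upwards [h.QS_diff_le hSm hS hc hc1 s hk hδ, h.QS_nonneg hS hc hc1 s hk,
      h.QS_nonneg (S := UI \ S) Set.sdiff_subset hc hc1 s hk] with a h1 h2 h3
    by_cases hg : a ∈ Good M s
    · simp only [Set.indicator_of_mem hg]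
      rw [← ENNReal.ofReal_mul hδ.le, ← ENNReal.ofReal_mul (by positivity),
        ← ENNReal.ofReal_add (by positivity) (by positivity)]
      exact ENNReal.ofReal_le_ofReal h1
    · simp only [Set.indicator_of_notMem hg]
      exact zero_le
  refine (lintegral_mono_ae hpt).trans ?_
  have m1 : Measurable (fun a => (Good M s).indicator (fun a => ENNReal.ofReal
        (QS S c s (s + k1) (s + k2) a)) a) := (measurable_QS S hc _ _ _).ennreal_ofReal.indicator hG
  rw [lintegral_add_left (m1.const_mul _), lintegral_const_mul' _ _ ENNReal.ofReal_ne_top,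
    lintegral_const_mul' _ _ ENNReal.ofReal_ne_top]
  refine (add_le_add (mul_le_mul' le_rfl T1) (mul_le_mul' le_rfl T2)).trans ?_
  rw [← ENNReal.ofReal_mul hδ.le, ← ENNReal.ofReal_mul (by positivity),
    ← ENNReal.ofReal_add (by positivity) (by positivity)]
  refine ENNReal.ofReal_le_ofReal ?_
  have e1 : (1 + 1 / δ) * (K1 * Aq C M s * δ ^ 2) = K1 * Aq C M s * (δ ^ 2 + δ) := by
    field_simp
  rw [e1]
  have e2 : δ ^ 2 ≤ δ := by nlinarith
  have e3 : 0 ≤ K1 * Aq C M s := mul_nonneg hK0 hA0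
  nlinarith

end Cone

end Pool.Agent.helper95.GMC
end

/-! ### merged from `Pool.Agent.helper95.GMC.Chain` -/

section
/-!
Comparison of characteristic functions on a good event.
-/

open MeasureTheory ProbabilityTheory Filter Topology Set
open scoped ENNReal NNReal

namespace Pool.Agent.helper95.GMC

set_option maxHeartbeats 400000

/-- comparison of expectations on a good event -/
lemma exp_diff_le {μ : Measure Path} [IsProbabilityMeasure μ] {f g : Path → ℂ}
    (hf : AEStronglyMeasurable f μ) (hg : AEStronglyMeasurable g μ)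
    (hf1 : ∀ᵐ z ∂μ, ‖f z‖ ≤ 1) (hg1 : ∀ᵐ z ∂μ, ‖g z‖ ≤ 1) {G : Set Path} (hG : MeasurableSet G)
    {p d : ℝ} (hp0 : 0 ≤ p) (hd0 : 0 ≤ d) (hp : μ Gᶜ ≤ ENNReal.ofReal p)
    (hd : ∫⁻ z, G.indicator (fun z => ENNReal.ofReal ‖f z - g z‖) z ∂μ ≤ ENNReal.ofReal d) :
    ‖(∫ z, f z ∂μ) - ∫ z, g z ∂μ‖ ≤ 2 * p + d := by
  have i1 : Integrable f μ := Integrable.of_bound hf 1 hf1
  have i2 : Integrable g μ := Integrable.of_bound hg 1 hg1
  rw [← integral_sub i1 i2]
  refine (norm_integral_le_integral_norm _).trans ?_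
  have hm : AEStronglyMeasurable (fun z => ‖f z - g z‖) μ := (hf.sub hg).norm
  rw [integral_eq_lintegral_of_nonneg_ae (ae_of_all _ fun z => norm_nonneg _) hm]
  refine ENNReal.toReal_le_of_le_ofReal (by positivity) ?_
  have hpt : ∀ᵐ z ∂μ, ENNReal.ofReal ‖f z - g z‖ ≤
      G.indicator (fun z => ENNReal.ofReal ‖f z - g z‖) z + Gᶜ.indicator (fun _ => 2) z := by
    filter_upwards [hf1, hg1] with z h1 h2
    by_cases hz : z ∈ G
    · rw [Set.indicator_of_mem hz, Set.indicator_of_notMem (by simpa using hz), add_zero]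
    · rw [Set.indicator_of_notMem hz, Set.indicator_of_mem (by simpa using hz), zero_add]
      have h3 : ‖f z - g z‖ ≤ 2 := (norm_sub_le _ _).trans (by linarith)
      calc ENNReal.ofReal ‖f z - g z‖ ≤ ENNReal.ofReal 2 := ENNReal.ofReal_le_ofReal h3
        _ = 2 := by simp
  refine (lintegral_mono_ae hpt).trans ?_
  rw [lintegral_add_right _ (measurable_const.indicator hG.compl),
    lintegral_indicator_const hG.compl]
  rw [ENNReal.ofReal_add (by positivity) hd0, add_comm, ENNReal.ofReal_mul (by norm_num)]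
  gcongr
  simp

lemma norm_cexp_sub_le (a b : ℝ) :
    ‖Complex.exp (Complex.I * ((a : ℝ) : ℂ)) - Complex.exp (Complex.I * ((b : ℝ) : ℂ))‖ ≤
      |a - b| := by
  have e : Complex.exp (Complex.I * ((a : ℝ) : ℂ)) - Complex.exp (Complex.I * ((b : ℝ) : ℂ)) =
      Complex.exp (Complex.I * ((b : ℝ) : ℂ)) *
        (Complex.exp (Complex.I * (((a - b : ℝ)) : ℂ)) - 1) := by
    rw [mul_sub, ← Complex.exp_add, mul_one]
    congr 2
    push_cast
    ring
  rw [e, norm_mul]
  have h1 : ‖Complex.exp (Complex.I * ((b : ℝ) : ℂ))‖ = 1 := by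
    rw [mul_comm]; exact Complex.norm_exp_ofReal_mul_I b
  rw [h1, one_mul]
  exact Real.norm_exp_I_mul_ofReal_sub_one_le

lemma norm_cexp_I (a : ℝ) : ‖Complex.exp (Complex.I * ((a : ℝ) : ℂ))‖ = 1 := by
  rw [mul_comm]; exact Complex.norm_exp_ofReal_mul_I a

/-- from second moments on the good event to characteristic functions -/
lemma char_diff_le {μ : Measure Path} [IsProbabilityMeasure μ] {X Z : Path → ℝ}
    (hX : Measurable X) (hZ : Measurable Z) {G : Set Path} (hG : MeasurableSet G)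
    {p : ℝ} (hp0 : 0 ≤ p) (hp : μ Gᶜ ≤ ENNReal.ofReal p) (κ : ℝ) {v δ : ℝ} (hδ : 0 < δ)
    (hv0 : 0 ≤ v)
    (hv : ∫⁻ z, G.indicator (fun z => ENNReal.ofReal ((X z - Z z) ^ 2)) z ∂μ ≤ ENNReal.ofReal v)
    (hκ : κ ^ 2 * v ≤ δ ^ 2) :
    ‖(∫ z, Complex.exp (Complex.I * ((κ * X z : ℝ) : ℂ)) ∂μ) -
      ∫ z, Complex.exp (Complex.I * ((κ * Z z : ℝ) : ℂ)) ∂μ‖ ≤ 2 * p + δ := by
  have m1 : Measurable (fun z => Complex.exp (Complex.I * ((κ * X z : ℝ) : ℂ))) := by fun_prop
  have m2 : Measurable (fun z => Complex.exp (Complex.I * ((κ * Z z : ℝ) : ℂ))) := by fun_prop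
  refine exp_diff_le m1.aestronglyMeasurable m2.aestronglyMeasurable
    (ae_of_all _ fun z => (norm_cexp_I _).le) (ae_of_all _ fun z => (norm_cexp_I _).le) hG hp0
    hδ.le hp ?_
  have hpt : ∀ z, G.indicator (fun z => ENNReal.ofReal
      ‖Complex.exp (Complex.I * ((κ * X z : ℝ) : ℂ)) -
        Complex.exp (Complex.I * ((κ * Z z : ℝ) : ℂ))‖) z ≤
      ENNReal.ofReal (δ / 2) + ENNReal.ofReal (κ ^ 2 / (2 * δ)) *
        G.indicator (fun z => ENNReal.ofReal ((X z - Z z) ^ 2)) z := by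
    intro z
    by_cases hz : z ∈ G
    · simp only [Set.indicator_of_mem hz]
      rw [← ENNReal.ofReal_mul (by positivity), ← ENNReal.ofReal_add (by positivity)
        (by positivity)]
      refine ENNReal.ofReal_le_ofReal ((norm_cexp_sub_le _ _).trans ?_)
      have e1 : |κ * X z - κ * Z z| = |κ| * |X z - Z z| := by rw [← abs_mul, mul_sub]
      rw [e1]
      have e2 : 0 ≤ 1 / (2 * δ) * (|κ| * |X z - Z z| - δ) ^ 2 := by positivity
      have e3 : 1 / (2 * δ) * (|κ| * |X z - Z z| - δ) ^ 2 =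
          κ ^ 2 / (2 * δ) * (X z - Z z) ^ 2 - |κ| * |X z - Z z| + δ / 2 := by
        rw [← sq_abs κ, ← sq_abs (X z - Z z)]
        field_simp
        ring
      linarith
    · rw [Set.indicator_of_notMem hz]
      exact zero_le
  refine (lintegral_mono hpt).trans ?_
  rw [lintegral_add_left measurable_const, lintegral_const_mul' _ _ ENNReal.ofReal_ne_top,
    lintegral_const, measure_univ, mul_one]
  refine (add_le_add le_rfl (mul_le_mul' le_rfl hv)).trans ?_
  rw [← ENNReal.ofReal_mul (by positivity), ← ENNReal.ofReal_add (by positivity) (by positivity)]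
  refine ENNReal.ofReal_le_ofReal ?_
  have e4 : κ ^ 2 / (2 * δ) * v = (κ ^ 2 * v) / (2 * δ) := by ring
  have e5 : (κ ^ 2 * v) / (2 * δ) ≤ δ ^ 2 / (2 * δ) := by gcongr
  have e6 : δ ^ 2 / (2 * δ) = δ / 2 := by field_simp
  rw [e4]
  linarith

lemma abs_exp_neg_sub_le {x y : ℝ} (hx : 0 ≤ x) (hy : 0 ≤ y) :
    |Real.exp (-x) - Real.exp (-y)| ≤ |x - y| := by
  wlog hxy : x ≤ y generalizing x y
  · have := this hy hx (not_le.1 hxy).le
    rwa [abs_sub_comm, abs_sub_comm y x] at this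
  have h1 : Real.exp (-y) ≤ Real.exp (-x) := Real.exp_le_exp.2 (by linarith)
  rw [abs_of_nonneg (by linarith), abs_sub_comm, abs_of_nonneg (by linarith)]
  have h2 : Real.exp (-y) = Real.exp (-x) * Real.exp (-(y - x)) := by
    rw [← Real.exp_add]; congr 1; ring
  have h3 : 1 - (y - x) ≤ Real.exp (-(y - x)) := by
    have := Real.add_one_le_exp (-(y - x)); linarith
  have h4 : Real.exp (-x) ≤ 1 := by rw [Real.exp_le_one_iff]; linarith
  have h5 : 0 < Real.exp (-x) := Real.exp_pos _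
  rw [h2]
  nlinarith

/-- comparison of Laplace transforms -/
lemma lap_diff_le {μ : Measure Path} [IsProbabilityMeasure μ] {X Z : Path → ℝ}
    (hX : Measurable X) (hZ : Measurable Z) (hX0 : ∀ᵐ z ∂μ, 0 ≤ X z) (hZ0 : ∀ᵐ z ∂μ, 0 ≤ Z z)
    {G : Set Path} (hG : MeasurableSet G) {p d : ℝ} (hp0 : 0 ≤ p) (hd0 : 0 ≤ d)
    (hp : μ Gᶜ ≤ ENNReal.ofReal p)
    (hd : ∫⁻ z, G.indicator (fun z => ENNReal.ofReal |X z - Z z|) z ∂μ ≤ ENNReal.ofReal d) :
    ‖(∫ z, ((Real.exp (-(X z)) : ℝ) : ℂ) ∂μ) - ∫ z, ((Real.exp (-(Z z)) : ℝ) : ℂ) ∂μ‖ ≤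
      2 * p + d := by
  have m1 : Measurable (fun z => ((Real.exp (-(X z)) : ℝ) : ℂ)) := by fun_prop
  have m2 : Measurable (fun z => ((Real.exp (-(Z z)) : ℝ) : ℂ)) := by fun_prop
  have b : ∀ x : ℝ, 0 ≤ x → ‖((Real.exp (-x) : ℝ) : ℂ)‖ ≤ 1 := by
    intro x hx
    rw [Complex.norm_real, Real.norm_of_nonneg (Real.exp_pos _).le, Real.exp_le_one_iff]
    linarith
  refine exp_diff_le m1.aestronglyMeasurable m2.aestronglyMeasurable
    (hX0.mono fun z hz => b _ hz) (hZ0.mono fun z hz => b _ hz) hG hp0 hd0 hp ?_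
  refine (lintegral_mono_ae ?_).trans hd
  filter_upwards [hX0, hZ0] with z h1 h2
  by_cases hz : z ∈ G
  · rw [Set.indicator_of_mem hz, Set.indicator_of_mem hz]
    refine ENNReal.ofReal_le_ofReal ?_
    rw [← Complex.ofReal_sub, Complex.norm_real, Real.norm_eq_abs]
    exact abs_exp_neg_sub_le h1 h2
  · rw [Set.indicator_of_notMem hz, Set.indicator_of_notMem hz]

end Pool.Agent.helper95.GMC
end
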