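import Pool.Agent.helper95.GMC.Diff
import Pool.Agent.helper95.GMC.Ext

/-! ### merged from `Pool.Agent.helper95.GMC.CondVar` -/

section
/-!
Conditional second moments.
-/

open MeasureTheory ProbabilityTheory Filter Topology Set
open scoped ENNReal NNReal

namespace Pool.Agent.helper95.GMC

/-- increment of the density of the layers above `s` -/
noncomputable def zz (s k1 k2 : ℕ) (x : ℝ) (z : Path) : ℝ := rr s k2 x z - rr s k1 x z

lemma measurable_zz (s k1 k2 : ℕ) : Measurable (fun q : ℝ × Path => zz s k1 k2 q.1 q.2) :=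
  (measurable_rr s k2).sub (measurable_rr s k1)

lemma measurable_zz_path (s k1 k2 : ℕ) (x : ℝ) : Measurable (zz s k1 k2 x) :=
  (measurable_rr_path s k2 x).sub (measurable_rr_path s k1 x)

lemma mm_sub (s k1 k2 : ℕ) (x : ℝ) (z : Path) :
    mm (s + k2) x z - mm (s + k1) x z = mm s x z * zz s k1 k2 x z := by
  rw [mm_add, mm_add, zz]; ring

lemma zz_glue {s k1 k2 : ℕ} (x : ℝ) (a b : Path) : zz s k1 k2 x (glue s a b) = zz s k1 k2 x b := by
  unfold zz
  rw [rr_glue_ge le_rfl, rr_glue_ge le_rfl]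

lemma dK_nonneg (s k : ℕ) (w : ℝ) : 0 ≤ dK s k w := by
  unfold dK
  rw [← sum_kap_shift]
  exact Finset.sum_nonneg fun j _ => kap_nonneg _ _

lemma dK_le (s k : ℕ) (w : ℝ) : dK s k w ≤ k * Real.log 2 := by
  unfold dK
  rw [← sum_kap_shift]
  calc ∑ j ∈ Finset.range k, kap (s + j + 1) w ≤ ∑ _j ∈ Finset.range k, Real.log 2 :=
        Finset.sum_le_sum fun j _ => kap_succ_le _ _
    _ = _ := by rw [Finset.sum_const, Finset.card_range, nsmul_eq_mul]

lemma abs_Psi_le (s k1 k2 : ℕ) (hk : k1 ≤ k2) (w : ℝ) :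
    |Psi s (s + k1) (s + k2) w| ≤ Real.exp (k2 * Real.log 2 / 2) := by
  rw [abs_of_nonneg (Psi_nonneg (by omega) w)]
  unfold Psi
  have h1 : Real.exp ((K (s + k2) w - K s w) / 2) ≤ Real.exp (k2 * Real.log 2 / 2) := by
    refine Real.exp_le_exp.2 ?_
    have := dK_le s k2 w
    unfold dK at this
    linarith
  have h2 := Real.exp_pos ((K (s + k1) w - K s w) / 2)
  linarith

namespace Cone

variable {μ : Measure Path}

/-- Bochner version of independence of low and high layers -/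
lemma integral_mul_glue (h : Cone μ) (k : ℕ) {F G : Path → ℝ} (hF : Integrable F μ)
    (hG : Integrable G μ) (mF : Measurable F) (mG : Measurable G)
    (dF : ∀ a b, F (glue k a b) = F a) (dG : ∀ a b, G (glue k a b) = G b) :
    Integrable (fun z => F z * G z) μ ∧
    ∫ z, F z * G z ∂μ = (∫ z, F z ∂μ) * ∫ z, G z ∂μ := by
  have := h.isProb
  have h1 : Integrable (fun w : Path × Path => F w.1 * G w.2) (μ.prod μ) := hF.mul_prod hG
  have hFG : AEStronglyMeasurable (fun z => F z * G z)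
      ((μ.prod μ).map (fun w => glue k w.1 w.2)) := (mF.mul mG).aestronglyMeasurable
  have h2 : Integrable (fun z => F z * G z) ((μ.prod μ).map (fun w => glue k w.1 w.2)) := by
    rw [integrable_map_measure hFG (measurable_glue k).aemeasurable]
    refine h1.congr (ae_of_all _ fun w => ?_)
    simp only [Function.comp, dF, dG]
  rw [h.map_glue] at h2
  refine ⟨h2, ?_⟩
  rw [h.integral_glue k h2]
  simp_rw [dF, dG]
  rw [← integral_prod_mul, integral_prod _ h1]

lemma integral_rr_mul' (h : Cone μ) (s : ℕ) {k1 k2 : ℕ} (hk : k1 ≤ k2) (x y : ℝ) :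
    Integrable (fun z => rr s k2 x z * rr s k1 y z) μ ∧
    ∫ z, rr s k2 x z * rr s k1 y z ∂μ = Real.exp (dK s k1 (x - y) / 2) := by
  obtain ⟨d, rfl⟩ : ∃ d, k2 = k1 + d := ⟨k2 - k1, by omega⟩
  have e : ∀ z, rr s (k1 + d) x z * rr s k1 y z = (rr s k1 x z * rr s k1 y z) * rr (s + k1) d x z := by
    intro z
    rw [rr_add]; ring
  have hlow : ∀ (u : ℝ) (a b : Path), rr s k1 u (glue (s + k1) a b) = rr s k1 u a := by
    intro u a b
    unfold rr
    rw [SY_glue_le le_rfl]
  obtain ⟨h1, h2⟩ := h.integral_mul_glue (s + k1) (F := fun z => rr s k1 x z * rr s k1 y z)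
    (G := rr (s + k1) d x) (h.integrable_rr_mul s k1 x y) (h.integrable_rr (s + k1) d x)
    ((measurable_rr_path s k1 x).mul (measurable_rr_path s k1 y)) (measurable_rr_path _ _ _)
    (fun a b => by simp only [hlow]) (fun a b => rr_glue_ge le_rfl _ _ _)
  constructor
  · exact h1.congr (ae_of_all _ fun z => (e z).symm)
  · simp_rw [e]
    rw [h2, h.integral_rr_mul, h.integral_rr, mul_one]

lemma integral_zz_mul (h : Cone μ) (s : ℕ) {k1 k2 : ℕ} (hk : k1 ≤ k2) (x y : ℝ) :
    Integrable (fun z => zz s k1 k2 x z * zz s k1 k2 y z) μ ∧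
    ∫ z, zz s k1 k2 x z * zz s k1 k2 y z ∂μ = Psi s (s + k1) (s + k2) (x - y) := by
  have e : ∀ z, zz s k1 k2 x z * zz s k1 k2 y z = rr s k2 x z * rr s k2 y z -
      rr s k2 x z * rr s k1 y z - rr s k2 y z * rr s k1 x z + rr s k1 x z * rr s k1 y z := by
    intro z
    unfold zz
    ring
  have i1 := h.integrable_rr_mul s k2 x y
  obtain ⟨i2, e2⟩ := h.integral_rr_mul' s hk x y
  obtain ⟨i3, e3⟩ := h.integral_rr_mul' s hk y x
  have i4 := h.integrable_rr_mul s k1 x y
  have i12 : Integrable (fun z => rr s k2 x z * rr s k2 y z - rr s k2 x z * rr s k1 y z) μ :=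
    i1.sub i2
  have i123 : Integrable (fun z => rr s k2 x z * rr s k2 y z - rr s k2 x z * rr s k1 y z -
    rr s k2 y z * rr s k1 x z) μ := i12.sub i3
  have i1234 : Integrable (fun z => rr s k2 x z * rr s k2 y z - rr s k2 x z * rr s k1 y z -
    rr s k2 y z * rr s k1 x z + rr s k1 x z * rr s k1 y z) μ := i123.add i4
  constructor
  · exact i1234.congr (ae_of_all _ fun z => (e z).symm)
  · calc ∫ z, zz s k1 k2 x z * zz s k1 k2 y z ∂μ
        = ∫ z, (rr s k2 x z * rr s k2 y z - rr s k2 x z * rr s k1 y z -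
          rr s k2 y z * rr s k1 x z + rr s k1 x z * rr s k1 y z) ∂μ :=
          integral_congr_ae (ae_of_all _ e)
      _ = ∫ z, (rr s k2 x z * rr s k2 y z - rr s k2 x z * rr s k1 y z -
          rr s k2 y z * rr s k1 x z) ∂μ + ∫ z, rr s k1 x z * rr s k1 y z ∂μ :=
          integral_add i123 i4
      _ = (∫ z, (rr s k2 x z * rr s k2 y z - rr s k2 x z * rr s k1 y z) ∂μ -
          ∫ z, rr s k2 y z * rr s k1 x z ∂μ) + ∫ z, rr s k1 x z * rr s k1 y z ∂μ := by
          rw [integral_sub i12 i3]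
      _ = ((∫ z, rr s k2 x z * rr s k2 y z ∂μ - ∫ z, rr s k2 x z * rr s k1 y z ∂μ) -
          ∫ z, rr s k2 y z * rr s k1 x z ∂μ) + ∫ z, rr s k1 x z * rr s k1 y z ∂μ := by
          rw [integral_sub i1 i2]
      _ = _ := by
          rw [e2, e3, h.integral_rr_mul, h.integral_rr_mul]
          have h1 : dK s k1 (y - x) = dK s k1 (x - y) := by
            unfold dK
            rw [← neg_sub x y, K_neg, K_neg]
          rw [h1]
          unfold Psi dK
          ring

lemma integral_zz (h : Cone μ) (s k1 k2 : ℕ) (x : ℝ) : ∫ z, zz s k1 k2 x z ∂μ = 0 := by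
  unfold zz
  rw [integral_sub (h.integrable_rr _ _ _) (h.integrable_rr _ _ _), h.integral_rr, h.integral_rr,
    sub_self]

/-- conditional variance of a linear functional of the high layers -/
lemma cond_var (h : Cone μ) (s : ℕ) {k1 k2 : ℕ} (hk : k1 ≤ k2) (ν : Measure ℝ)
    [IsFiniteMeasure ν] {g : ℝ → ℝ} (hg : Measurable g) (hg2 : Integrable (fun x => g x ^ 2) ν) :
    Integrable (fun b => (∫ x, g x * zz s k1 k2 x b ∂ν) ^ 2) μ ∧
    Integrable (fun q : ℝ × ℝ => g q.1 * g q.2 * Psi s (s + k1) (s + k2) (q.1 - q.2)) (ν.prod ν) ∧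
    ∫ b, (∫ x, g x * zz s k1 k2 x b ∂ν) ^ 2 ∂μ =
      ∫ q : ℝ × ℝ, g q.1 * g q.2 * Psi s (s + k1) (s + k2) (q.1 - q.2) ∂(ν.prod ν) := by
  have := h.isProb
  have hm : Measurable fun q : ℝ × Path => g q.1 * zz s k1 k2 q.1 q.2 :=
    (hg.comp measurable_fst).mul (measurable_zz s k1 k2)
  have hE : ∀ x y : ℝ, ∫ ω, (g x * zz s k1 k2 x ω) * (g y * zz s k1 k2 y ω) ∂μ =
      g x * g y * Psi s (s + k1) (s + k2) (x - y) := by
    intro x y
    have e : ∀ ω, (g x * zz s k1 k2 x ω) * (g y * zz s k1 k2 y ω) =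
        (g x * g y) * (zz s k1 k2 x ω * zz s k1 k2 y ω) := by intro ω; ring
    simp_rw [e]
    rw [integral_const_mul, (h.integral_zz_mul s hk x y).2]
  have hint : Integrable (fun q : ℝ × Path => (g q.1 * zz s k1 k2 q.1 q.2) ^ 2) (ν.prod μ) := by
    rw [integrable_prod_iff (hm.pow_const 2).aestronglyMeasurable]
    constructor
    · refine ae_of_all _ fun x => ?_
      simp only [mul_pow]
      refine Integrable.const_mul ?_ _
      refine (h.integral_zz_mul s hk x x).1.congr (ae_of_all _ fun z => ?_)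
      simp only
      ring
    · have e : ∀ x : ℝ, ∫ y, ‖(g x * zz s k1 k2 x y) ^ 2‖ ∂μ =
          g x ^ 2 * Psi s (s + k1) (s + k2) 0 := by
        intro x
        have e1 : ∀ y, ‖(g x * zz s k1 k2 x y) ^ 2‖ =
            (g x * zz s k1 k2 x y) * (g x * zz s k1 k2 x y) := by
          intro y
          rw [Real.norm_of_nonneg (sq_nonneg _), sq]
        simp_rw [e1]
        rw [hE, sub_self, sq]
      simp only [e]
      exact hg2.mul_const _
  obtain ⟨h1, h2, h3⟩ := sq_integral_swap μ ν (fun x z => g x * zz s k1 k2 x z) hm hint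
  refine ⟨h1, ?_, ?_⟩
  · refine h2.congr (ae_of_all _ fun q => ?_)
    exact hE q.1 q.2
  · rw [h3]
    exact integral_congr_ae (ae_of_all _ fun q => hE q.1 q.2)

end Cone

end Pool.Agent.helper95.GMC
end

/-! ### merged from `Pool.Agent.helper95.GMC.Uncond` -/

section
/-!
Unconditional second moments.
-/

open MeasureTheory ProbabilityTheory Filter Topology Set
open scoped ENNReal NNReal

namespace Pool.Agent.helper95.GMC

set_option maxHeartbeats 400000

/-- oscillating factor -/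
noncomputable def cs (n : ℕ) (θ y : ℝ) : ℝ := Real.cos (2 * Real.pi * n * y + θ)

lemma measurable_cs (n : ℕ) (θ : ℝ) : Measurable (cs n θ) := by
  unfold cs; fun_prop

lemma continuous_cs (n : ℕ) (θ : ℝ) : Continuous (cs n θ) := by
  unfold cs; fun_prop

lemma abs_cs_le (n : ℕ) (θ y : ℝ) : |cs n θ y| ≤ 1 := Real.abs_cos_le_one _

/-- the Fourier functional of the chaos with layers `0..p` -/
noncomputable def CC (n : ℕ) (θ : ℝ) (p : ℕ) (z : Path) : ℝ :=
  ∫ x in (0 : ℝ)..1, cs n θ x * mm p x z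

lemma measurable_mm_x (s : ℕ) (a : Path) : Measurable (fun x => mm s x a) := by
  have h3 : Measurable (fun x : ℝ => ((x, a) : ℝ × Path)) := measurable_id.prodMk measurable_const
  have h4 := (measurable_mm s).comp h3
  exact h4

lemma measurable_mm_swap (s : ℕ) : Measurable (fun q : Path × ℝ => mm s q.2 q.1) := by
  have h3 : Measurable (fun q : Path × ℝ => ((q.2, q.1) : ℝ × Path)) :=
    measurable_snd.prodMk measurable_fst
  have h4 := (measurable_mm s).comp h3
  exact h4

namespace Cone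

variable {μ : Measure Path}

lemma lintegral_mm_mul (h : Cone μ) (s : ℕ) (x y : ℝ) :
    ∫⁻ z, ENNReal.ofReal (mm s x z * mm s y z) ∂μ = ENNReal.ofReal (FF s (x - y)) := by
  have := h.isProb
  have h1g : 2 * gam * gam = 1 := by rw [mul_assoc, ← sq, gam_sq]; norm_num
  have hK0 : 0 ≤ K s (x - y) := K_nonneg _ _
  have hV : twoV (Finset.range (s + 1)) gam gam x y = K s 0 + K s (x - y) := by
    unfold twoV
    rw [Finset.sum_add_distrib, ← Finset.mul_sum, ← Finset.mul_sum, sum_kap, sum_kap, h1g, gam_sq]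
    ring
  have hv : 0 < twoV (Finset.range (s + 1)) gam gam x y := by
    rw [hV, K_zero]
    have : 0 ≤ (s : ℝ) * Real.log 2 := by
      have := Real.log_pos one_lt_two
      positivity
    linarith
  have hT := h.tilt_two (Finset.range (s + 1)) gam gam x y hv (F := fun _ => 1) measurable_const
  rw [hV] at hT
  simp only [mul_one, lintegral_const, measure_univ] at hT
  have e : (fun z => ENNReal.ofReal (mm s x z * mm s y z)) =ᵐ[μ] fun z =>
      ENNReal.ofReal (FF s (x - y)) *
      ENNReal.ofReal (Real.exp (two (Finset.range (s + 1)) gam gam x y z -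
        (K s 0 + K s (x - y)) / 2)) := by
    filter_upwards [h.mm_ae s x, h.mm_ae s y] with z h1 h2
    rw [h1, h2, ← Real.exp_add]
    unfold FF
    rw [← ENNReal.ofReal_mul (Real.exp_pos _).le, ← Real.exp_add]
    congr 2
    unfold two So
    rw [Finset.sum_range_succ']
    simp only [zero_add]
    rw [Finset.sum_add_distrib, ← Finset.mul_sum, ← Finset.mul_sum, K_zero]
    ring
  rw [lintegral_congr_ae e, lintegral_const_mul' _ _ ENNReal.ofReal_ne_top, hT, mul_one]

lemma integrable_mm_mul (h : Cone μ) (s : ℕ) (x y : ℝ) :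
    Integrable (fun z => mm s x z * mm s y z) μ := by
  refine ⟨((measurable_mm_path s x).mul (measurable_mm_path s y)).aestronglyMeasurable, ?_⟩
  rw [hasFiniteIntegral_iff_ofReal (ae_of_all _ fun z => (mul_pos (mm_pos _ _ _)
    (mm_pos _ _ _)).le), h.lintegral_mm_mul]
  exact ENNReal.ofReal_lt_top

lemma integral_mm_mul (h : Cone μ) (s : ℕ) (x y : ℝ) :
    ∫ z, mm s x z * mm s y z ∂μ = FF s (x - y) := by
  rw [integral_eq_lintegral_of_nonneg_ae (ae_of_all _ fun z => (mul_pos (mm_pos _ _ _)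
    (mm_pos _ _ _)).le) (h.integrable_mm_mul s x y).aestronglyMeasurable, h.lintegral_mm_mul,
    ENNReal.toReal_ofReal (FF_pos _ _).le]

lemma integral_mm_mul' (h : Cone μ) (s k : ℕ) (x y : ℝ) :
    Integrable (fun z => mm (s + k) x z * mm s y z) μ ∧
    ∫ z, mm (s + k) x z * mm s y z ∂μ = FF s (x - y) := by
  have e : ∀ z, mm (s + k) x z * mm s y z = (mm s x z * mm s y z) * rr s k x z := by
    intro z
    rw [mm_add]; ring
  obtain ⟨h1, h2⟩ := h.integral_mul_glue s (F := fun z => mm s x z * mm s y z)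
    (G := rr s k x) (h.integrable_mm_mul s x y) (h.integrable_rr s k x)
    ((measurable_mm_path s x).mul (measurable_mm_path s y)) (measurable_rr_path _ _ _)
    (fun a b => by simp only [mm_glue le_rfl]) (fun a b => rr_glue_ge le_rfl _ _ _)
  constructor
  · exact h1.congr (ae_of_all _ fun z => (e z).symm)
  · simp_rw [e]
    rw [h2, h.integral_mm_mul, h.integral_rr, mul_one]

/-- almost surely the density is square integrable in `x` -/
lemma ae_sq_int (h : Cone μ) (s : ℕ) :
    ∀ᵐ a ∂μ, IntegrableOn (fun x => mm s x a ^ 2) (Set.Icc (0 : ℝ) 1) := by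
  have := h.isProb
  have hm : Measurable (fun q : Path × ℝ => ENNReal.ofReal (mm s q.2 q.1 ^ 2)) :=
    ((measurable_mm_swap s).pow_const 2).ennreal_ofReal
  have h1 : ∫⁻ a, (∫⁻ x in Set.Icc (0 : ℝ) 1, ENNReal.ofReal (mm s x a ^ 2)) ∂μ ≠ ∞ := by
    rw [lintegral_lintegral_swap (f := fun (a : Path) (x : ℝ) => ENNReal.ofReal (mm s x a ^ 2))
      hm.aemeasurable]
    have e : ∀ x : ℝ, ∫⁻ a, ENNReal.ofReal (mm s x a ^ 2) ∂μ = ENNReal.ofReal (FF s 0) := by
      intro x
      have := h.lintegral_mm_mul s x x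
      rw [sub_self] at this
      rw [← this]
      exact lintegral_congr fun a => by rw [sq]
    simp_rw [e]
    rw [lintegral_const]
    refine ENNReal.mul_ne_top ENNReal.ofReal_ne_top ?_
    simp
  have h2 := ae_lt_top (Measurable.lintegral_prod_right' (f := fun q : Path × ℝ =>
    ENNReal.ofReal (mm s q.2 q.1 ^ 2)) hm) h1
  filter_upwards [h2] with a ha
  refine ⟨((measurable_mm_x s a).pow_const 2).aestronglyMeasurable, ?_⟩
  rw [hasFiniteIntegral_iff_ofReal (ae_of_all _ fun x => sq_nonneg _)]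
  exact ha

lemma ae_int (h : Cone μ) (s : ℕ) :
    ∀ᵐ a ∂μ, IntegrableOn (fun x => mm s x a) (Set.Icc (0 : ℝ) 1) := by
  filter_upwards [h.ae_sq_int s] with a ha
  have h1 : MemLp (fun x => mm s x a) 2 (volume.restrict (Set.Icc (0 : ℝ) 1)) := by
    rw [memLp_two_iff_integrable_sq (measurable_mm_x s a).aestronglyMeasurable]
    exact ha
  exact h1.integrable one_le_two

end Cone

/-- second moment formula with a given kernel -/
lemma sec_mom {Ω : Type*} [MeasurableSpace Ω] (P : Measure Ω) [IsProbabilityMeasure P]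
    (ν : Measure ℝ) [IsFiniteMeasure ν] (Φ : ℝ → Ω → ℝ)
    (hΦ : Measurable fun q : ℝ × Ω => Φ q.1 q.2) (R : ℝ → ℝ → ℝ)
    (hI : ∀ x y, Integrable (fun ω => Φ x ω * Φ y ω) P)
    (hR : ∀ x y, ∫ ω, Φ x ω * Φ y ω ∂P = R x y)
    (hRd : Integrable (fun x => R x x) ν) :
    Integrable (fun ω => (∫ x, Φ x ω ∂ν) ^ 2) P ∧
    Integrable (fun q : ℝ × ℝ => R q.1 q.2) (ν.prod ν) ∧
    ∫ ω, (∫ x, Φ x ω ∂ν) ^ 2 ∂P = ∫ q : ℝ × ℝ, R q.1 q.2 ∂(ν.prod ν) := by
  have hint : Integrable (fun q : ℝ × Ω => Φ q.1 q.2 ^ 2) (ν.prod P) := by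
    rw [integrable_prod_iff (hΦ.pow_const 2).aestronglyMeasurable]
    constructor
    · refine ae_of_all _ fun x => ?_
      refine (hI x x).congr (ae_of_all _ fun z => ?_)
      simp only
      ring
    · have e : ∀ x : ℝ, ∫ y, ‖Φ x y ^ 2‖ ∂P = R x x := by
        intro x
        rw [← hR x x]
        refine integral_congr_ae (ae_of_all _ fun y => ?_)
        simp only
        rw [Real.norm_of_nonneg (sq_nonneg _), sq]
      simp only [e]
      exact hRd
  obtain ⟨h1, h2, h3⟩ := sq_integral_swap P ν Φ hΦ hint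
  refine ⟨h1, ?_, ?_⟩
  · exact h2.congr (ae_of_all _ fun q => hR q.1 q.2)
  · rw [h3]
    exact integral_congr_ae (ae_of_all _ fun q => hR q.1 q.2)

namespace Cone

variable {μ : Measure Path}

lemma uncond_step (h : Cone μ) : ∃ C : ℝ, 0 ≤ C ∧ ∀ (n p : ℕ) (θ : ℝ), 1 ≤ n →
    ∫⁻ z, ENNReal.ofReal ((CC n θ (p + 1) z - CC n θ p z) ^ 2) ∂μ ≤
      ENNReal.ofReal (C * √(2 ^ p) / n) := by
  obtain ⟨C, hC0, hC⟩ := osc_FF
  refine ⟨C, hC0, fun n p θ hn => ?_⟩
  have := h.isProb
  set ν : Measure ℝ := volume.restrict (Set.Ioc (0 : ℝ) 1) with hν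
  have hprob : IsFiniteMeasure ν := by rw [hν]; infer_instance
  set Φ : ℝ → Path → ℝ := fun x z => cs n θ x * (mm (p + 1) x z - mm p x z) with hΦdef
  have hΦ : Measurable fun q : ℝ × Path => Φ q.1 q.2 :=
    ((measurable_cs n θ).comp measurable_fst).mul ((measurable_mm (p + 1)).sub (measurable_mm p))
  set R : ℝ → ℝ → ℝ := fun x y => cs n θ x * (cs n θ y * (FF (p + 1) (x - y) - FF p (x - y)))
    with hRdef
  have hcalc : ∀ x y, Integrable (fun ω => Φ x ω * Φ y ω) μ ∧ ∫ ω, Φ x ω * Φ y ω ∂μ = R x y := by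
    intro x y
    have i1 := h.integrable_mm_mul (p + 1) x y
    obtain ⟨i2, e2⟩ := h.integral_mm_mul' p 1 x y
    obtain ⟨i3, e3⟩ := h.integral_mm_mul' p 1 y x
    have i4 := h.integrable_mm_mul p x y
    have e : ∀ ω, Φ x ω * Φ y ω = cs n θ x * cs n θ y * (mm (p + 1) x ω * mm (p + 1) y ω -
        mm (p + 1) x ω * mm p y ω - mm (p + 1) y ω * mm p x ω + mm p x ω * mm p y ω) := by
      intro ω; simp only [hΦdef]; ring
    have i12 : Integrable (fun z => mm (p + 1) x z * mm (p + 1) y z -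
      mm (p + 1) x z * mm p y z) μ := i1.sub i2
    have i123 : Integrable (fun z => mm (p + 1) x z * mm (p + 1) y z -
      mm (p + 1) x z * mm p y z - mm (p + 1) y z * mm p x z) μ := i12.sub i3
    have i1234 : Integrable (fun z => mm (p + 1) x z * mm (p + 1) y z -
      mm (p + 1) x z * mm p y z - mm (p + 1) y z * mm p x z + mm p x z * mm p y z) μ :=
      i123.add i4
    constructor
    · exact (i1234.const_mul (cs n θ x * cs n θ y)).congr (ae_of_all _ fun z => (e z).symm)
    · simp_rw [e]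
      rw [integral_const_mul, integral_add i123 i4, integral_sub i12 i3, integral_sub i1 i2,
        h.integral_mm_mul, e2, e3, h.integral_mm_mul]
      have h1 : FF p (y - x) = FF p (x - y) := by
        unfold FF
        rw [← neg_sub x y, K_neg]
      rw [h1]
      simp only [hRdef]
      ring
  have hRd : Integrable (fun x => R x x) ν := by
    simp only [hRdef, sub_self]
    have : Continuous fun x => cs n θ x * (cs n θ x * (FF (p + 1) 0 - FF p 0)) := by
      have := continuous_cs n θ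
      fun_prop
    exact (this.integrableOn_Icc (a := 0) (b := 1)).mono_set Set.Ioc_subset_Icc_self
  obtain ⟨h1, h2, h3⟩ := sec_mom μ ν Φ hΦ R (fun x y => (hcalc x y).1) (fun x y => (hcalc x y).2) hRd
  have hae : ∀ᵐ z ∂μ, CC n θ (p + 1) z - CC n θ p z = ∫ x, Φ x z ∂ν := by
    filter_upwards [h.ae_int (p + 1), h.ae_int p] with z hz1 hz2
    have j1 : ∀ q, IntegrableOn (fun x => mm q x z) (Set.Icc (0 : ℝ) 1) →
        Integrable (fun x => cs n θ x * mm q x z) ν := by
      intro q hq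
      refine Integrable.bdd_mul (c := 1) (hq.mono_set Set.Ioc_subset_Icc_self)
        (measurable_cs n θ).aestronglyMeasurable (ae_of_all _ fun x => ?_)
      exact abs_cs_le n θ x
    unfold CC
    rw [intervalIntegral.integral_of_le zero_le_one, intervalIntegral.integral_of_le zero_le_one,
      ← integral_sub (j1 _ hz1) (j1 _ hz2)]
    refine integral_congr_ae (ae_of_all _ fun x => ?_)
    simp only [hΦdef]
    ring
  have hval : ∫⁻ z, ENNReal.ofReal ((CC n θ (p + 1) z - CC n θ p z) ^ 2) ∂μ =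
      ENNReal.ofReal (∫ q : ℝ × ℝ, R q.1 q.2 ∂(ν.prod ν)) := by
    rw [← h3, ofReal_integral_eq_lintegral_ofReal h1 (ae_of_all _ fun z => sq_nonneg _)]
    refine lintegral_congr_ae ?_
    filter_upwards [hae] with z hz
    rw [hz]
  rw [hval]
  refine ENNReal.ofReal_le_ofReal ?_
  rw [integral_prod _ h2]
  have hb : ∀ x : ℝ, |∫ y, R x y ∂ν| ≤ C * √(2 ^ p) / n := by
    intro x
    have e4 : ∫ y, R x y ∂ν = cs n θ x * ∫ y in (0 : ℝ)..1,
        Real.cos (2 * Real.pi * n * y + θ) * (FF (p + 1) (x - y) - FF p (x - y)) := by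
      rw [intervalIntegral.integral_of_le zero_le_one, ← integral_const_mul]
      rfl
    rw [e4, abs_mul]
    calc |cs n θ x| * _ ≤ 1 * (C * √(2 ^ p) / n) := by
          gcongr
          · exact abs_cs_le n θ x
          · exact hC p n hn θ x
      _ = _ := one_mul _
  have h5 := norm_integral_le_of_norm_le_const (μ := ν) (f := fun x => ∫ y, R x y ∂ν)
    (ae_of_all _ fun x => (Real.norm_eq_abs _).le.trans (hb x))
  refine (le_abs_self _).trans (h5.trans (le_of_eq ?_))
  rw [hν]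
  simp

lemma uncond_zero (h : Cone μ) : ∃ C : ℝ, 0 ≤ C ∧ ∀ (n : ℕ) (θ : ℝ), 1 ≤ n →
    ∫⁻ z, ENNReal.ofReal (CC n θ 0 z ^ 2) ∂μ ≤ ENNReal.ofReal (C / n) := by
  obtain ⟨C, hC0, hC⟩ := osc_FF0
  refine ⟨C, hC0, fun n θ hn => ?_⟩
  have := h.isProb
  set ν : Measure ℝ := volume.restrict (Set.Ioc (0 : ℝ) 1) with hν
  have hprob : IsFiniteMeasure ν := by rw [hν]; infer_instance
  set Φ : ℝ → Path → ℝ := fun x z => cs n θ x * mm 0 x z with hΦdef
  have hΦ : Measurable fun q : ℝ × Path => Φ q.1 q.2 :=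
    ((measurable_cs n θ).comp measurable_fst).mul (measurable_mm 0)
  set R : ℝ → ℝ → ℝ := fun x y => cs n θ x * (cs n θ y * FF 0 (x - y)) with hRdef
  have hcalc : ∀ x y, Integrable (fun ω => Φ x ω * Φ y ω) μ ∧ ∫ ω, Φ x ω * Φ y ω ∂μ = R x y := by
    intro x y
    have i1 := h.integrable_mm_mul 0 x y
    have e : ∀ ω, Φ x ω * Φ y ω = cs n θ x * cs n θ y * (mm 0 x ω * mm 0 y ω) := by
      intro ω; simp only [hΦdef]; ring
    constructor
    · exact (i1.const_mul (cs n θ x * cs n θ y)).congr (ae_of_all _ fun z => (e z).symm)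
    · simp_rw [e]
      rw [integral_const_mul, h.integral_mm_mul]
      simp only [hRdef]
      ring
  have hRd : Integrable (fun x => R x x) ν := by
    simp only [hRdef, sub_self]
    have : Continuous fun x => cs n θ x * (cs n θ x * FF 0 0) := by
      have := continuous_cs n θ
      fun_prop
    exact (this.integrableOn_Icc (a := 0) (b := 1)).mono_set Set.Ioc_subset_Icc_self
  obtain ⟨h1, h2, h3⟩ := sec_mom μ ν Φ hΦ R (fun x y => (hcalc x y).1) (fun x y => (hcalc x y).2) hRd
  have hval : ∫⁻ z, ENNReal.ofReal (CC n θ 0 z ^ 2) ∂μ =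
      ENNReal.ofReal (∫ q : ℝ × ℝ, R q.1 q.2 ∂(ν.prod ν)) := by
    rw [← h3, ofReal_integral_eq_lintegral_ofReal h1 (ae_of_all _ fun z => sq_nonneg _)]
    refine lintegral_congr fun z => ?_
    unfold CC
    rw [intervalIntegral.integral_of_le zero_le_one]
  rw [hval]
  refine ENNReal.ofReal_le_ofReal ?_
  rw [integral_prod _ h2]
  have hb : ∀ x : ℝ, |∫ y, R x y ∂ν| ≤ C / n := by
    intro x
    have e4 : ∫ y, R x y ∂ν = cs n θ x * ∫ y in (0 : ℝ)..1,
        Real.cos (2 * Real.pi * n * y + θ) * FF 0 (x - y) := by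
      rw [intervalIntegral.integral_of_le zero_le_one, ← integral_const_mul]
      rfl
    rw [e4, abs_mul]
    calc |cs n θ x| * _ ≤ 1 * (C / n) := by
          gcongr
          · exact abs_cs_le n θ x
          · exact hC n hn θ x
      _ = _ := one_mul _
  have h5 := norm_integral_le_of_norm_le_const (μ := ν) (f := fun x => ∫ y, R x y ∂ν)
    (ae_of_all _ fun x => (Real.norm_eq_abs _).le.trans (hb x))
  refine (le_abs_self _).trans (h5.trans (le_of_eq ?_))
  rw [hν]
  simp

end Cone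

end Pool.Agent.helper95.GMC
end

/-! ### merged from `Pool.Agent.helper95.GMC.Quad` -/

section
/-!
Quadratic forms with a translation invariant kernel.
-/

open MeasureTheory ProbabilityTheory Filter Topology Set
open scoped ENNReal NNReal

namespace Pool.Agent.helper95.GMC

set_option maxHeartbeats 400000

/-- the hypotheses on the kernel -/
structure GoodKer (P : ℝ → ℝ) (B : ℝ) : Prop where
  meas : Measurable P
  bdd : ∀ w, |P w| ≤ B
  nonneg : ∀ w, 0 ≤ P w
  even : ∀ w, P (-w) = P w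
  int : Integrable P

variable {P : ℝ → ℝ} {B : ℝ}

lemma goodKer_Psi (s : ℕ) {k1 k2 : ℕ} (hk : k1 ≤ k2) :
    GoodKer (Psi s (s + k1) (s + k2)) (Real.exp (k2 * Real.log 2 / 2)) where
  meas := (continuous_Psi _ _ _).measurable
  bdd := abs_Psi_le s k1 k2 hk
  nonneg := fun w => Psi_nonneg (by omega) w
  even := fun w => Psi_neg _ _ _ w
  int := integrable_Psi (by omega) (by omega)

namespace GoodKer

lemma int_shift (hP : GoodKer P B) (x : ℝ) : Integrable (fun y => P (x - y)) :=
  hP.int.comp_sub_left x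

lemma integral_shift_le (hP : GoodKer P B) (S : Set ℝ) (x : ℝ) :
    ∫ y in S, P (x - y) ≤ ∫ w, P w := by
  refine (setIntegral_le_integral (hP.int_shift x) (ae_of_all _ fun y => hP.nonneg _)).trans ?_
  rw [integral_sub_left_eq_self P]

lemma meas_sub (hP : GoodKer P B) : Measurable (fun q : ℝ × ℝ => P (q.1 - q.2)) :=
  hP.meas.comp (measurable_fst.sub measurable_snd)

lemma mul_int (hP : GoodKer P B) {ν : Measure ℝ} [IsFiniteMeasure ν] {f : ℝ × ℝ → ℝ}
    (hf : Integrable f (ν.prod ν)) :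
    Integrable (fun q : ℝ × ℝ => f q * P (q.1 - q.2)) (ν.prod ν) := by
  have := hf.bdd_mul (c := B) (f := fun q : ℝ × ℝ => P (q.1 - q.2))
    hP.meas_sub.aestronglyMeasurable (ae_of_all _ fun q => hP.bdd _)
  exact this.congr (ae_of_all _ fun q => mul_comm _ _)

lemma schur (hP : GoodKer P B) (S : Set ℝ) [IsFiniteMeasure (volume.restrict S)]
    {f : ℝ → ℝ} (hf0 : ∀ x, 0 ≤ f x) (hf : IntegrableOn f S) :
    ∫ q : ℝ × ℝ, f q.1 * P (q.1 - q.2) ∂((volume.restrict S).prod (volume.restrict S)) ≤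
      (∫ w, P w) * ∫ x in S, f x := by
  have hi : Integrable (fun q : ℝ × ℝ => f q.1 * P (q.1 - q.2))
      ((volume.restrict S).prod (volume.restrict S)) := hP.mul_int (hf.comp_fst _)
  rw [integral_prod _ hi]
  simp only
  calc ∫ x in S, ∫ y in S, f x * P (x - y) ≤ ∫ x in S, (∫ w, P w) * f x := by
        refine integral_mono hi.integral_prod_left (hf.const_mul _) fun x => ?_
        simp only
        rw [integral_const_mul, mul_comm]
        exact mul_le_mul_of_nonneg_right (hP.integral_shift_le S x) (hf0 x)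
    _ = _ := by rw [integral_const_mul]

lemma swap_eq (hP : GoodKer P B) {ν : Measure ℝ} [IsFiniteMeasure ν] (f : ℝ → ℝ → ℝ) :
    ∫ q : ℝ × ℝ, f q.2 q.1 * P (q.1 - q.2) ∂(ν.prod ν) =
    ∫ q : ℝ × ℝ, f q.1 q.2 * P (q.1 - q.2) ∂(ν.prod ν) := by
  rw [← integral_prod_swap (fun q : ℝ × ℝ => f q.2 q.1 * P (q.1 - q.2))]
  refine integral_congr_ae (ae_of_all _ fun q => ?_)
  simp only [Prod.fst_swap, Prod.snd_swap]
  rw [← hP.even (q.2 - q.1), neg_sub]

lemma mul_int_sq {ν : Measure ℝ} [IsFiniteMeasure ν] {g : ℝ → ℝ} (hg : Measurable g)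
    (hg2 : Integrable (fun x => g x ^ 2) ν) :
    Integrable (fun q : ℝ × ℝ => g q.1 * g q.2) (ν.prod ν) := by
  have h1 : MemLp g 2 ν := by
    rw [memLp_two_iff_integrable_sq hg.aestronglyMeasurable]
    exact hg2
  exact (h1.integrable one_le_two).mul_prod (h1.integrable one_le_two)

/-- Schur bound for the quadratic form -/
lemma quad_le (hP : GoodKer P B) (S : Set ℝ) [IsFiniteMeasure (volume.restrict S)]
    {g : ℝ → ℝ} (hg : Measurable g) (hg2 : IntegrableOn (fun x => g x ^ 2) S) :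
    |∫ q : ℝ × ℝ, g q.1 * g q.2 * P (q.1 - q.2) ∂((volume.restrict S).prod (volume.restrict S))| ≤
      (∫ w, P w) * ∫ x in S, g x ^ 2 := by
  set ν := volume.restrict S with hν
  have i1 : Integrable (fun q : ℝ × ℝ => g q.1 ^ 2 * P (q.1 - q.2)) (ν.prod ν) :=
    hP.mul_int (hg2.comp_fst _)
  have i2 : Integrable (fun q : ℝ × ℝ => g q.2 ^ 2 * P (q.1 - q.2)) (ν.prod ν) :=
    hP.mul_int (hg2.comp_snd _)
  have i3 : Integrable (fun q : ℝ × ℝ => 1 / 2 * (g q.1 ^ 2 * P (q.1 - q.2)) +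
      1 / 2 * (g q.2 ^ 2 * P (q.1 - q.2))) (ν.prod ν) := (i1.const_mul _).add (i2.const_mul _)
  calc |∫ q : ℝ × ℝ, g q.1 * g q.2 * P (q.1 - q.2) ∂(ν.prod ν)|
      ≤ ∫ q : ℝ × ℝ, |g q.1 * g q.2 * P (q.1 - q.2)| ∂(ν.prod ν) := abs_integral_le_integral_abs
    _ ≤ ∫ q : ℝ × ℝ, (1 / 2 * (g q.1 ^ 2 * P (q.1 - q.2)) +
          1 / 2 * (g q.2 ^ 2 * P (q.1 - q.2))) ∂(ν.prod ν) := by
        refine integral_mono_of_nonneg (ae_of_all _ fun q => abs_nonneg _) i3
          (ae_of_all _ fun q => ?_)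
        simp only
        rw [abs_mul, abs_of_nonneg (hP.nonneg (q.1 - q.2)), abs_mul]
        have h1 := hP.nonneg (q.1 - q.2)
        have h2 : |g q.1| * |g q.2| ≤ 1 / 2 * g q.1 ^ 2 + 1 / 2 * g q.2 ^ 2 := by
          have := sq_nonneg (|g q.1| - |g q.2|)
          have e1 := sq_abs (g q.1)
          have e2 := sq_abs (g q.2)
          nlinarith
        nlinarith
    _ = 1 / 2 * ∫ q : ℝ × ℝ, g q.1 ^ 2 * P (q.1 - q.2) ∂(ν.prod ν) +
          1 / 2 * ∫ q : ℝ × ℝ, g q.2 ^ 2 * P (q.1 - q.2) ∂(ν.prod ν) := by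
        rw [integral_add (i1.const_mul _) (i2.const_mul _), integral_const_mul,
          integral_const_mul]
    _ = ∫ q : ℝ × ℝ, g q.1 ^ 2 * P (q.1 - q.2) ∂(ν.prod ν) := by
        rw [hP.swap_eq (ν := ν) (fun x _ => g x ^ 2)]
        ring
    _ ≤ _ := hP.schur S (fun x => sq_nonneg _) hg2

/-- polarisation -/
lemma polar (hP : GoodKer P B) (ν : Measure ℝ) [IsFiniteMeasure ν]
    {g c : ℝ → ℝ} (hg : Measurable g) (hc : Measurable c) (hc1 : ∀ x, |c x| ≤ 1)
    (hg2 : Integrable (fun x => g x ^ 2) ν) :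
    Integrable (fun q : ℝ × ℝ => c q.1 * c q.2 * (g q.1 - g q.2) ^ 2 * P (q.1 - q.2))
      (ν.prod ν) ∧
    Integrable (fun q : ℝ × ℝ => (g q.1 - g q.2) ^ 2 * P (q.1 - q.2)) (ν.prod ν) ∧
    Integrable (fun x => c x * g x ^ 2 * ∫ y, c y * P (x - y) ∂ν) ν ∧
    ∫ q : ℝ × ℝ, (c q.1 * g q.1) * (c q.2 * g q.2) * P (q.1 - q.2) ∂(ν.prod ν) =
      ∫ x, c x * g x ^ 2 * (∫ y, c y * P (x - y) ∂ν) ∂ν -
      1 / 2 * ∫ q : ℝ × ℝ, c q.1 * c q.2 * (g q.1 - g q.2) ^ 2 * P (q.1 - q.2) ∂(ν.prod ν) := by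
  have hcc : Measurable (fun q : ℝ × ℝ => c q.1 * c q.2) :=
    (hc.comp measurable_fst).mul (hc.comp measurable_snd)
  have hcc1 : ∀ q : ℝ × ℝ, |c q.1 * c q.2| ≤ 1 := fun q => by
    rw [abs_mul]
    exact mul_le_one₀ (hc1 _) (abs_nonneg _) (hc1 _)
  have cmul : ∀ f : ℝ × ℝ → ℝ, Integrable f (ν.prod ν) →
      Integrable (fun q : ℝ × ℝ => c q.1 * c q.2 * f q) (ν.prod ν) := fun f hf =>
    hf.bdd_mul (c := 1) hcc.aestronglyMeasurable (ae_of_all _ fun q => hcc1 q)
  have j1 : Integrable (fun q : ℝ × ℝ => g q.1 ^ 2) (ν.prod ν) := hg2.comp_fst _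
  have j2 : Integrable (fun q : ℝ × ℝ => g q.2 ^ 2) (ν.prod ν) := hg2.comp_snd _
  have j12 : Integrable (fun q : ℝ × ℝ => g q.1 * g q.2) (ν.prod ν) := mul_int_sq hg hg2
  have i1 := cmul _ (hP.mul_int j1)
  have i2 := cmul _ (hP.mul_int j2)
  have i12 := cmul _ (hP.mul_int j12)
  have jd : Integrable (fun q : ℝ × ℝ => (g q.1 - g q.2) ^ 2) (ν.prod ν) := by
    refine ((j1.sub (j12.const_mul 2)).add j2).congr (ae_of_all _ fun q => ?_)
    simp only [Pi.add_apply, Pi.sub_apply]
    ring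
  have id1 := hP.mul_int jd
  have id2 := cmul _ id1
  have ex : Integrable (fun x => ∫ y, c x * c y * (g x ^ 2 * P (x - y)) ∂ν) ν :=
    i1.integral_prod_left
  have e1 : ∀ x, ∫ y, c x * c y * (g x ^ 2 * P (x - y)) ∂ν =
      c x * g x ^ 2 * ∫ y, c y * P (x - y) ∂ν := by
    intro x
    rw [← integral_const_mul]
    refine integral_congr_ae (ae_of_all _ fun y => ?_)
    simp only
    ring
  refine ⟨?_, id1, ?_, ?_⟩
  · refine id2.congr (ae_of_all _ fun q => ?_)
    simp only
    ring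
  · exact ex.congr (ae_of_all _ fun x => e1 x)
  · have hA : ∫ q : ℝ × ℝ, c q.1 * c q.2 * (g q.1 ^ 2 * P (q.1 - q.2)) ∂(ν.prod ν) =
        ∫ x, c x * g x ^ 2 * (∫ y, c y * P (x - y) ∂ν) ∂ν := by
      rw [integral_prod _ i1]
      exact integral_congr_ae (ae_of_all _ fun x => e1 x)
    have hB : ∫ q : ℝ × ℝ, c q.1 * c q.2 * (g q.2 ^ 2 * P (q.1 - q.2)) ∂(ν.prod ν) =
        ∫ q : ℝ × ℝ, c q.1 * c q.2 * (g q.1 ^ 2 * P (q.1 - q.2)) ∂(ν.prod ν) := by
      have := hP.swap_eq (ν := ν) (fun x y => c x * c y * g x ^ 2)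
      calc _ = ∫ q : ℝ × ℝ, c q.2 * c q.1 * g q.2 ^ 2 * P (q.1 - q.2) ∂(ν.prod ν) :=
            integral_congr_ae (ae_of_all _ fun q => by simp only; ring)
        _ = _ := this
        _ = _ := integral_congr_ae (ae_of_all _ fun q => by simp only; ring)
    have i3 : Integrable (fun q : ℝ × ℝ => 1 / 2 * (c q.1 * c q.2 * (g q.1 ^ 2 * P (q.1 - q.2))) +
      1 / 2 * (c q.1 * c q.2 * (g q.2 ^ 2 * P (q.1 - q.2)))) (ν.prod ν) :=
      (i1.const_mul _).add (i2.const_mul _)
    calc ∫ q : ℝ × ℝ, (c q.1 * g q.1) * (c q.2 * g q.2) * P (q.1 - q.2) ∂(ν.prod ν)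
        = ∫ q : ℝ × ℝ, ((1 / 2 * (c q.1 * c q.2 * (g q.1 ^ 2 * P (q.1 - q.2))) +
          1 / 2 * (c q.1 * c q.2 * (g q.2 ^ 2 * P (q.1 - q.2)))) -
          1 / 2 * (c q.1 * c q.2 * ((g q.1 - g q.2) ^ 2 * P (q.1 - q.2)))) ∂(ν.prod ν) :=
          integral_congr_ae (ae_of_all _ fun q => by simp only; ring)
      _ = (1 / 2 * ∫ q : ℝ × ℝ, c q.1 * c q.2 * (g q.1 ^ 2 * P (q.1 - q.2)) ∂(ν.prod ν) +
          1 / 2 * ∫ q : ℝ × ℝ, c q.1 * c q.2 * (g q.2 ^ 2 * P (q.1 - q.2)) ∂(ν.prod ν)) -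
          1 / 2 * ∫ q : ℝ × ℝ, c q.1 * c q.2 * ((g q.1 - g q.2) ^ 2 * P (q.1 - q.2))
            ∂(ν.prod ν) := by
          rw [integral_sub i3 (id2.const_mul _), integral_add (i1.const_mul _) (i2.const_mul _),
            integral_const_mul, integral_const_mul, integral_const_mul]
      _ = _ := by
          rw [hB, hA]
          have : ∫ q : ℝ × ℝ, c q.1 * c q.2 * ((g q.1 - g q.2) ^ 2 * P (q.1 - q.2)) ∂(ν.prod ν) =
              ∫ q : ℝ × ℝ, c q.1 * c q.2 * (g q.1 - g q.2) ^ 2 * P (q.1 - q.2) ∂(ν.prod ν) :=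
            integral_congr_ae (ae_of_all _ fun q => by simp only; ring)
          rw [this]
          ring

end GoodKer

end Pool.Agent.helper95.GMC
end

/-! ### merged from `Pool.Agent.helper95.GMC.GoodSq` -/

section
/-!
Second moments on the good event: fine and coarse steps.
-/

open MeasureTheory ProbabilityTheory Filter Topology Set
open scoped ENNReal NNReal

namespace Pool.Agent.helper95.GMC

set_option maxHeartbeats 400000

/-- localized functional -/
noncomputable def RS (S : Set ℝ) (c : ℝ → ℝ) (p1 p2 : ℕ) (z : Path) : ℝ :=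
  ∫ x in S, c x * (mm p2 x z - mm p1 x z)

/-- conditional variance given the low layers -/
noncomputable def QS (S : Set ℝ) (c : ℝ → ℝ) (s p1 p2 : ℕ) (a : Path) : ℝ :=
  ∫ q : ℝ × ℝ, (c q.1 * mm s q.1 a) * (c q.2 * mm s q.2 a) * Psi s p1 p2 (q.1 - q.2)
    ∂((volume.restrict S).prod (volume.restrict S))

lemma measurable_RS (S : Set ℝ) {c : ℝ → ℝ} (hc : Measurable c) (p1 p2 : ℕ) :
    Measurable (RS S c p1 p2) := by
  unfold RS
  have h1 : Measurable (fun q : Path × ℝ => c q.2 * (mm p2 q.2 q.1 - mm p1 q.2 q.1)) :=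
    (hc.comp measurable_snd).mul ((measurable_mm_swap p2).sub (measurable_mm_swap p1))
  exact (h1.stronglyMeasurable.integral_prod_right (ν := volume.restrict S)).measurable

lemma RS_glue (S : Set ℝ) (c : ℝ → ℝ) (s k1 k2 : ℕ) (a b : Path) :
    RS S c (s + k1) (s + k2) (glue s a b) = ∫ x in S, (c x * mm s x a) * zz s k1 k2 x b := by
  unfold RS
  refine integral_congr_ae (ae_of_all _ fun x => ?_)
  simp only
  rw [mm_sub, mm_glue le_rfl, zz_glue]
  ring

namespace Cone

variable {μ : Measure Path}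

lemma inner_eq (h : Cone μ) {S : Set ℝ} (hS : S ⊆ Set.Icc 0 1) {c : ℝ → ℝ}
    (hc : Measurable c) (hc1 : ∀ x, |c x| ≤ 1) (s : ℕ) {k1 k2 : ℕ} (hk : k1 ≤ k2) :
    ∀ᵐ a ∂μ, Integrable (fun b => RS S c (s + k1) (s + k2) (glue s a b) ^ 2) μ ∧
      ∫ b, RS S c (s + k1) (s + k2) (glue s a b) ^ 2 ∂μ = QS S c s (s + k1) (s + k2) a := by
  filter_upwards [h.ae_sq_int s] with a ha
  have : IsFiniteMeasure (volume.restrict S) := ⟨by
    rw [Measure.restrict_apply_univ]
    exact (measure_mono hS).trans_lt (by simp)⟩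
  have hg : Measurable (fun x => c x * mm s x a) := hc.mul (measurable_mm_x s a)
  have hg2 : Integrable (fun x => (c x * mm s x a) ^ 2) (volume.restrict S) := by
    have h1 : Integrable (fun x => mm s x a ^ 2) (volume.restrict S) := ha.mono_set hS
    have h2 : Integrable (fun x => c x ^ 2 * mm s x a ^ 2) (volume.restrict S) := by
      refine h1.bdd_mul (c := 1) (hc.pow_const 2).aestronglyMeasurable (ae_of_all _ fun x => ?_)
      rw [Real.norm_eq_abs, abs_pow]
      exact pow_le_one₀ (abs_nonneg _) (hc1 x)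
    exact h2.congr (ae_of_all _ fun x => by simp only; ring)
  obtain ⟨h1, _, h3⟩ := h.cond_var s hk (volume.restrict S) hg hg2
  constructor
  · refine h1.congr (ae_of_all _ fun b => ?_)
    simp only
    rw [RS_glue]
  · rw [QS, ← h3]
    refine integral_congr_ae (ae_of_all _ fun b => ?_)
    simp only
    rw [RS_glue]

lemma good_RS_eq (h : Cone μ) (M : ℝ) {S : Set ℝ} (hS : S ⊆ Set.Icc 0 1) {c : ℝ → ℝ}
    (hc : Measurable c) (hc1 : ∀ x, |c x| ≤ 1) (s : ℕ) {k1 k2 : ℕ} (hk : k1 ≤ k2) :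
    ∫⁻ z, (Good M s).indicator (fun z => ENNReal.ofReal (RS S c (s + k1) (s + k2) z ^ 2)) z ∂μ =
    ∫⁻ a, (Good M s).indicator (fun a => ENNReal.ofReal (QS S c s (s + k1) (s + k2) a)) a ∂μ := by
  have hm : Measurable (fun z => (Good M s).indicator
      (fun z => ENNReal.ofReal (RS S c (s + k1) (s + k2) z ^ 2)) z) := by
    refine Measurable.indicator ?_ (measurableSet_Good _ _)
    exact ((measurable_RS S hc _ _).pow_const 2).ennreal_ofReal
  rw [h.lintegral_glue s hm]
  refine lintegral_congr_ae ?_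
  filter_upwards [h.inner_eq hS hc hc1 s hk] with a ha
  by_cases hg : a ∈ Good M s
  · rw [Set.indicator_of_mem hg, ← ha.2,
      ofReal_integral_eq_lintegral_ofReal ha.1 (ae_of_all _ fun b => sq_nonneg _)]
    refine lintegral_congr fun b => ?_
    rw [Set.indicator_of_mem ((mem_Good_glue le_rfl _ _).2 hg)]
  · rw [Set.indicator_of_notMem hg, ← lintegral_zero (μ := μ)]
    refine lintegral_congr fun b => ?_
    rw [Set.indicator_of_notMem (fun h' => hg ((mem_Good_glue le_rfl _ _).1 h'))]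

/-- Tonelli on the good event -/
lemma good_tonelli (h : Cone μ) (M : ℝ) (s : ℕ) {T : Type*} [MeasurableSpace T] (ν : Measure T)
    [SFinite ν] {F : T → Path → ℝ≥0∞} (hF : Measurable (fun q : T × Path => F q.1 q.2)) :
    ∫⁻ a, (Good M s).indicator (fun a => ∫⁻ t, F t a ∂ν) a ∂μ =
      ∫⁻ t, (∫⁻ a, (Good M s).indicator (F t) a ∂μ) ∂ν := by
  have := h.isProb
  have hG := measurableSet_Good M s
  have hF2 : Measurable (fun q : Path × T => (Good M s).indicator (F q.2) q.1) := by
    have h1 : Measurable (fun q : Path × T => F q.2 q.1) := by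
      have h2 : Measurable (fun q : Path × T => ((q.2, q.1) : T × Path)) :=
        measurable_snd.prodMk measurable_fst
      have h3 := hF.comp h2
      exact h3
    have h4 := h1.indicator (measurable_fst (α := Path) (β := T) hG)
    have e : (fun q : Path × T => (Good M s).indicator (F q.2) q.1) =
        (Prod.fst ⁻¹' (Good M s)).indicator (fun q : Path × T => F q.2 q.1) := by
      funext q
      by_cases hq : q.1 ∈ Good M s
      · rw [Set.indicator_of_mem hq, Set.indicator_of_mem]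
        exact hq
      · rw [Set.indicator_of_notMem hq, Set.indicator_of_notMem]
        exact hq
    rw [e]
    exact h4
  calc ∫⁻ a, (Good M s).indicator (fun a => ∫⁻ t, F t a ∂ν) a ∂μ
      = ∫⁻ a, (∫⁻ t, (Good M s).indicator (F t) a ∂ν) ∂μ := by
        refine lintegral_congr fun a => ?_
        by_cases ha : a ∈ Good M s
        · simp only [Set.indicator_of_mem ha]
        · simp only [Set.indicator_of_notMem ha, lintegral_zero]
    _ = _ := lintegral_lintegral_swap (f := fun (a : Path) (t : T) =>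
        (Good M s).indicator (F t) a) hF2.aemeasurable

/-- the bound for the truncated second moment -/
noncomputable def Aq (C M : ℝ) (s : ℕ) : ℝ := C * (1 + M) * √(2 ^ s) / √(s + 1)

lemma good_mass_le (h : Cone μ) {C M : ℝ} (hM : 0 ≤ M) (s : ℕ)
    (hC : ∀ x, aq μ M s x ≤ ENNReal.ofReal (Aq C M s)) {S : Set ℝ} (hSm : MeasurableSet S)
    (hS : S ⊆ Set.Icc 0 1) :
    ∫⁻ a, (Good M s).indicator (fun a => ∫⁻ x in S, ENNReal.ofReal (mm s x a ^ 2)) a ∂μ ≤
      ENNReal.ofReal (Aq C M s) * volume S := by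
  have hF : Measurable (fun q : ℝ × Path => ENNReal.ofReal (mm s q.1 q.2 ^ 2)) :=
    ((measurable_mm s).pow_const 2).ennreal_ofReal
  rw [h.good_tonelli M s (volume.restrict S) (F := fun x a => ENNReal.ofReal (mm s x a ^ 2)) hF]
  rw [← setLIntegral_const]
  refine setLIntegral_mono' hSm fun x hx => ?_
  exact (h.good_indicator_le M s (hS hx) _).trans (hC x)

/-- Schur bound on the good event -/
lemma good_RS_le (h : Cone μ) {C M : ℝ} (hM : 0 ≤ M) (s : ℕ) {k1 k2 : ℕ} (hk : k1 ≤ k2)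
    (hC : ∀ x, aq μ M s x ≤ ENNReal.ofReal (Aq C M s)) {S : Set ℝ} (hSm : MeasurableSet S)
    (hS : S ⊆ Set.Icc 0 1) {c : ℝ → ℝ} (hc : Measurable c) (hc1 : ∀ x, |c x| ≤ 1) :
    ∫⁻ z, (Good M s).indicator (fun z => ENNReal.ofReal (RS S c (s + k1) (s + k2) z ^ 2)) z ∂μ ≤
      ENNReal.ofReal (4 / (√(2 ^ s) * √(2 ^ (s + k1)))) * (ENNReal.ofReal (Aq C M s) * volume S) := by
  have : IsFiniteMeasure (volume.restrict S) := ⟨by
    rw [Measure.restrict_apply_univ]
    exact (measure_mono hS).trans_lt (by simp)⟩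
  have hP := goodKer_Psi s hk
  have hIP0 : 0 ≤ ∫ w, Psi s (s + k1) (s + k2) w := integral_nonneg fun w => hP.nonneg w
  rw [h.good_RS_eq M hS hc hc1 s hk]
  calc ∫⁻ a, (Good M s).indicator (fun a => ENNReal.ofReal (QS S c s (s + k1) (s + k2) a)) a ∂μ
      ≤ ∫⁻ a, ENNReal.ofReal (∫ w, Psi s (s + k1) (s + k2) w) *
          (Good M s).indicator (fun a => ∫⁻ x in S, ENNReal.ofReal (mm s x a ^ 2)) a ∂μ := by
        refine lintegral_mono_ae ?_
        filter_upwards [h.ae_sq_int s] with a ha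
        by_cases hg : a ∈ Good M s
        · rw [Set.indicator_of_mem hg, Set.indicator_of_mem hg]
          have h1 : IntegrableOn (fun x => mm s x a ^ 2) S := ha.mono_set hS
          rw [← ofReal_integral_eq_lintegral_ofReal h1 (ae_of_all _ fun x => sq_nonneg _),
            ← ENNReal.ofReal_mul hIP0]
          refine ENNReal.ofReal_le_ofReal ?_
          have hgm : Measurable (fun x => c x * mm s x a) := hc.mul (measurable_mm_x s a)
          have h2 : IntegrableOn (fun x => (c x * mm s x a) ^ 2) S := by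
            have h2 : Integrable (fun x => c x ^ 2 * mm s x a ^ 2) (volume.restrict S) := by
              refine h1.bdd_mul (c := 1) (hc.pow_const 2).aestronglyMeasurable
                (ae_of_all _ fun x => ?_)
              rw [Real.norm_eq_abs, abs_pow]
              exact pow_le_one₀ (abs_nonneg _) (hc1 x)
            exact h2.congr (ae_of_all _ fun x => by simp only; ring)
          refine (le_abs_self _).trans ((hP.quad_le S hgm h2).trans ?_)
          refine mul_le_mul_of_nonneg_left ?_ hIP0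
          refine integral_mono h2 h1 fun x => ?_
          simp only [mul_pow]
          have h3 : c x ^ 2 ≤ 1 := by
            rw [← sq_abs]
            exact pow_le_one₀ (abs_nonneg _) (hc1 x)
          have h4 := sq_nonneg (mm s x a)
          nlinarith
        · rw [Set.indicator_of_notMem hg]
          exact zero_le
    _ = ENNReal.ofReal (∫ w, Psi s (s + k1) (s + k2) w) *
          ∫⁻ a, (Good M s).indicator (fun a => ∫⁻ x in S, ENNReal.ofReal (mm s x a ^ 2)) a ∂μ := by
        rw [lintegral_const_mul' _ _ ENNReal.ofReal_ne_top]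
    _ ≤ _ := by
        gcongr
        · exact integral_Psi_le (by omega) (by omega)
        · exact h.good_mass_le hM s hC hSm hS

end Cone

end Pool.Agent.helper95.GMC
end

/-! ### merged from `Pool.Agent.helper95.GMC.Coarse` -/

section
/-!
The coarse steps on the good event.
-/

open MeasureTheory ProbabilityTheory Filter Topology Set
open scoped ENNReal NNReal

namespace Pool.Agent.helper95.GMC

set_option maxHeartbeats 400000

/-- unit interval -/
abbrev UI : Set ℝ := Set.Icc (0 : ℝ) 1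

instance : IsProbabilityMeasure (volume.restrict UI) := ⟨by simp⟩

/-- bound for the truncated second moment of differences -/
noncomputable def Bq (D M : ℝ) (s : ℕ) : ℝ := D * (1 + M) * √(2 ^ s) / √(s + 1)

lemma measurable_diff (s p1 p2 : ℕ) : Measurable (fun q : (ℝ × ℝ) × Path =>
    ENNReal.ofReal ((mm s q.1.1 q.2 - mm s q.1.2 q.2) ^ 2 * Psi s p1 p2 (q.1.1 - q.1.2))) := by
  have h1 : Measurable (fun q : (ℝ × ℝ) × Path => mm s q.1.1 q.2) := by
    have h2 : Measurable (fun q : (ℝ × ℝ) × Path => ((q.1.1, q.2) : ℝ × Path)) :=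
      (measurable_fst.comp measurable_fst).prodMk measurable_snd
    have h3 := (measurable_mm s).comp h2
    exact h3
  have h1' : Measurable (fun q : (ℝ × ℝ) × Path => mm s q.1.2 q.2) := by
    have h2 : Measurable (fun q : (ℝ × ℝ) × Path => ((q.1.2, q.2) : ℝ × Path)) :=
      (measurable_snd.comp measurable_fst).prodMk measurable_snd
    have h3 := (measurable_mm s).comp h2
    exact h3
  have h4 : Measurable (fun q : (ℝ × ℝ) × Path => Psi s p1 p2 (q.1.1 - q.1.2)) :=
    (continuous_Psi s p1 p2).measurable.comp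
      ((measurable_fst.comp measurable_fst).sub (measurable_snd.comp measurable_fst))
  exact (((h1.sub h1').pow_const 2).mul h4).ennreal_ofReal

namespace Cone

variable {μ : Measure Path}

lemma good_diff_le (h : Cone μ) {D M : ℝ} (hD : 0 ≤ D) (hM : 0 ≤ M) (s : ℕ) {k1 k2 : ℕ}
    (hk : k1 ≤ k2) (hk1 : 2 ≤ k1)
    (hB : ∀ x y, |x - y| ≤ (2 ^ (s + 2))⁻¹ →
      bq μ M s x y ≤ ENNReal.ofReal (Bq D M s * (2 ^ s * |x - y|))) :
    ∫⁻ a, (Good M s).indicator (fun a => ∫⁻ q : ℝ × ℝ, ENNReal.ofReal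
      ((mm s q.1 a - mm s q.2 a) ^ 2 * Psi s (s + k1) (s + k2) (q.1 - q.2))
        ∂((volume.restrict UI).prod (volume.restrict UI))) a ∂μ ≤
      ENNReal.ofReal (Bq D M s * (2 ^ s / 2 ^ (s + k1)) * (4 / (√(2 ^ s) * √(2 ^ (s + k1))))) := by
  have hP := goodKer_Psi s hk
  have hBq : 0 ≤ Bq D M s := by unfold Bq; positivity
  have hF := measurable_diff s (s + k1) (s + k2)
  rw [h.good_tonelli M s ((volume.restrict UI).prod (volume.restrict UI))
    (F := fun q a => ENNReal.ofReal ((mm s q.1 a - mm s q.2 a) ^ 2 *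
      Psi s (s + k1) (s + k2) (q.1 - q.2))) hF]
  -- pointwise bound
  have hpt : ∀ q : ℝ × ℝ, q.1 ∈ UI →
      ∫⁻ a, (Good M s).indicator (fun a => ENNReal.ofReal ((mm s q.1 a - mm s q.2 a) ^ 2 *
        Psi s (s + k1) (s + k2) (q.1 - q.2))) a ∂μ ≤
      ENNReal.ofReal (Bq D M s * (2 ^ s / 2 ^ (s + k1)) * Psi s (s + k1) (s + k2) (q.1 - q.2)) := by
    intro q hq
    by_cases hz : (2 ^ (s + k1))⁻¹ ≤ |q.1 - q.2|
    · have h0 := Psi_eq_zero (s := s) (p1 := s + k1) (p2 := s + k2) (by omega) hz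
      rw [h0]
      simp
    · push Not at hz
      have h1 : ∀ a, (Good M s).indicator (fun a => ENNReal.ofReal ((mm s q.1 a - mm s q.2 a) ^ 2 *
        Psi s (s + k1) (s + k2) (q.1 - q.2))) a =
        ENNReal.ofReal (Psi s (s + k1) (s + k2) (q.1 - q.2)) *
        (Good M s).indicator (fun a => ENNReal.ofReal ((mm s q.1 a - mm s q.2 a) ^ 2)) a := by
        intro a
        by_cases ha : a ∈ Good M s
        · rw [Set.indicator_of_mem ha, Set.indicator_of_mem ha,
            ← ENNReal.ofReal_mul (hP.nonneg _), mul_comm]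
        · rw [Set.indicator_of_notMem ha, Set.indicator_of_notMem ha, mul_zero]
      rw [lintegral_congr h1, lintegral_const_mul' _ _ ENNReal.ofReal_ne_top]
      have h2 := (h.good_indicator_le M s hq
        (fun a => ENNReal.ofReal ((mm s q.1 a - mm s q.2 a) ^ 2)))
      have h3 : |q.1 - q.2| ≤ (2 ^ (s + 2))⁻¹ := by
        refine hz.le.trans (inv_anti₀ (by positivity) ?_)
        exact pow_le_pow_right₀ (by norm_num) (by omega)
      have h4 := hB q.1 q.2 h3
      calc ENNReal.ofReal (Psi s (s + k1) (s + k2) (q.1 - q.2)) *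
            ∫⁻ a, (Good M s).indicator (fun a => ENNReal.ofReal ((mm s q.1 a - mm s q.2 a) ^ 2)) a ∂μ
          ≤ ENNReal.ofReal (Psi s (s + k1) (s + k2) (q.1 - q.2)) *
            ENNReal.ofReal (Bq D M s * (2 ^ s * |q.1 - q.2|)) := by
            gcongr
            exact h2.trans h4
        _ = ENNReal.ofReal (Psi s (s + k1) (s + k2) (q.1 - q.2) *
            (Bq D M s * (2 ^ s * |q.1 - q.2|))) := by
            rw [ENNReal.ofReal_mul (hP.nonneg _)]
        _ ≤ _ := by
            refine ENNReal.ofReal_le_ofReal ?_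
            rw [mul_comm]
            refine mul_le_mul_of_nonneg_right ?_ (hP.nonneg _)
            refine mul_le_mul_of_nonneg_left ?_ hBq
            rw [div_eq_mul_inv]
            gcongr
  have hm1 : Measurable (fun q : ℝ × ℝ => ENNReal.ofReal (Bq D M s * (2 ^ s / 2 ^ (s + k1)) *
      Psi s (s + k1) (s + k2) (q.1 - q.2))) := (hP.meas_sub.const_mul _).ennreal_ofReal
  calc _ ≤ ∫⁻ q : ℝ × ℝ, ENNReal.ofReal (Bq D M s * (2 ^ s / 2 ^ (s + k1)) *
        Psi s (s + k1) (s + k2) (q.1 - q.2)) ∂((volume.restrict UI).prod (volume.restrict UI)) := by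
        refine lintegral_mono_ae ?_
        have h5 : ∀ᵐ q : ℝ × ℝ ∂((volume.restrict UI).prod (volume.restrict UI)), q.1 ∈ UI := by
          have h6 : ∀ᵐ x ∂(volume.restrict UI), x ∈ UI := ae_restrict_mem measurableSet_Icc
          exact Measure.quasiMeasurePreserving_fst.ae h6
        filter_upwards [h5] with q hq
        exact hpt q hq
    _ ≤ ENNReal.ofReal (Bq D M s * (2 ^ s / 2 ^ (s + k1)) *
          ∫ w, Psi s (s + k1) (s + k2) w) := by
        have h7 : ∀ q : ℝ × ℝ, ENNReal.ofReal (Bq D M s * (2 ^ s / 2 ^ (s + k1)) *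
            Psi s (s + k1) (s + k2) (q.1 - q.2)) = ENNReal.ofReal (Bq D M s * (2 ^ s / 2 ^ (s + k1))) *
            ENNReal.ofReal (1 * Psi s (s + k1) (s + k2) (q.1 - q.2)) := by
          intro q
          rw [one_mul, ← ENNReal.ofReal_mul (by positivity)]
        have h10 : ENNReal.ofReal (Bq D M s * (2 ^ s / 2 ^ (s + k1)) *
            ∫ w, Psi s (s + k1) (s + k2) w) = ENNReal.ofReal (Bq D M s * (2 ^ s / 2 ^ (s + k1))) *
            ENNReal.ofReal (∫ w, Psi s (s + k1) (s + k2) w) := ENNReal.ofReal_mul (by positivity)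
        rw [lintegral_congr h7, lintegral_const_mul' _ _ ENNReal.ofReal_ne_top, h10]
        refine mul_le_mul' le_rfl ?_
        have h8 : Integrable (fun q : ℝ × ℝ => 1 * Psi s (s + k1) (s + k2) (q.1 - q.2))
            ((volume.restrict UI).prod (volume.restrict UI)) := hP.mul_int (integrable_const 1)
        rw [← ofReal_integral_eq_lintegral_ofReal h8 (ae_of_all _ fun q => by
          simp only [one_mul]; exact hP.nonneg _)]
        refine ENNReal.ofReal_le_ofReal ?_
        have h9 := hP.schur UI (f := fun _ => 1) (fun _ => zero_le_one) (integrable_const 1)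
        simpa using h9
    _ ≤ _ := by
        refine ENNReal.ofReal_le_ofReal ?_
        refine mul_le_mul_of_nonneg_left ?_ (by positivity)
        exact integral_Psi_le (by omega) (by omega)

/-- coarse step -/
lemma coarse_step : ∃ C' : ℝ, 0 ≤ C' ∧ ∀ {μ : Measure Path}, Cone μ → ∀ (M θ : ℝ) (n s p : ℕ),
    0 ≤ M → 1 ≤ n → s + 2 ≤ p →
    ∫⁻ z, (Good M s).indicator (fun z => ENNReal.ofReal (RS UI (cs n θ) p (p + 1) z ^ 2)) z ∂μ ≤
      ENNReal.ofReal (C' * (1 + M) / √(s + 1) * (√(2 ^ p) / n + 2 ^ s / (2 ^ p * √(2 ^ p)))) := by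
  obtain ⟨C, hC1, hC⟩ := aq_le
  obtain ⟨D, hD0, hD⟩ := bq_le
  obtain ⟨E, hE0, hE⟩ := osc_Psi
  refine ⟨E * C + 2 * D, by nlinarith [mul_nonneg hE0 (by linarith : 0 ≤ C)],
    fun {μ} h M θ n s p hM hn hsp => ?_⟩
  obtain ⟨k1, rfl⟩ : ∃ k1, p = s + k1 := ⟨p - s, by omega⟩
  have hk : k1 ≤ k1 + 1 := by omega
  have hP := goodKer_Psi s hk
  have hAq : ∀ x, aq μ M s x ≤ ENNReal.ofReal (Aq C M s) := fun x => hC h M s x hM
  have hBqq : ∀ x y, |x - y| ≤ (2 ^ (s + 2))⁻¹ →
      bq μ M s x y ≤ ENNReal.ofReal (Bq D M s * (2 ^ s * |x - y|)) := by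
    intro x y hxy
    refine (hD h M hM s x y hxy).trans (le_of_eq ?_)
    congr 1
    unfold Bq
    ring
  have hc := measurable_cs n θ
  have hc1 := abs_cs_le n θ
  set osc : ℝ := E * (√(2 ^ (s + k1)) / √(2 ^ s)) / n with hosc
  have hosc0 : 0 ≤ osc := by positivity
  have e0 : s + k1 + 1 = s + (k1 + 1) := by omega
  rw [e0, h.good_RS_eq M (S := UI) subset_rfl hc hc1 s hk]
  have hpt : ∀ᵐ a ∂μ, (Good M s).indicator (fun a => ENNReal.ofReal
      (QS UI (cs n θ) s (s + k1) (s + (k1 + 1)) a)) a ≤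
      ENNReal.ofReal osc * (Good M s).indicator
        (fun a => ∫⁻ x in UI, ENNReal.ofReal (mm s x a ^ 2)) a +
      ENNReal.ofReal (1 / 2) * (Good M s).indicator (fun a => ∫⁻ q : ℝ × ℝ, ENNReal.ofReal
      ((mm s q.1 a - mm s q.2 a) ^ 2 * Psi s (s + k1) (s + (k1 + 1)) (q.1 - q.2))
        ∂((volume.restrict UI).prod (volume.restrict UI))) a := by
    filter_upwards [h.ae_sq_int s] with a ha
    by_cases hg : a ∈ Good M s
    · simp only [Set.indicator_of_mem hg]
      obtain ⟨i1, i2, i3, e⟩ := hP.polar (volume.restrict UI) (measurable_mm_x s a) hc hc1 ha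
      rw [← ofReal_integral_eq_lintegral_ofReal ha (ae_of_all _ fun x => sq_nonneg _),
        ← ofReal_integral_eq_lintegral_ofReal i2 (ae_of_all _ fun q =>
          mul_nonneg (sq_nonneg _) (hP.nonneg _)), ← ENNReal.ofReal_mul hosc0,
        ← ENNReal.ofReal_mul (by norm_num), ← ENNReal.ofReal_add
        (mul_nonneg hosc0 (integral_nonneg fun x => sq_nonneg _))
        (mul_nonneg (by norm_num) (integral_nonneg fun q =>
          mul_nonneg (sq_nonneg _) (hP.nonneg _)))]
      refine ENNReal.ofReal_le_ofReal ?_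
      unfold QS
      rw [e]
      have t1 : ∫ x in UI, cs n θ x * mm s x a ^ 2 *
          (∫ y in UI, cs n θ y * Psi s (s + k1) (s + (k1 + 1)) (x - y)) ≤
          osc * ∫ x in UI, mm s x a ^ 2 := by
        rw [← integral_const_mul]
        refine integral_mono i3 (Integrable.const_mul ha osc) fun x => ?_
        simp only
        have h1 : |∫ y in UI, cs n θ y * Psi s (s + k1) (s + (k1 + 1)) (x - y)| ≤ osc := by
          have h2 := hE s (s + k1) n (by omega) hn θ x
          rw [intervalIntegral.integral_of_le zero_le_one, ← integral_Icc_eq_integral_Ioc] at h2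
          exact h2
        have h3 := abs_cs_le n θ x
        have h4 : |cs n θ x * mm s x a ^ 2 *
            (∫ y in UI, cs n θ y * Psi s (s + k1) (s + (k1 + 1)) (x - y))| ≤
            osc * mm s x a ^ 2 := by
          rw [abs_mul, abs_mul, abs_of_nonneg (sq_nonneg (mm s x a))]
          calc |cs n θ x| * mm s x a ^ 2 *
                |∫ y in UI, cs n θ y * Psi s (s + k1) (s + (k1 + 1)) (x - y)|
              ≤ 1 * mm s x a ^ 2 * osc := by gcongr
            _ = _ := by ring
        exact (le_abs_self _).trans h4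
      have t2 : |∫ q : ℝ × ℝ, cs n θ q.1 * cs n θ q.2 * (mm s q.1 a - mm s q.2 a) ^ 2 *
          Psi s (s + k1) (s + (k1 + 1)) (q.1 - q.2) ∂((volume.restrict UI).prod
            (volume.restrict UI))| ≤ ∫ q : ℝ × ℝ, (mm s q.1 a - mm s q.2 a) ^ 2 *
          Psi s (s + k1) (s + (k1 + 1)) (q.1 - q.2) ∂((volume.restrict UI).prod
            (volume.restrict UI)) := by
        refine (abs_integral_le_integral_abs).trans ?_
        refine integral_mono_of_nonneg (ae_of_all _ fun q => abs_nonneg _) i2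
          (ae_of_all _ fun q => ?_)
        simp only
        rw [mul_assoc, abs_mul, abs_of_nonneg (mul_nonneg (sq_nonneg _) (hP.nonneg _))]
        refine mul_le_of_le_one_left (mul_nonneg (sq_nonneg _) (hP.nonneg _)) ?_
        rw [abs_mul]
        exact mul_le_one₀ (hc1 _) (abs_nonneg _) (hc1 _)
      have t3 := neg_abs_le (∫ q : ℝ × ℝ, cs n θ q.1 * cs n θ q.2 *
          (mm s q.1 a - mm s q.2 a) ^ 2 * Psi s (s + k1) (s + (k1 + 1)) (q.1 - q.2)
            ∂((volume.restrict UI).prod (volume.restrict UI)))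
      linarith
    · rw [Set.indicator_of_notMem hg]
      exact zero_le
  refine (lintegral_mono_ae hpt).trans ?_
  have hmeas1 : Measurable (fun a => (Good M s).indicator
      (fun a => ∫⁻ x in UI, ENNReal.ofReal (mm s x a ^ 2)) a) := by
    refine Measurable.indicator ?_ (measurableSet_Good _ _)
    exact Measurable.lintegral_prod_right' (f := fun q : Path × ℝ =>
      ENNReal.ofReal (mm s q.2 q.1 ^ 2)) ((measurable_mm_swap s).pow_const 2).ennreal_ofReal
  rw [lintegral_add_left (hmeas1.const_mul _), lintegral_const_mul' _ _ ENNReal.ofReal_ne_top,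
    lintegral_const_mul' _ _ ENNReal.ofReal_ne_top]
  have g1 := h.good_mass_le hM s hAq (S := UI) measurableSet_Icc subset_rfl
  have g2 := h.good_diff_le hD0 hM s hk (by omega) hBqq
  have hvol : volume UI = 1 := by simp
  rw [hvol, mul_one] at g1
  refine (add_le_add (mul_le_mul_right g1 _) (mul_le_mul_right g2 _)).trans ?_
  have hA0 : 0 ≤ Aq C M s := by unfold Aq; positivity
  have hB0 : 0 ≤ Bq D M s := by unfold Bq; positivity
  rw [← ENNReal.ofReal_mul hosc0, ← ENNReal.ofReal_mul (by norm_num),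
    ← ENNReal.ofReal_add (by positivity) (by positivity)]
  refine ENNReal.ofReal_le_ofReal ?_
  have h2s : 0 < √((2 : ℝ) ^ s) := by positivity
  have hp0 : 0 < √((2 : ℝ) ^ (s + k1)) := by positivity
  have e1 : osc * Aq C M s = E * C * ((1 + M) / √(s + 1) * (√(2 ^ (s + k1)) / n)) := by
    rw [hosc]; unfold Aq
    field_simp
  have e2 : 1 / 2 * (Bq D M s * (2 ^ s / 2 ^ (s + k1)) * (4 / (√(2 ^ s) * √(2 ^ (s + k1))))) =
      2 * D * ((1 + M) / √(s + 1) * (2 ^ s / (2 ^ (s + k1) * √(2 ^ (s + k1))))) := by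
    unfold Bq
    field_simp
    ring
  rw [e1, e2]
  have q1 : 0 ≤ (1 + M) / √(s + 1) * (√(2 ^ (s + k1)) / n) := by positivity
  have q2 : 0 ≤ (1 + M) / √(s + 1) * (2 ^ s / (2 ^ (s + k1) * √(2 ^ (s + k1)))) := by positivity
  have e3 : (E * C + 2 * D) * (1 + M) / √(s + 1) *
      (√(2 ^ (s + k1)) / n + 2 ^ s / (2 ^ (s + k1) * √(2 ^ (s + k1)))) =
      (E * C + 2 * D) * ((1 + M) / √(s + 1) * (√(2 ^ (s + k1)) / n)) +
      (E * C + 2 * D) * ((1 + M) / √(s + 1) * (2 ^ s / (2 ^ (s + k1) * √(2 ^ (s + k1))))) := by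
    ring
  rw [e3]
  have q3 : 0 ≤ E * C := mul_nonneg hE0 (by linarith)
  have q4 : 0 ≤ 2 * D := by linarith
  nlinarith

end Cone

end Pool.Agent.helper95.GMC
end
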