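import Pool.Agent.helper95.GMC.DensDefs

/-!
Chaos densities: measurability, moments.
-/

open MeasureTheory ProbabilityTheory Filter Topology Set
open scoped ENNReal NNReal

namespace Pool.Agent.helper95.GMC

lemma gam_pos : 0 < gam := by unfold gam; positivity

lemma gam_sq : gam ^ 2 = 1 / 2 := by
  unfold gam
  rw [div_pow, Real.sq_sqrt (by norm_num)]
  norm_num

lemma two_gam : 2 * gam = √2 := by unfold gam; ring

lemma measurable_SY (s k : ℕ) : Measurable (fun q : ℝ × Path => SY s k q.1 q.2) := by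
  unfold SY
  exact Finset.measurable_sum _ fun j _ => measurable_Y _

lemma measurable_mm (k : ℕ) : Measurable (fun q : ℝ × Path => mm k q.1 q.2) := by
  unfold mm
  have h1 := measurable_SY 0 k
  have h2 := measurable_Y 0
  exact Real.measurable_exp.comp (((h2.add h1).const_mul _).sub_const _)

lemma measurable_rr (s k : ℕ) : Measurable (fun q : ℝ × Path => rr s k q.1 q.2) := by
  unfold rr
  have h1 := measurable_SY s k
  exact Real.measurable_exp.comp ((h1.const_mul _).sub_const _)

lemma mm_pos (k : ℕ) (x : ℝ) (z : Path) : 0 < mm k x z := Real.exp_pos _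

lemma rr_pos (s k : ℕ) (x : ℝ) (z : Path) : 0 < rr s k x z := Real.exp_pos _

lemma SY_add (s k l : ℕ) (x : ℝ) (z : Path) : SY s (k + l) x z = SY s k x z + SY (s + k) l x z := by
  unfold SY
  rw [Finset.sum_range_add]
  congr 1
  refine Finset.sum_congr rfl fun j _ => ?_
  rw [add_assoc s k j]

lemma mm_add (s k : ℕ) (x : ℝ) (z : Path) : mm (s + k) x z = mm s x z * rr s k x z := by
  unfold mm rr
  rw [SY_add, ← Real.exp_add, zero_add]
  congr 1
  push_cast
  ring

lemma rr_add (s k l : ℕ) (x : ℝ) (z : Path) : rr s (k + l) x z = rr s k x z * rr (s + k) l x z := by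
  unfold rr
  rw [SY_add, ← Real.exp_add]
  congr 1
  push_cast
  ring

lemma SY_glue_le {s k l : ℕ} (h : s + k ≤ l) (x : ℝ) (a b : Path) :
    SY s k x (glue l a b) = SY s k x a := by
  unfold SY
  refine Finset.sum_congr rfl fun j hj => ?_
  rw [Finset.mem_range] at hj
  exact Y_glue_of_le (by omega) _ _ _

lemma SY_glue_ge {s k l : ℕ} (h : l ≤ s) (x : ℝ) (a b : Path) :
    SY s k x (glue l a b) = SY s k x b := by
  unfold SY
  exact Finset.sum_congr rfl fun j _ => Y_glue_of_lt (by omega) _ _ _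

lemma mm_glue {k l : ℕ} (h : k ≤ l) (x : ℝ) (a b : Path) : mm k x (glue l a b) = mm k x a := by
  unfold mm
  rw [SY_glue_le (by omega), Y_glue_of_le (by omega)]

lemma rr_glue_ge {s k l : ℕ} (h : l ≤ s) (x : ℝ) (a b : Path) :
    rr s k x (glue l a b) = rr s k x b := by
  unfold rr
  rw [SY_glue_ge h]

lemma measurable_mm_path (k : ℕ) (x : ℝ) : Measurable (mm k x) := by
  have h : Measurable (fun z : Path => ((x, z) : ℝ × Path)) := measurable_const.prodMk measurable_id
  have h2 : mm k x = (fun q : ℝ × Path => mm k q.1 q.2) ∘ (fun z : Path => (x, z)) := rfl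
  rw [h2]
  exact (measurable_mm k).comp h

lemma measurable_rr_path (s k : ℕ) (x : ℝ) : Measurable (rr s k x) := by
  have h : Measurable (fun z : Path => ((x, z) : ℝ × Path)) := measurable_const.prodMk measurable_id
  have h2 : rr s k x = (fun q : ℝ × Path => rr s k q.1 q.2) ∘ (fun z : Path => (x, z)) := rfl
  rw [h2]
  exact (measurable_rr s k).comp h

namespace Cone

variable {μ : Measure Path}

lemma SY_ae (h : Cone μ) (s k : ℕ) (x : ℝ) : SY s k x =ᵐ[μ] So s k x := by
  have h1 : ∀ᵐ z ∂μ, ∀ j : ℕ, Y j x z = z (j, x) := ae_all_iff.2 fun j => h.Y_ae_eq j x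
  filter_upwards [h1] with z hz
  unfold SY So
  exact Finset.sum_congr rfl fun j _ => hz _

/-- two-point exponential moments of the layers `s+1..s+k` -/
lemma lintegral_exp_So (h : Cone μ) (s k : ℕ) {α : ℝ} (hα : 0 < α) (x y : ℝ) :
    ∫⁻ z, ENNReal.ofReal (Real.exp (α * So s k x z + α * So s k y z)) ∂μ =
      ENNReal.ofReal (Real.exp (α ^ 2 * (k * Real.log 2 + dK s k (x - y)))) := by
  have := h.isProb
  rcases Nat.eq_zero_or_pos k with rfl | hk
  · simp [So_zero, dK]
  have hd : 0 ≤ dK s k (x - y) := by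
    unfold dK
    rw [← sum_kap_shift]
    exact Finset.sum_nonneg fun j _ => kap_nonneg _ _
  have hkl : 0 < (k : ℝ) * Real.log 2 := by
    have : (0 : ℝ) < k := by exact_mod_cast hk
    exact mul_pos this (Real.log_pos one_lt_two)
  have hv : 0 < (α ^ 2 + α ^ 2) * (k * Real.log 2) + 2 * α * α * dK s k (x - y) := by
    positivity
  have hT := h.tilt_So s k α α x y hv (F := fun _ => 1) measurable_const
  simp only [mul_one, lintegral_const, measure_univ] at hT
  have e : ∀ z : Path, ENNReal.ofReal (Real.exp (α * So s k x z + α * So s k y z)) =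
      ENNReal.ofReal (Real.exp (α ^ 2 * (k * Real.log 2 + dK s k (x - y)))) *
      ENNReal.ofReal (Real.exp (α * So s k x z + α * So s k y z -
        ((α ^ 2 + α ^ 2) * (k * Real.log 2) + 2 * α * α * dK s k (x - y)) / 2)) := by
    intro z
    rw [← ENNReal.ofReal_mul (Real.exp_pos _).le, ← Real.exp_add]
    congr 2
    ring
  rw [lintegral_congr e, lintegral_const_mul' _ _ ENNReal.ofReal_ne_top, hT, mul_one]

lemma lintegral_rr_mul (h : Cone μ) (s k : ℕ) (x y : ℝ) :
    ∫⁻ z, ENNReal.ofReal (rr s k x z * rr s k y z) ∂μ =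
      ENNReal.ofReal (Real.exp (dK s k (x - y) / 2)) := by
  have h1 : (fun z => ENNReal.ofReal (rr s k x z * rr s k y z)) =ᵐ[μ] fun z =>
      ENNReal.ofReal (Real.exp (-(k * Real.log 2 / 2))) *
      ENNReal.ofReal (Real.exp (gam * So s k x z + gam * So s k y z)) := by
    filter_upwards [h.SY_ae s k x, h.SY_ae s k y] with z h1 h2
    unfold rr
    rw [h1, h2, ← Real.exp_add, ← ENNReal.ofReal_mul (Real.exp_pos _).le, ← Real.exp_add]
    congr 2
    ring
  rw [lintegral_congr_ae h1, lintegral_const_mul' _ _ ENNReal.ofReal_ne_top,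
    h.lintegral_exp_So s k gam_pos, ← ENNReal.ofReal_mul (Real.exp_pos _).le, ← Real.exp_add,
    gam_sq]
  congr 2
  ring

lemma lintegral_rr (h : Cone μ) (s k : ℕ) (x : ℝ) :
    ∫⁻ z, ENNReal.ofReal (rr s k x z) ∂μ = 1 := by
  have := h.isProb
  have h1 : (fun z => ENNReal.ofReal (rr s k x z)) =ᵐ[μ] fun z =>
      ENNReal.ofReal (Real.exp (-(k * Real.log 2 / 4))) *
      ENNReal.ofReal (Real.exp (gam / 2 * So s k x z + gam / 2 * So s k x z)) := by
    filter_upwards [h.SY_ae s k x] with z h1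
    unfold rr
    rw [h1, ← ENNReal.ofReal_mul (Real.exp_pos _).le, ← Real.exp_add]
    congr 2
    ring
  rw [lintegral_congr_ae h1, lintegral_const_mul' _ _ ENNReal.ofReal_ne_top,
    h.lintegral_exp_So s k (half_pos gam_pos), ← ENNReal.ofReal_mul (Real.exp_pos _).le,
    ← Real.exp_add, sub_self, dK_zero_right, div_pow, gam_sq]
  have e0 : -((k : ℝ) * Real.log 2 / 4) + 1 / 2 / 2 ^ 2 * (k * Real.log 2 + k * Real.log 2) = 0 := by
    ring
  rw [e0, Real.exp_zero, ENNReal.ofReal_one]

lemma integrable_rr_mul (h : Cone μ) (s k : ℕ) (x y : ℝ) :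
    Integrable (fun z => rr s k x z * rr s k y z) μ := by
  refine ⟨((measurable_rr_path s k x).mul (measurable_rr_path s k y)).aestronglyMeasurable, ?_⟩
  rw [hasFiniteIntegral_iff_ofReal (ae_of_all _ fun z => (mul_pos (rr_pos _ _ _ _)
    (rr_pos _ _ _ _)).le), h.lintegral_rr_mul]
  exact ENNReal.ofReal_lt_top

lemma integrable_rr (h : Cone μ) (s k : ℕ) (x : ℝ) : Integrable (rr s k x) μ := by
  refine ⟨(measurable_rr_path s k x).aestronglyMeasurable, ?_⟩
  rw [hasFiniteIntegral_iff_ofReal (ae_of_all _ fun z => (rr_pos _ _ _ _).le), h.lintegral_rr]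
  exact ENNReal.one_lt_top

lemma integral_rr_mul (h : Cone μ) (s k : ℕ) (x y : ℝ) :
    ∫ z, rr s k x z * rr s k y z ∂μ = Real.exp (dK s k (x - y) / 2) := by
  rw [integral_eq_lintegral_of_nonneg_ae (ae_of_all _ fun z => (mul_pos (rr_pos _ _ _ _)
    (rr_pos _ _ _ _)).le) (h.integrable_rr_mul s k x y).aestronglyMeasurable, h.lintegral_rr_mul,
    ENNReal.toReal_ofReal (Real.exp_pos _).le]

lemma integral_rr (h : Cone μ) (s k : ℕ) (x : ℝ) : ∫ z, rr s k x z ∂μ = 1 := by
  rw [integral_eq_lintegral_of_nonneg_ae (ae_of_all _ fun z => (rr_pos _ _ _ _).le)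
    (h.integrable_rr s k x).aestronglyMeasurable, h.lintegral_rr, ENNReal.toReal_one]

end Cone

end Pool.Agent.helper95.GMC
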