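import Pool.Agent.helper95.GMC.Mom

/-!
Second moment of the increments of the density below the barrier.
-/

open MeasureTheory ProbabilityTheory Filter Topology Set
open scoped ENNReal NNReal

namespace Pool.Agent.helper95.GMC

namespace Cone

variable {μ : Measure Path}

lemma exp_dK_one (s : ℕ) : Real.exp (dK s 1 0 / 2) = √2 := by
  rw [dK_zero_right]
  have := sqrt_two_pow 1
  simp only [pow_one] at this
  rw [this]

lemma inner_sq (h : Cone μ) (s : ℕ) (x y A B : ℝ) :
    ∫⁻ b, ENNReal.ofReal ((A * rr s 1 x b - B * rr s 1 y b) ^ 2) ∂μ =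
      ENNReal.ofReal (A ^ 2 * √2 - 2 * A * B * Real.exp (dK s 1 (x - y) / 2) + B ^ 2 * √2) := by
  have e : ∀ b, (A * rr s 1 x b - B * rr s 1 y b) ^ 2 =
      A ^ 2 * (rr s 1 x b * rr s 1 x b) - 2 * A * B * (rr s 1 x b * rr s 1 y b) +
      B ^ 2 * (rr s 1 y b * rr s 1 y b) := by intro b; ring
  have i1 := (h.integrable_rr_mul s 1 x x).const_mul (A ^ 2)
  have i2 := (h.integrable_rr_mul s 1 x y).const_mul (2 * A * B)
  have i3 := (h.integrable_rr_mul s 1 y y).const_mul (B ^ 2)
  have i12 : Integrable (fun b => A ^ 2 * (rr s 1 x b * rr s 1 x b) -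
    2 * A * B * (rr s 1 x b * rr s 1 y b)) μ := i1.sub i2
  have i123 : Integrable (fun b => A ^ 2 * (rr s 1 x b * rr s 1 x b) -
    2 * A * B * (rr s 1 x b * rr s 1 y b) + B ^ 2 * (rr s 1 y b * rr s 1 y b)) μ := i12.add i3
  rw [← ofReal_integral_eq_lintegral_ofReal]
  · congr 1
    calc ∫ b, (A * rr s 1 x b - B * rr s 1 y b) ^ 2 ∂μ
        = ∫ b, (A ^ 2 * (rr s 1 x b * rr s 1 x b) - 2 * A * B * (rr s 1 x b * rr s 1 y b) +
          B ^ 2 * (rr s 1 y b * rr s 1 y b)) ∂μ := integral_congr_ae (ae_of_all _ e)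
      _ = ∫ b, (A ^ 2 * (rr s 1 x b * rr s 1 x b) - 2 * A * B * (rr s 1 x b * rr s 1 y b)) ∂μ +
          ∫ b, B ^ 2 * (rr s 1 y b * rr s 1 y b) ∂μ := integral_add i12 i3
      _ = (∫ b, A ^ 2 * (rr s 1 x b * rr s 1 x b) ∂μ -
          ∫ b, 2 * A * B * (rr s 1 x b * rr s 1 y b) ∂μ) +
          ∫ b, B ^ 2 * (rr s 1 y b * rr s 1 y b) ∂μ := by rw [integral_sub i1 i2]
      _ = _ := by
          rw [integral_const_mul, integral_const_mul, integral_const_mul, h.integral_rr_mul,
            h.integral_rr_mul, h.integral_rr_mul, sub_self, sub_self, exp_dK_one]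
  · exact i123.congr (ae_of_all _ fun b => (e b).symm)
  · exact ae_of_all _ fun b => sq_nonneg _

lemma quad_bound {A B c δ : ℝ} (hδ : 0 ≤ δ) (hc : √2 - c ≤ δ) (hc2 : c ≤ √2) :
    A ^ 2 * √2 - 2 * A * B * c + B ^ 2 * √2 ≤ (√2 + δ) * (A - B) ^ 2 + 3 * δ * A ^ 2 := by
  have h1 : A ^ 2 * √2 - 2 * A * B * c + B ^ 2 * √2 =
      c * (A - B) ^ 2 + (√2 - c) * (A ^ 2 + B ^ 2) := by ring
  have h2 : B ^ 2 ≤ 2 * A ^ 2 + 2 * (A - B) ^ 2 := by nlinarith [sq_nonneg (2 * A - B)]
  rw [h1]
  have h3 : (√2 - c) * (A ^ 2 + B ^ 2) ≤ (√2 - c) * (3 * A ^ 2 + 2 * (A - B) ^ 2) := by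
    refine mul_le_mul_of_nonneg_left ?_ (by linarith)
    linarith
  have h4 : (√2 - c) * (3 * A ^ 2 + 2 * (A - B) ^ 2) =
      3 * (√2 - c) * A ^ 2 + 2 * (√2 - c) * (A - B) ^ 2 := by ring
  have h5 : 3 * (√2 - c) * A ^ 2 ≤ 3 * δ * A ^ 2 := by
    have := sq_nonneg A
    nlinarith
  have h6 : c * (A - B) ^ 2 + 2 * (√2 - c) * (A - B) ^ 2 ≤ (√2 + δ) * (A - B) ^ 2 := by
    have := sq_nonneg (A - B)
    nlinarith
  linarith

/-- `√2 - exp(dK/2)` is small -/
lemma sqrt_two_sub_le {s : ℕ} {w : ℝ} (hw : |w| ≤ (2 ^ (s + 1))⁻¹) :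
    √2 - Real.exp (dK s 1 w / 2) ≤ 2 ^ s * |w| * (√2 / 2) ∧ Real.exp (dK s 1 w / 2) ≤ √2 := by
  have h1 : dK s 1 w = dK s 1 0 - 2 ^ s * |w| := by
    rw [dK_of_le hw, dK_zero_right, pow_succ]
    push_cast
    ring
  have h2 : Real.exp (dK s 1 w / 2) = √2 * Real.exp (-(2 ^ s * |w| / 2)) := by
    rw [← exp_dK_one s, ← Real.exp_add, h1]
    congr 1
    ring
  have h3 : 0 ≤ 2 ^ s * |w| / 2 := by positivity
  have h4 : 1 - 2 ^ s * |w| / 2 ≤ Real.exp (-(2 ^ s * |w| / 2)) := by
    have := Real.add_one_le_exp (-(2 ^ s * |w| / 2))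
    linarith
  have h5 : Real.exp (-(2 ^ s * |w| / 2)) ≤ 1 := Real.exp_le_one_iff.2 (by linarith)
  have h6 : 0 < √2 := by positivity
  constructor
  · rw [h2]
    nlinarith
  · rw [h2]
    nlinarith

/-- truncated second moment of the increment -/
noncomputable def bq (μ : Measure Path) (M : ℝ) (s : ℕ) (x y : ℝ) : ℝ≥0∞ :=
  ∫⁻ z, (Bar √2 0 M s x).indicator (fun z => ENNReal.ofReal ((mm s x z - mm s y z) ^ 2)) z ∂μ

/-- truncated second moment -/
noncomputable def aq (μ : Measure Path) (M : ℝ) (s : ℕ) (x : ℝ) : ℝ≥0∞ :=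
  ∫⁻ z, (Bar √2 0 M s x).indicator (fun z => ENNReal.ofReal (mm s x z ^ 2)) z ∂μ

lemma bq_succ_le (h : Cone μ) (M : ℝ) (s : ℕ) {x y : ℝ} (hw : |x - y| ≤ (2 ^ (s + 1))⁻¹) :
    bq μ M (s + 1) x y ≤ ENNReal.ofReal (√2 + 2 ^ s * |x - y| * (√2 / 2)) * bq μ M s x y +
      ENNReal.ofReal (3 * (2 ^ s * |x - y| * (√2 / 2))) * aq μ M s x := by
  have hmx := measurable_mm_path (s + 1) x
  have hmy := measurable_mm_path (s + 1) y
  have hmx' := measurable_mm_path s x
  have hmy' := measurable_mm_path s y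
  have hm : Measurable (fun z => (Bar √2 0 M s x).indicator
      (fun z => ENNReal.ofReal ((mm (s + 1) x z - mm (s + 1) y z) ^ 2)) z) := by
    refine Measurable.indicator ?_ (measurableSet_Bar _ _ _ _ _)
    fun_prop
  have hmb : Measurable (fun z => (Bar √2 0 M s x).indicator
      (fun z => ENNReal.ofReal ((mm s x z - mm s y z) ^ 2)) z) := by
    refine Measurable.indicator ?_ (measurableSet_Bar _ _ _ _ _)
    fun_prop
  set δ : ℝ := 2 ^ s * |x - y| * (√2 / 2) with hδ
  have hδ0 : 0 ≤ δ := by positivity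
  obtain ⟨hc1, hc2⟩ := sqrt_two_sub_le hw
  calc bq μ M (s + 1) x y
      ≤ ∫⁻ z, (Bar √2 0 M s x).indicator
          (fun z => ENNReal.ofReal ((mm (s + 1) x z - mm (s + 1) y z) ^ 2)) z ∂μ := by
        unfold bq
        refine lintegral_mono fun z => ?_
        exact Set.indicator_le_indicator_of_subset (Bar_anti (by omega) x) (fun _ => zero_le) z
    _ = ∫⁻ a, ∫⁻ b, (Bar √2 0 M s x).indicator (fun a =>
          ENNReal.ofReal ((mm s x a * rr s 1 x b - mm s y a * rr s 1 y b) ^ 2)) a ∂μ ∂μ := by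
        rw [h.lintegral_glue s hm]
        refine lintegral_congr fun a => lintegral_congr fun b => ?_
        by_cases ha : a ∈ Bar √2 0 M s x
        · rw [Set.indicator_of_mem ha, Set.indicator_of_mem
            ((mem_Bar_glue_le (by omega) _ _ _).2 ha), mm_add, mm_add, mm_glue le_rfl,
            mm_glue le_rfl, rr_glue_ge le_rfl, rr_glue_ge le_rfl]
        · rw [Set.indicator_of_notMem ha, Set.indicator_of_notMem
            (fun h' => ha ((mem_Bar_glue_le (by omega) _ _ _).1 h'))]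
    _ = ∫⁻ a, (Bar √2 0 M s x).indicator (fun a => ENNReal.ofReal (mm s x a ^ 2 * √2 -
          2 * mm s x a * mm s y a * Real.exp (dK s 1 (x - y) / 2) + mm s y a ^ 2 * √2)) a ∂μ := by
        refine lintegral_congr fun a => ?_
        by_cases ha : a ∈ Bar √2 0 M s x
        · simp only [Set.indicator_of_mem ha]
          rw [h.inner_sq]
        · simp only [Set.indicator_of_notMem ha, lintegral_zero]
    _ ≤ ∫⁻ a, (ENNReal.ofReal (√2 + δ) * (Bar √2 0 M s x).indicator
          (fun z => ENNReal.ofReal ((mm s x z - mm s y z) ^ 2)) a +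
          ENNReal.ofReal (3 * δ) * (Bar √2 0 M s x).indicator
          (fun z => ENNReal.ofReal (mm s x z ^ 2)) a) ∂μ := by
        refine lintegral_mono fun a => ?_
        by_cases ha : a ∈ Bar √2 0 M s x
        · simp only [Set.indicator_of_mem ha]
          rw [← ENNReal.ofReal_mul (by positivity), ← ENNReal.ofReal_mul (by positivity),
            ← ENNReal.ofReal_add (by positivity) (by positivity)]
          exact ENNReal.ofReal_le_ofReal (quad_bound hδ0 hc1 hc2)
        · simp only [Set.indicator_of_notMem ha]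
          exact zero_le
    _ = _ := by
        rw [lintegral_add_left (hmb.const_mul _), lintegral_const_mul' _ _ ENNReal.ofReal_ne_top,
          lintegral_const_mul' _ _ ENNReal.ofReal_ne_top]
        rfl

lemma bq_zero_le (h : Cone μ) (M : ℝ) {x y : ℝ} (hw : |x - y| ≤ 1) :
    bq μ M 0 x y ≤ ENNReal.ofReal (2 * |x - y|) := by
  have hmx := measurable_mm_path 0 x
  have hmy := measurable_mm_path 0 y
  -- second moments of the layer zero
  have key : ∀ u v : ℝ, |u - v| ≤ 1 → (∫⁻ z, ENNReal.ofReal (mm 0 u z * mm 0 v z) ∂μ =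
      ENNReal.ofReal (Real.exp ((1 - |u - v|) / 2))) := by
    intro u v huv
    have hV : twoV {0} gam gam u v = 1 + (1 - |u - v|) := by
      unfold twoV
      rw [Finset.sum_singleton, kap_zero, kap_zero, K_zero, K_of_le (by simpa using huv)]
      have := gam_sq
      push_cast
      have h1 : 2 * gam * gam = 1 := by rw [mul_assoc, ← sq, gam_sq]; norm_num
      rw [h1, gam_sq]
      ring
    have hv : 0 < twoV {0} gam gam u v := by rw [hV]; linarith
    have hT := h.tilt_two {0} gam gam u v hv (F := fun _ => 1) measurable_const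
    have := h.isProb
    rw [hV] at hT
    simp only [mul_one, lintegral_const, measure_univ] at hT
    have e : (fun z => ENNReal.ofReal (mm 0 u z * mm 0 v z)) =ᵐ[μ] fun z =>
        ENNReal.ofReal (Real.exp ((1 - |u - v|) / 2)) *
        ENNReal.ofReal (Real.exp (two {0} gam gam u v z - (1 + (1 - |u - v|)) / 2)) := by
      filter_upwards [h.mm_ae 0 u, h.mm_ae 0 v] with z h1 h2
      rw [h1, h2, ← Real.exp_add, ← ENNReal.ofReal_mul (Real.exp_pos _).le, ← Real.exp_add]
      congr 2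
      unfold two
      rw [Finset.sum_singleton, So_zero, So_zero]
      push_cast
      ring
    rw [lintegral_congr_ae e, lintegral_const_mul' _ _ ENNReal.ofReal_ne_top, hT, mul_one]
  have hint : ∀ u v : ℝ, |u - v| ≤ 1 → Integrable (fun z => mm 0 u z * mm 0 v z) μ := by
    intro u v huv
    refine ⟨((measurable_mm_path 0 u).mul (measurable_mm_path 0 v)).aestronglyMeasurable, ?_⟩
    rw [hasFiniteIntegral_iff_ofReal (ae_of_all _ fun z => (mul_pos (mm_pos _ _ _)
      (mm_pos _ _ _)).le), key u v huv]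
    exact ENNReal.ofReal_lt_top
  have hval : ∀ u v : ℝ, |u - v| ≤ 1 → ∫ z, mm 0 u z * mm 0 v z ∂μ =
      Real.exp ((1 - |u - v|) / 2) := by
    intro u v huv
    rw [integral_eq_lintegral_of_nonneg_ae (ae_of_all _ fun z => (mul_pos (mm_pos _ _ _)
      (mm_pos _ _ _)).le) (hint u v huv).aestronglyMeasurable, key u v huv,
      ENNReal.toReal_ofReal (Real.exp_pos _).le]
  unfold bq
  calc ∫⁻ z, (Bar √2 0 M 0 x).indicator (fun z => ENNReal.ofReal ((mm 0 x z - mm 0 y z) ^ 2)) z ∂μ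
      ≤ ∫⁻ z, ENNReal.ofReal ((mm 0 x z - mm 0 y z) ^ 2) ∂μ :=
        lintegral_mono fun z => Set.indicator_le_self _ _ _
    _ = ENNReal.ofReal (∫ z, (mm 0 x z - mm 0 y z) ^ 2 ∂μ) := by
        rw [ofReal_integral_eq_lintegral_ofReal]
        · have i1 := hint x x (by simp)
          have i2 := hint x y hw
          have i3 := hint y y (by simp)
          refine ((i1.sub (i2.const_mul 2)).add i3).congr (ae_of_all _ fun z => ?_)
          simp only [Pi.add_apply, Pi.sub_apply]
          ring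
        · exact ae_of_all _ fun z => sq_nonneg _
    _ ≤ _ := by
        refine ENNReal.ofReal_le_ofReal ?_
        have i1 := hint x x (by simp)
        have i2 := (hint x y hw).const_mul 2
        have i3 := hint y y (by simp)
        have i12 : Integrable (fun z => mm 0 x z * mm 0 x z - 2 * (mm 0 x z * mm 0 y z)) μ :=
          i1.sub i2
        have e : ∫ z, (mm 0 x z - mm 0 y z) ^ 2 ∂μ =
            2 * Real.exp (1 / 2) - 2 * Real.exp ((1 - |x - y|) / 2) := by
          calc ∫ z, (mm 0 x z - mm 0 y z) ^ 2 ∂μ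
              = ∫ z, (mm 0 x z * mm 0 x z - 2 * (mm 0 x z * mm 0 y z) +
                mm 0 y z * mm 0 y z) ∂μ :=
                integral_congr_ae (ae_of_all _ fun z => by simp only; ring)
            _ = ∫ z, (mm 0 x z * mm 0 x z - 2 * (mm 0 x z * mm 0 y z)) ∂μ +
                ∫ z, mm 0 y z * mm 0 y z ∂μ := integral_add i12 i3
            _ = (∫ z, mm 0 x z * mm 0 x z ∂μ - ∫ z, 2 * (mm 0 x z * mm 0 y z) ∂μ) +
                ∫ z, mm 0 y z * mm 0 y z ∂μ := by rw [integral_sub i1 i2]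
            _ = _ := by
                rw [integral_const_mul, hval x x (by simp), hval x y hw, hval y y (by simp)]
                simp only [sub_self, abs_zero, sub_zero]
                ring
        rw [e]
        have h1 : Real.exp ((1 - |x - y|) / 2) = Real.exp (1 / 2) * Real.exp (-(|x - y| / 2)) := by
          rw [← Real.exp_add]; congr 1; ring
        have h2 := Real.add_one_le_exp (-(|x - y| / 2))
        have h3 : Real.exp (1 / 2) ≤ 2 := by
          have h4 : Real.exp (1 / 2) ^ 2 ≤ 2 ^ 2 := by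
            rw [← Real.exp_nat_mul]
            have := Real.exp_one_lt_d9
            norm_num
            linarith
          exact le_of_sq_le_sq h4 (by norm_num) |> fun h => h
        have h4 := Real.exp_pos (1 / 2)
        have h5 := abs_nonneg (x - y)
        rw [h1]
        nlinarith

lemma aq_le : ∃ C : ℝ, 1 ≤ C ∧ ∀ {μ : Measure Path}, Cone μ → ∀ (M : ℝ) (s : ℕ) (x : ℝ),
    0 ≤ M → aq μ M s x ≤ ENNReal.ofReal (C * (1 + M) * √(2 ^ s) / √(s + 1)) := bar_sq_le

lemma bq_le : ∃ D : ℝ, 0 ≤ D ∧ ∀ {μ : Measure Path}, Cone μ → ∀ (M : ℝ), 0 ≤ M →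
    ∀ (s : ℕ) (x y : ℝ), |x - y| ≤ (2 ^ (s + 2))⁻¹ →
    bq μ M s x y ≤ ENNReal.ofReal (D * (1 + M) * √(2 ^ s) * (2 ^ s * |x - y|) / √(s + 1)) := by
  obtain ⟨C, hC1, hC⟩ := aq_le
  refine ⟨5 * C, by linarith, fun {μ} h M hM s => ?_⟩
  induction s with
  | zero =>
    intro x y hw
    have hw1 : |x - y| ≤ 1 := hw.trans (by norm_num)
    refine (h.bq_zero_le M hw1).trans (ENNReal.ofReal_le_ofReal ?_)
    have h0 := abs_nonneg (x - y)
    simp only [pow_zero, Real.sqrt_one, one_mul, mul_one, CharP.cast_eq_zero, zero_add, div_one]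
    have h1 : 2 ≤ 5 * C * (1 + M) := by nlinarith
    nlinarith
  | succ s ih =>
    intro x y hw
    have hw2 : |x - y| ≤ (2 ^ (s + 2))⁻¹ := by
      refine hw.trans (inv_anti₀ (by positivity) ?_)
      exact pow_le_pow_right₀ (by norm_num) (by omega)
    have hw1 : |x - y| ≤ (2 ^ (s + 1))⁻¹ := by
      refine hw.trans (inv_anti₀ (by positivity) ?_)
      exact pow_le_pow_right₀ (by norm_num) (by omega)
    have h0 := abs_nonneg (x - y)
    refine (h.bq_succ_le M s hw1).trans ?_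
    refine (add_le_add (mul_le_mul_right (ih x y hw2) _) (mul_le_mul_right (hC h M s x hM) _)).trans ?_
    set e : ℝ := 2 ^ s * |x - y| with he
    have he0 : 0 ≤ e := by positivity
    have he1 : e ≤ 1 / 8 := by
      rw [he]
      calc (2 : ℝ) ^ s * |x - y| ≤ 2 ^ s * (2 ^ (s + 1 + 2))⁻¹ := by gcongr
        _ = 1 / 8 := by
          rw [show s + 1 + 2 = s + 3 by omega, pow_add]
          field_simp
          norm_num
    rw [← ENNReal.ofReal_mul (by positivity), ← ENNReal.ofReal_mul (by positivity),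
      ← ENNReal.ofReal_add (by positivity) (by positivity)]
    refine ENNReal.ofReal_le_ofReal ?_
    have hs1 : √((2 : ℝ) ^ (s + 1)) = √2 * √(2 ^ s) := by
      rw [pow_succ, mul_comm, Real.sqrt_mul (by norm_num)]
    have hs2 : (2 : ℝ) ^ (s + 1) * |x - y| = 2 * e := by rw [he, pow_succ]; ring
    rw [hs1, hs2]
    push_cast
    have hr : 109 / 16 * (1 / √((s : ℝ) + 1)) ≤ 10 * (1 / √((s : ℝ) + 1 + 1)) := by
      rw [mul_one_div, mul_one_div, div_le_div_iff₀ (by positivity) (by positivity)]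
      have h1 : √((s : ℝ) + 1 + 1) ≤ 160 / 109 * √((s : ℝ) + 1) := by
        rw [Real.sqrt_le_left (by positivity), mul_pow, Real.sq_sqrt (by positivity)]
        have : (0 : ℝ) ≤ s := by positivity
        norm_num
        linarith
      linarith
    have hkey : (1 + e / 2) * (5 * C) * (1 / √((s : ℝ) + 1)) + 3 / 2 * C * (1 / √((s : ℝ) + 1)) ≤
        2 * (5 * C) * (1 / √((s : ℝ) + 1 + 1)) := by
      have h2 : (1 + e / 2) * (5 * C) + 3 / 2 * C ≤ 109 / 16 * C := by nlinarith
      have h3 : 0 ≤ 1 / √((s : ℝ) + 1) := by positivity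
      calc _ = ((1 + e / 2) * (5 * C) + 3 / 2 * C) * (1 / √((s : ℝ) + 1)) := by ring
        _ ≤ (109 / 16 * C) * (1 / √((s : ℝ) + 1)) := by gcongr
        _ = C * (109 / 16 * (1 / √((s : ℝ) + 1))) := by ring
        _ ≤ C * (10 * (1 / √((s : ℝ) + 1 + 1))) := by
          refine mul_le_mul_of_nonneg_left hr (by linarith)
        _ = _ := by ring
    have hP : 0 ≤ (1 + M) * √2 * √(2 ^ s) * e := by positivity
    calc (√2 + e * (√2 / 2)) * (5 * C * (1 + M) * √(2 ^ s) * e / √(↑s + 1)) +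
          3 * (e * (√2 / 2)) * (C * (1 + M) * √(2 ^ s) / √(↑s + 1))
        = ((1 + M) * √2 * √(2 ^ s) * e) * ((1 + e / 2) * (5 * C) * (1 / √((s : ℝ) + 1)) +
          3 / 2 * C * (1 / √((s : ℝ) + 1))) := by ring
      _ ≤ ((1 + M) * √2 * √(2 ^ s) * e) * (2 * (5 * C) * (1 / √((s : ℝ) + 1 + 1))) :=
          mul_le_mul_of_nonneg_left hkey hP
      _ = _ := by ring

lemma good_indicator_le (h : Cone μ) (M : ℝ) (s : ℕ) {x : ℝ} (hx : x ∈ Set.Icc (0 : ℝ) 1)
    (f : Path → ℝ≥0∞) :
    ∫⁻ z, (Good M s).indicator f z ∂μ ≤ ∫⁻ z, (Bar √2 0 M s x).indicator f z ∂μ := by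
  refine lintegral_mono_ae ?_
  filter_upwards [h.good_bar M s hx] with z hz
  by_cases hg : z ∈ Good M s
  · rw [Set.indicator_of_mem hg, Set.indicator_of_mem (hz hg)]
  · rw [Set.indicator_of_notMem hg]
    exact zero_le

end Cone

end Pool.Agent.helper95.GMC
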