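import Pool.Agent.helper95.GMC.Ker

/-!
The layered field on the canonical path space: jointly measurable version, independence.
-/

open MeasureTheory ProbabilityTheory Filter Topology Set
open scoped ENNReal NNReal

namespace Pool.Agent.helper95.GMC

/-- canonical path space -/
abbrev Path := ℕ × ℝ → ℝ

/-- the law of the layered field on path space -/
structure Cone (μ : Measure Path) : Prop where
  gauss : IsGaussianProcess (fun (p : ℕ × ℝ) (z : Path) => z p) μ
  mean : ∀ p : ℕ × ℝ, ∫ z : Path, z p ∂μ = 0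
  cov : ∀ p q : ℕ × ℝ, cov[fun z : Path => z p, fun z : Path => z q; μ] =
    if p.1 = q.1 then kap p.1 (p.2 - q.2) else 0

/-- dyadic approximation from below -/
noncomputable def dy (r : ℕ) (x : ℝ) : ℝ := (⌊(2 : ℝ) ^ r * x⌋ : ℝ) / 2 ^ r

lemma dy_le (r : ℕ) (x : ℝ) : dy r x ≤ x := by
  unfold dy
  rw [div_le_iff₀ (by positivity)]
  have := Int.floor_le ((2 : ℝ) ^ r * x)
  linarith

lemma sub_dy_le (r : ℕ) (x : ℝ) : x - dy r x ≤ (2 ^ r)⁻¹ := by
  unfold dy
  have h := (Int.lt_floor_add_one ((2 : ℝ) ^ r * x)).le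
  have h2 : (0 : ℝ) < 2 ^ r := by positivity
  rw [sub_le_iff_le_add, ← one_div, ← add_div, le_div_iff₀ h2]
  linarith

lemma abs_sub_dy_le (r : ℕ) (x : ℝ) : |x - dy r x| ≤ (2 ^ r)⁻¹ := by
  rw [abs_of_nonneg (by linarith [dy_le r x])]
  exact sub_dy_le r x

lemma le_dy {s r : ℕ} (hsr : s ≤ r) {a : ℤ} {x : ℝ} (h : (a : ℝ) / 2 ^ s ≤ x) :
    (a : ℝ) / 2 ^ s ≤ dy r x := by
  unfold dy
  have h2 : (0 : ℝ) < 2 ^ r := by positivity
  have h3 : (0 : ℝ) < 2 ^ s := by positivity
  rw [le_div_iff₀ h2]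
  have h4 : (a : ℝ) / 2 ^ s * 2 ^ r = ((a * 2 ^ (r - s) : ℤ) : ℝ) := by
    push_cast
    rw [div_mul_eq_mul_div, div_eq_iff h3.ne', mul_assoc, ← pow_add]
    congr 2
    omega
  rw [h4]
  have h5 : (a * 2 ^ (r - s) : ℤ) ≤ ⌊(2 : ℝ) ^ r * x⌋ := by
    rw [Int.le_floor, ← h4]
    calc (a : ℝ) / 2 ^ s * 2 ^ r ≤ x * 2 ^ r := by gcongr
      _ = 2 ^ r * x := by ring
  exact_mod_cast h5

lemma measurable_dy (r : ℕ) : Measurable (dy r) := by
  unfold dy
  fun_prop

/-- jointly measurable version of the layers -/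
noncomputable def Y (i : ℕ) (x : ℝ) (z : Path) : ℝ :=
  limUnder atTop (fun r : ℕ => z (i, dy r x))

lemma measurable_eval_dy (i r : ℕ) : Measurable (fun q : ℝ × Path => q.2 (i, dy r q.1)) := by
  have h1 : Measurable (fun q : ℤ × Path => q.2 (i, (q.1 : ℝ) / 2 ^ r)) := by
    refine measurable_from_prod_countable_right fun m => ?_
    exact measurable_pi_apply (X := fun _ : ℕ × ℝ => ℝ) (i, (m : ℝ) / 2 ^ r)
  have h2 : Measurable (fun q : ℝ × Path => ((⌊(2 : ℝ) ^ r * q.1⌋ : ℤ), q.2)) := by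
    refine Measurable.prodMk ?_ measurable_snd
    fun_prop
  exact h1.comp h2

lemma measurable_Y (i : ℕ) : Measurable (fun q : ℝ × Path => Y i q.1 q.2) := by
  have h : ∀ r : ℕ, StronglyMeasurable (fun q : ℝ × Path => q.2 (i, dy r q.1)) :=
    fun r => (measurable_eval_dy i r).stronglyMeasurable
  exact (StronglyMeasurable.limUnder h).measurable

lemma measurable_Y_path (i : ℕ) (x : ℝ) : Measurable (Y i x) :=
  (measurable_Y i).comp (measurable_const.prodMk measurable_id)

lemma dependsOn_Y {i : ℕ} {x : ℝ} {S : Set (ℕ × ℝ)} (r₀ : ℕ)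
    (h : ∀ r, r₀ ≤ r → (i, dy r x) ∈ S) : DependsOn (Y i x) S := by
  intro z z' hz
  unfold Y
  have : (fun r : ℕ => z (i, dy r x)) =ᶠ[atTop] (fun r : ℕ => z' (i, dy r x)) := by
    filter_upwards [eventually_ge_atTop r₀] with r hr
    exact hz _ (h r hr)
  unfold limUnder
  rw [Filter.map_congr this]

lemma exists_factor (R : Set (ℕ × ℝ)) {γ : Type*} [MeasurableSpace γ] (H : Path → γ)
    (hH : Measurable H) (dH : DependsOn H R) :
    ∃ H' : (R → ℝ) → γ, Measurable H' ∧ H = H' ∘ (fun z r => z (r : ℕ × ℝ)) := by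
  classical
  refine ⟨fun y => H (fun p => if hp : p ∈ R then y ⟨p, hp⟩ else 0), ?_, ?_⟩
  · refine hH.comp (measurable_pi_lambda _ fun p => ?_)
    by_cases hp : p ∈ R
    · simp only [hp, dite_true]
      exact measurable_pi_apply _
    · simp only [hp, dite_false]
      exact measurable_const
  · funext z
    refine dH fun p hp => ?_
    simp [hp]

namespace Cone

variable {μ : Measure Path}

lemma isProb (h : Cone μ) : IsProbabilityMeasure μ := h.gauss.isProbabilityMeasure

lemma memLp (h : Cone μ) (p : ℕ × ℝ) : MemLp (fun z : Path => z p) 2 μ :=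
  (h.gauss.hasGaussianLaw_eval p).memLp_two

lemma integral_mul (h : Cone μ) (p q : ℕ × ℝ) :
    ∫ z : Path, z p * z q ∂μ = if p.1 = q.1 then kap p.1 (p.2 - q.2) else 0 := by
  have := h.isProb
  rw [← h.cov p q, covariance_eq_sub (h.memLp p) (h.memLp q), h.mean, h.mean]
  simp

lemma kap_zero_sub_le (i : ℕ) (w : ℝ) : kap i 0 - kap i w ≤ 2 ^ i * |w| := by
  cases i with
  | zero =>
    rw [kap_zero, kap_zero, K_zero]
    have := K_zero_sub_le 0 w
    simpa using this
  | succ k =>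
    rw [kap_succ, kap_succ, K_zero, K_zero]
    have h1 := K_zero_sub_le (k + 1) w
    have h2 := K_le_K_zero k w
    push_cast at h1 ⊢
    linarith

lemma integral_sq_sub (h : Cone μ) (i : ℕ) (x y : ℝ) :
    ∫ z : Path, (z (i, x) - z (i, y)) ^ 2 ∂μ = 2 * (kap i 0 - kap i (x - y)) := by
  have := h.isProb
  have e : ∀ z : Path, (z (i, x) - z (i, y)) ^ 2 =
      z (i, x) * z (i, x) - 2 * (z (i, x) * z (i, y)) + z (i, y) * z (i, y) := by
    intro z; ring
  have i1 : Integrable (fun z : Path => z (i, x) * z (i, x)) μ :=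
    (h.memLp (i, x)).integrable_mul (h.memLp (i, x))
  have i2 : Integrable (fun z : Path => z (i, x) * z (i, y)) μ :=
    (h.memLp (i, x)).integrable_mul (h.memLp (i, y))
  have i3 : Integrable (fun z : Path => z (i, y) * z (i, y)) μ :=
    (h.memLp (i, y)).integrable_mul (h.memLp (i, y))
  have i2' : Integrable (fun z : Path => 2 * (z (i, x) * z (i, y))) μ := i2.const_mul 2
  have i12 : Integrable (fun z : Path => z (i, x) * z (i, x) - 2 * (z (i, x) * z (i, y))) μ :=
    i1.sub i2'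
  calc ∫ z : Path, (z (i, x) - z (i, y)) ^ 2 ∂μ
      = ∫ z : Path, (z (i, x) * z (i, x) - 2 * (z (i, x) * z (i, y)) + z (i, y) * z (i, y)) ∂μ :=
        integral_congr_ae (ae_of_all _ e)
    _ = ∫ z : Path, (z (i, x) * z (i, x) - 2 * (z (i, x) * z (i, y))) ∂μ +
          ∫ z : Path, z (i, y) * z (i, y) ∂μ := integral_add i12 i3
    _ = (∫ z : Path, z (i, x) * z (i, x) ∂μ - ∫ z : Path, 2 * (z (i, x) * z (i, y)) ∂μ) +
          ∫ z : Path, z (i, y) * z (i, y) ∂μ := by rw [integral_sub i1 i2']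
    _ = _ := by
        rw [integral_const_mul, h.integral_mul, h.integral_mul, h.integral_mul]
        simp
        ring

lemma ae_tendsto (h : Cone μ) (i : ℕ) (x : ℝ) :
    ∀ᵐ z ∂μ, Tendsto (fun r : ℕ => z (i, dy r x)) atTop (𝓝 (z (i, x))) := by
  have := h.isProb
  have hint : ∀ r, Integrable (fun z : Path => (z (i, dy r x) - z (i, x)) ^ 2) μ := fun r =>
    ((h.memLp (i, dy r x)).sub (h.memLp (i, x))).integrable_sq
  have hle : ∀ r : ℕ, ∫⁻ z : Path, ENNReal.ofReal ((z (i, dy r x) - z (i, x)) ^ 2) ∂μ ≤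
      ENNReal.ofReal (2 * 2 ^ i * (1 / 2) ^ r) := by
    intro r
    rw [← ofReal_integral_eq_lintegral_ofReal (hint r) (ae_of_all _ fun z => sq_nonneg _),
      h.integral_sq_sub]
    refine ENNReal.ofReal_le_ofReal ?_
    have h1 := kap_zero_sub_le i (dy r x - x)
    have h2 : |dy r x - x| ≤ (1 / 2) ^ r := by
      rw [abs_sub_comm, one_div, inv_pow]; exact abs_sub_dy_le r x
    have h3 : (2 : ℝ) ^ i * |dy r x - x| ≤ 2 ^ i * (1 / 2) ^ r := by gcongr
    linarith
  have hsum : ∑' r : ℕ, ∫⁻ z : Path, ENNReal.ofReal ((z (i, dy r x) - z (i, x)) ^ 2) ∂μ ≠ ∞ := by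
    refine ne_top_of_le_ne_top ?_ (ENNReal.tsum_le_tsum hle)
    rw [← ENNReal.ofReal_tsum_of_nonneg (fun r => by positivity)]
    · exact ENNReal.ofReal_ne_top
    · exact (summable_geometric_of_lt_one (by norm_num) (by norm_num)).mul_left _
  rw [← lintegral_tsum (fun r => (hint r).aestronglyMeasurable.aemeasurable.ennreal_ofReal)] at hsum
  have hae := ae_lt_top' (AEMeasurable.tsum
    (fun r => (hint r).aestronglyMeasurable.aemeasurable.ennreal_ofReal)) hsum
  filter_upwards [hae] with z hz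
  have h1 : Tendsto (fun r : ℕ => ENNReal.ofReal ((z (i, dy r x) - z (i, x)) ^ 2)) atTop (𝓝 0) :=
    ENNReal.tendsto_atTop_zero_of_tsum_ne_top hz.ne
  have h2 : Tendsto (fun r : ℕ => (z (i, dy r x) - z (i, x)) ^ 2) atTop (𝓝 0) := by
    have := (ENNReal.tendsto_toReal ENNReal.zero_ne_top).comp h1
    simp only [ENNReal.toReal_zero] at this
    refine this.congr fun r => ?_
    simp [ENNReal.toReal_ofReal (sq_nonneg _)]
  have h3 : Tendsto (fun r : ℕ => |z (i, dy r x) - z (i, x)|) atTop (𝓝 0) := by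
    have := (Real.continuous_sqrt.tendsto 0).comp h2
    simp only [Real.sqrt_zero] at this
    refine this.congr fun r => ?_
    simp [Real.sqrt_sq_eq_abs]
  have h4 := (tendsto_zero_iff_abs_tendsto_zero _).2 h3
  have h5 := h4.add_const (z (i, x))
  simpa using h5

lemma Y_ae_eq (h : Cone μ) (i : ℕ) (x : ℝ) : Y i x =ᵐ[μ] fun z => z (i, x) := by
  filter_upwards [h.ae_tendsto i x] with z hz
  exact hz.limUnder_eq

lemma gaussY (h : Cone μ) : IsGaussianProcess (fun (p : ℕ × ℝ) (z : Path) => Y p.1 p.2 z) μ :=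
  h.gauss.congr fun p => (h.Y_ae_eq p.1 p.2).symm

lemma meanY (h : Cone μ) (i : ℕ) (x : ℝ) : ∫ z, Y i x z ∂μ = 0 := by
  rw [integral_congr_ae (h.Y_ae_eq i x)]
  exact h.mean (i, x)

lemma covY (h : Cone μ) (i j : ℕ) (x y : ℝ) :
    cov[Y i x, Y j y; μ] = if i = j then kap i (x - y) else 0 := by
  have := h.cov (i, x) (j, y)
  simp only at this
  rw [← this]
  unfold covariance
  rw [integral_congr_ae (h.Y_ae_eq i x), integral_congr_ae (h.Y_ae_eq j y)]
  refine integral_congr_ae ?_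
  filter_upwards [h.Y_ae_eq i x, h.Y_ae_eq j y] with z h1 h2
  rw [h1, h2]

/-- functionals depending on uncorrelated sets of coordinates are independent -/
lemma indepFun (h : Cone μ) {S T : Set (ℕ × ℝ)}
    (hST : ∀ p ∈ S, ∀ q ∈ T, p.1 = q.1 → kap p.1 (p.2 - q.2) = 0)
    {α β : Type*} [MeasurableSpace α] [MeasurableSpace β] {F : Path → α} {G : Path → β}
    (hF : Measurable F) (hG : Measurable G) (dF : DependsOn F S) (dG : DependsOn G T) :
    IndepFun F G μ := by
  classical
  have := h.isProb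
  let X : S → Path → ℝ := fun s z => z s.1
  let X' : T → Path → ℝ := fun t z => z t.1
  have hsum : IsGaussianProcess (Sum.elim X X') μ := by
    have h1 := h.gauss.comp_right (Sum.elim (fun s : S => (s : ℕ × ℝ)) (fun t : T => (t : ℕ × ℝ)))
    have h2 : Sum.elim X X' = (fun (a : S ⊕ T) (z : Path) =>
        z (Sum.elim (fun s : S => (s : ℕ × ℝ)) (fun t : T => (t : ℕ × ℝ)) a)) := by
      funext a z
      cases a <;> rfl
    rw [h2]
    exact h1
  have hind : IndepFun (fun z s => X s z) (fun z t => X' t z) μ := by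
    refine hsum.indepFun_of_covariance_eq_zero (fun s => (measurable_pi_apply _).aemeasurable)
      (fun t => (measurable_pi_apply _).aemeasurable) fun s t => ?_
    have := h.cov s.1 t.1
    rw [this]
    split_ifs with hst
    · exact hST _ s.2 _ t.2 hst
    · rfl
  obtain ⟨F', hF', rfl⟩ := exists_factor S F hF dF
  obtain ⟨G', hG', rfl⟩ := exists_factor T G hG dG
  exact hind.comp hF' hG'

end Cone

end Pool.Agent.helper95.GMC
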