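import Pool.Agent.helper95.GMC.Mid

/-!
Conditional variance: expectation of the errors on the good event.
-/

open MeasureTheory ProbabilityTheory Filter Topology Set
open scoped ENNReal NNReal

namespace Pool.Agent.helper95.GMC

set_option maxHeartbeats 400000

lemma sq_diff_le {a b δ : ℝ} (hδ : 0 < δ) :
    |a ^ 2 - b ^ 2| ≤ 1 / (2 * δ) * (a - b) ^ 2 + (δ * a ^ 2 + δ * b ^ 2) := by
  have h1 : |a ^ 2 - b ^ 2| = |a - b| * |a + b| := by
    rw [← abs_mul]; congr 1; ring
  have h2 : |a - b| * |a + b| ≤ 1 / (2 * δ) * (a - b) ^ 2 + δ / 2 * (a + b) ^ 2 := by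
    have h3 : 0 ≤ 1 / (2 * δ) * (|a - b| - δ * |a + b|) ^ 2 := by positivity
    have h4 : 1 / (2 * δ) * (|a - b| - δ * |a + b|) ^ 2 =
        1 / (2 * δ) * |a - b| ^ 2 - |a - b| * |a + b| + δ / 2 * |a + b| ^ 2 := by
      field_simp
      ring
    rw [sq_abs, sq_abs] at h4
    linarith
  have h5 : δ / 2 * (a + b) ^ 2 ≤ δ * a ^ 2 + δ * b ^ 2 := by
    have : (a + b) ^ 2 ≤ 2 * a ^ 2 + 2 * b ^ 2 := by nlinarith [sq_nonneg (a - b)]
    nlinarith
  rw [h1]
  linarith

namespace Cone

variable {μ : Measure Path}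

lemma good_shift_le (h : Cone μ) {C D M : ℝ} (hC0 : 0 ≤ C) (hD : 0 ≤ D) (hM : 0 ≤ M) (s : ℕ)
    (hC : ∀ x, aq μ M s x ≤ ENNReal.ofReal (Aq C M s))
    (hB : ∀ x y, |x - y| ≤ (2 ^ (s + 2))⁻¹ →
      bq μ M s x y ≤ ENNReal.ofReal (Bq D M s * (2 ^ s * |x - y|)))
    {η δ : ℝ} (hη : 0 < η) (hη1 : η ≤ (2 ^ (s + 2))⁻¹) (hδ : 0 < δ) :
    ∫⁻ a, (Good M s).indicator (fun a => ∫⁻ x in Set.Icc (0 : ℝ) (1 - η),
      ENNReal.ofReal |mm s x a ^ 2 - mm s (x + η) a ^ 2|) a ∂μ ≤
      ENNReal.ofReal (1 / (2 * δ) * (Bq D M s * (2 ^ s * η)) + (δ * Aq C M s + δ * Aq C M s)) := by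
  have hA0 : 0 ≤ Aq C M s := by unfold Aq; positivity
  have hB0 : 0 ≤ Bq D M s := by unfold Bq; positivity
  have m1 : Measurable (fun q : ℝ × Path => mm s (q.1 + η) q.2) := by
    have h2 : Measurable (fun q : ℝ × Path => ((q.1 + η, q.2) : ℝ × Path)) :=
      (measurable_fst.add_const η).prodMk measurable_snd
    have h3 := (measurable_mm s).comp h2
    exact h3
  have hF : Measurable (fun q : ℝ × Path =>
      ENNReal.ofReal |mm s q.1 q.2 ^ 2 - mm s (q.1 + η) q.2 ^ 2|) :=
    (((measurable_mm s).pow_const 2).sub (m1.pow_const 2)).abs.ennreal_ofReal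
  rw [h.good_tonelli M s (volume.restrict (Set.Icc (0 : ℝ) (1 - η)))
    (F := fun x a => ENNReal.ofReal |mm s x a ^ 2 - mm s (x + η) a ^ 2|) hF]
  calc ∫⁻ x in Set.Icc (0 : ℝ) (1 - η), (∫⁻ a, (Good M s).indicator
        (fun a => ENNReal.ofReal |mm s x a ^ 2 - mm s (x + η) a ^ 2|) a ∂μ)
      ≤ ∫⁻ x in Set.Icc (0 : ℝ) (1 - η), ENNReal.ofReal
          (1 / (2 * δ) * (Bq D M s * (2 ^ s * η)) + (δ * Aq C M s + δ * Aq C M s)) := by
        refine setLIntegral_mono' measurableSet_Icc fun x hx => ?_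
        have hx1 : x ∈ UI := ⟨hx.1, by linarith [hx.2]⟩
        have hx2 : x + η ∈ UI := ⟨by linarith [hx.1], by linarith [hx.2]⟩
        have mx := measurable_mm_path s x
        have mx' := measurable_mm_path s (x + η)
        have hG := measurableSet_Good M s
        have n1 : Measurable (fun a => ENNReal.ofReal (1 / (2 * δ)) * (Good M s).indicator
            (fun a => ENNReal.ofReal ((mm s x a - mm s (x + η) a) ^ 2)) a) :=
          (((mx.sub mx').pow_const 2).ennreal_ofReal.indicator hG).const_mul _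
        have n2 : Measurable (fun a => ENNReal.ofReal δ * (Good M s).indicator
            (fun a => ENNReal.ofReal (mm s x a ^ 2)) a) :=
          ((mx.pow_const 2).ennreal_ofReal.indicator hG).const_mul _
        calc ∫⁻ a, (Good M s).indicator
              (fun a => ENNReal.ofReal |mm s x a ^ 2 - mm s (x + η) a ^ 2|) a ∂μ
            ≤ ∫⁻ a, (ENNReal.ofReal (1 / (2 * δ)) * (Good M s).indicator
                (fun a => ENNReal.ofReal ((mm s x a - mm s (x + η) a) ^ 2)) a +
              (ENNReal.ofReal δ * (Good M s).indicator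
                (fun a => ENNReal.ofReal (mm s x a ^ 2)) a +
              ENNReal.ofReal δ * (Good M s).indicator
                (fun a => ENNReal.ofReal (mm s (x + η) a ^ 2)) a)) ∂μ := by
              refine lintegral_mono fun a => ?_
              by_cases ha : a ∈ Good M s
              · simp only [Set.indicator_of_mem ha]
                rw [← ENNReal.ofReal_mul (by positivity), ← ENNReal.ofReal_mul hδ.le,
                  ← ENNReal.ofReal_mul hδ.le, ← ENNReal.ofReal_add (by positivity) (by positivity),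
                  ← ENNReal.ofReal_add (by positivity) (by positivity)]
                exact ENNReal.ofReal_le_ofReal (sq_diff_le hδ)
              · simp only [Set.indicator_of_notMem ha]
                exact zero_le
          _ = ENNReal.ofReal (1 / (2 * δ)) * ∫⁻ a, (Good M s).indicator
                (fun a => ENNReal.ofReal ((mm s x a - mm s (x + η) a) ^ 2)) a ∂μ +
              (ENNReal.ofReal δ * ∫⁻ a, (Good M s).indicator
                (fun a => ENNReal.ofReal (mm s x a ^ 2)) a ∂μ +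
              ENNReal.ofReal δ * ∫⁻ a, (Good M s).indicator
                (fun a => ENNReal.ofReal (mm s (x + η) a ^ 2)) a ∂μ) := by
              rw [lintegral_add_left n1, lintegral_add_left n2,
                lintegral_const_mul' _ _ ENNReal.ofReal_ne_top,
                lintegral_const_mul' _ _ ENNReal.ofReal_ne_top,
                lintegral_const_mul' _ _ ENNReal.ofReal_ne_top]
          _ ≤ ENNReal.ofReal (1 / (2 * δ)) * ENNReal.ofReal (Bq D M s * (2 ^ s * η)) +
              (ENNReal.ofReal δ * ENNReal.ofReal (Aq C M s) +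
                ENNReal.ofReal δ * ENNReal.ofReal (Aq C M s)) := by
              have e1 : |x - (x + η)| = η := by
                rw [sub_add_cancel_left, abs_neg, abs_of_pos hη]
              have b1 := (h.good_indicator_le M s hx1
                (fun a => ENNReal.ofReal ((mm s x a - mm s (x + η) a) ^ 2))).trans
                (hB x (x + η) (by rw [e1]; exact hη1))
              rw [e1] at b1
              have b2 := (h.good_indicator_le M s hx1
                (fun a => ENNReal.ofReal (mm s x a ^ 2))).trans (hC x)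
              have b3 := (h.good_indicator_le M s hx2
                (fun a => ENNReal.ofReal (mm s (x + η) a ^ 2))).trans (hC (x + η))
              gcongr
          _ = _ := by
              rw [← ENNReal.ofReal_mul (by positivity), ← ENNReal.ofReal_mul hδ.le,
                ← ENNReal.ofReal_add (by positivity) (by positivity),
                ← ENNReal.ofReal_add (by positivity) (by positivity)]
    _ ≤ _ := by
        rw [setLIntegral_const]
        refine mul_le_of_le_one_right' ?_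
        rw [Real.volume_Icc]
        refine ENNReal.ofReal_le_one.2 ?_
        linarith

lemma pt_bound {a : Path} {n : ℕ} (hn : 1 ≤ n) (θ : ℝ) (s : ℕ) {k1 k2 : ℕ} (hk : k1 ≤ k2)
    (ha : IntegrableOn (fun x => mm s x a ^ 2) UI) :
    |QS UI (cs n θ) s (s + k1) (s + k2) a -
      1 / 2 * VV n s (s + k1) (s + k2) * ∫ x in UI, mm s x a ^ 2| ≤
    (∫ w, Psi s (s + k1) (s + k2) w) * (∫ x in Sb (s + k1), mm s x a ^ 2) +
    (∫ w, Psi s (s + k1) (s + k2) w) / 4 * ((∫ x in Set.Icc (0 : ℝ) (1 - 1 / (4 * n)),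
      |mm s x a ^ 2 - mm s (x + 1 / (4 * n)) a ^ 2|) +
      (∫ x in Set.Icc (0 : ℝ) (1 / (4 * n)), mm s x a ^ 2) +
      ∫ x in Set.Icc (1 - 1 / (4 * n : ℝ)) 1, mm s x a ^ 2) +
    1 / 2 * ∫ q : ℝ × ℝ, (mm s q.1 a - mm s q.2 a) ^ 2 * Psi s (s + k1) (s + k2) (q.1 - q.2)
      ∂((volume.restrict UI).prod (volume.restrict UI)) := by
  have hP := goodKer_Psi s hk
  have hc := measurable_cs n θ
  have hc1 := abs_cs_le n θ
  obtain ⟨i1, i2, i3, e⟩ := hP.polar (volume.restrict UI) (measurable_mm_x s a) hc hc1 ha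
  set P := Psi s (s + k1) (s + k2) with hPdef
  set V := VV n s (s + k1) (s + k2) with hV
  set g : ℝ → ℝ := fun x => mm s x a with hg
  set IP := ∫ w, P w with hIP
  have hIP0 : 0 ≤ IP := integral_nonneg fun w => hP.nonneg w
  have hgm : Measurable (fun x => g x ^ 2) := (measurable_mm_x s a).pow_const 2
  have hVle : |V| ≤ IP := abs_VV_le n s hk
  -- pieces
  have j1 : Integrable (fun x => cs n θ x * g x ^ 2 * (cs n θ x * V)) (volume.restrict UI) := by
    have : Integrable (fun x => (cs n θ x * (cs n θ x * V)) * g x ^ 2) (volume.restrict UI) := by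
      refine ha.bdd_mul (c := |V|) (hc.mul (hc.mul_const V)).aestronglyMeasurable
        (ae_of_all _ fun x => ?_)
      rw [Real.norm_eq_abs, abs_mul, abs_mul]
      calc |cs n θ x| * (|cs n θ x| * |V|) ≤ 1 * (1 * |V|) := by
            gcongr
            · exact hc1 x
            · exact hc1 x
        _ = |V| := by ring
    exact this.congr (ae_of_all _ fun x => by simp only; ring)
  have j2 : Integrable (fun x => cd n θ x * g x ^ 2) (volume.restrict UI) :=
    ha.bdd_mul (c := 1) (measurable_cd n θ).aestronglyMeasurable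
      (ae_of_all _ fun x => abs_cd_le n θ x)
  have eq1 : ∫ x in UI, cs n θ x * g x ^ 2 * (cs n θ x * V) =
      1 / 2 * V * (∫ x in UI, g x ^ 2) + 1 / 2 * V * ∫ x in UI, cd n θ x * g x ^ 2 := by
    rw [← integral_const_mul, ← integral_const_mul,
      ← integral_add (Integrable.const_mul ha _) (j2.const_mul _)]
    refine integral_congr_ae (ae_of_all _ fun x => ?_)
    simp only
    have : cs n θ x * g x ^ 2 * (cs n θ x * V) = cs n θ x ^ 2 * (V * g x ^ 2) := by ring
    rw [this, cs_sq]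
    ring
  have hT1 : |(∫ x in UI, cs n θ x * g x ^ 2 * (∫ y in UI, cs n θ y * P (x - y))) -
      ∫ x in UI, cs n θ x * g x ^ 2 * (cs n θ x * V)| ≤ IP * ∫ x in Sb (s + k1), g x ^ 2 := by
    rw [← integral_sub i3 j1]
    refine abs_integral_le_integral_abs.trans ?_
    have hsb : IntegrableOn (fun x => g x ^ 2) (Sb (s + k1)) := ha.mono_set (Sb_subset _)
    have e1 : IP * ∫ x in Sb (s + k1), g x ^ 2 =
        ∫ x in UI, (Sb (s + k1)).indicator (fun x => IP * g x ^ 2) x := by
      rw [setIntegral_indicator (measurableSet_Sb _), Set.inter_eq_self_of_subset_right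
        (Sb_subset _), integral_const_mul]
    rw [e1]
    have hind : Integrable ((Sb (s + k1)).indicator (fun x => IP * g x ^ 2))
        (volume.restrict UI) := (Integrable.const_mul ha IP).indicator (measurableSet_Sb _)
    refine integral_mono_of_nonneg (ae_of_all _ fun q => abs_nonneg _) hind ?_
    refine (ae_restrict_iff' measurableSet_Icc).2 (ae_of_all _ fun x hx => ?_)
    simp only
    have h1 := tail_le n θ s hk hx
    rw [← mul_sub, abs_mul, abs_mul, abs_of_nonneg (sq_nonneg (g x))]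
    by_cases hxb : x ∈ Sb (s + k1)
    · rw [Set.indicator_of_mem hxb] at h1 ⊢
      calc |cs n θ x| * g x ^ 2 * _ ≤ 1 * g x ^ 2 * IP := by
            gcongr
            exact hc1 x
        _ = _ := by ring
    · rw [Set.indicator_of_notMem hxb] at h1 ⊢
      have h2 := le_antisymm h1 (abs_nonneg _)
      rw [h2, mul_zero]
  have hT2 := cd_int_le hn θ (g := fun x => g x ^ 2) (fun x => sq_nonneg _) ha
  have hT3 : |∫ q : ℝ × ℝ, cs n θ q.1 * cs n θ q.2 * (g q.1 - g q.2) ^ 2 * P (q.1 - q.2)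
      ∂((volume.restrict UI).prod (volume.restrict UI))| ≤
      ∫ q : ℝ × ℝ, (g q.1 - g q.2) ^ 2 * P (q.1 - q.2)
        ∂((volume.restrict UI).prod (volume.restrict UI)) := by
    refine (abs_integral_le_integral_abs).trans ?_
    refine integral_mono_of_nonneg (ae_of_all _ fun q => abs_nonneg _) i2
      (ae_of_all _ fun q => ?_)
    simp only
    rw [mul_assoc, abs_mul, abs_of_nonneg (mul_nonneg (sq_nonneg _) (hP.nonneg _))]
    refine mul_le_of_le_one_left (mul_nonneg (sq_nonneg _) (hP.nonneg _)) ?_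
    rw [abs_mul]
    exact mul_le_one₀ (hc1 _) (abs_nonneg _) (hc1 _)
  unfold QS
  have e2 : ∫ q : ℝ × ℝ, (cs n θ q.1 * mm s q.1 a) * (cs n θ q.2 * mm s q.2 a) * P (q.1 - q.2)
      ∂((volume.restrict UI).prod (volume.restrict UI)) = (∫ x in UI, cs n θ x * g x ^ 2 *
      (∫ y in UI, cs n θ y * P (x - y))) - 1 / 2 * ∫ q : ℝ × ℝ, cs n θ q.1 * cs n θ q.2 *
      (g q.1 - g q.2) ^ 2 * P (q.1 - q.2) ∂((volume.restrict UI).prod (volume.restrict UI)) := e
  rw [e2]
  set X1 := ∫ x in UI, cs n θ x * g x ^ 2 * (∫ y in UI, cs n θ y * P (x - y))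
  set X2 := ∫ x in UI, cs n θ x * g x ^ 2 * (cs n θ x * V)
  set X3 := ∫ q : ℝ × ℝ, cs n θ q.1 * cs n θ q.2 * (g q.1 - g q.2) ^ 2 * P (q.1 - q.2)
      ∂((volume.restrict UI).prod (volume.restrict UI))
  set X4 := ∫ x in UI, cd n θ x * g x ^ 2
  set X5 := ∫ x in UI, g x ^ 2
  have e3 : X1 - 1 / 2 * X3 - 1 / 2 * V * X5 = (X1 - X2) + 1 / 2 * V * X4 + -(1 / 2 * X3) := by
    rw [eq1]; ring
  rw [e3]
  have h5 := abs_add_three (X1 - X2) (1 / 2 * V * X4) (-(1 / 2 * X3))
  have h6 : |1 / 2 * V * X4| ≤ IP / 4 * ((∫ x in Set.Icc (0 : ℝ) (1 - 1 / (4 * n)),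
      |g x ^ 2 - g (x + 1 / (4 * n)) ^ 2|) +
      (∫ x in Set.Icc (0 : ℝ) (1 / (4 * n)), g x ^ 2) +
      ∫ x in Set.Icc (1 - 1 / (4 * n : ℝ)) 1, g x ^ 2) := by
    rw [abs_mul, abs_mul, abs_of_pos (by norm_num : (0 : ℝ) < 1 / 2)]
    calc 1 / 2 * |V| * |X4| ≤ 1 / 2 * IP * (1 / 2 * ((∫ x in Set.Icc (0 : ℝ) (1 - 1 / (4 * n)),
          |g x ^ 2 - g (x + 1 / (4 * n)) ^ 2|) +
          (∫ x in Set.Icc (0 : ℝ) (1 / (4 * n)), g x ^ 2) +
          ∫ x in Set.Icc (1 - 1 / (4 * n : ℝ)) 1, g x ^ 2)) := by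
          gcongr
      _ = _ := by ring
  have h7 : |(-(1 / 2 * X3))| = 1 / 2 * |X3| := by
    rw [abs_neg, abs_mul, abs_of_pos (by norm_num : (0 : ℝ) < 1 / 2)]
  rw [h7] at h5
  linarith

end Cone

end Pool.Agent.helper95.GMC
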