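import Pool.Agent.helper95.GMC.Mid2

/-!
Conditional variance: the main estimate on the good event.
-/

open MeasureTheory ProbabilityTheory Filter Topology Set
open scoped ENNReal NNReal

namespace Pool.Agent.helper95.GMC

set_option maxHeartbeats 400000

lemma measurable_good_lint (M : ℝ) (s : ℕ) {T : Type*} [MeasurableSpace T] (ν : Measure T)
    [SFinite ν] {F : T → Path → ℝ≥0∞} (hF : Measurable (fun q : T × Path => F q.1 q.2)) :
    Measurable (fun a => (Good M s).indicator (fun a => ∫⁻ t, F t a ∂ν) a) := by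
  refine Measurable.indicator ?_ (measurableSet_Good _ _)
  have h1 : Measurable (fun q : Path × T => F q.2 q.1) := by
    have h2 : Measurable (fun q : Path × T => ((q.2, q.1) : T × Path)) :=
      measurable_snd.prodMk measurable_fst
    have h3 := hF.comp h2
    exact h3
  exact Measurable.lintegral_prod_right' (f := fun q : Path × T => F q.2 q.1) h1

namespace Cone

variable {μ : Measure Path}

lemma mid_aux {a : Path} {M : ℝ} {n : ℕ} (hn : 1 ≤ n) (θ : ℝ) (s : ℕ) {k1 k2 : ℕ} (hk : k1 ≤ k2)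
    (ha : IntegrableOn (fun x => mm s x a ^ 2) UI) (ha1 : IntegrableOn (fun x =>
      mm s x a ^ 2 - mm s (x + 1 / (4 * n)) a ^ 2) (Set.Icc (0 : ℝ) (1 - 1 / (4 * n)))) :
    (Good M s).indicator (fun a => ENNReal.ofReal |QS UI (cs n θ) s (s + k1) (s + k2) a -
      1 / 2 * VV n s (s + k1) (s + k2) * ∫ x in UI, mm s x a ^ 2|) a ≤
    ENNReal.ofReal (∫ w, Psi s (s + k1) (s + k2) w) * (Good M s).indicator
      (fun a => ∫⁻ x in Sb (s + k1), ENNReal.ofReal (mm s x a ^ 2)) a +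
    (ENNReal.ofReal ((∫ w, Psi s (s + k1) (s + k2) w) / 4) * (Good M s).indicator
      (fun a => ∫⁻ x in Set.Icc (0 : ℝ) (1 - 1 / (4 * n)),
        ENNReal.ofReal |mm s x a ^ 2 - mm s (x + 1 / (4 * n)) a ^ 2|) a +
    (ENNReal.ofReal ((∫ w, Psi s (s + k1) (s + k2) w) / 4) * (Good M s).indicator
      (fun a => ∫⁻ x in Set.Icc (0 : ℝ) (1 / (4 * n)), ENNReal.ofReal (mm s x a ^ 2)) a +
    (ENNReal.ofReal ((∫ w, Psi s (s + k1) (s + k2) w) / 4) * (Good M s).indicator
      (fun a => ∫⁻ x in Set.Icc (1 - 1 / (4 * n : ℝ)) 1, ENNReal.ofReal (mm s x a ^ 2)) a +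
    ENNReal.ofReal (1 / 2) * (Good M s).indicator (fun a => ∫⁻ q : ℝ × ℝ, ENNReal.ofReal
      ((mm s q.1 a - mm s q.2 a) ^ 2 * Psi s (s + k1) (s + k2) (q.1 - q.2))
        ∂((volume.restrict UI).prod (volume.restrict UI))) a))) := by
  have hP := goodKer_Psi s hk
  have hIP0 : 0 ≤ ∫ w, Psi s (s + k1) (s + k2) w := integral_nonneg fun w => hP.nonneg w
  by_cases hg : a ∈ Good M s
  · simp only [Set.indicator_of_mem hg]
    have hn' : (1 : ℝ) ≤ n := by exact_mod_cast hn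
    have hh0 : (0 : ℝ) < 1 / (4 * n) := by positivity
    have hh1 : (1 : ℝ) / (4 * n) ≤ 1 / 4 := by
      rw [div_le_div_iff₀ (by positivity) (by norm_num)]
      linarith
    have hpt := pt_bound hn θ s hk ha
    obtain ⟨_, i2, _, _⟩ := hP.polar (volume.restrict UI) (measurable_mm_x s a)
      (measurable_cs n θ) (abs_cs_le n θ) ha
    have j1 : IntegrableOn (fun x => mm s x a ^ 2) (Sb (s + k1)) := ha.mono_set (Sb_subset _)
    have j3 : IntegrableOn (fun x => mm s x a ^ 2) (Set.Icc (0 : ℝ) (1 / (4 * n))) :=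
      ha.mono_set (Set.Icc_subset_Icc le_rfl (by linarith))
    have j4 : IntegrableOn (fun x => mm s x a ^ 2) (Set.Icc (1 - 1 / (4 * n : ℝ)) 1) :=
      ha.mono_set (Set.Icc_subset_Icc (by linarith) le_rfl)
    have j2 : IntegrableOn (fun x => |mm s x a ^ 2 - mm s (x + 1 / (4 * n)) a ^ 2|)
      (Set.Icc (0 : ℝ) (1 - 1 / (4 * n))) := ha1.abs
    rw [← ofReal_integral_eq_lintegral_ofReal j1 (ae_of_all _ fun x => sq_nonneg _),
      ← ofReal_integral_eq_lintegral_ofReal j2 (ae_of_all _ fun x => abs_nonneg _),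
      ← ofReal_integral_eq_lintegral_ofReal j3 (ae_of_all _ fun x => sq_nonneg _),
      ← ofReal_integral_eq_lintegral_ofReal j4 (ae_of_all _ fun x => sq_nonneg _),
      ← ofReal_integral_eq_lintegral_ofReal i2 (ae_of_all _ fun q =>
          mul_nonneg (sq_nonneg _) (hP.nonneg _))]
    have n1 : 0 ≤ ∫ x in Sb (s + k1), mm s x a ^ 2 := integral_nonneg fun x => sq_nonneg _
    have n2 : 0 ≤ ∫ x in Set.Icc (0 : ℝ) (1 - 1 / (4 * n)),
        |mm s x a ^ 2 - mm s (x + 1 / (4 * n)) a ^ 2| := integral_nonneg fun x => abs_nonneg _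
    have n3 : 0 ≤ ∫ x in Set.Icc (0 : ℝ) (1 / (4 * n)), mm s x a ^ 2 :=
      integral_nonneg fun x => sq_nonneg _
    have n4 : 0 ≤ ∫ x in Set.Icc (1 - 1 / (4 * n : ℝ)) 1, mm s x a ^ 2 :=
      integral_nonneg fun x => sq_nonneg _
    have n5 : 0 ≤ ∫ q : ℝ × ℝ, (mm s q.1 a - mm s q.2 a) ^ 2 * Psi s (s + k1) (s + k2) (q.1 - q.2)
      ∂((volume.restrict UI).prod (volume.restrict UI)) := integral_nonneg fun q =>
          mul_nonneg (sq_nonneg _) (hP.nonneg _)
    have hIP4 : 0 ≤ (∫ w, Psi s (s + k1) (s + k2) w) / 4 := by positivity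
    rw [← ENNReal.ofReal_mul hIP0, ← ENNReal.ofReal_mul hIP4, ← ENNReal.ofReal_mul hIP4,
      ← ENNReal.ofReal_mul hIP4, ← ENNReal.ofReal_mul (by norm_num),
      ← ENNReal.ofReal_add (by positivity) (by positivity),
      ← ENNReal.ofReal_add (by positivity) (by positivity),
      ← ENNReal.ofReal_add (by positivity) (by positivity),
      ← ENNReal.ofReal_add (by positivity) (by positivity)]
    refine ENNReal.ofReal_le_ofReal (hpt.trans (le_of_eq ?_))
    ring
  · simp only [Set.indicator_of_notMem hg]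
    exact zero_le

lemma mid_main : ∃ C : ℝ, 0 ≤ C ∧ ∀ {μ : Measure Path}, Cone μ → ∀ (M θ : ℝ) (n s k1 k2 : ℕ),
    0 ≤ M → 1 ≤ n → 2 ≤ k1 → k1 ≤ k2 → 2 ^ (s + k1) ≤ n →
    ∫⁻ a, (Good M s).indicator (fun a => ENNReal.ofReal |QS UI (cs n θ) s (s + k1) (s + k2) a -
      1 / 2 * VV n s (s + k1) (s + k2) * ∫ x in UI, mm s x a ^ 2|) a ∂μ ≤
    ENNReal.ofReal (C * (1 + M) / (√(s + 1) * √(2 ^ (s + k1)) * √(2 ^ k1))) := by
  obtain ⟨C, hC1, hC⟩ := aq_le
  obtain ⟨D, hD0, hD⟩ := bq_le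
  have hC0 : 0 ≤ C := by linarith
  refine ⟨12 * C + 3 * D, by linarith, fun {μ} h M θ n s k1 k2 hM hn hk1 hk hsn => ?_⟩
  have hP := goodKer_Psi s hk
  have hAq : ∀ x, aq μ M s x ≤ ENNReal.ofReal (Aq C M s) := fun x => hC h M s x hM
  have hBqq : ∀ x y, |x - y| ≤ (2 ^ (s + 2))⁻¹ →
      bq μ M s x y ≤ ENNReal.ofReal (Bq D M s * (2 ^ s * |x - y|)) := by
    intro x y hxy
    refine (hD h M hM s x y hxy).trans (le_of_eq ?_)
    congr 1
    unfold Bq
    ring
  have hA0 : 0 ≤ Aq C M s := by unfold Aq; positivity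
  have hB0 : 0 ≤ Bq D M s := by unfold Bq; positivity
  set P := Psi s (s + k1) (s + k2) with hPdef
  set IP := ∫ w, P w with hIP
  have hIP0 : 0 ≤ IP := integral_nonneg fun w => hP.nonneg w
  have hIPle : IP ≤ 4 / (√(2 ^ s) * √(2 ^ (s + k1))) := integral_Psi_le (by omega) (by omega)
  have hn' : (1 : ℝ) ≤ n := by exact_mod_cast hn
  have hsn' : (2 : ℝ) ^ (s + k1) ≤ n := by exact_mod_cast hsn
  set η : ℝ := 1 / (4 * n) with hη
  have hη0 : 0 < η := by positivity
  have hηle : η ≤ (2 ^ (s + k1))⁻¹ / 4 := by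
    rw [hη, one_div, mul_inv, inv_eq_one_div 4]
    have : (n : ℝ)⁻¹ ≤ (2 ^ (s + k1))⁻¹ := inv_anti₀ (by positivity) hsn'
    linarith
  have hη1 : η ≤ 1 / 4 := by
    have : ((2 : ℝ) ^ (s + k1))⁻¹ ≤ 1 := inv_le_one_of_one_le₀ (one_le_pow₀ (by norm_num))
    linarith
  have hη2 : η ≤ (2 ^ (s + 2))⁻¹ := by
    refine hηle.trans ?_
    have : ((2 : ℝ) ^ (s + k1))⁻¹ ≤ (2 ^ (s + 2))⁻¹ :=
      inv_anti₀ (by positivity) (pow_le_pow_right₀ (by norm_num) (by omega))
    have h2 : (0 : ℝ) < (2 ^ (s + 2))⁻¹ := by positivity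
    linarith
  -- integrability of the shifted density
  have hae : ∀ᵐ a ∂μ, (Good M s).indicator (fun a => ENNReal.ofReal
      |QS UI (cs n θ) s (s + k1) (s + k2) a -
      1 / 2 * VV n s (s + k1) (s + k2) * ∫ x in UI, mm s x a ^ 2|) a ≤
    ENNReal.ofReal IP * (Good M s).indicator
      (fun a => ∫⁻ x in Sb (s + k1), ENNReal.ofReal (mm s x a ^ 2)) a +
    (ENNReal.ofReal (IP / 4) * (Good M s).indicator
      (fun a => ∫⁻ x in Set.Icc (0 : ℝ) (1 - η),
        ENNReal.ofReal |mm s x a ^ 2 - mm s (x + η) a ^ 2|) a +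
    (ENNReal.ofReal (IP / 4) * (Good M s).indicator
      (fun a => ∫⁻ x in Set.Icc (0 : ℝ) η, ENNReal.ofReal (mm s x a ^ 2)) a +
    (ENNReal.ofReal (IP / 4) * (Good M s).indicator
      (fun a => ∫⁻ x in Set.Icc (1 - η) 1, ENNReal.ofReal (mm s x a ^ 2)) a +
    ENNReal.ofReal (1 / 2) * (Good M s).indicator (fun a => ∫⁻ q : ℝ × ℝ, ENNReal.ofReal
      ((mm s q.1 a - mm s q.2 a) ^ 2 * P (q.1 - q.2))
        ∂((volume.restrict UI).prod (volume.restrict UI))) a))) := by
    filter_upwards [h.ae_sq_int s] with a ha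
    refine mid_aux hn θ s hk ha ?_
    have h1 : IntegrableOn (fun x => mm s x a ^ 2) (Set.Icc (0 : ℝ) (1 - 1 / (4 * n))) :=
      ha.mono_set (Set.Icc_subset_Icc le_rfl (by linarith))
    have h2 : IntervalIntegrable (fun x => mm s x a ^ 2) volume η 1 := by
      rw [intervalIntegrable_iff_integrableOn_Icc_of_le (by linarith)]
      exact ha.mono_set (Set.Icc_subset_Icc (by linarith) le_rfl)
    have h3 := h2.comp_add_right η
    have h4 : IntervalIntegrable (fun x => mm s (x + η) a ^ 2) volume 0 (1 - η) := by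
      convert h3 using 1
      ring
    rw [intervalIntegrable_iff_integrableOn_Icc_of_le (by linarith)] at h4
    exact h1.sub h4
  refine (lintegral_mono_ae hae).trans ?_
  have F1 : Measurable (fun q : ℝ × Path => ENNReal.ofReal (mm s q.1 q.2 ^ 2)) :=
    ((measurable_mm s).pow_const 2).ennreal_ofReal
  have m1 : Measurable (fun q : ℝ × Path => mm s (q.1 + η) q.2) := by
    have h2 : Measurable (fun q : ℝ × Path => ((q.1 + η, q.2) : ℝ × Path)) :=
      (measurable_fst.add_const η).prodMk measurable_snd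
    have h3 := (measurable_mm s).comp h2
    exact h3
  have F2 : Measurable (fun q : ℝ × Path =>
      ENNReal.ofReal |mm s q.1 q.2 ^ 2 - mm s (q.1 + η) q.2 ^ 2|) :=
    (((measurable_mm s).pow_const 2).sub (m1.pow_const 2)).abs.ennreal_ofReal
  have g1 := measurable_good_lint M s (volume.restrict (Sb (s + k1)))
    (F := fun x a => ENNReal.ofReal (mm s x a ^ 2)) F1
  have g2 := measurable_good_lint M s (volume.restrict (Set.Icc (0 : ℝ) (1 - η)))
    (F := fun x a => ENNReal.ofReal |mm s x a ^ 2 - mm s (x + η) a ^ 2|) F2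
  have g3 := measurable_good_lint M s (volume.restrict (Set.Icc (0 : ℝ) η))
    (F := fun x a => ENNReal.ofReal (mm s x a ^ 2)) F1
  have g4 := measurable_good_lint M s (volume.restrict (Set.Icc (1 - η) 1))
    (F := fun x a => ENNReal.ofReal (mm s x a ^ 2)) F1
  rw [lintegral_add_left (g1.const_mul _), lintegral_add_left (g2.const_mul _),
    lintegral_add_left (g3.const_mul _), lintegral_add_left (g4.const_mul _),
    lintegral_const_mul' _ _ ENNReal.ofReal_ne_top, lintegral_const_mul' _ _ ENNReal.ofReal_ne_top,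
    lintegral_const_mul' _ _ ENNReal.ofReal_ne_top, lintegral_const_mul' _ _ ENNReal.ofReal_ne_top,
    lintegral_const_mul' _ _ ENNReal.ofReal_ne_top]
  set q1 : ℝ := √(2 ^ k1) with hq1
  have hq0 : 0 < q1 := by positivity
  have hqq : q1 * q1 = 2 ^ k1 := Real.mul_self_sqrt (by positivity)
  have hq1' : 1 ≤ q1 := by
    rw [hq1, Real.one_le_sqrt]
    exact one_le_pow₀ (by norm_num)
  have hδ : (0 : ℝ) < 1 / q1 := by positivity
  have t1 := h.good_mass_le hM s hAq (measurableSet_Sb (s + k1)) (Sb_subset (s + k1))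
  have t2 := h.good_shift_le hC0 hD0 hM s hAq hBqq hη0 hη2 hδ
  have t3 := h.good_mass_le hM s hAq (S := Set.Icc (0 : ℝ) η) measurableSet_Icc
    (Set.Icc_subset_Icc le_rfl (by linarith))
  have t4 := h.good_mass_le hM s hAq (S := Set.Icc (1 - η) 1) measurableSet_Icc
    (Set.Icc_subset_Icc (by linarith) le_rfl)
  have t5 := h.good_diff_le hD0 hM s hk hk1 hBqq
  have v1 : volume (Sb (s + k1)) ≤ ENNReal.ofReal (2 / q1) := by
    refine (volume_Sb_le _).trans (ENNReal.ofReal_le_ofReal ?_)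
    rw [div_eq_mul_inv]
    refine mul_le_mul_of_nonneg_left ?_ (by norm_num)
    refine inv_anti₀ hq0 ?_
    calc q1 ≤ q1 * q1 := le_mul_of_one_le_left hq0.le hq1'
      _ = 2 ^ k1 := hqq
      _ ≤ 2 ^ (s + k1) := pow_le_pow_right₀ (by norm_num) (by omega)
  have hηq : η ≤ 1 / q1 := by
    refine hηle.trans ?_
    have h1 : ((2 : ℝ) ^ (s + k1))⁻¹ ≤ 1 / q1 := by
      rw [one_div]
      refine inv_anti₀ hq0 ?_
      calc q1 ≤ q1 * q1 := le_mul_of_one_le_left hq0.le hq1'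
        _ = 2 ^ k1 := hqq
        _ ≤ 2 ^ (s + k1) := pow_le_pow_right₀ (by norm_num) (by omega)
    have h2 : (0 : ℝ) < (2 ^ (s + k1))⁻¹ := by positivity
    linarith
  have v3 : volume (Set.Icc (0 : ℝ) η) ≤ ENNReal.ofReal (1 / q1) := by
    rw [Real.volume_Icc, sub_zero]
    exact ENNReal.ofReal_le_ofReal hηq
  have v4 : volume (Set.Icc (1 - η) 1) ≤ ENNReal.ofReal (1 / q1) := by
    rw [Real.volume_Icc, sub_sub_cancel]
    exact ENNReal.ofReal_le_ofReal hηq
  set R : ℝ := √(2 ^ s) * √(2 ^ (s + k1)) with hR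
  have hR0 : 0 < R := by positivity
  -- bound each term
  have T1 : ENNReal.ofReal IP * (∫⁻ a, (Good M s).indicator
      (fun a => ∫⁻ x in Sb (s + k1), ENNReal.ofReal (mm s x a ^ 2)) a ∂μ) ≤
      ENNReal.ofReal (4 / R * (Aq C M s * (2 / q1))) := by
    rw [ENNReal.ofReal_mul (by positivity), ENNReal.ofReal_mul hA0]
    gcongr
    exact t1.trans (by gcongr)
  have hIP4 : IP / 4 ≤ 1 / R := by
    have : IP / 4 ≤ (4 / R) / 4 := by gcongr
    refine this.trans (le_of_eq ?_)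
    ring
  have T2 : ENNReal.ofReal (IP / 4) * (∫⁻ a, (Good M s).indicator
      (fun a => ∫⁻ x in Set.Icc (0 : ℝ) (1 - η),
        ENNReal.ofReal |mm s x a ^ 2 - mm s (x + η) a ^ 2|) a ∂μ) ≤
      ENNReal.ofReal (1 / R * ((Bq D M s + 2 * Aq C M s) / q1)) := by
    rw [ENNReal.ofReal_mul (by positivity)]
    refine mul_le_mul' (ENNReal.ofReal_le_ofReal hIP4) (t2.trans (ENNReal.ofReal_le_ofReal ?_))
    have e1 : 1 / (2 * (1 / q1)) * (Bq D M s * (2 ^ s * η)) ≤ Bq D M s / q1 := by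
      have h1 : 2 ^ s * η ≤ 1 / (q1 * q1) := by
        rw [hqq]
        calc 2 ^ s * η ≤ 2 ^ s * ((2 ^ (s + k1))⁻¹ / 4) := by gcongr
          _ = (1 / 2 ^ k1) / 4 := by
            rw [pow_add]
            field_simp
          _ ≤ 1 / 2 ^ k1 := by
            have : (0 : ℝ) < 1 / 2 ^ k1 := by positivity
            linarith
      calc 1 / (2 * (1 / q1)) * (Bq D M s * (2 ^ s * η))
          ≤ 1 / (2 * (1 / q1)) * (Bq D M s * (1 / (q1 * q1))) := by gcongr
        _ = (Bq D M s / q1) / 2 := by field_simp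
        _ ≤ _ := by
          have : 0 ≤ Bq D M s / q1 := by positivity
          linarith
    calc _ ≤ Bq D M s / q1 + (1 / q1 * Aq C M s + 1 / q1 * Aq C M s) := by gcongr
      _ = _ := by ring
  have T3 : ENNReal.ofReal (IP / 4) * (∫⁻ a, (Good M s).indicator
      (fun a => ∫⁻ x in Set.Icc (0 : ℝ) η, ENNReal.ofReal (mm s x a ^ 2)) a ∂μ) ≤
      ENNReal.ofReal (1 / R * (Aq C M s * (1 / q1))) := by
    rw [ENNReal.ofReal_mul (by positivity), ENNReal.ofReal_mul hA0]
    exact mul_le_mul' (ENNReal.ofReal_le_ofReal hIP4) (t3.trans (by gcongr))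
  have T4 : ENNReal.ofReal (IP / 4) * (∫⁻ a, (Good M s).indicator
      (fun a => ∫⁻ x in Set.Icc (1 - η) 1, ENNReal.ofReal (mm s x a ^ 2)) a ∂μ) ≤
      ENNReal.ofReal (1 / R * (Aq C M s * (1 / q1))) := by
    rw [ENNReal.ofReal_mul (by positivity), ENNReal.ofReal_mul hA0]
    exact mul_le_mul' (ENNReal.ofReal_le_ofReal hIP4) (t4.trans (by gcongr))
  have T5 : ENNReal.ofReal (1 / 2) * (∫⁻ a, (Good M s).indicator (fun a => ∫⁻ q : ℝ × ℝ,
      ENNReal.ofReal ((mm s q.1 a - mm s q.2 a) ^ 2 * P (q.1 - q.2))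
        ∂((volume.restrict UI).prod (volume.restrict UI))) a ∂μ) ≤
      ENNReal.ofReal (2 / R * (Bq D M s / q1)) := by
    refine (mul_le_mul' le_rfl t5).trans ?_
    rw [← ENNReal.ofReal_mul (by norm_num)]
    refine ENNReal.ofReal_le_ofReal ?_
    have h1 : (2 : ℝ) ^ s / 2 ^ (s + k1) ≤ 1 / q1 := by
      rw [pow_add, ← hqq, div_le_div_iff₀ (by positivity) hq0]
      have : (0 : ℝ) < 2 ^ s * q1 := by positivity
      nlinarith
    calc 1 / 2 * (Bq D M s * (2 ^ s / 2 ^ (s + k1)) * (4 / R))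
        ≤ 1 / 2 * (Bq D M s * (1 / q1) * (4 / R)) := by gcongr
      _ = _ := by ring
  refine (add_le_add T1 (add_le_add T2 (add_le_add T3 (add_le_add T4 T5)))).trans ?_
  rw [← ENNReal.ofReal_add (by positivity) (by positivity),
      ← ENNReal.ofReal_add (by positivity) (by positivity),
      ← ENNReal.ofReal_add (by positivity) (by positivity),
      ← ENNReal.ofReal_add (by positivity) (by positivity)]
  refine ENNReal.ofReal_le_ofReal ?_
  have e1 : 1 / R * (Aq C M s / q1) = C * ((1 + M) / (√(s + 1) * √(2 ^ (s + k1)) * q1)) := by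
    rw [hR]; unfold Aq
    have : 0 < √((2 : ℝ) ^ s) := by positivity
    field_simp
  have e2 : 1 / R * (Bq D M s / q1) = D * ((1 + M) / (√(s + 1) * √(2 ^ (s + k1)) * q1)) := by
    rw [hR]; unfold Bq
    have : 0 < √((2 : ℝ) ^ s) := by positivity
    field_simp
  set U : ℝ := (1 + M) / (√(s + 1) * √(2 ^ (s + k1)) * q1) with hU
  have hU0 : 0 ≤ U := by positivity
  have e3 : 4 / R * (Aq C M s * (2 / q1)) = 8 * (1 / R * (Aq C M s / q1)) := by ring
  have e4 : 1 / R * ((Bq D M s + 2 * Aq C M s) / q1) =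
      1 / R * (Bq D M s / q1) + 2 * (1 / R * (Aq C M s / q1)) := by ring
  have e5 : 1 / R * (Aq C M s * (1 / q1)) = 1 / R * (Aq C M s / q1) := by ring
  have e6 : 2 / R * (Bq D M s / q1) = 2 * (1 / R * (Bq D M s / q1)) := by ring
  rw [e3, e4, e5, e6, e1, e2]
  have e7 : (12 * C + 3 * D) * (1 + M) / (√(s + 1) * √(2 ^ (s + k1)) * q1) =
      (12 * C + 3 * D) * U := by rw [hU]; ring
  rw [e7]
  nlinarith [mul_nonneg hC0 hU0, mul_nonneg hD0 hU0]

end Cone

end Pool.Agent.helper95.GMC
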