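import Pool.Agent.helper95.GMC.Mid3
import Pool.Agent.helper95.GMC.Ext

/-!
On the good event the second moment of the density is the truncated critical mass.
-/

open MeasureTheory ProbabilityTheory Filter Topology Set
open scoped ENNReal NNReal

namespace Pool.Agent.helper95.GMC

set_option maxHeartbeats 400000

lemma mm_sq_eq {M : ℝ} {s : ℕ} {x : ℝ} {a : Path} (h : (x, a) ∈ BY M s) :
    mm s x a ^ 2 = Real.exp ((1 + s * Real.log 2) / 2) * nn M s x a := by
  unfold nn
  rw [Set.indicator_of_mem h]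
  unfold mm
  rw [← Real.exp_nat_mul, ← Real.exp_add, ← two_gam]
  congr 1
  push_cast
  ring

namespace Cone

variable {μ : Measure Path}

lemma good_BY (h : Cone μ) (M : ℝ) (s : ℕ) {x : ℝ} (hx : x ∈ UI) :
    ∀ᵐ a ∂μ, a ∈ Good M s → (x, a) ∈ BY M s := by
  have h1 : ∀ᵐ z ∂μ, ∀ j : ℕ, Y j x z = z (j, x) := ae_all_iff.2 fun j => h.Y_ae_eq j x
  filter_upwards [h1, h.good_bar M s hx] with z hz hb hg i hi1 hi2
  have h2 := hb hg i hi1 hi2
  unfold hgt So at h2
  unfold SY
  simp only [hz]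
  exact h2

lemma sq_eq_NN (h : Cone μ) (M : ℝ) (s : ℕ) :
    ∀ᵐ a ∂μ, a ∈ Good M s →
      ∫ x in UI, mm s x a ^ 2 = Real.exp ((1 + s * Real.log 2) / 2) * NN M s a := by
  have := h.isProb
  have hms : MeasurableSet {q : ℝ × Path | q.2 ∈ Good M s → (q.1, q.2) ∈ BY M s} := by
    have h1 : {q : ℝ × Path | q.2 ∈ Good M s → (q.1, q.2) ∈ BY M s} =
        (Prod.snd ⁻¹' (Good M s))ᶜ ∪ BY M s := by
      ext q
      simp only [Set.mem_ofPred_eq, Set.mem_union, Set.mem_compl_iff, Set.mem_preimage]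
      tauto
    rw [h1]
    exact (measurable_snd (measurableSet_Good M s)).compl.union (measurableSet_BY' M s)
  have h2 : ∀ᵐ x ∂(volume.restrict UI), ∀ᵐ a ∂μ, a ∈ Good M s → (x, a) ∈ BY M s := by
    filter_upwards [ae_restrict_mem measurableSet_Icc] with x hx
    exact h.good_BY M s hx
  have h3 := (Measure.ae_ae_comm (μ := volume.restrict UI) (ν := μ)
    (p := fun x a => a ∈ Good M s → (x, a) ∈ BY M s) hms).1 h2
  filter_upwards [h3] with a ha hg
  unfold NN
  rw [intervalIntegral.integral_of_le zero_le_one, ← integral_Icc_eq_integral_Ioc,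
    ← integral_const_mul]
  refine integral_congr_ae ?_
  filter_upwards [ha] with x hx
  exact mm_sq_eq (hx hg)

end Cone

end Pool.Agent.helper95.GMC
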