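import Pool.Agent.helper95.GMC.Dens

/-!
Moments of the densities below the barrier.
-/

open MeasureTheory ProbabilityTheory Filter Topology Set
open scoped ENNReal NNReal

namespace Pool.Agent.helper95.GMC

namespace Cone

variable {μ : Measure Path}

lemma lintegral_exp_zero (h : Cone μ) (c x : ℝ) :
    ∫⁻ z : Path, ENNReal.ofReal (Real.exp (c * z (0, x))) ∂μ =
      ENNReal.ofReal (Real.exp (c ^ 2 / 2)) := by
  have := h.isProb
  by_cases hc : c = 0
  · simp [hc]
  have hV : twoV {0} c 0 x x = c ^ 2 := by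
    unfold twoV
    rw [Finset.sum_singleton, kap_zero, K_zero]
    simp
  have hv : 0 < twoV {0} c 0 x x := by rw [hV]; positivity
  have hT := h.tilt_two {0} c 0 x x hv (F := fun _ => 1) measurable_const
  rw [hV] at hT
  simp only [mul_one, lintegral_const, measure_univ] at hT
  have e : ∀ z : Path, ENNReal.ofReal (Real.exp (c * z (0, x))) =
      ENNReal.ofReal (Real.exp (c ^ 2 / 2)) *
      ENNReal.ofReal (Real.exp (two {0} c 0 x x z - c ^ 2 / 2)) := by
    intro z
    rw [← ENNReal.ofReal_mul (Real.exp_pos _).le, ← Real.exp_add]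
    congr 2
    unfold two
    rw [Finset.sum_singleton]
    ring
  rw [lintegral_congr e, lintegral_const_mul' _ _ ENNReal.ofReal_ne_top, hT, mul_one]

/-- one-point formula with layer `0` -/
lemma one_point0 (h : Cone μ) (c M : ℝ) (s : ℕ) (x : ℝ) {f : ℝ → ℝ≥0∞} (hf : Measurable f) :
    ∫⁻ z : Path, ENNReal.ofReal (Real.exp (c * z (0, x))) *
      (ENNReal.ofReal (Real.exp (√2 * So 0 s x z - s * Real.log 2)) *
      (Bar √2 0 M s x).indicator (fun z => f (hgt √2 0 M s x z)) z) ∂μ =
      ENNReal.ofReal (Real.exp (c ^ 2 / 2)) * (Tk^[s] f) M := by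
  have hm : Measurable (fun z : Path => ENNReal.ofReal (Real.exp (c * z (0, x)))) := by
    have : Measurable fun z : Path => z (0, x) := measurable_pi_apply _
    fun_prop
  have hm2 : Measurable (fun z : Path =>
      ENNReal.ofReal (Real.exp (√2 * So 0 s x z - s * Real.log 2)) *
      (Bar √2 0 M s x).indicator (fun z => f (hgt √2 0 M s x z)) z) := by
    have := measurable_So 0 s x
    refine Measurable.mul (by fun_prop) ?_
    exact (hf.comp (measurable_hgt _ _ _ _ _)).indicator (measurableSet_Bar _ _ _ _ _)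
  rw [h.lintegral_mul_glue 0 hm hm2, h.lintegral_exp_zero]
  · congr 1
    have h1 := h.one_point √2 0 s x M hf
    have e : ∀ z : Path, √2 ^ 2 / 2 * ((s : ℝ) * Real.log 2) = s * Real.log 2 := by
      intro z
      rw [Real.sq_sqrt (by norm_num)]; ring
    simp only [Real.sq_sqrt (show (0 : ℝ) ≤ 2 by norm_num), ne_eq, OfNat.ofNat_ne_zero,
      not_false_eq_true, div_self, one_mul] at h1
    exact h1
  · intro a b
    rw [glue_of_le (by omega)]
  · intro a b
    have e1 : ∀ i, So 0 i x (glue 0 a b) = So 0 i x b := fun i => So_glue_gt le_rfl _ _ _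
    have e2 : ∀ i, hgt √2 0 M i x (glue 0 a b) = hgt √2 0 M i x b := by
      intro i; unfold hgt; rw [e1]
    have e3 : glue 0 a b ∈ Bar √2 0 M s x ↔ b ∈ Bar √2 0 M s x := by
      unfold Bar
      simp only [Set.mem_ofPred_eq, e2]
    rw [e1]
    congr 1

lemma mm_ae (h : Cone μ) (s : ℕ) (x : ℝ) : ∀ᵐ z ∂μ, mm s x z =
    Real.exp (gam * (z (0, x) + So 0 s x z) - (1 + s * Real.log 2) / 4) := by
  filter_upwards [h.SY_ae 0 s x, h.Y_ae_eq 0 x] with z h1 h2
  unfold mm
  rw [h1, h2]

/-- second moment below the barrier -/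
lemma lintegral_bar_sq (h : Cone μ) (M : ℝ) (s : ℕ) (x : ℝ) :
    ∫⁻ z, (Bar √2 0 M s x).indicator (fun z => ENNReal.ofReal (mm s x z ^ 2)) z ∂μ =
      ENNReal.ofReal (Real.exp (1 / 2) * √(2 ^ s)) * pk s M := by
  have h1 := h.one_point0 √2 M s x (f := fun _ => 1) measurable_const
  have e : (fun z => (Bar √2 0 M s x).indicator (fun z => ENNReal.ofReal (mm s x z ^ 2)) z) =ᵐ[μ]
      fun z => ENNReal.ofReal (Real.exp (-(1 / 2)) * √(2 ^ s)) *
      (ENNReal.ofReal (Real.exp (√2 * z (0, x))) *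
      (ENNReal.ofReal (Real.exp (√2 * So 0 s x z - s * Real.log 2)) *
      (Bar √2 0 M s x).indicator (fun _ => 1) z)) := by
    filter_upwards [h.mm_ae s x] with z hz
    by_cases hb : z ∈ Bar √2 0 M s x
    · rw [Set.indicator_of_mem hb, Set.indicator_of_mem hb, mul_one, hz,
        ← ENNReal.ofReal_mul (Real.exp_pos _).le, ← Real.exp_add,
        ← ENNReal.ofReal_mul (by positivity)]
      congr 1
      have h2s : √((2 : ℝ) ^ s) = Real.exp (s * Real.log 2 / 2) := by
        rw [Real.sqrt_eq_iff_mul_self_eq (by positivity) (Real.exp_pos _).le, ← Real.exp_add]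
        have : (s : ℝ) * Real.log 2 / 2 + s * Real.log 2 / 2 = s * Real.log 2 := by ring
        rw [this, ← Real.log_pow, Real.exp_log (by positivity)]
      rw [h2s, ← Real.exp_add, ← Real.exp_add, ← Real.exp_nat_mul]
      congr 1
      have := two_gam
      push_cast
      rw [← two_gam]
      ring
    · rw [Set.indicator_of_notMem hb, Set.indicator_of_notMem hb]
      simp
  rw [lintegral_congr_ae e, lintegral_const_mul' _ _ ENNReal.ofReal_ne_top, h1, ← mul_assoc,
    ← ENNReal.ofReal_mul (by positivity)]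
  congr 1
  rw [Real.sq_sqrt (by norm_num)]
  congr 1
  have : Real.exp (1 / 2) = Real.exp (-(1 / 2)) * Real.exp (2 / 2) := by
    rw [← Real.exp_add]; norm_num
  rw [this]
  ring

lemma sqrt_two_pow (s : ℕ) : √((2 : ℝ) ^ s) = Real.exp (s * Real.log 2 / 2) := by
  rw [Real.sqrt_eq_iff_mul_self_eq (by positivity) (Real.exp_pos _).le, ← Real.exp_add]
  have : (s : ℝ) * Real.log 2 / 2 + s * Real.log 2 / 2 = s * Real.log 2 := by ring
  rw [this, ← Real.log_pow, Real.exp_log (by positivity)]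

lemma bar_sq_le : ∃ C : ℝ, 1 ≤ C ∧ ∀ {μ : Measure Path}, Cone μ → ∀ (M : ℝ) (s : ℕ) (x : ℝ),
    0 ≤ M →
    ∫⁻ z, (Bar √2 0 M s x).indicator (fun z => ENNReal.ofReal (mm s x z ^ 2)) z ∂μ ≤
      ENNReal.ofReal (C * (1 + M) * √(2 ^ s) / √(s + 1)) := by
  obtain ⟨C, hC⟩ := pk_le
  refine ⟨1 + Real.exp (1 / 2) * C, by
    have : 0 ≤ Real.exp (1 / 2) * C := by positivity
    linarith, fun {μ} h M s x hM => ?_⟩
  rw [h.lintegral_bar_sq]
  calc ENNReal.ofReal (Real.exp (1 / 2) * √(2 ^ s)) * pk s M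
      ≤ ENNReal.ofReal (Real.exp (1 / 2) * √(2 ^ s)) *
        (C * ENNReal.ofReal ((1 + M) / √(s + 1))) := by gcongr; exact hC s M hM
    _ = ENNReal.ofReal (Real.exp (1 / 2) * √(2 ^ s) * (C * ((1 + M) / √(s + 1)))) := by
        rw [ENNReal.ofReal_mul (by positivity : 0 ≤ Real.exp (1 / 2) * √((2 : ℝ) ^ s)),
          ENNReal.ofReal_mul (by positivity : 0 ≤ (C : ℝ)), ENNReal.ofReal_coe_nnreal]
    _ ≤ _ := by
        refine ENNReal.ofReal_le_ofReal ?_
        have h1 : Real.exp (1 / 2) * √(2 ^ s) * (C * ((1 + M) / √(s + 1))) =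
          (Real.exp (1 / 2) * C) * ((1 + M) * √(2 ^ s) / √(s + 1)) := by ring
        have h2 : (1 + Real.exp (1 / 2) * C) * (1 + M) * √(2 ^ s) / √(s + 1) =
          (1 + Real.exp (1 / 2) * C) * ((1 + M) * √(2 ^ s) / √(s + 1)) := by ring
        rw [h1, h2]
        gcongr
        linarith

/-- third moment below the barrier -/
lemma bar_cube_le : ∃ C : ℝ, 0 ≤ C ∧ ∀ {μ : Measure Path}, Cone μ → ∀ (M : ℝ) (s : ℕ) (x : ℝ),
    0 ≤ M → 1 ≤ s →
    ∫⁻ z, (Bar √2 0 M s x).indicator (fun z => ENNReal.ofReal (mm s x z ^ 3)) z ∂μ ≤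
      ENNReal.ofReal (C * ((1 + M) * Real.exp M) * Real.exp (5 / 4 * (s * Real.log 2)) /
        (s * √s)) := by
  obtain ⟨C, hC⟩ := Tk_iter_le
  set f : ℝ → ℝ≥0∞ := fun w => ENNReal.ofReal (Real.exp (-(√2 / 2 * w))) with hf
  have hfm : Measurable f := by fun_prop
  set I0 := ∫⁻ w in Set.Ici (0 : ℝ), f w * ENNReal.ofReal (1 + w) with hI0
  have hI : I0 ≠ ∞ := by
    have h1 : ∀ w ∈ Set.Ici (0 : ℝ), f w * ENNReal.ofReal (1 + w) ≤
        ENNReal.ofReal (4 * Real.exp (-(1 / 4) * w)) := by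
      intro w hw
      have hw0 : (0 : ℝ) ≤ w := hw
      simp only [hf]
      rw [← ENNReal.ofReal_mul (Real.exp_pos _).le]
      refine ENNReal.ofReal_le_ofReal ?_
      have h2 : 1 + w ≤ 4 * Real.exp (w / 4) := by
        have := Real.add_one_le_exp (w / 4)
        linarith
      have h3 : Real.exp (-(√2 / 2 * w)) ≤ Real.exp (-(1 / 2 * w)) := by
        refine Real.exp_le_exp.2 ?_
        have : (1 : ℝ) ≤ √2 := by
          rw [Real.one_le_sqrt]; norm_num
        nlinarith
      calc Real.exp (-(√2 / 2 * w)) * (1 + w) ≤ Real.exp (-(1 / 2 * w)) * (4 * Real.exp (w / 4)) := by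
            gcongr
        _ = 4 * Real.exp (-(1 / 4) * w) := by
          rw [mul_left_comm, ← Real.exp_add]; congr 2; ring
    refine ne_top_of_le_ne_top ?_ (setLIntegral_mono' measurableSet_Ici h1)
    have h4 : IntegrableOn (fun w : ℝ => 4 * Real.exp (-(1 / 4) * w)) (Set.Ici 0) := by
      rw [integrableOn_Ici_iff_integrableOn_Ioi]
      exact (integrableOn_exp_mul_Ioi (by norm_num) 0).const_mul 4
    rw [← ofReal_integral_eq_lintegral_ofReal h4 (ae_of_all _ fun w => by positivity)]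
    exact ENNReal.ofReal_ne_top
  refine ⟨Real.exp (3 / 2) * (C * I0.toReal), by positivity, fun {μ} h M s x hM hs => ?_⟩
  have h1 := h.one_point0 (3 * gam) M s x hfm
  have e : (fun z => (Bar √2 0 M s x).indicator (fun z => ENNReal.ofReal (mm s x z ^ 3)) z) =ᵐ[μ]
      fun z => ENNReal.ofReal (Real.exp (-(3 / 4) + gam * M + 5 / 4 * (s * Real.log 2))) *
      (ENNReal.ofReal (Real.exp (3 * gam * z (0, x))) *
      (ENNReal.ofReal (Real.exp (√2 * So 0 s x z - s * Real.log 2)) *
      (Bar √2 0 M s x).indicator (fun z => f (hgt √2 0 M s x z)) z)) := by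
    filter_upwards [h.mm_ae s x] with z hz
    by_cases hb : z ∈ Bar √2 0 M s x
    · rw [Set.indicator_of_mem hb, Set.indicator_of_mem hb, hz]
      simp only [hf]
      rw [← ENNReal.ofReal_mul (Real.exp_pos _).le, ← Real.exp_add,
        ← ENNReal.ofReal_mul (Real.exp_pos _).le, ← Real.exp_add,
        ← ENNReal.ofReal_mul (Real.exp_pos _).le, ← Real.exp_add, ← Real.exp_nat_mul]
      congr 2
      unfold hgt
      have h2 : √2 / 2 = gam := rfl
      have h3 : √2 = 2 * gam := two_gam.symm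
      have h4 : gam * (√2 * (s * Real.log 2)) = s * Real.log 2 := by
        rw [h3]
        have := gam_sq
        have h5 : gam * (2 * gam * (s * Real.log 2)) = 2 * gam ^ 2 * (s * Real.log 2) := by ring
        rw [h5, gam_sq]; ring
      rw [h2]
      have h6 : gam * (M + √2 * (s * Real.log 2) - So 0 s x z) =
        gam * M + s * Real.log 2 - gam * So 0 s x z := by
        rw [mul_sub, mul_add, h4]
      rw [h6, h3]
      push_cast
      ring
    · rw [Set.indicator_of_notMem hb, Set.indicator_of_notMem hb]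
      simp
  rw [lintegral_congr_ae e, lintegral_const_mul' _ _ ENNReal.ofReal_ne_top, h1]
  have hs' : (1 : ℝ) ≤ s := by exact_mod_cast hs
  have hgam1 : gam ≤ 1 := by
    have := gam_sq
    nlinarith [gam_pos]
  calc ENNReal.ofReal (Real.exp (-(3 / 4) + gam * M + 5 / 4 * (s * Real.log 2))) *
        (ENNReal.ofReal (Real.exp ((3 * gam) ^ 2 / 2)) * (Tk^[s] f) M)
      ≤ ENNReal.ofReal (Real.exp (-(3 / 4) + gam * M + 5 / 4 * (s * Real.log 2))) *
        (ENNReal.ofReal (Real.exp ((3 * gam) ^ 2 / 2)) *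
          (C * ENNReal.ofReal ((1 + M) / (s * √s)) * I0)) := by
        gcongr
        exact hC s hs f hfm M hM
    _ = ENNReal.ofReal (Real.exp (-(3 / 4) + gam * M + 5 / 4 * (s * Real.log 2)) *
        (Real.exp ((3 * gam) ^ 2 / 2) * (C * ((1 + M) / (s * √s)) * I0.toReal))) := by
        rw [ENNReal.ofReal_mul (Real.exp_pos _).le, ENNReal.ofReal_mul (Real.exp_pos _).le,
          ENNReal.ofReal_mul (by positivity : 0 ≤ (C : ℝ) * ((1 + M) / (s * √s))),
          ENNReal.ofReal_mul (by positivity : 0 ≤ (C : ℝ)), ENNReal.ofReal_toReal hI,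
          ENNReal.ofReal_coe_nnreal]
    _ ≤ _ := by
        refine ENNReal.ofReal_le_ofReal ?_
        have h7 : Real.exp (-(3 / 4) + gam * M + 5 / 4 * (s * Real.log 2)) *
            Real.exp ((3 * gam) ^ 2 / 2) ≤
            Real.exp (3 / 2) * Real.exp M * Real.exp (5 / 4 * (s * Real.log 2)) := by
          rw [← Real.exp_add, ← Real.exp_add, ← Real.exp_add]
          refine Real.exp_le_exp.2 ?_
          have h8 : (3 * gam) ^ 2 / 2 = 9 / 4 := by
            rw [mul_pow, gam_sq]; norm_num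
          rw [h8]
          nlinarith
        calc _ = (Real.exp (-(3 / 4) + gam * M + 5 / 4 * (s * Real.log 2)) *
            Real.exp ((3 * gam) ^ 2 / 2)) * ((C * I0.toReal) * ((1 + M) / (s * √s))) := by ring
          _ ≤ (Real.exp (3 / 2) * Real.exp M * Real.exp (5 / 4 * (s * Real.log 2))) *
            ((C * I0.toReal) * ((1 + M) / (s * √s))) := by gcongr
          _ = _ := by ring

end Cone

end Pool.Agent.helper95.GMC
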