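import Pool.Agent.helper95.GMC.Field

/-! ### merged from `Pool.Agent.helper95.GMC.Glue` -/

section
/-!
Resampling the high layers, and the Cameron–Martin formula on path space.
-/

open MeasureTheory ProbabilityTheory Filter Topology Set
open scoped ENNReal NNReal

namespace Pool.Agent.helper95.GMC

/-- take the layers `≤ k` from `a` and the others from `b` -/
def glue (k : ℕ) (a b : Path) : Path := fun p => if p.1 ≤ k then a p else b p

lemma glue_of_le {k i : ℕ} (h : i ≤ k) (a b : Path) (x : ℝ) : glue k a b (i, x) = a (i, x) := by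
  simp [glue, h]

lemma glue_of_lt {k i : ℕ} (h : k < i) (a b : Path) (x : ℝ) : glue k a b (i, x) = b (i, x) := by
  simp [glue, not_le.2 h]

lemma measurable_glue (k : ℕ) : Measurable (fun w : Path × Path => glue k w.1 w.2) := by
  refine measurable_pi_lambda _ fun p => ?_
  unfold glue
  split_ifs
  · exact (measurable_pi_apply p).comp measurable_fst
  · exact (measurable_pi_apply p).comp measurable_snd

lemma Y_glue_of_le {k i : ℕ} (h : i ≤ k) (a b : Path) (x : ℝ) :
    Y i x (glue k a b) = Y i x a := by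
  unfold Y
  simp_rw [glue_of_le h]

lemma Y_glue_of_lt {k i : ℕ} (h : k < i) (a b : Path) (x : ℝ) :
    Y i x (glue k a b) = Y i x b := by
  unfold Y
  simp_rw [glue_of_lt h]

namespace Cone

variable {μ : Measure Path}

lemma map_glue (h : Cone μ) (k : ℕ) : (μ.prod μ).map (fun w => glue k w.1 w.2) = μ := by
  classical
  have := h.isProb
  let S : Set (ℕ × ℝ) := {p | p.1 ≤ k}
  let T : Set (ℕ × ℝ) := {p | k < p.1}
  let F : Path → (S → ℝ) := fun z p => z p
  let G : Path → (T → ℝ) := fun z p => z p
  have hF : Measurable F := measurable_pi_lambda _ fun p => measurable_pi_apply _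
  have hG : Measurable G := measurable_pi_lambda _ fun p => measurable_pi_apply _
  have hind : IndepFun F G μ := by
    refine h.indepFun (S := S) (T := T) ?_ hF hG ?_ ?_
    · intro p hp q hq hpq
      have h1 : p.1 ≤ k := hp
      have h2 : k < q.1 := hq
      omega
    · intro z z' hz
      funext p
      exact hz p.1 p.2
    · intro z z' hz
      funext p
      exact hz p.1 p.2
  let J : (S → ℝ) × (T → ℝ) → Path := fun w p =>
    if hp : p.1 ≤ k then w.1 ⟨p, hp⟩ else w.2 ⟨p, not_le.1 hp⟩
  have hJ : Measurable J := by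
    refine measurable_pi_lambda _ fun p => ?_
    by_cases hp : p.1 ≤ k
    · simp only [J, hp, dite_true]
      exact (measurable_pi_apply _).comp measurable_fst
    · simp only [J, hp, dite_false]
      exact (measurable_pi_apply _).comp measurable_snd
  have e1 : (fun w : Path × Path => glue k w.1 w.2) = J ∘ Prod.map F G := by
    funext w p
    by_cases hp : p.1 ≤ k
    · simp [J, F, glue, hp]
    · simp [J, G, glue, hp]
  have e2 : J ∘ (fun z => (F z, G z)) = id := by
    funext z p
    by_cases hp : p.1 ≤ k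
    · simp [J, F, hp]
    · simp [J, G, hp]
  rw [e1, ← Measure.map_map hJ (hF.prodMap hG), ← Measure.map_prod_map _ _ hF hG,
    ← (indepFun_iff_map_prod_eq_prod_map_map hF.aemeasurable hG.aemeasurable).1 hind,
    Measure.map_map hJ (hF.prodMk hG), e2, Measure.map_id]

lemma lintegral_glue (h : Cone μ) (k : ℕ) {F : Path → ℝ≥0∞} (hF : Measurable F) :
    ∫⁻ z, F z ∂μ = ∫⁻ a, ∫⁻ b, F (glue k a b) ∂μ ∂μ := by
  have := h.isProb
  conv_lhs => rw [← h.map_glue k]
  rw [lintegral_map hF (measurable_glue k), lintegral_prod]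
  exact (hF.comp (measurable_glue k)).aemeasurable

lemma lintegral_mul_glue (h : Cone μ) (k : ℕ) {F G : Path → ℝ≥0∞} (hF : Measurable F)
    (hG : Measurable G) (dF : ∀ a b, F (glue k a b) = F a) (dG : ∀ a b, G (glue k a b) = G b) :
    ∫⁻ z, F z * G z ∂μ = (∫⁻ z, F z ∂μ) * ∫⁻ z, G z ∂μ := by
  rw [h.lintegral_glue k (F := fun z => F z * G z) (hF.mul hG), ← lintegral_mul_const _ hF]
  refine lintegral_congr fun a => ?_
  simp_rw [dF, dG]
  rw [lintegral_const_mul _ hG]

lemma integrable_glue (h : Cone μ) (k : ℕ) {E : Type*} [NormedAddCommGroup E]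
    {F : Path → E} (hF : Integrable F μ) :
    Integrable (fun w : Path × Path => F (glue k w.1 w.2)) (μ.prod μ) := by
  have h1 : Integrable F ((μ.prod μ).map (fun w => glue k w.1 w.2)) := by
    rw [h.map_glue k]; exact hF
  exact h1.comp_measurable (measurable_glue k)

lemma integral_glue (h : Cone μ) (k : ℕ) {E : Type*} [NormedAddCommGroup E] [NormedSpace ℝ E]
    {F : Path → E} (hF : Integrable F μ) :
    ∫ z, F z ∂μ = ∫ a, ∫ b, F (glue k a b) ∂μ ∂μ := by
  have := h.isProb
  have h1 : AEStronglyMeasurable F ((μ.prod μ).map (fun w => glue k w.1 w.2)) := by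
    rw [h.map_glue k]; exact hF.aestronglyMeasurable
  have h2 : ∫ z, F z ∂μ = ∫ z, F z ∂((μ.prod μ).map (fun w => glue k w.1 w.2)) := by
    rw [h.map_glue k]
  rw [h2, integral_map (measurable_glue k).aemeasurable h1]
  exact integral_prod _ (h.integrable_glue k hF)

/-! ### linear functionals -/

/-- coordinate functional -/
def crd (p : ℕ × ℝ) : Path → ℝ := fun z => z p

/-- span of the coordinates -/
def Lin : Submodule ℝ (Path → ℝ) := Submodule.span ℝ (Set.range crd)

lemma crd_mem (p : ℕ × ℝ) : crd p ∈ Lin := Submodule.subset_span ⟨p, rfl⟩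

lemma gauss_lin (h : Cone μ) {T : Type*} {W : T → Path → ℝ} (hW : ∀ t, W t ∈ Lin) :
    IsGaussianProcess W μ := by
  refine h.gauss.of_isGaussianProcess fun t => ?_
  obtain ⟨c, hc⟩ := Finsupp.mem_span_range_iff_exists_finsupp.1 (hW t)
  refine ⟨c.support, ∑ i : c.support, c i • ContinuousLinearMap.proj i, fun z => ?_⟩
  rw [← hc, Finsupp.sum, Finset.sum_apply]
  simp only [Pi.smul_apply, smul_eq_mul, crd]
  rw [sum_apply, ← Finset.sum_coe_sort c.support (fun i => c i * z i)]
  rfl

lemma memLp_lin (h : Cone μ) {f : Path → ℝ} (hf : f ∈ Lin) : MemLp f 2 μ :=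
  ((h.gauss_lin (W := fun _ : Unit => f) (fun _ => hf)).hasGaussianLaw_eval ()).memLp_two

lemma measurable_lin {f : Path → ℝ} (hf : f ∈ Lin) : Measurable f := by
  refine Submodule.span_induction ?_ ?_ ?_ ?_ hf
  · rintro _ ⟨p, rfl⟩
    exact measurable_pi_apply p
  · exact measurable_const
  · intro f g _ _ hf hg
    exact hf.add hg
  · intro c f _ hf
    exact hf.const_smul c

lemma mean_lin (h : Cone μ) {f : Path → ℝ} (hf : f ∈ Lin) : ∫ z, f z ∂μ = 0 := by
  have := h.isProb
  refine Submodule.span_induction ?_ ?_ ?_ ?_ hf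
  · rintro _ ⟨p, rfl⟩
    exact h.mean p
  · simp
  · intro f g hf' hg' hf hg
    simp only [Pi.add_apply]
    rw [integral_add ((h.memLp_lin hf').integrable one_le_two)
      ((h.memLp_lin hg').integrable one_le_two), hf, hg, add_zero]
  · intro c f _ hf
    simp only [Pi.smul_apply, smul_eq_mul]
    rw [integral_const_mul, hf, mul_zero]

lemma law_lin (h : Cone μ) {f : Path → ℝ} (hf : f ∈ Lin) {v : ℝ≥0} (hv : cov[f, f; μ] = v) :
    μ.map f = gaussianReal 0 v := by
  have h1 := (h.gauss_lin (W := fun _ : Unit => f) (fun _ => hf)).hasGaussianLaw_eval ()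
  rw [h1.map_eq_gaussianReal, h.mean_lin hf]
  congr 1
  rw [← covariance_self (measurable_lin hf).aemeasurable, hv, Real.toNNReal_coe]

end Cone

end Pool.Agent.helper95.GMC
end

/-! ### merged from `Pool.Agent.helper95.GMC.Tilt` -/

section
/-!
The Cameron–Martin formula on path space.
-/

open MeasureTheory ProbabilityTheory Filter Topology Set
open scoped ENNReal NNReal

namespace Pool.Agent.helper95.GMC

lemma kap_neg (k : ℕ) (z : ℝ) : kap k (-z) = kap k z := by
  cases k with
  | zero => simp only [kap_zero, K_neg]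
  | succ k => simp only [kap_succ, K_neg]

lemma lintegral_exp_gaussian {v : ℝ≥0} (hv : v ≠ 0) {g : ℝ → ℝ≥0∞} (hg : Measurable g) :
    ∫⁻ s, ENNReal.ofReal (Real.exp (s - v / 2)) * g s ∂(gaussianReal 0 v) =
      ∫⁻ s, g (s + v) ∂(gaussianReal 0 v) := by
  have h1 : ∫⁻ s, g (s + v) ∂(gaussianReal 0 v) = ∫⁻ s, g s ∂(gaussianReal (v : ℝ) v) := by
    have := gaussianReal_map_add_const (μ := 0) (v := v) (v : ℝ)
    rw [zero_add] at this
    rw [← this, lintegral_map hg (by fun_prop)]
  rw [h1, gaussianReal_of_var_ne_zero _ hv, gaussianReal_of_var_ne_zero _ hv,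
    lintegral_withDensity_eq_lintegral_mul _ (measurable_gaussianPDF _ _) (by fun_prop),
    lintegral_withDensity_eq_lintegral_mul _ (measurable_gaussianPDF _ _) hg]
  refine lintegral_congr fun s => ?_
  simp only [Pi.mul_apply]
  rw [← mul_assoc]
  congr 1
  unfold gaussianPDF
  rw [← ENNReal.ofReal_mul (gaussianPDFReal_nonneg _ _ _)]
  congr 1
  unfold gaussianPDFReal
  rw [mul_assoc, ← Real.exp_add]
  congr 2
  have hv' : (v : ℝ) ≠ 0 := by exact_mod_cast hv
  field_simp
  ring

namespace Cone

variable {μ : Measure Path}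

lemma tilt (h : Cone μ) {ξ : Path → ℝ} (hξ : ξ ∈ Lin) {v : ℝ} (hv : 0 < v)
    (hvar : cov[ξ, ξ; μ] = v) {C : Path} (hC : ∀ p, cov[crd p, ξ; μ] = C p)
    {F : Path → ℝ≥0∞} (hF : Measurable F) :
    ∫⁻ z, ENNReal.ofReal (Real.exp (ξ z - v / 2)) * F z ∂μ = ∫⁻ z, F (z + C) ∂μ := by
  have := h.isProb
  have hξm := measurable_lin hξ
  let N : Path → Path := fun z => z - (ξ z / v) • C
  have hN : Measurable N := by
    refine measurable_pi_lambda _ fun p => ?_
    have : (fun z => N z p) = fun z : Path => z p - ξ z / v * C p := by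
      funext z; simp [N]
    rw [this]
    exact (measurable_pi_apply p).sub ((hξm.div_const v).mul_const (C p))
  have hNl : ∀ p, (fun z => N z p) ∈ Lin := by
    intro p
    have : (fun z => N z p) = crd p - (C p / v) • ξ := by
      funext z; simp [N, crd]; ring
    rw [this]
    exact Submodule.sub_mem _ (crd_mem p) (Submodule.smul_mem _ _ hξ)
  have hsum : IsGaussianProcess
      (Sum.elim (fun (p : ℕ × ℝ) (z : Path) => N z p) (fun (_ : Unit) (z : Path) => ξ z)) μ := by
    refine h.gauss_lin ?_
    rintro (p | u)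
    · exact hNl p
    · exact hξ
  have hind : IndepFun N ξ μ := by
    have h1 := hsum.indepFun_of_covariance_eq_zero
      (fun p => ((measurable_pi_apply p).comp hN).aemeasurable) (fun _ => hξm.aemeasurable) ?_
    · exact h1.comp measurable_id (measurable_pi_apply ())
    · intro p _
      have : (fun z => N z p) = crd p - (C p / v) • ξ := by
        funext z; simp [N, crd]; ring
      rw [this, covariance_sub_left (h.memLp_lin (crd_mem p)) ((h.memLp_lin hξ).const_smul _)
        (h.memLp_lin hξ), covariance_smul_left, hC, hvar]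
      field_simp
      ring
  have hlaw := (indepFun_iff_map_prod_eq_prod_map_map hN.aemeasurable hξm.aemeasurable).1 hind
  have hvn : (⟨v, hv.le⟩ : ℝ≥0) ≠ 0 := by
    intro h0; exact hv.ne' (congrArg NNReal.toReal h0)
  rw [h.law_lin hξ (v := ⟨v, hv.le⟩) hvar] at hlaw
  have hdec : ∀ z : Path, z = N z + (ξ z / v) • C := by
    intro z; simp [N]
  -- the function on the product
  have hm1 : Measurable (fun w : Path × ℝ => w.1 + (w.2 / v) • C) := by
    refine measurable_pi_lambda _ fun p => ?_
    simp only [Pi.add_apply, Pi.smul_apply, smul_eq_mul]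
    exact ((measurable_pi_apply p).comp measurable_fst).add
      ((measurable_snd.div_const v).mul_const (C p))
  have hm2 : Measurable (fun w : Path × ℝ => w.1 + ((w.2 + v) / v) • C) :=
    hm1.comp (measurable_fst.prodMk (measurable_snd.add_const v))
  calc ∫⁻ z, ENNReal.ofReal (Real.exp (ξ z - v / 2)) * F z ∂μ
      = ∫⁻ z, (fun w : Path × ℝ => ENNReal.ofReal (Real.exp (w.2 - v / 2)) *
          F (w.1 + (w.2 / v) • C)) (N z, ξ z) ∂μ := by
        refine lintegral_congr fun z => ?_
        simp only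
        rw [← hdec z]
    _ = ∫⁻ w, ENNReal.ofReal (Real.exp (w.2 - v / 2)) *
          F (w.1 + (w.2 / v) • C) ∂(μ.map (fun z => (N z, ξ z))) := by
        rw [lintegral_map _ (hN.prodMk hξm)]
        exact ((by fun_prop : Measurable fun w : Path × ℝ =>
          ENNReal.ofReal (Real.exp (w.2 - v / 2)))).mul (hF.comp hm1)
    _ = ∫⁻ y, ∫⁻ s, ENNReal.ofReal (Real.exp (s - v / 2)) *
          F (y + (s / v) • C) ∂(gaussianReal 0 ⟨v, hv.le⟩) ∂(μ.map N) := by
        rw [hlaw, lintegral_prod]
        exact (((by fun_prop : Measurable fun w : Path × ℝ =>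
          ENNReal.ofReal (Real.exp (w.2 - v / 2)))).mul (hF.comp hm1)).aemeasurable
    _ = ∫⁻ y, ∫⁻ s, F (y + ((s + v) / v) • C) ∂(gaussianReal 0 ⟨v, hv.le⟩) ∂(μ.map N) := by
        refine lintegral_congr fun y => ?_
        exact lintegral_exp_gaussian (v := ⟨v, hv.le⟩) hvn
          (g := fun s => F (y + (s / v) • C)) (hF.comp (hm1.comp (measurable_const.prodMk
            measurable_id)))
    _ = ∫⁻ w, F (w.1 + ((w.2 + v) / v) • C) ∂(μ.map (fun z => (N z, ξ z))) := by
        rw [hlaw, lintegral_prod]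
        exact (hF.comp hm2).aemeasurable
    _ = ∫⁻ z, F (z + C) ∂μ := by
        rw [lintegral_map (f := fun w : Path × ℝ => F (w.1 + ((w.2 + v) / v) • C))
          (hF.comp hm2) (hN.prodMk hξm)]
        refine lintegral_congr fun z => ?_
        congr 1
        simp only [N]
        rw [add_div, div_self hv.ne', add_smul, one_smul]
        abel

/-! ### two-point functionals -/

/-- two-point linear functional over the layers in `I` -/
def two (I : Finset ℕ) (α β x y : ℝ) : Path → ℝ :=
  fun z => ∑ i ∈ I, (α * z (i, x) + β * z (i, y))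

/-- its covariance with the coordinates -/
noncomputable def twoC (I : Finset ℕ) (α β x y : ℝ) : Path :=
  fun p => if p.1 ∈ I then α * kap p.1 (p.2 - x) + β * kap p.1 (p.2 - y) else 0

/-- its variance -/
noncomputable def twoV (I : Finset ℕ) (α β x y : ℝ) : ℝ :=
  ∑ i ∈ I, ((α ^ 2 + β ^ 2) * kap i 0 + 2 * α * β * kap i (x - y))

lemma two_eq (I : Finset ℕ) (α β x y : ℝ) :
    two I α β x y = ∑ i ∈ I, (α • crd (i, x) + β • crd (i, y)) := by
  funext z
  simp [two, crd, Finset.sum_apply]

lemma two_mem (I : Finset ℕ) (α β x y : ℝ) : two I α β x y ∈ Lin := by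
  rw [two_eq]
  exact Submodule.sum_mem _ fun i _ => Submodule.add_mem _ (Submodule.smul_mem _ _ (crd_mem _))
    (Submodule.smul_mem _ _ (crd_mem _))

lemma cov_two (h : Cone μ) (I : Finset ℕ) (α β x y : ℝ) (p : ℕ × ℝ) :
    cov[crd p, two I α β x y; μ] = twoC I α β x y p := by
  have := h.isProb
  have hm : ∀ q, MemLp (crd q) 2 μ := fun q => h.memLp_lin (crd_mem q)
  rw [two_eq, covariance_sum_right' (fun i _ => ((hm _).const_smul _).add ((hm _).const_smul _))
    (hm _)]
  have e : ∀ i ∈ I, cov[crd p, α • crd (i, x) + β • crd (i, y); μ] =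
      if p.1 = i then α * kap p.1 (p.2 - x) + β * kap p.1 (p.2 - y) else 0 := by
    intro i _
    rw [covariance_add_right (hm _) ((hm _).const_smul _) ((hm _).const_smul _),
      covariance_smul_right, covariance_smul_right]
    have h1 := h.cov p (i, x)
    have h2 := h.cov p (i, y)
    simp only at h1 h2
    unfold crd
    rw [h1, h2]
    split_ifs <;> simp
  rw [Finset.sum_congr rfl e, Finset.sum_ite_eq]
  rfl

lemma var_two (h : Cone μ) (I : Finset ℕ) (α β x y : ℝ) :
    cov[two I α β x y, two I α β x y; μ] = twoV I α β x y := by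
  have := h.isProb
  have hm : ∀ q, MemLp (crd q) 2 μ := fun q => h.memLp_lin (crd_mem q)
  conv_lhs => rw [two_eq I α β x y]
  rw [covariance_sum_left' (fun i _ => ((hm _).const_smul _).add ((hm _).const_smul _))]
  · unfold twoV
    refine Finset.sum_congr rfl fun i hi => ?_
    rw [← two_eq, covariance_add_left ((hm _).const_smul _) ((hm _).const_smul _)
      (h.memLp_lin (two_mem _ _ _ _ _)), covariance_smul_left, covariance_smul_left,
      h.cov_two, h.cov_two]
    simp only [twoC, hi, if_true, sub_self]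
    have : kap i (y - x) = kap i (x - y) := by
      rw [← neg_sub x y, kap_neg]
    rw [this]
    ring
  · rw [← two_eq]
    exact h.memLp_lin (two_mem _ _ _ _ _)

lemma tilt_two (h : Cone μ) (I : Finset ℕ) (α β x y : ℝ) (hv : 0 < twoV I α β x y)
    {F : Path → ℝ≥0∞} (hF : Measurable F) :
    ∫⁻ z, ENNReal.ofReal (Real.exp (two I α β x y z - twoV I α β x y / 2)) * F z ∂μ =
      ∫⁻ z, F (z + twoC I α β x y) ∂μ :=
  h.tilt (two_mem _ _ _ _ _) hv (h.var_two _ _ _ _ _) (h.cov_two _ _ _ _ _) hF

end Cone

end Pool.Agent.helper95.GMC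
end

/-! ### merged from `Pool.Agent.helper95.GMC.OnePoint` -/

section
/-!
The one-point formula: the path seen at a fixed point is a Gaussian walk.
-/

open MeasureTheory ProbabilityTheory Filter Topology Set
open scoped ENNReal NNReal

namespace Pool.Agent.helper95.GMC

/-- variance of a layer, as a nonnegative real -/
noncomputable def lamN : ℝ≥0 := ⟨Real.log 2, (Real.log_pos one_lt_two).le⟩

lemma lamN_coe : (lamN : ℝ) = Real.log 2 := rfl

lemma lamN_ne : lamN ≠ 0 := by
  intro h
  have h1 : Real.log 2 = 0 := congrArg NNReal.toReal h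
  exact (Real.log_pos one_lt_two).ne' h1

lemma phi_eq_lamN (s : ℝ) : phi s = gaussianPDF 0 lamN s := rfl

lemma measurable_phi : Measurable phi := measurable_gaussianPDF _ _

lemma measurable_Tk {f : ℝ → ℝ≥0∞} (hf : Measurable f) : Measurable (Tk f) := by
  unfold Tk
  refine Measurable.lintegral_prod_right' (f := fun q : ℝ × ℝ => f q.2 * phi (q.1 - q.2)) ?_
  exact (hf.comp measurable_snd).mul (measurable_phi.comp (measurable_fst.sub measurable_snd))

lemma measurable_Tk_iter {f : ℝ → ℝ≥0∞} (hf : Measurable f) (k : ℕ) : Measurable (Tk^[k] f) := by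
  induction k generalizing f with
  | zero => exact hf
  | succ k ih => rw [Function.iterate_succ_apply]; exact ih (measurable_Tk hf)

/-- one step of the walk under an exponential weight -/
lemma gauss_step (a u : ℝ) {f : ℝ → ℝ≥0∞} (hf : Measurable f) :
    ∫⁻ s, ENNReal.ofReal (Real.exp (a * s - a ^ 2 / 2 * Real.log 2)) *
      (Set.Ici (0 : ℝ)).indicator f (u + a * Real.log 2 - s) ∂(gaussianReal 0 lamN) =
      Tk f u := by
  have hi : Measurable ((Set.Ici (0 : ℝ)).indicator f) := hf.indicator measurableSet_Ici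
  have hi2 : Measurable (fun s : ℝ => (Set.Ici (0 : ℝ)).indicator f (u + a * Real.log 2 - s)) :=
    hi.comp (by fun_prop)
  have hi3 : Measurable (fun s : ℝ => ENNReal.ofReal
      (Real.exp (a * s - a ^ 2 / 2 * Real.log 2)) *
      (Set.Ici (0 : ℝ)).indicator f (u + a * Real.log 2 - s)) :=
    Measurable.mul (by fun_prop) hi2
  rw [gaussianReal_of_var_ne_zero _ lamN_ne,
    lintegral_withDensity_eq_lintegral_mul _ (measurable_gaussianPDF _ _) hi3]
  simp only [Pi.mul_apply]
  have e : ∀ s : ℝ, gaussianPDF 0 lamN s * (ENNReal.ofReal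
      (Real.exp (a * s - a ^ 2 / 2 * Real.log 2)) *
      (Set.Ici (0 : ℝ)).indicator f (u + a * Real.log 2 - s)) =
      (fun w => (Set.Ici (0 : ℝ)).indicator f w * phi (u - w)) (u + a * Real.log 2 - s) := by
    intro s
    simp only
    rw [← mul_assoc, mul_comm]
    congr 1
    rw [phi_eq_lamN]
    unfold gaussianPDF
    rw [← ENNReal.ofReal_mul (gaussianPDFReal_nonneg _ _ _)]
    congr 1
    unfold gaussianPDFReal
    rw [mul_assoc, ← Real.exp_add, lamN_coe]
    congr 2
    have h2 : Real.log 2 ≠ 0 := (Real.log_pos one_lt_two).ne'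
    field_simp
    ring
  simp_rw [e]
  rw [lintegral_sub_left_eq_self (fun w => (Set.Ici (0 : ℝ)).indicator f w * phi (u - w))]
  unfold Tk
  rw [← lintegral_indicator measurableSet_Ici]
  refine lintegral_congr fun w => ?_
  by_cases hw : w ∈ Set.Ici (0 : ℝ)
  · simp [hw]
  · simp [hw]

/-- partial sums of the layers `s+1, ..., s+k` at `x` -/
def So (s k : ℕ) (x : ℝ) (z : Path) : ℝ := ∑ j ∈ Finset.range k, z (s + j + 1, x)

/-- height of the walk -/
noncomputable def hgt (a : ℝ) (s : ℕ) (u : ℝ) (k : ℕ) (x : ℝ) (z : Path) : ℝ :=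
  u + a * (k * Real.log 2) - So s k x z

/-- the barrier event -/
def Bar (a : ℝ) (s : ℕ) (u : ℝ) (k : ℕ) (x : ℝ) : Set Path :=
  {z | ∀ i, 1 ≤ i → i ≤ k → 0 ≤ hgt a s u i x z}

lemma measurable_So (s k : ℕ) (x : ℝ) : Measurable (So s k x) := by
  unfold So
  exact Finset.measurable_sum _ fun j _ => measurable_pi_apply _

lemma measurable_hgt (a : ℝ) (s : ℕ) (u : ℝ) (k : ℕ) (x : ℝ) : Measurable (hgt a s u k x) := by
  unfold hgt
  exact measurable_const.sub (measurable_So s k x)

lemma measurableSet_Bar (a : ℝ) (s : ℕ) (u : ℝ) (k : ℕ) (x : ℝ) :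
    MeasurableSet (Bar a s u k x) := by
  have : Bar a s u k x = ⋂ i : ℕ, ⋂ _ : 1 ≤ i, ⋂ _ : i ≤ k, {z | 0 ≤ hgt a s u i x z} := by
    ext z
    simp [Bar]
  rw [this]
  exact MeasurableSet.iInter fun i => MeasurableSet.iInter fun _ => MeasurableSet.iInter fun _ =>
    measurableSet_le measurable_const (measurable_hgt a s u i x)

lemma So_zero (s : ℕ) (x : ℝ) (z : Path) : So s 0 x z = 0 := by simp [So]

lemma So_succ (s k : ℕ) (x : ℝ) (z : Path) : So s (k + 1) x z = So s k x z + z (s + k + 1, x) := by
  simp [So, Finset.sum_range_succ]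

lemma hgt_zero (a : ℝ) (s : ℕ) (u x : ℝ) (z : Path) : hgt a s u 0 x z = u := by
  simp [hgt, So_zero]

lemma Bar_zero (a : ℝ) (s : ℕ) (u x : ℝ) : Bar a s u 0 x = Set.univ := by
  ext z
  simp only [Bar, Set.mem_ofPred_eq, Set.mem_univ, iff_true]
  intro i h1 h2
  omega

lemma mem_Bar_succ (a : ℝ) (s : ℕ) (u : ℝ) (k : ℕ) (x : ℝ) (z : Path) :
    z ∈ Bar a s u (k + 1) x ↔ z ∈ Bar a s u k x ∧ 0 ≤ hgt a s u (k + 1) x z := by
  constructor
  · intro hz
    exact ⟨fun i h1 h2 => hz i h1 (by omega), hz (k + 1) (by omega) le_rfl⟩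
  · rintro ⟨h1, h2⟩ i hi1 hi2
    rcases Nat.lt_or_ge i (k + 1) with h | h
    · exact h1 i hi1 (by omega)
    · have : i = k + 1 := by omega
      rw [this]; exact h2

lemma Bar_anti {a : ℝ} {s : ℕ} {u : ℝ} {i k : ℕ} (hik : i ≤ k) (x : ℝ) :
    Bar a s u k x ⊆ Bar a s u i x := fun _ hz j h1 h2 => hz j h1 (h2.trans hik)

lemma So_glue_le {s k l : ℕ} (h : s + k ≤ l) (x : ℝ) (p q : Path) :
    So s k x (glue l p q) = So s k x p := by
  unfold So
  refine Finset.sum_congr rfl fun j hj => ?_
  rw [Finset.mem_range] at hj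
  exact glue_of_le (by omega) _ _ _

lemma So_glue_gt {s k l : ℕ} (h : l ≤ s) (x : ℝ) (p q : Path) :
    So s k x (glue l p q) = So s k x q := by
  unfold So
  refine Finset.sum_congr rfl fun j hj => ?_
  exact glue_of_lt (by omega) _ _ _

lemma hgt_glue_le {a : ℝ} {s : ℕ} {u : ℝ} {k l : ℕ} (h : s + k ≤ l) (x : ℝ) (p q : Path) :
    hgt a s u k x (glue l p q) = hgt a s u k x p := by
  unfold hgt; rw [So_glue_le h]

lemma mem_Bar_glue_le {a : ℝ} {s : ℕ} {u : ℝ} {k l : ℕ} (h : s + k ≤ l) (x : ℝ) (p q : Path) :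
    glue l p q ∈ Bar a s u k x ↔ p ∈ Bar a s u k x := by
  unfold Bar
  simp only [Set.mem_ofPred_eq]
  refine forall_congr' fun i => imp_congr_right fun _ => imp_congr_right fun hi => ?_
  rw [hgt_glue_le (by omega)]

namespace Cone

variable {μ : Measure Path}

lemma law_crd (h : Cone μ) (k : ℕ) (x : ℝ) :
    μ.map (fun z : Path => z (k + 1, x)) = gaussianReal 0 lamN := by
  refine h.law_lin (crd_mem (k + 1, x)) ?_
  have := h.cov (k + 1, x) (k + 1, x)
  simp only [if_true, sub_self] at this
  unfold crd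
  rw [this, kap_succ_zero, lamN_coe]

lemma lintegral_crd (h : Cone μ) (k : ℕ) (x : ℝ) {g : ℝ → ℝ≥0∞} (hg : Measurable g) :
    ∫⁻ z : Path, g (z (k + 1, x)) ∂μ = ∫⁻ s, g s ∂(gaussianReal 0 lamN) := by
  rw [← h.law_crd k x, lintegral_map hg (measurable_pi_apply _)]

/-- the one-point formula -/
lemma one_point (h : Cone μ) (a : ℝ) (s k : ℕ) (x u : ℝ) {f : ℝ → ℝ≥0∞} (hf : Measurable f) :
    ∫⁻ z, ENNReal.ofReal (Real.exp (a * So s k x z - a ^ 2 / 2 * (k * Real.log 2))) *
      (Bar a s u k x).indicator (fun z => f (hgt a s u k x z)) z ∂μ = (Tk^[k] f) u := by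
  have := h.isProb
  induction k generalizing f with
  | zero =>
    simp [So_zero, hgt_zero, Bar_zero]
  | succ k ih =>
    have hm : Measurable (fun z : Path =>
        ENNReal.ofReal (Real.exp (a * So s (k + 1) x z - a ^ 2 / 2 * ((k + 1 : ℕ) * Real.log 2))) *
      (Bar a s u (k + 1) x).indicator (fun z => f (hgt a s u (k + 1) x z)) z) := by
      refine Measurable.mul ?_ ?_
      · have := measurable_So s (k + 1) x
        fun_prop
      · exact (hf.comp (measurable_hgt _ _ _ _ _)).indicator (measurableSet_Bar _ _ _ _ _)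
    rw [h.lintegral_glue (s + k) hm, Function.iterate_succ_apply, ← ih (measurable_Tk hf)]
    refine lintegral_congr fun p => ?_
    by_cases hp : p ∈ Bar a s u k x
    · rw [Set.indicator_of_mem hp]
      have e : ∀ q : Path, ENNReal.ofReal (Real.exp (a * So s (k + 1) x (glue (s + k) p q) -
          a ^ 2 / 2 * ((k + 1 : ℕ) * Real.log 2))) *
          (Bar a s u (k + 1) x).indicator (fun z => f (hgt a s u (k + 1) x z))
            (glue (s + k) p q) =
          ENNReal.ofReal (Real.exp (a * So s k x p - a ^ 2 / 2 * (k * Real.log 2))) *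
          (ENNReal.ofReal (Real.exp (a * q (s + k + 1, x) - a ^ 2 / 2 * Real.log 2)) *
          (Set.Ici (0 : ℝ)).indicator f (hgt a s u k x p + a * Real.log 2 - q (s + k + 1, x))) := by
        intro q
        have e1 : So s (k + 1) x (glue (s + k) p q) = So s k x p + q (s + k + 1, x) := by
          rw [So_succ, So_glue_le le_rfl, glue_of_lt (by omega)]
        have e2 : hgt a s u (k + 1) x (glue (s + k) p q) =
            hgt a s u k x p + a * Real.log 2 - q (s + k + 1, x) := by
          unfold hgt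
          rw [e1]
          push_cast
          ring
        have e3 : (Bar a s u (k + 1) x).indicator (fun z => f (hgt a s u (k + 1) x z))
            (glue (s + k) p q) = (Set.Ici (0 : ℝ)).indicator f
              (hgt a s u k x p + a * Real.log 2 - q (s + k + 1, x)) := by
          rw [← e2]
          by_cases h0 : 0 ≤ hgt a s u (k + 1) x (glue (s + k) p q)
          · rw [Set.indicator_of_mem, Set.indicator_of_mem (Set.mem_Ici.2 h0)]
            rw [mem_Bar_succ, mem_Bar_glue_le le_rfl]
            exact ⟨hp, h0⟩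
          · rw [Set.indicator_of_notMem, Set.indicator_of_notMem (fun h' => h0 (Set.mem_Ici.1 h'))]
            rw [mem_Bar_succ]
            exact fun h' => h0 h'.2
        have e4 : ENNReal.ofReal (Real.exp (a * (So s k x p + q (s + k + 1, x)) -
            a ^ 2 / 2 * ((k + 1 : ℕ) * Real.log 2))) =
            ENNReal.ofReal (Real.exp (a * So s k x p - a ^ 2 / 2 * (k * Real.log 2))) *
            ENNReal.ofReal (Real.exp (a * q (s + k + 1, x) - a ^ 2 / 2 * Real.log 2)) := by
          rw [← ENNReal.ofReal_mul (Real.exp_pos _).le, ← Real.exp_add]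
          congr 2
          push_cast
          ring
        rw [e3, e1, e4, mul_assoc]
      simp_rw [e]
      rw [lintegral_const_mul]
      · congr 1
        rw [← gauss_step a _ hf]
        exact h.lintegral_crd (s + k) x (g := fun r => ENNReal.ofReal
          (Real.exp (a * r - a ^ 2 / 2 * Real.log 2)) *
          (Set.Ici (0 : ℝ)).indicator f (hgt a s u k x p + a * Real.log 2 - r))
          (((by fun_prop : Measurable fun s : ℝ => ENNReal.ofReal
            (Real.exp (a * s - a ^ 2 / 2 * Real.log 2)))).mul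
            ((hf.indicator measurableSet_Ici).comp (by fun_prop)))
      · have h1 : Measurable fun q : Path => q (s + k + 1, x) := measurable_pi_apply _
        refine Measurable.mul (by fun_prop) ?_
        exact (hf.indicator measurableSet_Ici).comp (measurable_const.sub h1)
    · rw [Set.indicator_of_notMem hp, mul_zero]
      have e : ∀ q : Path, (Bar a s u (k + 1) x).indicator (fun z => f (hgt a s u (k + 1) x z))
            (glue (s + k) p q) = 0 := by
        intro q
        rw [Set.indicator_of_notMem]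
        rw [mem_Bar_succ, mem_Bar_glue_le le_rfl]
        exact fun h' => hp h'.1
      simp [e]

end Cone

end Pool.Agent.helper95.GMC
end
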