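import Mathlib
import Pool.Agent.helper95.GMC.Mom

/-!
The normalisation `(n log n)^{1/4}`.
-/

open MeasureTheory ProbabilityTheory Filter Topology Set
open scoped ENNReal NNReal

namespace Pool.Agent.helper95.GMC

set_option maxHeartbeats 400000

/-- normalisation -/
noncomputable def lam (n : ℕ) : ℝ := ((n : ℝ) * Real.log n) ^ (1 / 4 : ℝ)

lemma lam_nonneg (n : ℕ) : 0 ≤ lam n := by
  unfold lam
  exact Real.rpow_nonneg (mul_nonneg (Nat.cast_nonneg n) (Real.log_natCast_nonneg n)) _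

lemma lam_sq (n : ℕ) : lam n ^ 2 = √n * √(Real.log n) := by
  have h0 : 0 ≤ (n : ℝ) * Real.log n := mul_nonneg (Nat.cast_nonneg n) (Real.log_natCast_nonneg n)
  unfold lam
  rw [← Real.rpow_natCast, ← Real.rpow_mul h0, ← Real.sqrt_mul (Nat.cast_nonneg n),
    Real.sqrt_eq_rpow]
  norm_num

lemma log_two_le_one : Real.log 2 ≤ 1 := by
  have := Real.log_two_lt_d9
  linarith

lemma log_le_of_lt {n k : ℕ} (hn : 1 ≤ n) (h2 : n < 2 ^ (k + 1)) :
    Real.log n ≤ (k + 1) * Real.log 2 := by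
  have h3 : (n : ℝ) ≤ 2 ^ (k + 1) := by exact_mod_cast h2.le
  have hn' : (0 : ℝ) < n := by exact_mod_cast hn
  have := Real.log_le_log hn' h3
  rw [Real.log_pow] at this
  push_cast at this
  exact this

lemma le_log_of_le {n k : ℕ} (h1 : 2 ^ k ≤ n) : k * Real.log 2 ≤ Real.log n := by
  have h3 : (2 : ℝ) ^ k ≤ n := by exact_mod_cast h1
  have := Real.log_le_log (by positivity) h3
  rwa [Real.log_pow] at this

lemma log_le_two {n s j : ℕ} (hn : 1 ≤ n) (h2 : n < 2 ^ (s + j + 1)) (hj : j ≤ s) :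
    Real.log n ≤ 2 * (s + 1) := by
  have h3 := log_le_of_lt hn h2
  have hj' : (j : ℝ) ≤ s := by exact_mod_cast hj
  have h4 : ((s + j : ℕ) + 1 : ℝ) * Real.log 2 ≤ ((s + j : ℕ) + 1 : ℝ) * 1 := by
    gcongr
    exact log_two_le_one
  push_cast at h3 h4
  linarith

lemma sqrt_log_le {n s j : ℕ} (hn : 1 ≤ n) (h2 : n < 2 ^ (s + j + 1)) (hj : j ≤ s) :
    √(Real.log n) ≤ √2 * √(s + 1) := by
  rw [← Real.sqrt_mul (by norm_num)]
  exact Real.sqrt_le_sqrt (log_le_two hn h2 hj)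

lemma lam_sq_le {n s j : ℕ} (hn : 1 ≤ n) (h2 : n < 2 ^ (s + j + 1)) (hj : j ≤ s) :
    lam n ^ 2 ≤ 2 * √(2 ^ (s + j)) * √(s + 1) := by
  rw [lam_sq]
  have h3 : (n : ℝ) ≤ 2 * 2 ^ (s + j) := by
    have : (n : ℝ) ≤ 2 ^ (s + j + 1) := by exact_mod_cast h2.le
    rw [pow_succ] at this
    linarith
  have h4 : √(n : ℝ) ≤ √2 * √(2 ^ (s + j)) := by
    rw [← Real.sqrt_mul (by norm_num)]
    exact Real.sqrt_le_sqrt h3
  have h5 := sqrt_log_le hn h2 hj
  have h6 : √(2 : ℝ) * √2 = 2 := Real.mul_self_sqrt (by norm_num)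
  calc √(n : ℝ) * √(Real.log n) ≤ (√2 * √(2 ^ (s + j))) * (√2 * √(s + 1)) := by gcongr
    _ = (√2 * √2) * √(2 ^ (s + j)) * √(s + 1) := by ring
    _ = _ := by rw [h6]

lemma lam_cube_le {n s j : ℕ} (hn : 1 ≤ n) (h2 : n < 2 ^ (s + j + 1)) (hj : j ≤ s) :
    lam n ^ 3 ≤ Real.exp (3 / 4 * ((s + j + 2) * Real.log 2)) * (s + 1) := by
  have h0 : 0 ≤ (n : ℝ) * Real.log n := mul_nonneg (Nat.cast_nonneg n) (Real.log_natCast_nonneg n)
  have h3 : (n : ℝ) ≤ 2 ^ (s + j + 1) := by exact_mod_cast h2.le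
  have h4 := log_le_two hn h2 hj
  have h5 : (n : ℝ) * Real.log n ≤ 2 ^ (s + j + 2) * (s + 1) := by
    calc (n : ℝ) * Real.log n ≤ 2 ^ (s + j + 1) * (2 * (s + 1)) := by
          gcongr
      _ = _ := by rw [pow_succ _ (s + j + 1)]; ring
  unfold lam
  rw [← Real.rpow_natCast, ← Real.rpow_mul h0]
  have e1 : (1 / 4 : ℝ) * (3 : ℕ) = 3 / 4 := by norm_num
  rw [e1]
  calc ((n : ℝ) * Real.log n) ^ (3 / 4 : ℝ) ≤ (2 ^ (s + j + 2) * (s + 1)) ^ (3 / 4 : ℝ) := by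
        gcongr
    _ = (2 ^ (s + j + 2)) ^ (3 / 4 : ℝ) * (s + 1 : ℝ) ^ (3 / 4 : ℝ) := by
        rw [Real.mul_rpow (by positivity) (by positivity)]
    _ ≤ _ := by
        have e2 : ((2 : ℝ) ^ (s + j + 2)) ^ (3 / 4 : ℝ) =
            Real.exp (3 / 4 * ((s + j + 2) * Real.log 2)) := by
          rw [← Real.exp_log (show (0 : ℝ) < 2 ^ (s + j + 2) by positivity), ← Real.exp_mul,
            Real.log_pow]
          congr 1
          push_cast
          ring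
        have e3 : (s + 1 : ℝ) ^ (3 / 4 : ℝ) ≤ s + 1 := by
          conv_rhs => rw [← Real.rpow_one (s + 1 : ℝ)]
          exact Real.rpow_le_rpow_of_exponent_le (by linarith [Nat.cast_nonneg (α := ℝ) s])
            (by norm_num)
        rw [e2]
        gcongr

lemma exists_small (x : ℝ) {η : ℝ} (hη : 0 < η) :
    ∃ N : ℕ, ∀ A ≥ N, x / √(2 ^ A) ≤ η := by
  have h1 : Tendsto (fun A : ℕ => x / √((2 : ℝ) ^ A)) atTop (𝓝 0) := by
    refine Tendsto.div_atTop tendsto_const_nhds ?_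
    exact Real.tendsto_sqrt_atTop.comp (tendsto_pow_atTop_atTop_of_one_lt one_lt_two)
  exact eventually_atTop.1 (h1.eventually (ge_mem_nhds hη))

lemma exists_small' (x : ℝ) {η : ℝ} (hη : 0 < η) :
    ∃ N : ℕ, ∀ s ≥ N, x / √(s : ℝ) ≤ η := by
  have h1 : Tendsto (fun s : ℕ => x / √(s : ℝ)) atTop (𝓝 0) := by
    refine Tendsto.div_atTop tendsto_const_nhds ?_
    exact Real.tendsto_sqrt_atTop.comp tendsto_natCast_atTop_atTop
  exact eventually_atTop.1 (h1.eventually (ge_mem_nhds hη))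

end Pool.Agent.helper95.GMC
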