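import Pool.Agent.helper95.GMC.Scale
import Pool.Agent.helper95.GMC.Chain
import Pool.Agent.helper95.GMC.Mid4
import Pool.Agent.helper9.GMCBlocks

/-!
The steps of the chain: Lindeberg step, block step, main step.
-/

open MeasureTheory ProbabilityTheory Filter Topology Set
open scoped ENNReal NNReal

namespace Pool.Agent.helper95.GMC

open Cone

set_option maxHeartbeats 400000

lemma step_lindeberg : ∃ D : ℕ → ℝ, (∀ k, 0 ≤ D k) ∧ ∀ {μ : Measure Path}, Cone μ →
    ∀ (M θ t p : ℝ) (n s r j k1 k2 : ℕ), 0 ≤ M → 0 ≤ p → μ (Good M s)ᶜ ≤ ENNReal.ofReal p →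
    1 ≤ s → 1 ≤ n → n < 2 ^ (s + j + 1) → j ≤ s → r ≤ s → k1 ≤ k2 →
    ‖(∫ z, Complex.exp (Complex.I *
      ((t * lam n * RS (Sblk s r) (cs n θ) (s + k1) (s + k2) z : ℝ) : ℂ)) ∂μ) -
      ∫ a, ((Real.exp (-((t * lam n) ^ 2 / 2 *
        QS (Sblk s r) (cs n θ) s (s + k1) (s + k2) a)) : ℝ) : ℂ) ∂μ‖ ≤
      2 * p + |t| ^ 3 * (D k2 * ((1 + M) * Real.exp M) * 4 ^ r *
        Real.exp (3 / 4 * ((j + 2) * Real.log 2))) * (2 / √s) := by
  obtain ⟨C, hC0, hC⟩ := lindeberg_blocks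
  obtain ⟨C', hC0', hC'⟩ := good_cube_le
  refine ⟨fun k => C k * C', fun k => mul_nonneg (hC0 k) hC0', ?_⟩
  intro μ h M θ t p n s r j k1 k2 hM hp0 hp hs hn hn2 hj hr hk
  have := h.isProb
  have hc := measurable_cs n θ
  have hc1 := abs_cs_le n θ
  have hSm := measurableSet_Sblk s r
  have hS := Sblk_subset hr
  set τ : ℝ := t * lam n with hτ
  set R : Path → ℝ := RS (Sblk s r) (cs n θ) (s + k1) (s + k2) with hR
  have hRm : Measurable R := measurable_RS _ hc _ _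
  set Q : Path → ℝ := QS (Sblk s r) (cs n θ) s (s + k1) (s + k2) with hQ
  have hQm : Measurable Q := measurable_QS _ hc _ _ _
  have hFm : Measurable (fun z => Complex.exp (Complex.I * ((τ * R z : ℝ) : ℂ))) := by fun_prop
  have hFi : Integrable (fun z => Complex.exp (Complex.I * ((τ * R z : ℝ) : ℂ))) μ :=
    Integrable.of_bound hFm.aestronglyMeasurable 1 (ae_of_all _ fun z => (norm_cexp_I _).le)
  rw [h.integral_glue s hFi]
  have hfm : AEStronglyMeasurable (fun a => ∫ b, Complex.exp (Complex.I *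
      ((τ * R (glue s a b) : ℝ) : ℂ)) ∂μ) μ := by
    have h1 : Measurable (fun w : Path × Path => Complex.exp (Complex.I *
      ((τ * R (glue s w.1 w.2) : ℝ) : ℂ))) := hFm.comp (measurable_glue s)
    exact h1.stronglyMeasurable.integral_prod_right.aestronglyMeasurable
  have hgm : AEStronglyMeasurable (fun a => ((Real.exp (-(τ ^ 2 / 2 * Q a)) : ℝ) : ℂ)) μ := by
    have : Measurable (fun a => ((Real.exp (-(τ ^ 2 / 2 * Q a)) : ℝ) : ℂ)) := by fun_prop
    exact this.aestronglyMeasurable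
  have hs' : (1 : ℝ) ≤ s := by exact_mod_cast hs
  have hs0 : (0 : ℝ) < √s := by positivity
  refine exp_diff_le hfm hgm (ae_of_all _ fun a => ?_) ?_ (measurableSet_Good M s) hp0 ?_ hp ?_
  · refine (norm_integral_le_of_norm_le_const (C := 1) (ae_of_all _ fun b =>
      (norm_cexp_I _).le)).trans ?_
    simp
  · filter_upwards [h.QS_nonneg hS hc hc1 s hk] with a ha
    rw [Complex.norm_real, Real.norm_of_nonneg (Real.exp_pos _).le, Real.exp_le_one_iff]
    have : 0 ≤ τ ^ 2 / 2 * Q a := mul_nonneg (by positivity) ha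
    linarith
  · have := hC0 k2
    positivity
  -- the bound on the good event
  have hpt : ∀ᵐ a ∂μ, (Good M s).indicator (fun a => ENNReal.ofReal
      ‖(∫ b, Complex.exp (Complex.I * ((τ * R (glue s a b) : ℝ) : ℂ)) ∂μ) -
        ((Real.exp (-(τ ^ 2 / 2 * Q a)) : ℝ) : ℂ)‖) a ≤
      ENNReal.ofReal (|τ| ^ 3 * (C k2 * (2 ^ r / 2 ^ s) ^ 2)) *
        (Good M s).indicator (fun a => ∫⁻ x in UI, ENNReal.ofReal (mm s x a ^ 3)) a := by
    filter_upwards [hC h (cs n θ) hc hc1 s r k1 k2 τ hr hk] with a ha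
    by_cases hg : a ∈ Good M s
    · simp only [Set.indicator_of_mem hg]
      rw [← ofReal_integral_eq_lintegral_ofReal ha.1 (ae_of_all _ fun x =>
        pow_nonneg (mm_pos _ _ _).le _), ← ENNReal.ofReal_mul (by
          have := hC0 k2
          positivity)]
      refine ENNReal.ofReal_le_ofReal (ha.2.trans (le_of_eq ?_))
      ring
    · simp only [Set.indicator_of_notMem hg]
      exact zero_le
  refine (lintegral_mono_ae hpt).trans ?_
  rw [lintegral_const_mul' _ _ ENNReal.ofReal_ne_top]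
  refine (mul_le_mul' le_rfl (hC' h M s hM hs)).trans ?_
  have hCk := hC0 k2
  rw [← ENNReal.ofReal_mul (by positivity)]
  refine ENNReal.ofReal_le_ofReal ?_
  have e1 : |τ| ^ 3 = |t| ^ 3 * lam n ^ 3 := by
    rw [hτ, abs_mul, abs_of_nonneg (lam_nonneg n), mul_pow]
  have e2 : ((2 : ℝ) ^ r / 2 ^ s) ^ 2 = 4 ^ r * Real.exp (-(2 * (s * Real.log 2))) := by
    have h1 : (2 : ℝ) ^ s = Real.exp (s * Real.log 2) := by
      rw [Real.exp_nat_mul, Real.exp_log (by norm_num)]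
    rw [div_pow, h1, ← Real.exp_nat_mul, ← pow_mul, mul_comm r 2, pow_mul, div_eq_mul_inv,
      ← Real.exp_neg]
    norm_num
  have e3 := lam_cube_le hn hn2 hj
  have e4 : (s + 1 : ℝ) / (s * √s) ≤ 2 / √s := by
    rw [div_le_div_iff₀ (by positivity) hs0]
    nlinarith
  have e5 : Real.exp (3 / 4 * ((s + j + 2) * Real.log 2)) *
      (Real.exp (-(2 * (s * Real.log 2))) * Real.exp (5 / 4 * (s * Real.log 2))) =
      Real.exp (3 / 4 * ((j + 2) * Real.log 2)) := by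
    rw [← Real.exp_add, ← Real.exp_add]
    congr 1
    ring
  rw [e1, e2]
  calc |t| ^ 3 * lam n ^ 3 * (C k2 * (4 ^ r * Real.exp (-(2 * (s * Real.log 2))))) *
        (C' * ((1 + M) * Real.exp M) * Real.exp (5 / 4 * (s * Real.log 2)) / (s * √s))
      ≤ |t| ^ 3 * (Real.exp (3 / 4 * ((s + j + 2) * Real.log 2)) * (s + 1)) *
        (C k2 * (4 ^ r * Real.exp (-(2 * (s * Real.log 2))))) *
        (C' * ((1 + M) * Real.exp M) * Real.exp (5 / 4 * (s * Real.log 2)) / (s * √s)) := by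
        gcongr
    _ = |t| ^ 3 * (C k2 * C' * ((1 + M) * Real.exp M) * 4 ^ r *
        (Real.exp (3 / 4 * ((s + j + 2) * Real.log 2)) *
      (Real.exp (-(2 * (s * Real.log 2))) * Real.exp (5 / 4 * (s * Real.log 2))))) *
        ((s + 1 : ℝ) / (s * √s)) := by ring
    _ ≤ _ := by
        rw [e5]
        gcongr

/-- the basic size of the normalised conditional variance -/
lemma lam_Aq_le {C M : ℝ} (hC : 0 ≤ C) (hM : 0 ≤ M) {n s m A : ℕ} (hn : 1 ≤ n)
    (hn2 : n < 2 ^ (s + (m + A) + 1)) (hj : m + A ≤ s) :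
    lam n ^ 2 * (4 / (√(2 ^ s) * √(2 ^ (s + m))) * Aq C M s) ≤ 8 * C * (1 + M) * √(2 ^ A) := by
  have h1 := lam_sq_le hn hn2 hj
  have e : √((2 : ℝ) ^ (s + (m + A))) = √(2 ^ (s + m)) * √(2 ^ A) := by
    rw [← Real.sqrt_mul (by positivity), ← pow_add, add_assoc]
  have h2s : 0 < √((2 : ℝ) ^ s) := by positivity
  have h2p : 0 < √((2 : ℝ) ^ (s + m)) := by positivity
  have hs1 : 0 < √((s : ℝ) + 1) := by positivity
  calc lam n ^ 2 * (4 / (√(2 ^ s) * √(2 ^ (s + m))) * Aq C M s)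
      ≤ (2 * √(2 ^ (s + (m + A))) * √(s + 1)) *
        (4 / (√(2 ^ s) * √(2 ^ (s + m))) * Aq C M s) := by
        have : 0 ≤ Aq C M s := by unfold Aq; positivity
        gcongr
    _ = _ := by
        rw [e]; unfold Aq
        field_simp
        ring

lemma step_block : ∃ C : ℝ, 0 ≤ C ∧ ∀ {μ : Measure Path}, Cone μ →
    ∀ (M θ t p : ℝ) (n s r m A k2 : ℕ), 0 ≤ M → 0 ≤ p → μ (Good M s)ᶜ ≤ ENNReal.ofReal p →
    1 ≤ n → n < 2 ^ (s + (m + A) + 1) → m + A ≤ s → r ≤ s → m ≤ k2 →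
    ‖(∫ a, ((Real.exp (-((t * lam n) ^ 2 / 2 *
        QS (Sblk s r) (cs n θ) s (s + m) (s + k2) a)) : ℝ) : ℂ) ∂μ) -
      ∫ a, ((Real.exp (-((t * lam n) ^ 2 / 2 *
        QS UI (cs n θ) s (s + m) (s + k2) a)) : ℝ) : ℂ) ∂μ‖ ≤
      2 * p + t ^ 2 * (C * (1 + M) * √(2 ^ A)) / √(2 ^ r) := by
  obtain ⟨C, hC1, hC⟩ := aq_le
  have hC0 : 0 ≤ C := by linarith
  refine ⟨12 * C, by linarith, ?_⟩
  intro μ h M θ t p n s r m A k2 hM hp0 hp hn hn2 hj hr hk
  have := h.isProb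
  have hc := measurable_cs n θ
  have hc1 := abs_cs_le n θ
  have hSm := measurableSet_Sblk s r
  have hS := Sblk_subset hr
  have hAq : ∀ x, aq μ M s x ≤ ENNReal.ofReal (Aq C M s) := fun x => hC h M s x hM
  have hA0 : 0 ≤ Aq C M s := by unfold Aq; positivity
  set δ : ℝ := 1 / √(2 ^ r) with hδ
  have hδ0 : 0 < δ := by positivity
  have hr1 : (1 : ℝ) ≤ √(2 ^ r) := by
    rw [Real.one_le_sqrt]
    exact one_le_pow₀ (by norm_num)
  have hδ1 : δ ≤ 1 := by
    rw [hδ, div_le_one (by positivity)]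
    exact hr1
  have hδ2 : δ ^ 2 = (2 ^ r)⁻¹ := by
    rw [hδ, div_pow, Real.sq_sqrt (by positivity), one_pow, one_div]
  have hv : volume (UI \ Sblk s r) ≤ ENNReal.ofReal (δ ^ 2) := by
    rw [hδ2]
    exact volume_diff_Sblk hr
  have hb := h.block_diff hC0 hM s hk hAq hSm hS hc hc1 hδ0 hδ1 hv
  refine lap_diff_le ((measurable_QS _ hc _ _ _).const_mul _)
    ((measurable_QS _ hc _ _ _).const_mul _) ?_ ?_ (measurableSet_Good M s) hp0 (by positivity)
    hp ?_
  · filter_upwards [h.QS_nonneg hS hc hc1 s hk] with a ha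
    exact mul_nonneg (by positivity) ha
  · filter_upwards [h.QS_nonneg (S := UI) subset_rfl hc hc1 s hk] with a ha
    exact mul_nonneg (by positivity) ha
  have hpt : ∀ a, (Good M s).indicator (fun a => ENNReal.ofReal
      |(t * lam n) ^ 2 / 2 * QS (Sblk s r) (cs n θ) s (s + m) (s + k2) a -
      (t * lam n) ^ 2 / 2 * QS UI (cs n θ) s (s + m) (s + k2) a|) a =
      ENNReal.ofReal ((t * lam n) ^ 2 / 2) * (Good M s).indicator (fun a => ENNReal.ofReal
      |QS UI (cs n θ) s (s + m) (s + k2) a - QS (Sblk s r) (cs n θ) s (s + m) (s + k2) a|) a := by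
    intro a
    by_cases hg : a ∈ Good M s
    · simp only [Set.indicator_of_mem hg]
      rw [← ENNReal.ofReal_mul (by positivity), ← mul_sub, abs_mul,
        abs_of_nonneg (by positivity : 0 ≤ (t * lam n) ^ 2 / 2), abs_sub_comm]
    · simp only [Set.indicator_of_notMem hg, mul_zero]
  rw [lintegral_congr hpt, lintegral_const_mul' _ _ ENNReal.ofReal_ne_top]
  refine (mul_le_mul' le_rfl hb).trans ?_
  rw [← ENNReal.ofReal_mul (by positivity)]
  refine ENNReal.ofReal_le_ofReal ?_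
  have h1 := lam_Aq_le hC0 hM hn hn2 hj
  calc (t * lam n) ^ 2 / 2 * (3 * (4 / (√(2 ^ s) * √(2 ^ (s + m))) * Aq C M s) * δ)
      = t ^ 2 * 3 / 2 * (lam n ^ 2 * (4 / (√(2 ^ s) * √(2 ^ (s + m))) * Aq C M s)) * δ := by ring
    _ ≤ t ^ 2 * 3 / 2 * (8 * C * (1 + M) * √(2 ^ A)) * δ := by gcongr
    _ = _ := by rw [hδ]; ring

end Pool.Agent.helper95.GMC
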