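import Pool.Agent.helper95.GMC.Steps

/-!
The main step of the chain.
-/

open MeasureTheory ProbabilityTheory Filter Topology Set
open scoped ENNReal NNReal

namespace Pool.Agent.helper95.GMC

open Cone

set_option maxHeartbeats 400000

lemma NN_nonneg (M : ℝ) (s : ℕ) (z : Path) : 0 ≤ NN M s z := by
  rw [NN_eq]
  exact ENNReal.toReal_nonneg

lemma measurable_NN (M : ℝ) (s : ℕ) : Measurable (NN M s) := by
  have h1 : NN M s = fun z => (Am M s z).toReal := funext fun z => NN_eq M s z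
  rw [h1]
  exact (measurable_Am M s).ennreal_toReal

lemma mean_NN_le : ∃ C : ℝ, 0 ≤ C ∧ ∀ {μ : Measure Path}, Cone μ → ∀ (M : ℝ) (s : ℕ), 0 ≤ M →
    ∫⁻ z, ENNReal.ofReal (NN M s z) ∂μ ≤ ENNReal.ofReal (C * (1 + M) / √(s + 1)) := by
  obtain ⟨C, hC⟩ := pk_le
  refine ⟨C, C.2, fun {μ} h M s hM => ?_⟩
  rw [← ofReal_integral_eq_lintegral_ofReal (h.mass_integrable hM s)
    (ae_of_all _ fun z => NN_nonneg M s z), h.mass_mean hM s, ENNReal.ofReal_toReal
    (ne_top_of_le_ne_top ENNReal.one_ne_top (pk_le_one _ _))]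
  refine (hC s M hM).trans (le_of_eq ?_)
  rw [mul_div_assoc, ENNReal.ofReal_mul (NNReal.coe_nonneg C)]
  congr 1
  exact (ENNReal.ofReal_coe_nnreal).symm

lemma sqrt_sub_sqrt_le {a b : ℝ} (hb : 0 ≤ b) (hab : b ≤ a) : √a - √b ≤ √(a - b) := by
  rw [sub_le_iff_le_add]
  have h1 : 0 ≤ √(a - b) := Real.sqrt_nonneg _
  have h2 : 0 ≤ √b := Real.sqrt_nonneg _
  refine Real.sqrt_le_iff.2 ⟨by positivity, ?_⟩
  have h3 : √(a - b) ^ 2 = a - b := Real.sq_sqrt (by linarith)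
  have h4 : √b ^ 2 = b := Real.sq_sqrt hb
  nlinarith [mul_nonneg h1 h2]

lemma coef_le {c0 C' : ℝ} (hc0 : 0 < c0) (hC' : 0 ≤ C') {W : ℝ} {n s m A B : ℕ} (hn : 1 ≤ n)
    (hn1 : 2 ^ (s + (m + A)) ≤ n) (hn2 : n < 2 ^ (s + (m + A) + 1)) (hj : m + A ≤ s)
    (hW : |W - c0| ≤ C' * (√(2 ^ (s + m) / n) + √(n / 2 ^ (s + (m + A + B))) +
      2 ^ s / 2 ^ (s + m) * √(n / 2 ^ (s + m)))) :
    |√(Real.log n) * W - c0 * (√(Real.log 2) * √s)| ≤ √(s + 1) *
      (2 * C' * (1 / √(2 ^ A) + 1 / √(2 ^ B) + √(2 ^ A) / √(2 ^ m)) +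
        c0 * (√(m + A + 1) / √(s + 1))) := by
  have hn' : (0 : ℝ) < n := by exact_mod_cast hn
  have hn1' : (2 : ℝ) ^ (s + (m + A)) ≤ n := by exact_mod_cast hn1
  have hn2' : (n : ℝ) ≤ 2 ^ (s + (m + A) + 1) := by exact_mod_cast hn2.le
  have hs1 : 0 < √((s : ℝ) + 1) := by positivity
  have hL := sqrt_log_le hn hn2 hj
  have s2 : √(2 : ℝ) ≤ 2 := by
    rw [Real.sqrt_le_left (by norm_num)]; norm_num
  have s22 : √(2 : ℝ) * √2 = 2 := Real.mul_self_sqrt (by norm_num)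
  have e1 : √(2 ^ (s + m) / n) ≤ 1 / √(2 ^ A) := by
    rw [one_div, ← Real.sqrt_inv]
    refine Real.sqrt_le_sqrt ?_
    rw [div_le_iff₀ hn', inv_mul_eq_div, le_div_iff₀ (by positivity), ← pow_add]
    refine le_trans (le_of_eq ?_) hn1'
    congr 1
    omega
  have e2 : √(n / 2 ^ (s + (m + A + B))) ≤ √2 * (1 / √(2 ^ B)) := by
    rw [one_div, ← Real.sqrt_inv, ← Real.sqrt_mul (by norm_num)]
    refine Real.sqrt_le_sqrt ?_
    rw [div_le_iff₀ (by positivity)]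
    refine hn2'.trans (le_of_eq ?_)
    have : (2 : ℝ) ^ (s + (m + A + B)) = 2 ^ (s + (m + A)) * 2 ^ B := by
      rw [← pow_add]; congr 1; omega
    rw [this, pow_succ]
    field_simp
  have e3 : 2 ^ s / 2 ^ (s + m) * √(n / 2 ^ (s + m)) ≤ √2 * (√(2 ^ A) / √(2 ^ m)) := by
    have f1 : (2 : ℝ) ^ s / 2 ^ (s + m) ≤ 1 / √(2 ^ m) := by
      rw [pow_add, div_le_div_iff₀ (by positivity) (by positivity), one_mul]
      gcongr
      rw [Real.sqrt_le_left (by positivity)]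
      have : (1 : ℝ) ≤ 2 ^ m := one_le_pow₀ (by norm_num)
      nlinarith
    have f2 : √(n / 2 ^ (s + m)) ≤ √2 * √(2 ^ A) := by
      rw [← Real.sqrt_mul (by norm_num)]
      refine Real.sqrt_le_sqrt ?_
      rw [div_le_iff₀ (by positivity)]
      refine hn2'.trans (le_of_eq ?_)
      have : (2 : ℝ) ^ (s + (m + A)) = 2 ^ (s + m) * 2 ^ A := by
        rw [← pow_add]; congr 1; omega
      rw [pow_succ, this]
      ring
    calc 2 ^ s / 2 ^ (s + m) * √(n / 2 ^ (s + m)) ≤ 1 / √(2 ^ m) * (√2 * √(2 ^ A)) := by gcongr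
      _ = _ := by ring
  -- the two parts
  have p1 : |√(Real.log n) * (W - c0)| ≤ √(s + 1) *
      (2 * C' * (1 / √(2 ^ A) + 1 / √(2 ^ B) + √(2 ^ A) / √(2 ^ m))) := by
    rw [abs_mul, abs_of_nonneg (Real.sqrt_nonneg _)]
    have g1 : |W - c0| ≤ C' * (√2 * (1 / √(2 ^ A) + 1 / √(2 ^ B) + √(2 ^ A) / √(2 ^ m))) := by
      refine hW.trans ?_
      refine mul_le_mul_of_nonneg_left ?_ hC'
      have s1 : (1 : ℝ) ≤ √2 := by
        rw [Real.one_le_sqrt]; norm_num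
      have g2 : 0 ≤ 1 / √((2 : ℝ) ^ A) := by positivity
      have g3 : 1 / √((2 : ℝ) ^ A) ≤ √2 * (1 / √(2 ^ A)) := le_mul_of_one_le_left g2 s1
      linarith
    calc √(Real.log n) * |W - c0| ≤ (√2 * √(s + 1)) *
          (C' * (√2 * (1 / √(2 ^ A) + 1 / √(2 ^ B) + √(2 ^ A) / √(2 ^ m)))) := by gcongr
      _ = √(s + 1) * ((√2 * √2) * C' * (1 / √(2 ^ A) + 1 / √(2 ^ B) + √(2 ^ A) / √(2 ^ m))) := by
          ring
      _ = _ := by rw [s22]
  have hlog2 : 0 < Real.log 2 := Real.log_pos one_lt_two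
  have p2 : |√(Real.log n) - √(Real.log 2) * √s| ≤ √(m + A + 1) := by
    rw [← Real.sqrt_mul hlog2.le]
    have l1 := le_log_of_le hn1
    have l2 := log_le_of_lt hn hn2
    have l3 : Real.log 2 * s ≤ Real.log n := by
      refine le_trans ?_ l1
      rw [mul_comm]
      push_cast
      have : (0 : ℝ) ≤ (m + A : ℝ) * Real.log 2 := by positivity
      nlinarith
    rw [abs_of_nonneg (sub_nonneg.2 (Real.sqrt_le_sqrt l3))]
    refine (sqrt_sub_sqrt_le (by positivity) l3).trans (Real.sqrt_le_sqrt ?_)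
    push_cast at l2
    have l4 : ((m : ℝ) + A + 1) * Real.log 2 ≤ ((m : ℝ) + A + 1) * 1 := by
      gcongr
      exact log_two_le_one
    nlinarith
  have e4 : √(Real.log n) * W - c0 * (√(Real.log 2) * √s) =
      √(Real.log n) * (W - c0) + c0 * (√(Real.log n) - √(Real.log 2) * √s) := by ring
  have p3 : |c0 * (√(Real.log n) - √(Real.log 2) * √s)| ≤ √(s + 1) *
      (c0 * (√(m + A + 1) / √(s + 1))) := by
    rw [abs_mul, abs_of_pos hc0]
    have : √(s + 1) * (c0 * (√(m + A + 1) / √(s + 1))) = c0 * √((m : ℝ) + A + 1) := by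
      field_simp
    rw [this]
    gcongr
  rw [e4]
  refine (abs_add_le _ _).trans ?_
  rw [mul_add]
  exact add_le_add p1 p3

lemma step_mid : ∃ c0 C : ℝ, 0 < c0 ∧ 0 ≤ C ∧ ∀ {μ : Measure Path}, Cone μ →
    ∀ (M θ t p : ℝ) (n s m A B : ℕ), 0 ≤ M → 0 ≤ p → μ (Good M s)ᶜ ≤ ENNReal.ofReal p →
    2 ≤ m → 1 ≤ n → 2 ^ (s + (m + A)) ≤ n → n < 2 ^ (s + (m + A) + 1) → m + A ≤ s →
    ‖(∫ a, ((Real.exp (-((t * lam n) ^ 2 / 2 *
        QS UI (cs n θ) s (s + m) (s + (m + A + B)) a)) : ℝ) : ℂ) ∂μ) -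
      ∫ a, ((Real.exp (-(c0 * √(Real.log 2) / 4 * t ^ 2 * (√s * NN M s a))) : ℝ) : ℂ) ∂μ‖ ≤
      2 * p + t ^ 2 * (C * (1 + M)) * (√(2 ^ A) / √(2 ^ m) + 1 / √(2 ^ A) + 1 / √(2 ^ B) +
        √(m + A + 1) / √(s + 1)) := by
  obtain ⟨c0, C', hc0, hC', hcc⟩ := exists_c0
  obtain ⟨C1, hC1, hmid⟩ := mid_main
  obtain ⟨C2, hC2, hmean⟩ := mean_NN_le
  refine ⟨c0, C1 + C2 * (C' + c0), hc0, by positivity, ?_⟩
  intro μ h M θ t p n s m A B hM hp0 hp hm hn hn1 hn2 hj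
  have := h.isProb
  have hc := measurable_cs n θ
  have hc1 := abs_cs_le n θ
  have hk : m ≤ m + A + B := by omega
  set V := VV n s (s + m) (s + (m + A + B)) with hV
  set W := √n * Real.exp ((1 + s * Real.log 2) / 2) * V with hWdef
  have hpn : 2 ^ (s + m) ≤ n := (Nat.pow_le_pow_right (by norm_num) (by omega)).trans hn1
  have hW := hcc n s (s + m) (s + (m + A + B)) hn (by omega) (by omega) hpn
  have hcoef := coef_le (W := W) (B := B) hc0 hC' hn hn1 hn2 hj hW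
  set E2 : ℝ := 2 * C' * (1 / √(2 ^ A) + 1 / √(2 ^ B) + √(2 ^ A) / √(2 ^ m)) +
        c0 * (√(m + A + 1) / √(s + 1)) with hE2
  have hE20 : 0 ≤ E2 := by positivity
  have hm0 := hmid h M θ n s m (m + A + B) hM hn hm hk hpn
  have hN := hmean h M s hM
  have hNm := measurable_NN M s
  have hG := measurableSet_Good M s
  have hlog2 : 0 < Real.log 2 := Real.log_pos one_lt_two
  refine (lap_diff_le (d := (t * lam n) ^ 2 / 2 *
      (C1 * (1 + M) / (√(s + 1) * √(2 ^ (s + m)) * √(2 ^ m))) +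
      t ^ 2 / 4 * (√(s + 1) * E2) * (C2 * (1 + M) / √(s + 1)))
    ((measurable_QS _ hc _ _ _).const_mul _) ((hNm.const_mul _).const_mul _) ?_ ?_ hG hp0
    (by positivity) hp ?_).trans ?_
  · filter_upwards [h.QS_nonneg (S := UI) subset_rfl hc hc1 s hk] with a ha
    exact mul_nonneg (by positivity) ha
  · refine ae_of_all _ fun a => ?_
    have := NN_nonneg M s a
    positivity
  · have hpt : ∀ᵐ a ∂μ, (Good M s).indicator (fun a => ENNReal.ofReal
        |(t * lam n) ^ 2 / 2 * QS UI (cs n θ) s (s + m) (s + (m + A + B)) a -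
          c0 * √(Real.log 2) / 4 * t ^ 2 * (√s * NN M s a)|) a ≤
        ENNReal.ofReal ((t * lam n) ^ 2 / 2) * (Good M s).indicator (fun a => ENNReal.ofReal
          |QS UI (cs n θ) s (s + m) (s + (m + A + B)) a - 1 / 2 * V * ∫ x in UI, mm s x a ^ 2|) a +
        ENNReal.ofReal (t ^ 2 / 4 * (√(s + 1) * E2)) * ENNReal.ofReal (NN M s a) := by
      filter_upwards [h.sq_eq_NN M s] with a ha
      by_cases hg : a ∈ Good M s
      · simp only [Set.indicator_of_mem hg]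
        have hN0 := NN_nonneg M s a
        rw [← ENNReal.ofReal_mul (by positivity), ← ENNReal.ofReal_mul (by positivity),
          ← ENNReal.ofReal_add (by positivity) (by positivity)]
        refine ENNReal.ofReal_le_ofReal ?_
        rw [ha hg]
        set q := QS UI (cs n θ) s (s + m) (s + (m + A + B)) a
        have e1 : (t * lam n) ^ 2 / 2 * q - c0 * √(Real.log 2) / 4 * t ^ 2 * (√s * NN M s a) =
            (t * lam n) ^ 2 / 2 * (q - 1 / 2 * V *
              (Real.exp ((1 + s * Real.log 2) / 2) * NN M s a)) +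
            t ^ 2 / 4 * (√(Real.log n) * W - c0 * (√(Real.log 2) * √s)) * NN M s a := by
          have : (t * lam n) ^ 2 = t ^ 2 * (√n * √(Real.log n)) := by rw [mul_pow, lam_sq]
          rw [this, hWdef]
          ring
        rw [e1]
        refine (abs_add_le _ _).trans ?_
        have e2 : |(t * lam n) ^ 2 / 2 * (q - 1 / 2 * V *
              (Real.exp ((1 + s * Real.log 2) / 2) * NN M s a))| = (t * lam n) ^ 2 / 2 *
            |q - 1 / 2 * V * (Real.exp ((1 + s * Real.log 2) / 2) * NN M s a)| := by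
          rw [abs_mul, abs_of_nonneg (by positivity : 0 ≤ (t * lam n) ^ 2 / 2)]
        have e3 : |t ^ 2 / 4 * (√(Real.log n) * W - c0 * (√(Real.log 2) * √s)) * NN M s a| ≤
            t ^ 2 / 4 * (√(s + 1) * E2) * NN M s a := by
          rw [abs_mul, abs_mul, abs_of_nonneg hN0, abs_of_nonneg (by positivity : 0 ≤ t ^ 2 / 4)]
          gcongr
        rw [e2]
        linarith
      · simp only [Set.indicator_of_notMem hg]
        exact zero_le
    refine (lintegral_mono_ae hpt).trans ?_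
    rw [lintegral_add_right _ (hNm.ennreal_ofReal.const_mul _),
      lintegral_const_mul' _ _ ENNReal.ofReal_ne_top,
      lintegral_const_mul' _ _ ENNReal.ofReal_ne_top]
    refine (add_le_add (mul_le_mul' le_rfl hm0) (mul_le_mul' le_rfl hN)).trans ?_
    rw [← ENNReal.ofReal_mul (by positivity), ← ENNReal.ofReal_mul (by positivity),
      ← ENNReal.ofReal_add (by positivity) (by positivity)]
  · -- numeric part
    have hs1 : 0 < √((s : ℝ) + 1) := by positivity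
    have l1 := lam_sq_le hn hn2 hj
    have e : √((2 : ℝ) ^ (s + (m + A))) = √(2 ^ (s + m)) * √(2 ^ A) := by
      rw [← Real.sqrt_mul (by positivity), ← pow_add, add_assoc]
    have h2p : 0 < √((2 : ℝ) ^ (s + m)) := by positivity
    have h2m : 0 < √((2 : ℝ) ^ m) := by positivity
    have n1 : (t * lam n) ^ 2 / 2 * (C1 * (1 + M) / (√(s + 1) * √(2 ^ (s + m)) * √(2 ^ m))) ≤
        t ^ 2 * (C1 * (1 + M)) * (√(2 ^ A) / √(2 ^ m)) := by
      calc (t * lam n) ^ 2 / 2 * (C1 * (1 + M) / (√(s + 1) * √(2 ^ (s + m)) * √(2 ^ m)))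
          = t ^ 2 * lam n ^ 2 / 2 * (C1 * (1 + M) / (√(s + 1) * √(2 ^ (s + m)) * √(2 ^ m))) := by
            ring
        _ ≤ t ^ 2 * (2 * √(2 ^ (s + (m + A))) * √(s + 1)) / 2 *
            (C1 * (1 + M) / (√(s + 1) * √(2 ^ (s + m)) * √(2 ^ m))) := by gcongr
        _ = _ := by
            rw [e]
            field_simp
    have n2 : t ^ 2 / 4 * (√(s + 1) * E2) * (C2 * (1 + M) / √(s + 1)) =
        t ^ 2 * (C2 * (1 + M)) * (E2 / 4) := by
      field_simp
    have n3 : E2 / 4 ≤ (C' + c0) * (√(2 ^ A) / √(2 ^ m) + 1 / √(2 ^ A) + 1 / √(2 ^ B) +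
        √(m + A + 1) / √(s + 1)) := by
      rw [hE2]
      have a1 : 0 ≤ √((2 : ℝ) ^ A) / √(2 ^ m) := by positivity
      have a2 : 0 ≤ 1 / √((2 : ℝ) ^ A) := by positivity
      have a3 : 0 ≤ 1 / √((2 : ℝ) ^ B) := by positivity
      have a4 : 0 ≤ √((m : ℝ) + A + 1) / √(s + 1) := by positivity
      generalize √((2 : ℝ) ^ A) / √(2 ^ m) = x1 at *
      generalize 1 / √((2 : ℝ) ^ A) = x2 at *
      generalize 1 / √((2 : ℝ) ^ B) = x3 at *
      generalize √((m : ℝ) + A + 1) / √(s + 1) = x4 at *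
      nlinarith [mul_nonneg hC' a1, mul_nonneg hC' a2, mul_nonneg hC' a3, mul_nonneg hC' a4,
        mul_nonneg hc0.le a1, mul_nonneg hc0.le a2, mul_nonneg hc0.le a3, mul_nonneg hc0.le a4]
    rw [n2]
    have a1 : 0 ≤ √((2 : ℝ) ^ A) / √(2 ^ m) := by positivity
    have a2 : 0 ≤ 1 / √((2 : ℝ) ^ A) := by positivity
    have a3 : 0 ≤ 1 / √((2 : ℝ) ^ B) := by positivity
    have a4 : 0 ≤ √((m : ℝ) + A + 1) / √(s + 1) := by positivity
    have n4 : t ^ 2 * (C2 * (1 + M)) * (E2 / 4) ≤ t ^ 2 * (C2 * (1 + M)) *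
        ((C' + c0) * (√(2 ^ A) / √(2 ^ m) + 1 / √(2 ^ A) + 1 / √(2 ^ B) +
        √(m + A + 1) / √(s + 1))) := by gcongr
    have n5 : t ^ 2 * (C1 * (1 + M)) * (√(2 ^ A) / √(2 ^ m)) ≤ t ^ 2 * (C1 * (1 + M)) *
        (√(2 ^ A) / √(2 ^ m) + 1 / √(2 ^ A) + 1 / √(2 ^ B) + √(m + A + 1) / √(s + 1)) := by
      refine mul_le_mul_of_nonneg_left ?_ (by positivity)
      linarith
    have n6 : t ^ 2 * ((C1 + C2 * (C' + c0)) * (1 + M)) * (√(2 ^ A) / √(2 ^ m) + 1 / √(2 ^ A) +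
        1 / √(2 ^ B) + √(m + A + 1) / √(s + 1)) =
        t ^ 2 * (C1 * (1 + M)) *
        (√(2 ^ A) / √(2 ^ m) + 1 / √(2 ^ A) + 1 / √(2 ^ B) + √(m + A + 1) / √(s + 1)) +
        t ^ 2 * (C2 * (1 + M)) *
        ((C' + c0) * (√(2 ^ A) / √(2 ^ m) + 1 / √(2 ^ A) + 1 / √(2 ^ B) +
        √(m + A + 1) / √(s + 1))) := by ring
    rw [n6]
    linarith

end Pool.Agent.helper95.GMC
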