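import Pool.Agent.helper95.GMC.Setting
import Pool.Agent.helper94.GMCFinal
import Pool.Agent.helper9.GMCCompareInt

/-!
From regularisations to the chaos measure.
-/

open MeasureTheory ProbabilityTheory Filter Topology Set
open scoped ENNReal NNReal

namespace Pool.Agent.helper95.GMC

set_option maxHeartbeats 400000

/-- a finite measure charging only `[0,1]`, from test functions -/
lemma compl_null {M : Measure ℝ} [IsFiniteMeasure M]
    {G : ℕ → ℝ → ℝ} (h : ∀ f : BoundedContinuousFunction ℝ ℝ, Tendsto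
      (fun m => ∫ x in (0 : ℝ)..1, f x * G m x) atTop (𝓝 (∫ x, f x ∂M))) :
    M (Set.Icc (0 : ℝ) 1)ᶜ = 0 := by
  let f : BoundedContinuousFunction ℝ ℝ := BoundedContinuousFunction.mkOfBound
    ⟨fun x => min 1 (max 0 (max (-x) (x - 1))), by fun_prop⟩ 1 (by
      intro x y
      rw [Real.dist_eq, abs_le]
      have h1 : ∀ x : ℝ, 0 ≤ min 1 (max 0 (max (-x) (x - 1))) := fun x =>
        le_min zero_le_one (le_max_left _ _)
      have h2 : ∀ x : ℝ, min 1 (max 0 (max (-x) (x - 1))) ≤ 1 := fun x => min_le_left _ _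
      have h1x := h1 x
      have h1y := h1 y
      have h2x := h2 x
      have h2y := h2 y
      simp only [ContinuousMap.coe_mk]
      constructor <;> linarith)
  have hf : ∀ x, f x = min 1 (max 0 (max (-x) (x - 1))) := fun x => rfl
  have h1 : ∀ m, ∫ x in (0 : ℝ)..1, f x * G m x = 0 := by
    intro m
    rw [intervalIntegral.integral_of_le zero_le_one]
    refine setIntegral_eq_zero_of_forall_eq_zero fun x hx => ?_
    rw [hf, max_eq_left (max_le (by linarith [hx.1]) (by linarith [hx.2])),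
      min_eq_right zero_le_one, zero_mul]
  have h2 := h f
  simp only [h1] at h2
  have h3 : ∫ x, f x ∂M = 0 := tendsto_nhds_unique h2 tendsto_const_nhds |>.symm ▸ rfl
  have h4 := (integral_eq_zero_iff_of_nonneg (fun x => by
    rw [hf]; exact le_min zero_le_one (le_max_left _ _)) (f.integrable M)).1 h3
  have h5 : ∀ᵐ x ∂M, x ∈ Set.Icc (0 : ℝ) 1 := by
    filter_upwards [h4] with x hx
    by_contra hcon
    have h6 : 0 < f x := by
      rw [hf]
      refine lt_min one_pos (lt_max_of_lt_right ?_)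
      rw [Set.mem_Icc, not_and_or, not_le, not_le] at hcon
      rcases hcon with h | h
      · exact lt_max_of_lt_left (by linarith)
      · exact lt_max_of_lt_right (by linarith)
    rw [hx] at h6
    exact lt_irrefl _ h6
  exact h5

section One

open Pool.Agent.helper9.GMC

variable {Ω : Type*} [MeasurableSpace Ω] {P : Measure Ω} [IsProbabilityMeasure P]
  {X : ℝ → Ω → ℝ} (hXm : Measurable (fun q : ℝ × Ω => X q.1 q.2))
  (hX : IsGaussianProcess (fun x : Set.Icc (0 : ℝ) 1 => X x) P)
  (h0 : ∀ x ∈ Set.Icc (0 : ℝ) 1, ∫ ω, X x ω ∂P = 0)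

include hXm hX h0 in
lemma ae_intble (γ : ℝ) : ∀ᵐ ω ∂P, IntegrableOn
    (fun x => Real.exp (γ * X x ω - γ ^ 2 / 2 * ∫ ω', X x ω' ^ 2 ∂P)) (Set.Icc (0 : ℝ) 1) := by
  have hc : ∀ x, ∫ ω', X x ω' ^ 2 ∂P = c1 P X x x := by
    intro x
    unfold c1
    refine integral_congr_ae (ae_of_all _ fun ω => ?_)
    simp only
    ring
  simp only [hc]
  have hm := measurable_hh (P := P) hXm γ (a := fun _ => 1) measurable_const
  unfold hh at hm
  simp only [one_mul] at hm
  have h1 : Measurable (fun q : Ω × ℝ => ENNReal.ofReal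
      (Real.exp (γ * X q.2 q.1 - γ ^ 2 / 2 * c1 P X q.2 q.2))) := by
    have h2 : Measurable (fun q : Ω × ℝ => ((q.2, q.1) : ℝ × Ω)) :=
      measurable_snd.prodMk measurable_fst
    have h3 := hm.comp h2
    exact h3.ennreal_ofReal
  have h2 : ∫⁻ ω, (∫⁻ x in Set.Icc (0 : ℝ) 1, ENNReal.ofReal
      (Real.exp (γ * X x ω - γ ^ 2 / 2 * c1 P X x x))) ∂P ≠ ∞ := by
    rw [lintegral_lintegral_swap (f := fun (ω : Ω) (x : ℝ) => ENNReal.ofReal
      (Real.exp (γ * X x ω - γ ^ 2 / 2 * c1 P X x x))) h1.aemeasurable]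
    have h3 : ∀ x ∈ Set.Icc (0 : ℝ) 1, ∫⁻ ω, ENNReal.ofReal
        (Real.exp (γ * X x ω - γ ^ 2 / 2 * c1 P X x x)) ∂P = 1 := by
      intro x hx
      obtain ⟨g1, g2⟩ := int_exp hX h0 hx γ
      have e : ∀ ω, ENNReal.ofReal (Real.exp (γ * X x ω - γ ^ 2 / 2 * c1 P X x x)) =
          ENNReal.ofReal (Real.exp (-(γ ^ 2 / 2 * c1 P X x x))) *
            ENNReal.ofReal (Real.exp (γ * X x ω)) := by
        intro ω
        rw [← ENNReal.ofReal_mul (Real.exp_pos _).le, ← Real.exp_add]
        congr 2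
        ring
      rw [lintegral_congr e, lintegral_const_mul' _ _ ENNReal.ofReal_ne_top,
        ← ofReal_integral_eq_lintegral_ofReal g1 (ae_of_all _ fun ω => (Real.exp_pos _).le), g2,
        ← ENNReal.ofReal_mul (Real.exp_pos _).le, ← Real.exp_add, neg_add_cancel, Real.exp_zero,
        ENNReal.ofReal_one]
    rw [setLIntegral_congr_fun measurableSet_Icc h3, setLIntegral_const, one_mul]
    simp
  have h4 := ae_lt_top h1.lintegral_prod_right' h2
  filter_upwards [h4] with ω hω
  refine ⟨?_, ?_⟩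
  · have h5 : Measurable (fun x : ℝ => ((x, ω) : ℝ × Ω)) := measurable_id.prodMk measurable_const
    have h6 := hm.comp h5
    exact h6.aestronglyMeasurable
  · rw [hasFiniteIntegral_iff_ofReal (ae_of_all _ fun x => (Real.exp_pos _).le)]
    exact hω

end One

/-- bounded continuous trigonometric test functions -/
noncomputable def bcos (a : ℝ) : BoundedContinuousFunction ℝ ℝ :=
  BoundedContinuousFunction.ofNormedAddCommGroup (fun x => Real.cos (a * x)) (by fun_prop) 1
    (fun x => by rw [Real.norm_eq_abs]; exact Real.abs_cos_le_one _)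

noncomputable def bsin (a : ℝ) : BoundedContinuousFunction ℝ ℝ :=
  BoundedContinuousFunction.ofNormedAddCommGroup (fun x => Real.sin (a * x)) (by fun_prop) 1
    (fun x => by rw [Real.norm_eq_abs]; exact Real.abs_sin_le_one _)

lemma cexp_eq (n : ℕ) (x : ℝ) : Complex.exp (-(2 * Real.pi * n * x * Complex.I)) =
    ((bcos (2 * Real.pi * n) x : ℝ) : ℂ) - ((bsin (2 * Real.pi * n) x : ℝ) : ℂ) * Complex.I := by
  have e1 : bcos (2 * Real.pi * n) x = Real.cos (2 * Real.pi * n * x) := rfl
  have e2 : bsin (2 * Real.pi * n) x = Real.sin (2 * Real.pi * n * x) := rfl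
  rw [e1, e2]
  have e3 : -(2 * Real.pi * n * x * Complex.I) =
      ((-(2 * Real.pi * n * x) : ℝ) : ℂ) * Complex.I := by push_cast; ring
  rw [e3, Complex.exp_mul_I, ← Complex.ofReal_cos, ← Complex.ofReal_sin, Real.cos_neg,
    Real.sin_neg]
  push_cast
  ring

lemma four_lim {M : Measure ℝ} [IsFiniteMeasure M]
    {G : ℕ → ℝ → ℝ} (hG : ∀ m, IntegrableOn (G m) (Set.Icc (0 : ℝ) 1))
    (h : ∀ f : BoundedContinuousFunction ℝ ℝ, Tendsto
      (fun m => ∫ x in (0 : ℝ)..1, f x * G m x) atTop (𝓝 (∫ x, f x ∂M))) (n : ℕ) :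
    Tendsto (fun m => ∫ x in (0 : ℝ)..1, Complex.exp (-(2 * Real.pi * n * x * Complex.I)) *
      (G m x : ℂ)) atTop (𝓝 (∫ x in Set.Icc (0 : ℝ) 1,
        Complex.exp (-(2 * Real.pi * n * x * Complex.I)) ∂M)) := by
  have hnull := compl_null h
  have h1 : ∫ x in Set.Icc (0 : ℝ) 1, Complex.exp (-(2 * Real.pi * n * x * Complex.I)) ∂M =
      ∫ x, Complex.exp (-(2 * Real.pi * n * x * Complex.I)) ∂M := by
    rw [Measure.restrict_eq_self_of_ae_mem]
    exact hnull
  have hfi : ∀ f : BoundedContinuousFunction ℝ ℝ, Integrable (fun x => ((f x : ℝ) : ℂ)) M :=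
    fun f => (f.integrable M).ofReal
  have h2 : ∫ x, Complex.exp (-(2 * Real.pi * n * x * Complex.I)) ∂M =
      ((∫ x, bcos (2 * Real.pi * n) x ∂M : ℝ) : ℂ) -
        ((∫ x, bsin (2 * Real.pi * n) x ∂M : ℝ) : ℂ) * Complex.I := by
    simp only [cexp_eq]
    rw [integral_sub (hfi _) ((hfi _).mul_const _), integral_mul_const, integral_complex_ofReal,
      integral_complex_ofReal]
  have h3 : ∀ m, ∫ x in (0 : ℝ)..1, Complex.exp (-(2 * Real.pi * n * x * Complex.I)) *
      (G m x : ℂ) = ((∫ x in (0 : ℝ)..1, bcos (2 * Real.pi * n) x * G m x : ℝ) : ℂ) -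
        ((∫ x in (0 : ℝ)..1, bsin (2 * Real.pi * n) x * G m x : ℝ) : ℂ) * Complex.I := by
    intro m
    have hi : ∀ f : BoundedContinuousFunction ℝ ℝ,
        IntervalIntegrable (fun x => f x * G m x) volume 0 1 := by
      intro f
      rw [intervalIntegrable_iff_integrableOn_Icc_of_le zero_le_one]
      exact (hG m).bdd_mul (c := ‖f‖) f.continuous.aestronglyMeasurable
        (ae_of_all _ fun x => f.norm_coe_le_norm x)
    have hi2 : ∀ f : BoundedContinuousFunction ℝ ℝ,
        IntervalIntegrable (fun x => ((f x * G m x : ℝ) : ℂ)) volume 0 1 := by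
      intro f
      have := hi f
      rw [intervalIntegrable_iff_integrableOn_Icc_of_le zero_le_one] at this ⊢
      exact this.ofReal
    rw [← intervalIntegral.integral_ofReal, ← intervalIntegral.integral_ofReal,
      ← intervalIntegral.integral_mul_const, ← intervalIntegral.integral_sub (hi2 _)
        ((hi2 _).mul_const _)]
    refine intervalIntegral.integral_congr fun x _ => ?_
    simp only [cexp_eq]
    push_cast
    ring
  rw [h1, h2]
  simp only [h3]
  exact ((Complex.continuous_ofReal.tendsto _).comp (h _)).sub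
    (((Complex.continuous_ofReal.tendsto _).comp (h _)).mul_const _)

end Pool.Agent.helper95.GMC
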