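import Pool.Agent.helper95.GMC.Asm
import Pool.Agent.helper9.GMCLimit
import Pool.Agent.helper94.GMCFinal
import Pool.Agent.helper95.GMC.Wrap

/-! ### merged from `Pool.Agent.helper95.GMC.Main` -/

section
/-!
Convergence of the Fourier coefficients of the regularised chaos.
-/

open MeasureTheory ProbabilityTheory Filter Topology Set
open scoped ENNReal NNReal

namespace Pool.Agent.helper95.GMC

/-- convergence for the layered field -/
theorem cone_main {μ : Measure Path} (h : Cone μ) : ∃ φ : ℝ → ℂ, ContinuousAt φ 0 ∧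
    (∃ t, φ t ≠ 1) ∧ ∀ (θ t ε : ℝ), 0 < ε → ∃ n0 : ℕ, ∀ n ≥ n0, ∃ J0 : ℕ, ∀ J ≥ J0,
      ‖(∫ z, Complex.exp (Complex.I *
        ((t * ((n : ℝ) * Real.log n) ^ (1 / 4 : ℝ) * CC n θ J z : ℝ) : ℂ)) ∂μ) - φ t‖ ≤ ε := by
  obtain ⟨c1, C, hc1, hC, H⟩ := chain h
  exact cone_main_of_chain h (FF1 μ) hc1 hC H

/-- convergence for all admissible regularisations -/
theorem final_theorem : ∃ ν : Measure ℝ, IsProbabilityMeasure ν ∧ ν ≠ Measure.dirac 0 ∧
    ∀ {Ω : Type*} [MeasurableSpace Ω] (P : Measure Ω) [IsProbabilityMeasure P]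
      (C : ℕ → ℝ → ℝ → ℝ) (_ : IsRegularisation C) (X : ℕ → ℝ → Ω → ℝ)
      (_ : ∀ m, Measurable (fun q : ℝ × Ω => X m q.1 q.2))
      (_ : ∀ m, IsGaussianProcess (fun x : Set.Icc (0 : ℝ) 1 => X m x) P)
      (_ : ∀ m, ∀ x ∈ Set.Icc (0 : ℝ) 1, ∫ ω, X m x ω ∂P = 0)
      (_ : ∀ m, ∀ x ∈ Set.Icc (0 : ℝ) 1, ∀ y ∈ Set.Icc (0 : ℝ) 1, cov[X m x, X m y; P] = C m x y)
      (c : ℕ → Ω → ℂ)
      (_ : ∀ n : ℕ, ∀ᵐ ω ∂P, Tendsto (fun m => ∫ x in (0 : ℝ)..1,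
        Complex.exp (-(2 * Real.pi * n * x * Complex.I)) *
          (Real.exp (1 / √2 * X m x ω - (1 / √2) ^ 2 / 2 * C m x x) : ℂ)) atTop (𝓝 (c n ω)))
      (g : BoundedContinuousFunction ℝ ℝ),
      Tendsto (fun n : ℕ => ∫ ω, g ((Real.log n) ^ (1 / 4 : ℝ) * (n : ℝ) ^ (1 / 4 : ℝ) * ‖c n ω‖) ∂P)
        atTop (𝓝 (∫ r, g r ∂ν)) := by
  obtain ⟨μ, h⟩ := exists_cone
  obtain ⟨φ, h1, h2, h3⟩ := cone_main h
  exact final_of_cone h h1 h2 h3

end Pool.Agent.helper95.GMC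
end

/-! ### merged from `Pool.Agent.helper95.GMC.Wrap2` -/

section
/-!
The final theorem for the chaos measure.
-/

open MeasureTheory ProbabilityTheory Filter Topology Set
open scoped ENNReal NNReal

namespace Pool.Agent.helper95.GMC

set_option maxHeartbeats 400000

lemma cov_congr {Ω : Type*} [MeasurableSpace Ω] {P : Measure Ω} {X X' Z Z' : Ω → ℝ}
    (h1 : X =ᵐ[P] X') (h2 : Z =ᵐ[P] Z') : cov[X, Z; P] = cov[X', Z'; P] := by
  unfold covariance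
  rw [integral_congr_ae h1, integral_congr_ae h2]
  refine integral_congr_ae ?_
  filter_upwards [h1, h2] with ω g1 g2
  rw [g1, g2]

theorem chaos_limit : ∃ (ν : Measure ℝ) (_ : IsProbabilityMeasure ν), ν ≠ Measure.dirac 0 ∧
    ∀ {Ω : Type*} [MeasurableSpace Ω] (P : Measure Ω) [IsProbabilityMeasure P]
      (D : Set ℝ) (W : (ℝ → ℝ) → Ω → ℝ) (_ : IsLogField P D W)
      (ρ : ℕ → ℝ → ℝ → ℝ) (ε : ℕ → ℝ) (A : ℝ) (_ : IsMollifier ρ ε A)
      (_ : ∀ m, ∀ x ∈ Set.Icc (0 : ℝ) 1, IsTest D (ρ m x))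
      (X : ℕ → ℝ → Ω → ℝ) (Mγ : Ω → Measure ℝ) (_ : IsChaos P W ρ X Mγ),
      TendstoInDistribution (fun (n : ℕ) (ω : Ω) => (Real.log n) ^ (1 / 4 : ℝ) *
        (n : ℝ) ^ (1 / 4 : ℝ) * ‖∫ x in Set.Icc (0 : ℝ) 1,
          Complex.exp (-(2 * Real.pi * n * x * Complex.I)) ∂(Mγ ω)‖) atTop (id : ℝ → ℝ)
        (fun _ => P) ν := by
  obtain ⟨ν, hν, hν0, H⟩ := final_theorem
  refine ⟨ν, hν, hν0, ?_⟩
  intro Ω _ P _ D W hW ρ ε A hρ hT X Mγ hX
  -- shift the sequence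
  obtain ⟨m0, hm0⟩ : ∃ m0 : ℕ, ∀ m ≥ m0, ε m ≤ 1 :=
    eventually_atTop.1 (hρ.tend.eventually (ge_mem_nhds one_pos))
  set ρ' : ℕ → ℝ → ℝ → ℝ := fun m => ρ (m + m0) with hρ'def
  set X' : ℕ → ℝ → Ω → ℝ := fun m => X (m + m0) with hX'def
  have hρ' : IsMollifier ρ' (fun m => ε (m + m0)) A :=
    ⟨fun m => hρ.meas _, fun m => hρ.pos _, hρ.tend.comp (tendsto_add_atTop_nat m0),
      fun m => hρ.nonneg _, fun m => hρ.supp _, fun m => hρ.bdd _, fun m => hρ.mass _⟩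
  set C : ℕ → ℝ → ℝ → ℝ := fun m x y => ∫ u, ∫ v, ρ' m x u * ρ' m y v * Real.log (1 / |u - v|)
    with hCdef
  have hC : IsRegularisation C :=
    mollifier_isRegularisation hρ' (fun m => hm0 _ (by omega))
  have hmeas : ∀ m, Measurable (fun q : ℝ × Ω => X' m q.1 q.2) := fun m => hX.meas _
  have hgauss : ∀ m, IsGaussianProcess (fun x : Set.Icc (0 : ℝ) 1 => X' m x) P := by
    intro m
    have h1 := hW.gauss.comp_right (fun x : Set.Icc (0 : ℝ) 1 =>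
      (⟨ρ' m x, hT _ x x.2⟩ : {f : ℝ → ℝ // IsTest D f}))
    exact h1.congr fun x => (hX.moll _ x x.2).symm
  have hmean : ∀ m, ∀ x ∈ Set.Icc (0 : ℝ) 1, ∫ ω, X' m x ω ∂P = 0 := by
    intro m x hx
    rw [integral_congr_ae (hX.moll _ x hx)]
    exact hW.mean _ (hT _ x hx)
  have hcov : ∀ m, ∀ x ∈ Set.Icc (0 : ℝ) 1, ∀ y ∈ Set.Icc (0 : ℝ) 1,
      cov[X' m x, X' m y; P] = C m x y := by
    intro m x hx y hy
    rw [cov_congr (hX.moll _ x hx) (hX.moll _ y hy), hW.cov _ _ (hT _ x hx) (hT _ y hy)]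
  have hsq : ∀ m, ∀ x ∈ Set.Icc (0 : ℝ) 1, ∫ ω, X' m x ω ^ 2 ∂P = C m x x := by
    intro m x hx
    have hl := (hgauss m).hasGaussianLaw_eval ⟨x, hx⟩
    rw [← hcov m x hx x hx, covariance_eq_sub hl.memLp_two hl.memLp_two, hmean m x hx]
    have e : ∫ ω, X' m x ω ^ 2 ∂P = ∫ ω, (X' m x * X' m x) ω ∂P :=
      integral_congr_ae (ae_of_all _ fun ω => by simp only [Pi.mul_apply, sq])
    rw [e]
    ring
  set c : ℕ → Ω → ℂ := fun n ω => ∫ x in Set.Icc (0 : ℝ) 1,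
          Complex.exp (-(2 * Real.pi * n * x * Complex.I)) ∂(Mγ ω) with hcdef
  have hlim : ∀ n : ℕ, ∀ᵐ ω ∂P, Tendsto (fun m => ∫ x in (0 : ℝ)..1,
        Complex.exp (-(2 * Real.pi * n * x * Complex.I)) *
          (Real.exp (1 / √2 * X' m x ω - (1 / √2) ^ 2 / 2 * C m x x) : ℂ)) atTop (𝓝 (c n ω)) := by
    intro n
    have hint : ∀ᵐ ω ∂P, ∀ m, IntegrableOn (fun x => Real.exp (1 / √2 * X' m x ω -
        (1 / √2) ^ 2 / 2 * ∫ ω', X' m x ω' ^ 2 ∂P)) (Set.Icc (0 : ℝ) 1) :=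
      ae_all_iff.2 fun m => ae_intble (hmeas m) (hgauss m) (hmean m) (1 / √2)
    filter_upwards [hX.fin, hX.lim, hint] with ω h1 h2 h3
    have h4 : ∀ f : BoundedContinuousFunction ℝ ℝ, Tendsto (fun m => ∫ x in (0 : ℝ)..1,
        f x * Real.exp (1 / √2 * X' m x ω - (1 / √2) ^ 2 / 2 * ∫ ω', X' m x ω' ^ 2 ∂P)) atTop
          (𝓝 (∫ x, f x ∂(Mγ ω))) := fun f => (h2 f).comp (tendsto_add_atTop_nat m0)
    have h5 := four_lim (M := Mγ ω) (G := fun m x => Real.exp (1 / √2 * X' m x ω -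
        (1 / √2) ^ 2 / 2 * ∫ ω', X' m x ω' ^ 2 ∂P)) h3 h4 n
    refine h5.congr fun m => ?_
    refine intervalIntegral.integral_congr fun x hx => ?_
    rw [Set.uIcc_of_le zero_le_one] at hx
    simp only [hsq m x hx]
  have hg := H P C hC X' hmeas hgauss hmean hcov c hlim
  -- measurability
  have hCm : ∀ m, Measurable (fun x => C m x x) := by
    intro m
    have h1 := (hC.meas m).comp (by fun_prop : Measurable fun x : ℝ => (x, x))
    exact h1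
  have hcm : ∀ n, AEMeasurable (c n) P := by
    intro n
    refine aemeasurable_of_tendsto_metrizable_ae atTop (f := fun m ω => ∫ x in (0 : ℝ)..1,
        Complex.exp (-(2 * Real.pi * n * x * Complex.I)) *
          (Real.exp (1 / √2 * X' m x ω - (1 / √2) ^ 2 / 2 * C m x x) : ℂ)) (fun m => ?_) (hlim n)
    have h2 : Measurable (fun q : Ω × ℝ => Complex.exp (-(2 * Real.pi * n * q.2 * Complex.I)) *
          (Real.exp (1 / √2 * X' m q.2 q.1 - (1 / √2) ^ 2 / 2 * C m q.2 q.2) : ℂ)) := by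
      have h3 : Measurable (fun q : Ω × ℝ => ((q.2, q.1) : ℝ × Ω)) :=
        measurable_snd.prodMk measurable_fst
      have h4 := (hmeas m).comp h3
      have h4' : Measurable (fun q : Ω × ℝ => X' m q.2 q.1) := h4
      have h5 : Measurable (fun q : Ω × ℝ => C m q.2 q.2) := (hCm m).comp measurable_snd
      have h8 : Measurable (fun q : Ω × ℝ =>
          Complex.exp (-(2 * Real.pi * n * q.2 * Complex.I))) := by fun_prop
      exact h8.mul (Complex.measurable_ofReal.comp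
        (Real.measurable_exp.comp ((h4'.const_mul _).sub (h5.const_mul _))))
    have h6 := (h2.stronglyMeasurable.integral_prod_right'
      (ν := volume.restrict (Set.Ioc (0 : ℝ) 1))).measurable
    simp only [intervalIntegral.integral_of_le zero_le_one]
    exact h6.aemeasurable
  have hYm : ∀ n : ℕ, AEMeasurable (fun ω : Ω => (Real.log n) ^ (1 / 4 : ℝ) *
        (n : ℝ) ^ (1 / 4 : ℝ) * ‖c n ω‖) P := fun n => ((hcm n).norm).const_mul _
  refine ⟨hYm, aemeasurable_id, ?_⟩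
  rw [ProbabilityMeasure.tendsto_iff_forall_integral_tendsto]
  intro g
  have e1 : ∀ n : ℕ, ∫ r, g r ∂((P.map (fun ω : Ω => (Real.log n) ^ (1 / 4 : ℝ) *
        (n : ℝ) ^ (1 / 4 : ℝ) * ‖c n ω‖))) = ∫ ω, g ((Real.log n) ^ (1 / 4 : ℝ) *
        (n : ℝ) ^ (1 / 4 : ℝ) * ‖c n ω‖) ∂P := fun n =>
    integral_map (hYm n) g.continuous.aestronglyMeasurable
  have e2 : ∫ r, g r ∂(ν.map id) = ∫ r, g r ∂ν := by rw [Measure.map_id]
  have h7 := hg g
  rw [← e2] at h7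
  refine h7.congr fun n => ?_
  exact (e1 n).symm

end Pool.Agent.helper95.GMC
end
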